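import Mathlib
import Pool.Agent.Lib_helper12.HK.DefsA

set_option autoImplicit false

namespace HK

open MeasureTheory QG

theorem aa_num {a b c e : ENNReal} (h1 : a ≤ c) (h2 : b ≤ c) (h : a * b ≤ c * e) :
    a + b ≤ c + e := by
  rcases eq_or_ne c ⊤ with hc | hc
  · rw [hc, top_add]; exact le_top
  rcases eq_or_ne e ⊤ with he | he
  · rw [he, add_top]; exact le_top
  have ha : a ≠ ⊤ := ne_top_of_le_ne_top hc h1
  have hb : b ≠ ⊤ := ne_top_of_le_ne_top hc h2
  lift a to NNReal using ha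
  lift b to NNReal using hb
  lift c to NNReal using hc
  lift e to NNReal using he
  norm_cast at h1 h2 h ⊢
  rcases eq_or_ne c 0 with h0 | h0
  · subst h0
    have ha : a = 0 := le_antisymm h1 bot_le
    have hb : b = 0 := le_antisymm h2 bot_le
    rw [ha, hb]; simp
  have hc0 : 0 < c := pos_iff_ne_zero.2 h0
  rw [← NNReal.coe_le_coe] at h1 h2 h ⊢
  push_cast at h ⊢
  have hc1 : (0:ℝ) < c := by exact_mod_cast hc0
  have h3 : (c:ℝ) * (a + b) ≤ c * (c + e) := by
    nlinarith [mul_nonneg (sub_nonneg.2 h1) (sub_nonneg.2 h2)]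
  exact le_of_mul_le_mul_left h3 hc1

theorem aa_int {g1 g2 : ℝ → ENNReal} (h1 : Measurable g1) (h2 : Measurable g2) :
    ∫⁻ x, ∫⁻ y, (g1 x * g2 y + g1 y * g2 x) = 2 * ((∫⁻ x, g1 x) * ∫⁻ x, g2 x) := by
  have e1 : ∀ x, ∫⁻ y, (g1 x * g2 y + g1 y * g2 x) =
      g1 x * (∫⁻ y, g2 y) + (∫⁻ y, g1 y) * g2 x := by
    intro x
    rw [lintegral_add_left (h2.const_mul _), lintegral_const_mul _ h2, lintegral_mul_const _ h1]
  rw [lintegral_congr e1, lintegral_add_left (h1.mul_const _), lintegral_mul_const _ h1,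
    lintegral_const_mul _ h2, two_mul]

/-- four functions on the line -/
theorem four1 {f1 f2 f3 f4 : ℝ → ENNReal} (h1 : Measurable f1) (h2 : Measurable f2)
    (h3 : Measurable f3) (h4 : Measurable f4)
    (h : ∀ x y, f1 x * f2 y ≤ f3 (x ⊔ y) * f4 (x ⊓ y)) :
    (∫⁻ x, f1 x) * (∫⁻ x, f2 x) ≤ (∫⁻ x, f3 x) * ∫⁻ x, f4 x := by
  have key : ∀ x y, f1 x * f2 y + f1 y * f2 x ≤ f3 x * f4 y + f3 y * f4 x := by
    have half : ∀ x y, x ≤ y → f1 x * f2 y + f1 y * f2 x ≤ f3 x * f4 y + f3 y * f4 x := by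
      intro x y hxy
      have a1 := h x y
      have a2 := h y x
      have a3 := h x x
      have a4 := h y y
      rw [sup_eq_right.2 hxy, inf_eq_left.2 hxy] at a1
      rw [sup_eq_left.2 hxy, inf_eq_right.2 hxy] at a2
      rw [sup_idem, inf_idem] at a3 a4
      rw [add_comm (f3 x * f4 y)]
      refine aa_num a1 a2 ?_
      calc f1 x * f2 y * (f1 y * f2 x) = (f1 x * f2 x) * (f1 y * f2 y) := by ring
        _ ≤ (f3 x * f4 x) * (f3 y * f4 y) := mul_le_mul' a3 a4
        _ = f3 y * f4 x * (f3 x * f4 y) := by ring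
    intro x y
    rcases le_total x y with hxy | hxy
    · exact half x y hxy
    · have := half y x hxy
      rw [add_comm, add_comm (f3 x * f4 y)]
      exact this
  have h5 := aa_int h1 h2
  have h6 := aa_int h3 h4
  have h7 : ∫⁻ x, ∫⁻ y, (f1 x * f2 y + f1 y * f2 x) ≤ ∫⁻ x, ∫⁻ y, (f3 x * f4 y + f3 y * f4 x) :=
    lintegral_mono fun x => lintegral_mono fun y => key x y
  rw [h5, h6] at h7
  exact (ENNReal.mul_le_mul_iff_right (by norm_num) (by norm_num)).1 h7

end HK
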