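import Mathlib
import Pool.Agent.Lib_helper12.HK.DefsA
import Pool.Agent.Lib_helper12.HK.W.aa

set_option autoImplicit false

namespace HK

open MeasureTheory QG

variable {A : Type} [Fintype A] [DecidableEq A]

theorem ab_eq (F : (A → ℝ) → ENNReal) (S : Finset A) :
    lmg F S = lmarginal (fun _ => (volume : Measure ℝ)) S F := rfl

/-- partial integrals, basic properties -/
theorem lmg_meas {F : (A → ℝ) → ENNReal} (hF : Measurable F) (S : Finset A) :
    Measurable (lmg F S) := by
  rw [ab_eq]
  exact hF.lmarginal (fun _ => (volume : Measure ℝ))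

theorem lmg_empty (F : (A → ℝ) → ENNReal) : lmg F ∅ = F := by
  rw [ab_eq]
  exact lmarginal_empty (fun _ => (volume : Measure ℝ)) F

theorem lmg_erase {F : (A → ℝ) → ENNReal} (hF : Measurable F) {S : Finset A} {k : A} (hk : k ∈ S)
    (x : A → ℝ) : lmg F S x = ∫⁻ r, lmg F (S.erase k) (Function.update x k r) := by
  rw [ab_eq, ab_eq]
  exact lmarginal_erase F hF hk x

theorem lmg_union {F : (A → ℝ) → ENNReal} (hF : Measurable F) {S T : Finset A} (h : Disjoint S T)
    (x : A → ℝ) : lmg F (S ∪ T) x = lmg (lmg F S) T x := by
  rw [ab_eq, ab_eq, ab_eq, lmarginal_union' (fun _ => (volume : Measure ℝ)) F hF h]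

/-- `lmg F S` does not depend on the coordinates in `S` -/
theorem lmg_indep (F : (A → ℝ) → ENNReal) (S : Finset A) {x y : A → ℝ} (h : ∀ i ∉ S, x i = y i) :
    lmg F S x = lmg F S y := by
  rw [ab_eq]
  exact lmarginal_congr (fun _ => (volume : Measure ℝ)) F h

/-- functions that do not depend on the coordinates in `S` can be taken out -/
theorem lmg_mul {F G : (A → ℝ) → ENNReal} (hF : Measurable F) (S : Finset A)
    (hG : ∀ x y : A → ℝ, (∀ i ∉ S, x i = y i) → G x = G y) (x : A → ℝ) :
    lmg (fun y => G y * F y) S x = G x * lmg F S x := by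
  unfold lmg
  have h : ∀ y : S → ℝ, G (Function.updateFinset x S y) * F (Function.updateFinset x S y) =
      G x * F (Function.updateFinset x S y) := by
    intro y
    rw [hG (Function.updateFinset x S y) x]
    intro i hi
    simp [Function.updateFinset, hi]
  simp only [h]
  exact lintegral_const_mul _ (hF.comp measurable_updateFinset)

/-- integration against the pinned Lebesgue measure -/
theorem lmg_bs {F : (A → ℝ) → ENNReal} (hF : Measurable F) (p : A) :
    ∫⁻ x, F x ∂bs p = lmg F (Finset.univ.erase p) 0 := by
  unfold bs
  haveI : ∀ y : A, SigmaFinite (if y = p then Measure.dirac 0 else (volume : Measure ℝ)) := by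
    intro y
    split_ifs <;> infer_instance
  rw [lintegral_eq_lmarginal_univ (0 : A → ℝ), lmarginal_erase F hF (Finset.mem_univ p)]
  have h0 : (if p = p then Measure.dirac (0 : ℝ) else volume) = Measure.dirac 0 := if_pos rfl
  have hmeas : Measurable fun r : ℝ =>
      (lmarginal (fun y : A => if y = p then Measure.dirac (0 : ℝ) else volume)
        (Finset.univ.erase p) F) (Function.update 0 p r) :=
    (hF.lmarginal _).comp (measurable_update 0)
  have h1 : ∫⁻ r, (lmarginal (fun y : A => if y = p then Measure.dirac (0 : ℝ) else volume)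
        (Finset.univ.erase p) F) (Function.update 0 p r)
        ∂(if p = p then Measure.dirac (0 : ℝ) else volume) =
      (lmarginal (fun y : A => if y = p then Measure.dirac (0 : ℝ) else volume)
        (Finset.univ.erase p) F) (Function.update 0 p 0) := by
    rw [h0]
    exact lintegral_dirac' _ hmeas
  rw [h1]
  have h2 : Function.update (0 : A → ℝ) p 0 = 0 := by
    rw [Function.update_eq_self_iff]
    rfl
  rw [h2]
  unfold lmarginal lmg
  have h3 : (fun i : (Finset.univ.erase p : Finset A) =>
      (if (i : A) = p then Measure.dirac (0 : ℝ) else volume)) = fun _ => (volume : Measure ℝ) := by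
    funext i
    exact if_neg (Finset.ne_of_mem_erase i.2)
  rw [h3]
  rfl

/-- the four functions theorem for partial integrals -/
theorem four_lmg {F1 F2 F3 F4 : (A → ℝ) → ENNReal} (h1 : Measurable F1) (h2 : Measurable F2)
    (h3 : Measurable F3) (h4 : Measurable F4)
    (h : ∀ x y, F1 x * F2 y ≤ F3 (x ⊔ y) * F4 (x ⊓ y)) (S : Finset A) :
    ∀ x y, lmg F1 S x * lmg F2 S y ≤ lmg F3 S (x ⊔ y) * lmg F4 S (x ⊓ y) := by
  induction S using Finset.induction_on with
  | empty =>
    intro x y
    rw [lmg_empty, lmg_empty, lmg_empty, lmg_empty]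
    exact h x y
  | insert k S hk ih =>
    intro x y
    rw [lmg_erase h1 (Finset.mem_insert_self k S), lmg_erase h2 (Finset.mem_insert_self k S),
      lmg_erase h3 (Finset.mem_insert_self k S), lmg_erase h4 (Finset.mem_insert_self k S),
      Finset.erase_insert hk]
    refine four1 ((lmg_meas h1 S).comp (measurable_update x))
      ((lmg_meas h2 S).comp (measurable_update y))
      ((lmg_meas h3 S).comp (measurable_update (x ⊔ y)))
      ((lmg_meas h4 S).comp (measurable_update (x ⊓ y))) ?_
    intro r s
    have e1 : Function.update (x ⊔ y) k (r ⊔ s) = Function.update x k r ⊔ Function.update y k s := by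
      funext i
      by_cases hi : i = k
      · subst hi
        simp
      · simp [hi]
    have e2 : Function.update (x ⊓ y) k (r ⊓ s) = Function.update x k r ⊓ Function.update y k s := by
      funext i
      by_cases hi : i = k
      · subst hi
        simp
      · simp [hi]
    rw [e1, e2]
    exact ih _ _

end HK
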