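import Mathlib
import Pool.Agent.Lib_helper12.HK.DefsA
import Pool.Agent.Lib_helper12.HK.W.ab
import Pool.Agent.Lib_helper73.Rigid.PL

set_option autoImplicit false

namespace HK

open MeasureTheory QG

variable {A : Type} [Fintype A] [DecidableEq A]

/-- Prekopa-Leindler on the line for functions with values in `[0, ∞]` -/
theorem ac_pl {f1 f2 f3 : ℝ → ENNReal} (m1 : Measurable f1) (m2 : Measurable f2)
    (m3 : Measurable f3) {C : ENNReal} (hC : C ≠ ⊤) (b1 : ∀ r, f1 r ≤ C) (b2 : ∀ r, f2 r ≤ C)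
    (b3 : ∀ r, f3 r ≤ C) (i1 : ∫⁻ r, f1 r ≠ ⊤) (i2 : ∫⁻ r, f2 r ≠ ⊤) (i3 : ∫⁻ r, f3 r ≠ ⊤)
    (h : ∀ r s, f1 r * f2 s ≤ f3 (1 / 2 * r + 1 / 2 * s) ^ 2) :
    (∫⁻ r, f1 r) * (∫⁻ r, f2 r) ≤ (∫⁻ r, f3 r) ^ 2 := by
  have t1 : ∀ r, f1 r ≠ ⊤ := fun r => ne_top_of_le_ne_top hC (b1 r)
  have t2 : ∀ r, f2 r ≠ ⊤ := fun r => ne_top_of_le_ne_top hC (b2 r)
  have t3 : ∀ r, f3 r ≠ ⊤ := fun r => ne_top_of_le_ne_top hC (b3 r)
  have key := Rigid.pl (F := fun r => (f1 r).toReal) (G := fun r => (f2 r).toReal)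
    (H := fun r => (f3 r).toReal) m1.ennreal_toReal m2.ennreal_toReal m3.ennreal_toReal
    (fun _ => ENNReal.toReal_nonneg) (fun _ => ENNReal.toReal_nonneg)
    (fun _ => ENNReal.toReal_nonneg)
    ⟨C.toReal, by
      rintro _ ⟨r, rfl⟩
      exact ENNReal.toReal_mono hC (b1 r)⟩
    ⟨C.toReal, by
      rintro _ ⟨r, rfl⟩
      exact ENNReal.toReal_mono hC (b2 r)⟩
    (integrable_toReal_of_lintegral_ne_top m1.aemeasurable i1)
    (integrable_toReal_of_lintegral_ne_top m2.aemeasurable i2)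
    (integrable_toReal_of_lintegral_ne_top m3.aemeasurable i3)
    (l := 1 / 2) (m := 1 / 2) (by norm_num) (by norm_num) (by norm_num)
    (by
      intro r s
      have h1 : (f1 r).toReal * (f2 s).toReal ≤ (f3 (1 / 2 * r + 1 / 2 * s)).toReal ^ 2 := by
        rw [← ENNReal.toReal_mul, ← ENNReal.toReal_pow]
        exact ENNReal.toReal_mono (ENNReal.pow_ne_top (t3 _)) (h r s)
      rw [← Real.mul_rpow ENNReal.toReal_nonneg ENNReal.toReal_nonneg]
      have h2 : ((f1 r).toReal * (f2 s).toReal) ^ (1 / 2 : ℝ) ≤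
          ((f3 (1 / 2 * r + 1 / 2 * s)).toReal ^ 2) ^ (1 / 2 : ℝ) :=
        Real.rpow_le_rpow (mul_nonneg ENNReal.toReal_nonneg ENNReal.toReal_nonneg) h1
          (by norm_num)
      refine h2.trans (le_of_eq ?_)
      rw [← Real.sqrt_eq_rpow, Real.sqrt_sq ENNReal.toReal_nonneg])
  rw [integral_toReal m1.aemeasurable (Filter.Eventually.of_forall fun r => (t1 r).lt_top),
    integral_toReal m2.aemeasurable (Filter.Eventually.of_forall fun r => (t2 r).lt_top),
    integral_toReal m3.aemeasurable (Filter.Eventually.of_forall fun r => (t3 r).lt_top),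
    ← Real.mul_rpow ENNReal.toReal_nonneg ENNReal.toReal_nonneg, ← Real.sqrt_eq_rpow] at key
  have h3 : (∫⁻ r, f1 r).toReal * (∫⁻ r, f2 r).toReal ≤ (∫⁻ r, f3 r).toReal ^ 2 := by
    have h4 := Real.sq_sqrt (mul_nonneg (ENNReal.toReal_nonneg (a := ∫⁻ r, f1 r))
      (ENNReal.toReal_nonneg (a := ∫⁻ r, f2 r)))
    rw [← h4]
    exact pow_le_pow_left₀ (Real.sqrt_nonneg _) key 2
  rw [← ENNReal.toReal_mul, ← ENNReal.toReal_pow] at h3
  exact (ENNReal.toReal_le_toReal (ENNReal.mul_ne_top i1 i2) (ENNReal.pow_ne_top i3)).1 h3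

/-- partial integrals stay bounded with bounded support -/
theorem ac_bdd {F : (A → ℝ) → ENNReal} (hF : Measurable F)
    (hb : ∃ C : ENNReal, C ≠ ⊤ ∧ ∀ x, F x ≤ C)
    {R : ℝ} (hs : ∀ x, F x ≠ 0 → ∀ i, |x i| ≤ R) (S : Finset A) :
    (∃ C : ENNReal, C ≠ ⊤ ∧ ∀ x, lmg F S x ≤ C) ∧
      ∀ x, lmg F S x ≠ 0 → ∀ i ∉ S, |x i| ≤ R := by
  induction S using Finset.induction_on with
  | empty =>
    rw [lmg_empty]
    exact ⟨hb, fun x hx i _ => hs x hx i⟩
  | insert k S hk ih =>
    obtain ⟨⟨C, hC, hle⟩, hsup⟩ := ih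
    constructor
    · refine ⟨C * volume (Set.Icc (-R) R), ENNReal.mul_ne_top hC (by
        rw [Real.volume_Icc]; exact ENNReal.ofReal_ne_top), ?_⟩
      intro x
      rw [lmg_erase hF (Finset.mem_insert_self k S), Finset.erase_insert hk]
      calc ∫⁻ r, lmg F S (Function.update x k r) ≤
          ∫⁻ r, (Set.Icc (-R) R).indicator (fun _ => C) r := by
            refine lintegral_mono fun r => ?_
            by_cases hr : r ∈ Set.Icc (-R) R
            · rw [Set.indicator_of_mem hr]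
              exact hle _
            · rw [Set.indicator_of_notMem hr, nonpos_iff_eq_zero]
              by_contra h0
              have h1 := hsup _ h0 k hk
              rw [Function.update_self, abs_le] at h1
              exact hr h1
        _ = C * volume (Set.Icc (-R) R) := by
            rw [lintegral_indicator measurableSet_Icc, setLIntegral_const]
    · intro x hx i hi
      rw [lmg_erase hF (Finset.mem_insert_self k S), Finset.erase_insert hk] at hx
      rw [Finset.mem_insert, not_or] at hi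
      by_contra h0
      apply hx
      have h1 : ∀ r, lmg F S (Function.update x k r) = 0 := by
        intro r
        by_contra h2
        have h3 := hsup _ h2 i hi.2
        rw [Function.update_of_ne hi.1] at h3
        exact h0 h3
      simp only [h1, lintegral_zero]

theorem ac_line {F : (A → ℝ) → ENNReal} (hF : Measurable F)
    (hb : ∃ C : ENNReal, C ≠ ⊤ ∧ ∀ x, F x ≤ C)
    {R : ℝ} (hs : ∀ x, F x ≠ 0 → ∀ i, |x i| ≤ R) (S : Finset A) {k : A} (hk : k ∉ S)
    (x : A → ℝ) : ∫⁻ r, lmg F S (Function.update x k r) ≠ ⊤ := by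
  have h1 := (ac_bdd hF hb hs (insert k S)).1
  obtain ⟨C, hC, hle⟩ := h1
  have h2 := hle x
  rw [lmg_erase hF (Finset.mem_insert_self k S), Finset.erase_insert hk] at h2
  exact ne_top_of_le_ne_top hC h2

/-- logarithmic concavity of partial integrals (Prekopa-Leindler) -/
theorem lc_lmg {F : (A → ℝ) → ENNReal} (hF : Measurable F) (hb : ∃ C : ENNReal, C ≠ ⊤ ∧ ∀ x, F x ≤ C)
    (hs : ∃ R : ℝ, ∀ x, F x ≠ 0 → ∀ i, |x i| ≤ R)
    (h : ∀ x y : A → ℝ, F x * F y ≤ F ((1 / 2 : ℝ) • (x + y)) ^ 2) (S : Finset A) :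
    ∀ x y : A → ℝ, lmg F S x * lmg F S y ≤ lmg F S ((1 / 2 : ℝ) • (x + y)) ^ 2 := by
  obtain ⟨R, hs⟩ := hs
  induction S using Finset.induction_on with
  | empty =>
    rw [lmg_empty]
    exact h
  | insert k S hk ih =>
    intro x y
    obtain ⟨C, hC, hle⟩ := (ac_bdd hF hb hs S).1
    rw [lmg_erase hF (Finset.mem_insert_self k S) x, lmg_erase hF (Finset.mem_insert_self k S) y,
      lmg_erase hF (Finset.mem_insert_self k S) ((1 / 2 : ℝ) • (x + y)), Finset.erase_insert hk]
    refine ac_pl ((lmg_meas hF S).comp (measurable_update x))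
      ((lmg_meas hF S).comp (measurable_update y))
      ((lmg_meas hF S).comp (measurable_update ((1 / 2 : ℝ) • (x + y)))) hC
      (fun r => hle _) (fun r => hle _) (fun r => hle _) (ac_line hF hb hs S hk x)
      (ac_line hF hb hs S hk y) (ac_line hF hb hs S hk _) ?_
    intro r s
    have e : Function.update ((1 / 2 : ℝ) • (x + y)) k (1 / 2 * r + 1 / 2 * s) =
        (1 / 2 : ℝ) • (Function.update x k r + Function.update y k s) := by
      funext i
      by_cases hi : i = k
      · subst hi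
        simp
        ring
      · simp [hi]
        ring
    rw [e]
    exact ih _ _

/-- partial integrals of even functions are even -/
theorem ac_even {F : (A → ℝ) → ENNReal} (hF : Measurable F) (he : ∀ x, F (-x) = F x)
    (S : Finset A) : ∀ x, lmg F S (-x) = lmg F S x := by
  induction S using Finset.induction_on with
  | empty =>
    rw [lmg_empty]
    exact he
  | insert k S hk ih =>
    intro x
    rw [lmg_erase hF (Finset.mem_insert_self k S) (-x),
      lmg_erase hF (Finset.mem_insert_self k S) x, Finset.erase_insert hk]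
    have e : ∀ r, lmg F S (Function.update (-x) k r) = lmg F S (Function.update x k (-r)) := by
      intro r
      rw [← ih]
      congr 1
      funext i
      by_cases hi : i = k
      · subst hi
        simp
      · simp [hi]
    simp only [e]
    exact lintegral_neg_eq_self (μ := volume) fun r => lmg F S (Function.update x k r)

/-- scaling by `1/8` -/
theorem ac_scale1 {f : ℝ → ENNReal} (hf : Measurable f) :
    ∫⁻ r, f (1 / 8 * r) = 8 * ∫⁻ r, f r := by
  have h := Real.map_volume_mul_left (a := 1 / 8) (by norm_num)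
  have h2 : ∫⁻ r, f r ∂(Measure.map ((1 / 8 : ℝ) * ·) volume) = ∫⁻ r, f (1 / 8 * r) :=
    lintegral_map hf (measurable_const_mul _)
  rw [← h2, h, lintegral_smul_measure]
  have h3 : ENNReal.ofReal |(1 / 8 : ℝ)⁻¹| = 8 := by
    rw [one_div, inv_inv, abs_of_nonneg (by norm_num)]
    exact ENNReal.ofReal_ofNat 8
  rw [h3]
  rfl

theorem ac_scale {F : (A → ℝ) → ENNReal} (hF : Measurable F) (S : Finset A) :
    ∀ x, lmg (fun y => F ((1 / 8 : ℝ) • y)) S x = 8 ^ S.card * lmg F S ((1 / 8 : ℝ) • x) := by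
  have hF' : Measurable fun y : A → ℝ => F ((1 / 8 : ℝ) • y) :=
    hF.comp (measurable_const_smul _)
  induction S using Finset.induction_on with
  | empty =>
    intro x
    rw [lmg_empty, lmg_empty]
    simp
  | insert k S hk ih =>
    intro x
    rw [lmg_erase hF' (Finset.mem_insert_self k S) x,
      lmg_erase hF (Finset.mem_insert_self k S) ((1 / 8 : ℝ) • x), Finset.erase_insert hk,
      Finset.card_insert_of_notMem hk]
    have e : ∀ r, lmg (fun y => F ((1 / 8 : ℝ) • y)) S (Function.update x k r) =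
        8 ^ S.card * lmg F S (Function.update ((1 / 8 : ℝ) • x) k (1 / 8 * r)) := by
      intro r
      rw [ih]
      congr 2
      funext i
      by_cases hi : i = k
      · subst hi
        simp
      · simp [hi]
    simp only [e]
    have hm : Measurable fun r : ℝ => lmg F S (Function.update ((1 / 8 : ℝ) • x) k r) :=
      (lmg_meas hF S).comp (measurable_update _)
    have hm2 : Measurable fun r : ℝ =>
        lmg F S (Function.update ((1 / 8 : ℝ) • x) k (1 / 8 * r)) :=
      hm.comp (measurable_const_mul (1 / 8 : ℝ))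
    rw [lintegral_const_mul _ hm2, ac_scale1 hm, pow_succ, mul_assoc]

/-- for even functions: the mass near `0` -/
theorem lc_scale {F : (A → ℝ) → ENNReal} (hF : Measurable F)
    (hb : ∃ C : ENNReal, C ≠ ⊤ ∧ ∀ x, F x ≤ C) (hs : ∃ R : ℝ, ∀ x, F x ≠ 0 → ∀ i, |x i| ≤ R)
    (h : ∀ x y : A → ℝ, F x * F y ≤ F ((1 / 2 : ℝ) • (x + y)) ^ 2) (he : ∀ x, F (-x) = F x)
    (S J : Finset A) (hJ : J ⊆ S) :
    lmg (fun x => F x * {x : A → ℝ | ∀ j ∈ J, |x j| ≤ 4}.indicator 1 x) S 0 ≤
      8 ^ J.card * lmg (fun x => F x * {x : A → ℝ | ∀ j ∈ J, |x j| ≤ 1 / 2}.indicator 1 x) S 0 := by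
  set T := S \ J with hT
  have hST : T ∪ J = S := Finset.sdiff_union_of_subset hJ
  have hdis : Disjoint T J := Finset.sdiff_disjoint
  set G := lmg F T with hG
  have hGm : Measurable G := lmg_meas hF T
  -- the boxes
  have hbox : ∀ c : ℝ, MeasurableSet {x : A → ℝ | ∀ j ∈ J, |x j| ≤ c} := by
    intro c
    have : {x : A → ℝ | ∀ j ∈ J, |x j| ≤ c} = ⋂ j ∈ J, {x : A → ℝ | |x j| ≤ c} := by
      ext x
      simp
    rw [this]
    refine Finset.measurableSet_biInter _ fun j _ => ?_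
    exact measurableSet_le (measurable_pi_apply j).abs measurable_const
  have hind : ∀ c : ℝ, Measurable
      ({x : A → ℝ | ∀ j ∈ J, |x j| ≤ c}.indicator (1 : (A → ℝ) → ENNReal)) :=
    fun c => measurable_one.indicator (hbox c)
  have hsplit : ∀ c : ℝ, lmg (fun x => F x * {x : A → ℝ | ∀ j ∈ J, |x j| ≤ c}.indicator 1 x) S 0 =
      lmg (fun x => {x : A → ℝ | ∀ j ∈ J, |x j| ≤ c}.indicator 1 x * G x) J 0 := by
    intro c
    have hm : Measurable fun x => F x *
        {x : A → ℝ | ∀ j ∈ J, |x j| ≤ c}.indicator (1 : (A → ℝ) → ENNReal) x :=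
      hF.mul (hind c)
    rw [← hST, lmg_union hm hdis]
    congr 1
    funext x
    have e : (fun x => F x * {x : A → ℝ | ∀ j ∈ J, |x j| ≤ c}.indicator (1 : (A → ℝ) → ENNReal) x) =
        fun x => {x : A → ℝ | ∀ j ∈ J, |x j| ≤ c}.indicator (1 : (A → ℝ) → ENNReal) x * F x := by
      funext x
      rw [mul_comm]
    rw [e, lmg_mul hF T]
    intro x y hxy
    have hiff : x ∈ {x : A → ℝ | ∀ j ∈ J, |x j| ≤ c} ↔ y ∈ {x : A → ℝ | ∀ j ∈ J, |x j| ≤ c} := by
      have hj : ∀ j ∈ J, x j = y j := fun j hj => hxy j (Finset.disjoint_right.1 hdis hj)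
      constructor
      · intro hx j hjJ
        rw [← hj j hjJ]
        exact hx j hjJ
      · intro hx j hjJ
        rw [hj j hjJ]
        exact hx j hjJ
    by_cases hx : x ∈ {x : A → ℝ | ∀ j ∈ J, |x j| ≤ c}
    · rw [Set.indicator_of_mem hx, Set.indicator_of_mem (hiff.1 hx)]
      rfl
    · rw [Set.indicator_of_notMem hx, Set.indicator_of_notMem (fun hy => hx (hiff.2 hy))]
  -- the function `G` decreases along rays
  have hGe : ∀ x, G (-x) = G x := ac_even hF he T
  have hGl : ∀ x y : A → ℝ, G x * G y ≤ G ((1 / 2 : ℝ) • (x + y)) ^ 2 := lc_lmg hF hb hs h T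
  have hsq : ∀ a b : ENNReal, a * a ≤ b ^ 2 → a ≤ b := by
    intro a b hab
    by_contra hlt
    rw [not_le] at hlt
    have hlt2 : b ^ 2 < a ^ 2 := by gcongr
    rw [sq a] at hlt2
    exact absurd hab (not_le.2 hlt2)
  have hG0 : ∀ x, G x ≤ G 0 := by
    intro x
    apply hsq
    have h1 := hGl x (-x)
    rw [hGe, add_neg_cancel, smul_zero] at h1
    exact h1
  have hGh : ∀ x, G x ≤ G ((1 / 2 : ℝ) • x) := by
    intro x
    apply hsq
    have h1 := hGl x 0
    rw [add_zero] at h1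
    exact (mul_le_mul_right (hG0 x) (G x)).trans h1
  have hG8 : ∀ x, G x ≤ G ((1 / 8 : ℝ) • x) := by
    intro x
    refine (hGh x).trans ((hGh _).trans ((hGh _).trans (le_of_eq ?_)))
    rw [smul_smul, smul_smul]
    norm_num
  rw [hsplit, hsplit]
  have hH : Measurable fun x : A → ℝ =>
      {x : A → ℝ | ∀ j ∈ J, |x j| ≤ 1 / 2}.indicator (1 : (A → ℝ) → ENNReal) x * G x :=
    (hind _).mul hGm
  have hsc := ac_scale hH J 0
  rw [smul_zero] at hsc
  rw [← hsc]
  unfold lmg
  refine lintegral_mono fun y => ?_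
  set z := Function.updateFinset (0 : A → ℝ) J y with hz
  have hind2 : {x : A → ℝ | ∀ j ∈ J, |x j| ≤ 4}.indicator (1 : (A → ℝ) → ENNReal) z =
      {x : A → ℝ | ∀ j ∈ J, |x j| ≤ 1 / 2}.indicator (1 : (A → ℝ) → ENNReal)
        ((1 / 8 : ℝ) • z) := by
    have hiff : z ∈ {x : A → ℝ | ∀ j ∈ J, |x j| ≤ 4} ↔
        (1 / 8 : ℝ) • z ∈ {x : A → ℝ | ∀ j ∈ J, |x j| ≤ 1 / 2} := by
      have e : ∀ j, |((1 / 8 : ℝ) • z) j| = 1 / 8 * |z j| := by
        intro j
        rw [Pi.smul_apply, smul_eq_mul, abs_mul, abs_of_nonneg (by norm_num : (0 : ℝ) ≤ 1 / 8)]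
      constructor
      · intro hx j hj
        have := hx j hj
        rw [e]
        linarith
      · intro hx j hj
        have := hx j hj
        rw [e] at this
        linarith
    by_cases hx : z ∈ {x : A → ℝ | ∀ j ∈ J, |x j| ≤ 4}
    · rw [Set.indicator_of_mem hx, Set.indicator_of_mem (hiff.1 hx)]
      rfl
    · rw [Set.indicator_of_notMem hx, Set.indicator_of_notMem (fun hy => hx (hiff.2 hy))]
  show {x : A → ℝ | ∀ j ∈ J, |x j| ≤ 4}.indicator (1 : (A → ℝ) → ENNReal) z * G z ≤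
    {x : A → ℝ | ∀ j ∈ J, |x j| ≤ 1 / 2}.indicator (1 : (A → ℝ) → ENNReal)
      ((1 / 8 : ℝ) • z) * G ((1 / 8 : ℝ) • z)
  rw [hind2]
  exact mul_le_mul_right (hG8 z) _

end HK
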