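import Mathlib
import Pool.Agent.Lib_helper12.HK.DefsA

set_option autoImplicit false

namespace HK

open MeasureTheory QG

theorem ad_int {g d : ℝ → ℝ} (h : Dn g d) : Integrable g := by
  by_contra hn
  have := h.int
  rw [integral_undef hn] at this
  exact zero_ne_one this

theorem ad_sub {g d : ℝ → ℝ} (h : Dn g d) (a b : ℝ) :
    (∫ y in Set.Iic b, g y) - ∫ y in Set.Iic a, g y = ∫ y in a..b, g y :=
  intervalIntegral.integral_Iic_sub_Iic (ad_int h).integrableOn (ad_int h).integrableOn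

theorem ad_mono {g d : ℝ → ℝ} (h : Dn g d) : Monotone (fun x => ∫ y in Set.Iic x, g y) := by
  intro a b hab
  have h1 := ad_sub h a b
  have h2 : 0 ≤ ∫ y in a..b, g y := intervalIntegral.integral_nonneg hab (fun y _ => h.nonneg y)
  dsimp only
  linarith

theorem ad_deriv {g d : ℝ → ℝ} (h : Dn g d) (x : ℝ) :
    HasDerivAt (fun x => ∫ y in Set.Iic x, g y) (g x) x := by
  have h1 : (fun x => ∫ y in Set.Iic x, g y) =
      fun x => (∫ y in Set.Iic (0 : ℝ), g y) + ∫ y in (0 : ℝ)..x, g y := by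
    funext x
    have := ad_sub h 0 x
    linarith
  rw [h1]
  have h2 := intervalIntegral.integral_hasDerivAt_right
    ((h.cont).intervalIntegrable 0 x) (h.cont.stronglyMeasurableAtFilter volume (nhds x))
    h.cont.continuousAt
  exact h2.const_add _

theorem ad_pos {g d : ℝ → ℝ} (h : Dn g d) {a b x : ℝ} (hab : a < b) (hx : x ∈ Set.Icc a b)
    (hg : 0 < g x) : (∫ y in Set.Iic a, g y) < ∫ y in Set.Iic b, g y := by
  have h1 := ad_sub h a b
  have h2 : 0 < ∫ y in a..b, g y := by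
    apply intervalIntegral.integral_pos hab h.cont.continuousOn (fun y _ => h.nonneg y)
    exact ⟨x, hx, hg⟩
  linarith

theorem ad_le {g d : ℝ → ℝ} (h : Dn g d) (x : ℝ) :
    0 ≤ (∫ y in Set.Iic x, g y) ∧ (∫ y in Set.Iic x, g y) ≤ 1 := by
  constructor
  · exact integral_nonneg (fun y => h.nonneg y)
  · rw [← h.int]
    exact setIntegral_le_integral (ad_int h) (Filter.Eventually.of_forall h.nonneg)

theorem ad_ends {g d : ℝ → ℝ} (h : Dn g d) : ∃ R : ℝ, (∫ y in Set.Iic (-R), g y) = 0 ∧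
    (∫ y in Set.Iic R, g y) = 1 := by
  obtain ⟨R, hR⟩ := h.supp
  have hz : ∀ y, R < |y| → g y = 0 := by
    intro y hy
    by_contra hn
    exact absurd (hR y hn) (not_le.2 hy)
  refine ⟨|R| + 1, ?_, ?_⟩
  · rw [setIntegral_eq_zero_of_forall_eq_zero]
    intro y hy
    apply hz
    rw [Set.mem_Iic] at hy
    have h1 := abs_nonneg R
    rw [abs_of_nonpos (by linarith)]
    linarith [le_abs_self R]
  · refine Eq.trans ?_ h.int
    apply setIntegral_eq_integral_of_forall_compl_eq_zero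
    intro y hy
    apply hz
    rw [Set.mem_Iic, not_le] at hy
    have h1 := abs_nonneg R
    rw [abs_of_nonneg (by linarith)]
    linarith [le_abs_self R]

/-- the value of the distribution function at the quantile -/
theorem ad_val {g d : ℝ → ℝ} (h : Dn g d) {u : ℝ} (hu : u ∈ Set.Ioo (0 : ℝ) 1) :
    ∫ y in Set.Iic (qt g u), g y = u := by
  obtain ⟨R, hR0, hR1⟩ := ad_ends h
  have hc : Continuous (fun x => ∫ y in Set.Iic x, g y) :=
    continuous_iff_continuousAt.2 (fun x => (ad_deriv h x).continuousAt)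
  have hne : (Set.Nonempty {x | u ≤ ∫ y in Set.Iic x, g y}) := ⟨R, by
    rw [Set.mem_ofPred_eq, hR1]
    exact hu.2.le⟩
  have hbd : BddBelow {x | u ≤ ∫ y in Set.Iic x, g y} := by
    refine ⟨-R, ?_⟩
    intro x hx
    rw [Set.mem_ofPred_eq] at hx
    by_contra hn
    rw [not_le] at hn
    have := ad_mono h hn.le
    dsimp only at this
    rw [hR0] at this
    linarith [hu.1]
  have hcl : IsClosed {x | u ≤ ∫ y in Set.Iic x, g y} := isClosed_le continuous_const hc
  have hq : qt g u = sInf {x | u ≤ ∫ y in Set.Iic x, g y} := by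
    unfold qt
    rw [if_pos hu]
  have hmem := hcl.csInf_mem hne hbd
  rw [← hq, Set.mem_ofPred_eq] at hmem
  apply le_antisymm _ hmem
  by_contra hn
  rw [not_le] at hn
  have hev := (hc.tendsto (qt g u)).eventually (lt_mem_nhds hn)
  have hev2 : ∀ᶠ y in nhdsWithin (qt g u) (Set.Iio (qt g u)), u < ∫ z in Set.Iic y, g z :=
    hev.filter_mono nhdsWithin_le_nhds
  obtain ⟨y, hy1, hy2⟩ := (hev2.and self_mem_nhdsWithin).exists
  have := csInf_le hbd (show y ∈ {x | u ≤ ∫ y in Set.Iic x, g y} from hy1.le)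
  rw [← hq] at this
  exact absurd hy2 (not_lt.2 this)

/-- the quantile function of a density with compact support -/
theorem qt_basic {g d : ℝ → ℝ} (h : Dn g d) {u : ℝ} (hu : u ∈ Set.Ioo (0 : ℝ) 1) :
    0 < g (qt g u) ∧ ∫ y in Set.Iic (qt g u), g y = u := by
  have hv := ad_val h hu
  refine ⟨?_, hv⟩
  have h1 : ∃ a ≤ qt g u, 0 < g a := by
    by_contra hn
    push Not at hn
    have : ∫ y in Set.Iic (qt g u), g y = 0 := by
      apply setIntegral_eq_zero_of_forall_eq_zero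
      intro y hy
      exact le_antisymm (hn y hy) (h.nonneg y)
    linarith [hu.1]
  have h2 : ∃ b, qt g u ≤ b ∧ 0 < g b := by
    by_contra hn
    push Not at hn
    have : ∫ y in Set.Iic (qt g u), g y = 1 := by
      refine Eq.trans ?_ h.int
      apply setIntegral_eq_integral_of_forall_compl_eq_zero
      intro y hy
      rw [Set.mem_Iic, not_le] at hy
      exact le_antisymm (hn y hy.le) (h.nonneg y)
    linarith [hu.2]
  obtain ⟨a, ha, hga⟩ := h1
  obtain ⟨b, hb, hgb⟩ := h2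
  exact h.conn.out hga hgb ⟨ha, hb⟩

theorem ad_strict {g d : ℝ → ℝ} (h : Dn g d) : StrictMonoOn (qt g) (Set.Ioo 0 1) := by
  intro u hu v hv huv
  by_contra hn
  rw [not_lt] at hn
  have := ad_mono h hn
  dsimp only at this
  rw [ad_val h hu, ad_val h hv] at this
  exact absurd huv (not_lt.2 this)

theorem qt_inv {g d : ℝ → ℝ} (h : Dn g d) {x : ℝ} (hx : 0 < g x) :
    (∫ y in Set.Iic x, g y) ∈ Set.Ioo (0 : ℝ) 1 ∧ qt g (∫ y in Set.Iic x, g y) = x := by
  have h1 := ad_pos h (a := x - 1) (b := x) (by linarith) ⟨by linarith, le_rfl⟩ hx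
  have h2 := ad_pos h (a := x) (b := x + 1) (by linarith) ⟨le_rfl, by linarith⟩ hx
  have hm : (∫ y in Set.Iic x, g y) ∈ Set.Ioo (0 : ℝ) 1 := by
    constructor
    · linarith [(ad_le h (x - 1)).1]
    · linarith [(ad_le h (x + 1)).2]
  refine ⟨hm, ?_⟩
  have hq : qt g (∫ y in Set.Iic x, g y) =
      sInf {z | (∫ y in Set.Iic x, g y) ≤ ∫ y in Set.Iic z, g y} := by
    unfold qt
    rw [if_pos hm]
  rw [hq]
  have hs : {z | (∫ y in Set.Iic x, g y) ≤ ∫ y in Set.Iic z, g y} = Set.Ici x := by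
    ext z
    rw [Set.mem_ofPred_eq, Set.mem_Ici]
    constructor
    · intro hz
      by_contra hn
      rw [not_le] at hn
      have := ad_pos h hn ⟨hn.le, le_rfl⟩ hx
      linarith
    · intro hz
      exact ad_mono h hz
  rw [hs, csInf_Ici]

theorem ad_cont {g d : ℝ → ℝ} (h : Dn g d) {u : ℝ} (hu : u ∈ Set.Ioo (0 : ℝ) 1) :
    ContinuousAt (qt g) u := by
  apply (ad_strict h).continuousAt_of_image_mem_nhds (Ioo_mem_nhds hu.1 hu.2)
  have ho : IsOpen {x | 0 < g x} := isOpen_lt continuous_const h.cont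
  apply Filter.mem_of_superset (ho.mem_nhds (qt_basic h hu).1)
  intro x hx
  exact ⟨_, (qt_inv h hx).1, (qt_inv h hx).2⟩

theorem qt_strict {g d : ℝ → ℝ} (h : Dn g d) : StrictMonoOn (qt g) (Set.Ioo 0 1) ∧
    ContinuousOn (qt g) (Set.Ioo 0 1) :=
  ⟨ad_strict h, fun _ hu => (ad_cont h hu).continuousWithinAt⟩

theorem qt_deriv {g d : ℝ → ℝ} (h : Dn g d) {u : ℝ} (hu : u ∈ Set.Ioo (0 : ℝ) 1) :
    HasDerivAt (qt g) (1 / g (qt g u)) u := by
  rw [one_div]
  apply HasDerivAt.of_local_left_inverse (ad_cont h hu) (ad_deriv h (qt g u))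
    (qt_basic h hu).1.ne'
  filter_upwards [Ioo_mem_nhds hu.1 hu.2] with v hv
  exact ad_val h hv

theorem qt_law {g d : ℝ → ℝ} (h : Dn g d) {Φ : ℝ → ENNReal} (hΦ : Measurable Φ) :
    ∫⁻ u in Set.Ioo (0 : ℝ) 1, Φ (qt g u) = ∫⁻ x, ENNReal.ofReal (g x) * Φ x := by
  have ho : IsOpen {x | 0 < g x} := isOpen_lt continuous_const h.cont
  have hims : (fun x => ∫ y in Set.Iic x, g y) '' {x | 0 < g x} = Set.Ioo (0 : ℝ) 1 := by
    ext u
    constructor
    · rintro ⟨x, hx, rfl⟩
      exact (qt_inv h hx).1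
    · intro hu
      exact ⟨qt g u, (qt_basic h hu).1, (qt_basic h hu).2⟩
  have hinj : Set.InjOn (fun x => ∫ y in Set.Iic x, g y) {x | 0 < g x} := by
    intro x hx y hy hxy
    dsimp only at hxy
    rw [← (qt_inv h hx).2, hxy, (qt_inv h hy).2]
  rw [← hims, lintegral_image_eq_lintegral_abs_deriv_mul ho.measurableSet
    (fun x _ => (ad_deriv h x).hasDerivWithinAt) hinj]
  have h1 : ∫⁻ x in {x | 0 < g x}, ENNReal.ofReal |g x| * Φ (qt g (∫ y in Set.Iic x, g y)) =
      ∫⁻ x in {x | 0 < g x}, ENNReal.ofReal (g x) * Φ x := by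
    apply setLIntegral_congr_fun ho.measurableSet
    intro x hx
    dsimp only
    rw [(qt_inv h hx).2, abs_of_nonneg (h.nonneg x)]
  rw [h1, ← lintegral_indicator ho.measurableSet]
  apply lintegral_congr
  intro x
  by_cases hx : 0 < g x
  · rw [Set.indicator_of_mem (show x ∈ {x | 0 < g x} from hx)]
  · rw [Set.indicator_of_notMem (show x ∉ {x | 0 < g x} from hx)]
    have : g x = 0 := le_antisymm (not_lt.1 hx) (h.nonneg x)
    rw [this, ENNReal.ofReal_zero, zero_mul]

theorem qt_bound {g d : ℝ → ℝ} (h : Dn g d) {R : ℝ} (hR : ∀ x, g x ≠ 0 → |x| ≤ R) (u : ℝ)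
    (hu : u ∈ Set.Ioo (0 : ℝ) 1) : |qt g u| ≤ R :=
  hR _ (qt_basic h hu).1.ne'

end HK
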