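import Mathlib
import Pool.Agent.Lib_helper12.HK.DefsA
import Pool.Agent.Lib_helper12.HK.W.ad

set_option autoImplicit false

namespace HK

open MeasureTheory QG

theorem ae_image {g d : ℝ → ℝ} (h : Dn g d) {u v : ℝ} (hu : u ∈ Set.Ioo (0 : ℝ) 1)
    (hv : v ∈ Set.Ioo (0 : ℝ) 1) (huv : u ≤ v) :
    qt g '' Set.Icc u v = Set.Icc (qt g u) (qt g v) := by
  obtain ⟨hm, hc⟩ := qt_strict h
  have hsub : Set.Icc u v ⊆ Set.Ioo (0 : ℝ) 1 := fun w hw =>
    ⟨lt_of_lt_of_le hu.1 hw.1, lt_of_le_of_lt hw.2 hv.2⟩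
  apply Set.Subset.antisymm
  · rintro _ ⟨w, hw, rfl⟩
    exact ⟨hm.monotoneOn hu (hsub hw) hw.1, hm.monotoneOn (hsub hw) hv hw.2⟩
  · exact intermediate_value_Icc huv (hc.mono hsub)

theorem ae_ftc {g d : ℝ → ℝ} (h : Dn g d) {u v : ℝ} (hu : u ∈ Set.Ioo (0 : ℝ) 1)
    (hv : v ∈ Set.Ioo (0 : ℝ) 1) (huv : u ≤ v) :
    g (qt g v) - g (qt g u) = ∫ w in u..v, d (qt g w) / g (qt g w) := by
  obtain ⟨hm, hc⟩ := qt_strict h
  have hsub : Set.Icc u v ⊆ Set.Ioo (0 : ℝ) 1 := fun w hw =>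
    ⟨lt_of_lt_of_le hu.1 hw.1, lt_of_le_of_lt hw.2 hv.2⟩
  have hle : qt g u ≤ qt g v := hm.monotoneOn hu hv huv
  rw [h.ftc, intervalIntegral.integral_of_le hle, intervalIntegral.integral_of_le huv,
    ← integral_Icc_eq_integral_Ioc, ← integral_Icc_eq_integral_Ioc, ← ae_image h hu hv huv,
    integral_image_eq_integral_abs_deriv_smul measurableSet_Icc
      (fun w hw => (qt_deriv h (hsub hw)).hasDerivWithinAt) (hm.injOn.mono hsub)]
  refine setIntegral_congr_fun measurableSet_Icc fun w hw => ?_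
  have hp := (qt_basic h (hsub hw)).1
  rw [abs_of_pos (one_div_pos.mpr hp), smul_eq_mul]
  ring

/-- the density along the quantile function -/
theorem rho_ftc {g d : ℝ → ℝ} (h : Dn g d) {u v : ℝ} (hu : u ∈ Set.Ioo (0 : ℝ) 1)
    (hv : v ∈ Set.Ioo (0 : ℝ) 1) :
    g (qt g v) - g (qt g u) = ∫ w in u..v, d (qt g w) / g (qt g w) := by
  rcases le_total u v with huv | huv
  · exact ae_ftc h hu hv huv
  · rw [intervalIntegral.integral_symm, ← ae_ftc h hv hu huv]
    ring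

theorem rho_zero {g d : ℝ → ℝ} (h : Dn g d) :
    Filter.Tendsto (fun u => g (qt g u)) (nhdsWithin 0 (Set.Ioi 0)) (nhds 0) ∧
      Filter.Tendsto (fun u => g (qt g u)) (nhdsWithin 1 (Set.Iio 1)) (nhds 0) := by
  obtain ⟨hm, hc⟩ := qt_strict h
  obtain ⟨R, hR⟩ := h.supp
  have hne : (Set.Ioo (0 : ℝ) 1).Nonempty := ⟨1 / 2, by norm_num, by norm_num⟩
  have hbb : BddBelow (qt g '' Set.Ioo (0 : ℝ) 1) := by
    refine ⟨-R, ?_⟩
    rintro _ ⟨u, hu, rfl⟩
    exact (abs_le.mp (qt_bound h hR u hu)).1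
  have hba : BddAbove (qt g '' Set.Ioo (0 : ℝ) 1) := by
    refine ⟨R, ?_⟩
    rintro _ ⟨u, hu, rfl⟩
    exact (abs_le.mp (qt_bound h hR u hu)).2
  constructor
  · have ht := MonotoneOn.tendsto_nhdsWithin_Ioo_right hne hm.monotoneOn hbb
    set L := sInf (qt g '' Set.Ioo (0 : ℝ) 1) with hL
    have hg : g L = 0 := by
      by_contra h0
      have hpos : 0 < g L := lt_of_le_of_ne (h.nonneg L) (Ne.symm h0)
      obtain ⟨hF, hq⟩ := qt_inv h hpos
      set F := ∫ y in Set.Iic L, g y with hFdef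
      have hF2 : F / 2 ∈ Set.Ioo (0 : ℝ) 1 := ⟨by linarith [hF.1], by linarith [hF.1, hF.2]⟩
      have hlt : qt g (F / 2) < qt g F := hm hF2 hF (by linarith [hF.1])
      have hge : L ≤ qt g (F / 2) := csInf_le hbb ⟨_, hF2, rfl⟩
      rw [hq] at hlt
      exact absurd hlt (not_lt.mpr hge)
    have := (h.cont.tendsto L).comp ht
    rw [hg] at this
    exact this
  · have ht := MonotoneOn.tendsto_nhdsWithin_Ioo_left hne hm.monotoneOn hba
    set L := sSup (qt g '' Set.Ioo (0 : ℝ) 1) with hL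
    have hg : g L = 0 := by
      by_contra h0
      have hpos : 0 < g L := lt_of_le_of_ne (h.nonneg L) (Ne.symm h0)
      obtain ⟨hF, hq⟩ := qt_inv h hpos
      set F := ∫ y in Set.Iic L, g y with hFdef
      have hF2 : (F + 1) / 2 ∈ Set.Ioo (0 : ℝ) 1 :=
        ⟨by linarith [hF.1], by linarith [hF.1, hF.2]⟩
      have hlt : qt g F < qt g ((F + 1) / 2) := hm hF hF2 (by linarith [hF.2])
      have hge : qt g ((F + 1) / 2) ≤ L := le_csSup hba ⟨_, hF2, rfl⟩
      rw [hq] at hlt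
      exact absurd hlt (not_lt.mpr hge)
    have := (h.cont.tendsto L).comp ht
    rw [hg] at this
    exact this

theorem score_int {g d : ℝ → ℝ} (h : Dn g d) :
    IntegrableOn (fun u => d (qt g u) / g (qt g u)) (Set.Ioo 0 1) := by
  obtain ⟨hm, hc⟩ := qt_strict h
  obtain ⟨R, hR⟩ := h.supp
  obtain ⟨C, hC⟩ := h.bdd
  have hq : AEMeasurable (qt g) (volume.restrict (Set.Ioo (0 : ℝ) 1)) :=
    hc.aemeasurable measurableSet_Ioo
  have hmeas : Measurable (fun x => d x / g x) := h.meas.div h.cont.measurable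
  refine ⟨(hmeas.comp_aemeasurable hq).aestronglyMeasurable, ?_⟩
  rw [hasFiniteIntegral_iff_enorm]
  have hΦ : Measurable (fun x => ‖d x / g x‖ₑ) := hmeas.enorm
  have e := qt_law h hΦ
  rw [e]
  have hb : ∀ x, ENNReal.ofReal (g x) * ‖d x / g x‖ₑ ≤
      (Set.Icc (-R) R).indicator (fun _ => ENNReal.ofReal C) x := by
    intro x
    by_cases hx : g x = 0
    · rw [hx, ENNReal.ofReal_zero, zero_mul]
      exact bot_le
    · have hxR : x ∈ Set.Icc (-R) R := abs_le.mp (hR x hx)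
      rw [Set.indicator_of_mem hxR]
      have hg0 : 0 ≤ g x := h.nonneg x
      rw [Real.enorm_eq_ofReal_abs, ← ENNReal.ofReal_mul hg0, abs_div, abs_of_nonneg hg0,
        mul_div_cancel₀ _ hx]
      exact ENNReal.ofReal_le_ofReal (hC x)
  calc ∫⁻ x, ENNReal.ofReal (g x) * ‖d x / g x‖ₑ
      ≤ ∫⁻ x, (Set.Icc (-R) R).indicator (fun _ => ENNReal.ofReal C) x := lintegral_mono hb
    _ = ENNReal.ofReal C * volume (Set.Icc (-R) R) := by
        rw [lintegral_indicator measurableSet_Icc, setLIntegral_const]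
    _ < ⊤ := by
        rw [Real.volume_Icc]
        exact ENNReal.mul_lt_top ENNReal.ofReal_lt_top ENNReal.ofReal_lt_top

end HK
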