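import Mathlib
import Pool.Agent.Lib_helper12.HK.DefsA
import Pool.Agent.Lib_helper12.HK.W.ad
import Pool.Agent.Lib_helper12.HK.W.ae

set_option autoImplicit false

namespace HK

open MeasureTheory QG

/-- integration by parts for `h` of class `C¹` and `R` absolutely continuous -/
theorem af_parts {a b : ℝ} (hab : a ≤ b) {h h' R σ : ℝ → ℝ}
    (hd : ∀ u ∈ Set.Icc a b, HasDerivAt h (h' u) u) (hc : ContinuousOn h' (Set.Icc a b))
    (hR : ∀ u ∈ Set.Icc a b, R u - R a = ∫ w in a..u, σ w) (hσ : IntervalIntegrable σ volume a b)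
    (hpos : ∀ u ∈ Set.Icc a b, 0 ≤ h' u * R u) :
    ∫ u in a..b, h u * σ u ≤ h b * R b - h a * R a := by
  have hu : Set.uIcc a b = Set.Icc a b := Set.uIcc_of_le hab
  have haI : a ∈ Set.Icc a b := Set.left_mem_Icc.2 hab
  have hbI : b ∈ Set.Icc a b := Set.right_mem_Icc.2 hab
  obtain ⟨C, hC⟩ := isCompact_Icc.exists_bound_of_continuousOn hc
  have hlip : LipschitzOnWith (Real.toNNReal C) h (Set.uIcc a b) := by
    rw [hu]
    refine (convex_Icc a b).lipschitzOnWith_of_nnnorm_hasDerivWithin_le
      (fun x hx => (hd x hx).hasDerivWithinAt) fun x hx => ?_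
    rw [← NNReal.coe_le_coe, coe_nnnorm]
    exact (hC x hx).trans (Real.le_coe_toNNReal C)
  have hac := hlip.absolutelyContinuousOnInterval
  have hPac := hσ.absolutelyContinuousOnInterval_intervalIntegral (c := a) (by rw [hu]; exact haI)
  have key := hac.integral_mul_deriv_eq_deriv_mul hPac
  have e1 : ∫ x in a..b, h x * deriv (fun x => ∫ v in a..x, σ v) x = ∫ x in a..b, h x * σ x := by
    refine intervalIntegral.integral_congr_ae ?_
    filter_upwards [hσ.ae_hasDerivAt_integral] with x hx hx2
    have hx3 : x ∈ Set.uIcc a b := Set.uIoc_subset_uIcc hx2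
    rw [(hx hx3 a (by rw [hu]; exact haI)).deriv]
  have e2 : ∫ x in a..b, deriv h x * (∫ v in a..x, σ v) = ∫ x in a..b, h' x * (R x - R a) := by
    refine intervalIntegral.integral_congr fun x hx => ?_
    rw [hu] at hx
    show deriv h x * (∫ v in a..x, σ v) = h' x * (R x - R a)
    rw [(hd x hx).deriv, hR x hx]
  have hRc : ContinuousOn R (Set.Icc a b) := by
    have h1 : ContinuousOn (fun x => R a + ∫ v in a..x, σ v) (Set.Icc a b) := by
      have := hPac.continuousOn
      rw [hu] at this
      exact continuousOn_const.add this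
    refine h1.congr fun x hx => ?_
    show R x = R a + ∫ v in a..x, σ v
    rw [← hR x hx]; ring
  have hi1 : IntervalIntegrable (fun x => h' x * R x) volume a b := by
    refine ContinuousOn.intervalIntegrable ?_
    rw [hu]; exact hc.mul hRc
  have hi2 : IntervalIntegrable (fun x => h' x * R a) volume a b := by
    refine ContinuousOn.intervalIntegrable ?_
    rw [hu]; exact hc.mul continuousOn_const
  have hi3 : IntervalIntegrable h' volume a b := by
    refine ContinuousOn.intervalIntegrable ?_
    rw [hu]; exact hc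
  have e3 : ∫ x in a..b, h' x * (R x - R a) =
      (∫ x in a..b, h' x * R x) - (∫ x in a..b, h' x * R a) := by
    rw [← intervalIntegral.integral_sub hi1 hi2]
    refine intervalIntegral.integral_congr fun x _ => ?_
    show h' x * (R x - R a) = h' x * R x - h' x * R a
    ring
  have e4 : ∫ x in a..b, h' x * R a = (h b - h a) * R a := by
    rw [intervalIntegral.integral_mul_const,
      intervalIntegral.integral_eq_sub_of_hasDerivAt (fun x hx => hd x (by rwa [hu] at hx)) hi3]
  have e5 : 0 ≤ ∫ x in a..b, h' x * R x := intervalIntegral.integral_nonneg hab hpos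
  have e6 : (∫ v in a..b, σ v) = R b - R a := (hR b hbI).symm
  rw [e1, e2, e3, e4, intervalIntegral.integral_same, e6] at key
  rw [key]
  nlinarith

theorem af_gpos {g d : ℝ → ℝ} (h : Dn g d) : ContinuousOn (fun u => 1 / g (qt g u))
    (Set.Ioo 0 1) := by
  refine continuousOn_const.div (h.cont.comp_continuousOn (qt_strict h).2) fun u hu => ?_
  exact (qt_basic h hu).1.ne'

/-- Lemma K1: quantile coupling of two densities -/
theorem K1 {g d g' d' : ℝ → ℝ} (h : Dn g d) (h' : Dn g' d') :
    ∫ u in Set.Ioo (0 : ℝ) 1, (qt g' u - qt g u) *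
      (d (qt g u) / g (qt g u) - d' (qt g' u) / g' (qt g' u)) ≤ 0 := by
  obtain ⟨R1, hR1⟩ := h.supp
  obtain ⟨R2, hR2⟩ := h'.supp
  have b1 := qt_bound h hR1
  have b2 := qt_bound h' hR2
  set B : ℝ := R1 + R2 with hB
  have hhB : ∀ u ∈ Set.Ioo (0 : ℝ) 1, |qt g' u - qt g u| ≤ B := by
    intro u hu
    refine (abs_sub _ _).trans ?_
    have := b1 u hu
    have := b2 u hu
    linarith
  have hB0 : 0 ≤ B := (abs_nonneg _).trans (hhB (1 / 2) (by constructor <;> norm_num))
  have hint : IntegrableOn (fun u => (qt g' u - qt g u) *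
      (d (qt g u) / g (qt g u) - d' (qt g' u) / g' (qt g' u))) (Set.Ioo 0 1) := by
    refine Integrable.bdd_mul (c := B) ((score_int h).sub (score_int h')) ?_ ?_
    · exact ((qt_strict h').2.sub (qt_strict h).2).aestronglyMeasurable measurableSet_Ioo
    · filter_upwards [ae_restrict_mem measurableSet_Ioo] with u hu
      exact hhB u hu
  -- the inequality on compact intervals
  have step : ∀ a b : ℝ, 0 < a → a ≤ b → b < 1 → ∫ u in a..b, (qt g' u - qt g u) *
      (d (qt g u) / g (qt g u) - d' (qt g' u) / g' (qt g' u)) ≤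
      (qt g' b - qt g b) * (g (qt g b) - g' (qt g' b)) -
        (qt g' a - qt g a) * (g (qt g a) - g' (qt g' a)) := by
    intro a b ha hab hb
    have hsub : Set.Icc a b ⊆ Set.Ioo (0 : ℝ) 1 := fun x hx =>
      ⟨lt_of_lt_of_le ha hx.1, lt_of_le_of_lt hx.2 hb⟩
    have hI : ∀ {s : ℝ → ℝ}, IntegrableOn s (Set.Ioo 0 1) → ∀ u ∈ Set.Icc a b,
        IntervalIntegrable s volume a u := by
      intro s hs u hu
      rw [intervalIntegrable_iff_integrableOn_Icc_of_le hu.1]
      exact hs.mono_set ((Set.Icc_subset_Icc_right hu.2).trans hsub)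
    refine af_parts hab (h := fun u => qt g' u - qt g u)
      (h' := fun u => 1 / g' (qt g' u) - 1 / g (qt g u))
      (R := fun u => g (qt g u) - g' (qt g' u))
      (σ := fun u => d (qt g u) / g (qt g u) - d' (qt g' u) / g' (qt g' u)) ?_ ?_ ?_ ?_ ?_
    · intro u hu
      exact (qt_deriv h' (hsub hu)).sub (qt_deriv h (hsub hu))
    · exact ((af_gpos h').mono hsub).sub ((af_gpos h).mono hsub)
    · intro u hu
      have haI := hsub (Set.left_mem_Icc.2 hab)
      have e1 := rho_ftc h haI (hsub hu)
      have e2 := rho_ftc h' haI (hsub hu)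
      rw [intervalIntegral.integral_sub (hI (score_int h) u hu) (hI (score_int h') u hu),
        ← e1, ← e2]
      ring
    · exact (hI (score_int h) b (Set.right_mem_Icc.2 hab)).sub
        (hI (score_int h') b (Set.right_mem_Icc.2 hab))
    · intro u hu
      have p1 := (qt_basic h (hsub hu)).1
      have p2 := (qt_basic h' (hsub hu)).1
      have e : (1 / g' (qt g' u) - 1 / g (qt g u)) * (g (qt g u) - g' (qt g' u)) =
          (g (qt g u) - g' (qt g' u)) ^ 2 / (g (qt g u) * g' (qt g' u)) := by
        field_simp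
      show 0 ≤ (1 / g' (qt g' u) - 1 / g (qt g u)) * (g (qt g u) - g' (qt g' u))
      rw [e]
      positivity
  -- exhaustion of the unit interval
  set A : ℕ → ℝ := fun n => 1 / ((n : ℝ) + 2) with hA
  have hA0 : ∀ n, 0 < A n := fun n => by simp only [hA]; positivity
  have hA1 : ∀ n, A n ≤ 1 / 2 := by
    intro n
    simp only [hA]
    refine one_div_le_one_div_of_le (by norm_num) ?_
    have : (0 : ℝ) ≤ n := Nat.cast_nonneg n
    linarith
  have hAt : Filter.Tendsto A Filter.atTop (nhds 0) := by
    have h1 := tendsto_one_div_add_atTop_nhds_zero_nat (𝕜 := ℝ)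
    have h2 := h1.comp (Filter.tendsto_add_atTop_nat 1)
    refine h2.congr fun n => ?_
    simp only [hA, Function.comp]
    push_cast
    ring_nf
  have hAanti : Antitone A := by
    intro m n hmn
    simp only [hA]
    refine one_div_le_one_div_of_le (by positivity) ?_
    have : (m : ℝ) ≤ n := by exact_mod_cast hmn
    linarith
  set s : ℕ → Set ℝ := fun n => Set.Ioc (A n) (1 - A n) with hs
  have hmono : Monotone s := by
    intro m n hmn
    have := hAanti hmn
    exact Set.Ioc_subset_Ioc this (by linarith)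
  have hunion : (⋃ n, s n) = Set.Ioo (0 : ℝ) 1 := by
    ext x
    rw [Set.mem_iUnion, Set.mem_Ioo]
    constructor
    · rintro ⟨n, hn⟩
      have h1 := hA0 n
      exact ⟨lt_trans h1 hn.1, by linarith [hn.2]⟩
    · rintro ⟨h1, h2⟩
      have h3 : 0 < min x (1 - x) := lt_min h1 (by linarith)
      obtain ⟨n, hn⟩ := ((hAt.eventually (gt_mem_nhds h3))).exists
      refine ⟨n, lt_of_lt_of_le hn (min_le_left _ _), ?_⟩
      have := lt_of_lt_of_le hn (min_le_right _ _)
      linarith
  have hlim := tendsto_setIntegral_of_monotone (μ := volume) (f := fun u => (qt g' u - qt g u) *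
      (d (qt g u) / g (qt g u) - d' (qt g' u) / g' (qt g' u))) (s := s)
    (fun n => measurableSet_Ioc) hmono (by rw [hunion]; exact hint)
  rw [hunion] at hlim
  -- the boundary terms
  have hF : ∀ u ∈ Set.Ioo (0 : ℝ) 1, |(qt g' u - qt g u) * (g (qt g u) - g' (qt g' u))| ≤
      B * (g (qt g u) + g' (qt g' u)) := by
    intro u hu
    rw [abs_mul]
    refine mul_le_mul (hhB u hu) ?_ (abs_nonneg _) hB0
    refine (abs_sub _ _).trans ?_
    rw [abs_of_nonneg (h.nonneg _), abs_of_nonneg (h'.nonneg _)]
  have hFlim : ∀ {l : Filter ℝ} {v : ℕ → ℝ}, (∀ n, v n ∈ Set.Ioo (0 : ℝ) 1) →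
      Filter.Tendsto v Filter.atTop l →
      Filter.Tendsto (fun u => g (qt g u)) l (nhds 0) →
      Filter.Tendsto (fun u => g' (qt g' u)) l (nhds 0) →
      Filter.Tendsto (fun n => (qt g' (v n) - qt g (v n)) * (g (qt g (v n)) - g' (qt g' (v n))))
        Filter.atTop (nhds 0) := by
    intro l v hv hvl h1 h2
    refine squeeze_zero_norm (fun n => hF (v n) (hv n)) ?_
    have h3 := ((h1.comp hvl).add (h2.comp hvl)).const_mul B
    simpa using h3
  have hAmem : ∀ n, A n ∈ Set.Ioo (0 : ℝ) 1 := fun n => ⟨hA0 n, by linarith [hA1 n]⟩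
  have hBmem : ∀ n, 1 - A n ∈ Set.Ioo (0 : ℝ) 1 := fun n =>
    ⟨by linarith [hA1 n], by linarith [hA0 n]⟩
  have hl0 : Filter.Tendsto A Filter.atTop (nhdsWithin 0 (Set.Ioi 0)) :=
    tendsto_nhdsWithin_iff.2 ⟨hAt, Filter.Eventually.of_forall hA0⟩
  have hl1 : Filter.Tendsto (fun n => 1 - A n) Filter.atTop (nhdsWithin 1 (Set.Iio 1)) := by
    refine tendsto_nhdsWithin_iff.2 ⟨?_, Filter.Eventually.of_forall fun n => ?_⟩
    · have := hAt.const_sub 1
      simpa using this
    · show 1 - A n < 1
      linarith [hA0 n]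
  have F0 := hFlim hAmem hl0 (rho_zero h).1 (rho_zero h').1
  have F1 := hFlim hBmem hl1 (rho_zero h).2 (rho_zero h').2
  have Fl := F1.sub F0
  rw [sub_zero] at Fl
  refine le_of_tendsto_of_tendsto' hlim Fl fun n => ?_
  have hle : A n ≤ 1 - A n := by linarith [hA1 n]
  have := step (A n) (1 - A n) (hA0 n) hle (by linarith [hA0 n])
  rw [intervalIntegral.integral_of_le hle] at this
  exact this

end HK
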