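import Mathlib
import Pool.Agent.Lib_helper12.HK.DefsA
import Pool.Agent.Lib_helper12.HK.W.ad

set_option autoImplicit false

namespace HK

open MeasureTheory QG

theorem ag_integrable {g d : ℝ → ℝ} (h : Dn g d) : Integrable g := by
  obtain ⟨R, hR⟩ := h.supp
  refine h.cont.integrable_of_hasCompactSupport
    (HasCompactSupport.intro (K := Set.Icc (-R) R) isCompact_Icc ?_)
  intro x hx
  by_contra hne
  exact hx (abs_le.mp (hR x hne))

theorem ag_shift_Iic (f : ℝ → ℝ) (x M : ℝ) :
    ∫ r in Set.Iic x, f (r + M) = ∫ r in Set.Iic (x + M), f r := by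
  have h := (measurePreserving_add_right (volume : Measure ℝ) M).setIntegral_preimage_emb
    (measurableEmbedding_addRight M) f (Set.Iic (x + M))
  have e : (fun r : ℝ => r + M) ⁻¹' Set.Iic (x + M) = Set.Iic x := by
    ext r
    simp
  rw [e] at h
  exact h

theorem ag_shift_Ioi (f : ℝ → ℝ) (x M : ℝ) :
    ∫ r in Set.Ioi x, f (r + M) = ∫ r in Set.Ioi (x + M), f r := by
  have h := (measurePreserving_add_right (volume : Measure ℝ) M).setIntegral_preimage_emb
    (measurableEmbedding_addRight M) f (Set.Ioi (x + M))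
  have e : (fun r : ℝ => r + M) ⁻¹' Set.Ioi (x + M) = Set.Ioi x := by
    ext r
    simp
  rw [e] at h
  exact h

theorem ag_split {g d : ℝ → ℝ} (h : Dn g d) (x : ℝ) :
    ∫ r in Set.Ioi x, g r = 1 - ∫ r in Set.Iic x, g r := by
  have hi := ag_integrable h
  have h1 := integral_add_compl (measurableSet_Iic (a := x)) hi
  rw [Set.compl_Iic, h.int] at h1
  linarith

/-- comparison of quantiles -/
theorem qt_le {g d g' d' : ℝ → ℝ} (h : Dn g d) (h' : Dn g' d') {M : ℝ}
    (hr : ∀ r1 r2, r2 ≤ r1 → g' (r1 + M) * g r2 ≤ g' (r2 + M) * g r1) {u : ℝ}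
    (hu : u ∈ Set.Ioo (0 : ℝ) 1) : qt g' u ≤ qt g u + M := by
  have hg := ag_integrable h
  have hg' := ag_integrable h'
  have hgs : Integrable (fun r => g' (r + M)) := hg'.comp_add_right M
  obtain ⟨x, hx⟩ : ∃ x, x = qt g u := ⟨_, rfl⟩
  have hcx : ∫ y in Set.Iic x, g y = u := by
    rw [hx]
    exact (qt_basic h hu).2
  obtain ⟨A, hA⟩ : ∃ A, A = ∫ r in Set.Ioi x, g' (r + M) := ⟨_, rfl⟩
  obtain ⟨B, hB⟩ : ∃ B, B = ∫ r in Set.Ioi x, g r := ⟨_, rfl⟩
  have step1 : ∀ r2, r2 ≤ x → A * g r2 ≤ B * g' (r2 + M) := by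
    intro r2 hr2
    have h1 : ∫ r in Set.Ioi x, g' (r + M) * g r2 ≤ ∫ r in Set.Ioi x, g r * g' (r2 + M) := by
      refine setIntegral_mono_on (hgs.mul_const _).integrableOn (hg.mul_const _).integrableOn
        measurableSet_Ioi ?_
      intro r1 hr1
      have h2 := hr r1 r2 (le_trans hr2 (le_of_lt hr1))
      rw [mul_comm (g r1)]
      exact h2
    rw [integral_mul_const, integral_mul_const, ← hA, ← hB] at h1
    exact h1
  have step2 : A * u ≤ B * ∫ r in Set.Iic (x + M), g' r := by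
    have h1 : ∫ r in Set.Iic x, A * g r ≤ ∫ r in Set.Iic x, B * g' (r + M) := by
      refine setIntegral_mono_on (hg.const_mul _).integrableOn (hgs.const_mul _).integrableOn
        measurableSet_Iic ?_
      intro r2 hr2
      exact step1 r2 hr2
    rw [integral_const_mul, integral_const_mul, hcx, ag_shift_Iic] at h1
    exact h1
  rw [ag_shift_Ioi, ag_split h'] at hA
  rw [ag_split h, hcx] at hB
  have key : u ≤ ∫ r in Set.Iic (x + M), g' r := by
    rw [hA, hB] at step2
    nlinarith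
  have hqt : qt g' u = sInf {x | u ≤ ∫ y in Set.Iic x, g' y} := by
    unfold qt
    rw [if_pos hu]
  rw [hqt, ← hx]
  refine csInf_le ?_ key
  obtain ⟨R, hR⟩ := h'.supp
  refine ⟨-R, ?_⟩
  intro y hy
  by_contra hlt
  have hlt2 : y < -R := not_le.mp hlt
  have h0 : ∫ r in Set.Iic y, g' r = 0 := by
    rw [setIntegral_eq_zero_of_forall_eq_zero]
    intro r hr
    by_contra hne
    have h3 := (abs_le.mp (hR r hne)).1
    have h4 : r ≤ y := hr
    linarith
  have h5 : u ≤ ∫ r in Set.Iic y, g' r := hy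
  rw [h0] at h5
  exact absurd hu.1 (not_lt.mpr h5)

end HK
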