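import Mathlib
import Pool.Agent.Lib_helper12.HK.DefsA
import Pool.Agent.Lib_helper12.HK.DefsB
import Pool.Agent.Lib_helper12.HK.W.ab

set_option autoImplicit false

namespace HK

open MeasureTheory QG

variable {A : Type} [Fintype A] [DecidableEq A] {p : A}

omit [Fintype A] in
theorem ba_uf_p {S : Finset A} (hS : p ∉ S) {x : A → ℝ} (hx : x p = 0) (y : S → ℝ) :
    Function.updateFinset x S y p = 0 := by
  simp [Function.updateFinset, hS, hx]

omit [Fintype A] in
theorem ba_uf_mem {S : Finset A} {x : A → ℝ} (y : S → ℝ) (i : S) :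
    Function.updateFinset x S y i = y i := by
  simp [Function.updateFinset]

omit [Fintype A] in
theorem ba_cont {S : Finset A} (x : A → ℝ) :
    Continuous (fun y : S → ℝ => Function.updateFinset x S y) := by
  refine continuous_pi fun i => ?_
  by_cases hi : i ∈ S
  · simp only [Function.updateFinset, hi, dite_true]
    exact continuous_apply _
  · simp only [Function.updateFinset, hi, dite_false]
    exact continuous_const

/-- functions measurable and integrable on all slices -/
structure ba_Nice (p : A) (H : (A → ℝ) → ℝ) : Prop where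
  meas : Measurable H
  int : ∀ (S : Finset A) (x : A → ℝ), p ∉ S → x p = 0 →
    Integrable (fun y : S → ℝ => H (Function.updateFinset x S y))

theorem ba_nice_of_bdd {H : (A → ℝ) → ℝ} (hm : Measurable H) {R C : ℝ}
    (hC : ∀ x, x p = 0 → |H x| ≤ C) (hR : ∀ x, x p = 0 → H x ≠ 0 → ∀ i, |x i| ≤ R) :
    ba_Nice p H := by
  refine ⟨hm, ?_⟩
  intro S x hS hx
  have hI : Integrable (Set.indicator (Set.Icc (fun _ : S => -R) (fun _ => R))
      (fun _ : S → ℝ => C)) := by
    rw [integrable_indicator_iff measurableSet_Icc]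
    exact integrableOn_const (isCompact_Icc.measure_lt_top).ne
  refine hI.mono' (hm.comp measurable_updateFinset).aestronglyMeasurable
    (Filter.Eventually.of_forall ?_)
  intro y
  by_cases hy : H (Function.updateFinset x S y) = 0
  · rw [hy, norm_zero]
    refine Set.indicator_nonneg ?_ _
    intro _ _
    exact (abs_nonneg _).trans (hC _ (ba_uf_p hS hx y))
  · have hmem : y ∈ Set.Icc (fun _ : S => -R) (fun _ => R) := by
      have h := hR _ (ba_uf_p hS hx y) hy
      constructor
      · intro i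
        have := h i
        rw [ba_uf_mem, abs_le] at this
        exact this.1
      · intro i
        have := h i
        rw [ba_uf_mem, abs_le] at this
        exact this.2
    rw [Set.indicator_of_mem hmem]
    exact hC _ (ba_uf_p hS hx y)

theorem ba_bound {f : (A → ℝ) → ℝ} {D : A → (A → ℝ) → ℝ} (hf : Reg p f D) :
    ∃ C : ℝ, ∀ x, x p = 0 → |f x| ≤ C := by
  obtain ⟨R, hR⟩ := hf.supp
  have hK : IsCompact (Set.Icc (fun _ : A => -R) (fun _ => R)) := isCompact_Icc
  obtain ⟨C, hC⟩ := hK.exists_bound_of_continuousOn hf.cont.continuousOn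
  refine ⟨max C 0, ?_⟩
  intro x hx
  by_cases h : f x = 0
  · rw [h, abs_zero]; exact le_max_right _ _
  · have hb := hR x hx h
    refine le_trans ?_ (le_max_left _ _)
    have := hC x ⟨fun i => (abs_le.1 (hb i)).1, fun i => (abs_le.1 (hb i)).2⟩
    simpa [Real.norm_eq_abs] using this

theorem ba_nice_f {f : (A → ℝ) → ℝ} {D : A → (A → ℝ) → ℝ} (hf : Reg p f D) : ba_Nice p f := by
  obtain ⟨R, hR⟩ := hf.supp
  obtain ⟨C, hC⟩ := ba_bound hf
  exact ba_nice_of_bdd hf.cont.measurable hC hR

theorem ba_nice_D {f : (A → ℝ) → ℝ} {D : A → (A → ℝ) → ℝ} (hf : Reg p f D) (k : A) :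
    ba_Nice p (D k) := by
  obtain ⟨R, hR⟩ := hf.supp
  obtain ⟨C, hC⟩ := hf.bdd
  refine ba_nice_of_bdd (hf.meas k) (R := R) (fun x hx => hC k x hx) ?_
  intro x hx h
  exact hR x hx (fun h0 => h (hf.zero k x h0))

theorem ba_lmg {H : (A → ℝ) → ℝ} (hH : ba_Nice p H) (h0 : ∀ y, 0 ≤ H y) {S : Finset A}
    (hS : p ∉ S) {x : A → ℝ} (hx : x p = 0) :
    lmg (fun y => ENNReal.ofReal (H y)) S x = ENNReal.ofReal (mg H S x) := by
  unfold lmg mg
  rw [ofReal_integral_eq_lintegral_ofReal (hH.int S x hS hx)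
    (Filter.Eventually.of_forall fun y => h0 _)]

theorem ba_mg_nonneg {H : (A → ℝ) → ℝ} (h0 : ∀ y, 0 ≤ H y) (S : Finset A)
    (x : A → ℝ) : 0 ≤ mg H S x :=
  integral_nonneg fun _ => h0 _

/-- the relation between the two versions of the marginals -/
theorem mg_eq_lmg {f : (A → ℝ) → ℝ} {D : A → (A → ℝ) → ℝ} (hf : Reg p f D) {S : Finset A}
    (hS : p ∉ S) {x : A → ℝ} (hx : x p = 0) :
    lmg (fun y => ENNReal.ofReal (f y)) S x = ENNReal.ofReal (mg f S x) ∧ 0 ≤ mg f S x :=
  ⟨ba_lmg (ba_nice_f hf) hf.nonneg hS hx, ba_mg_nonneg hf.nonneg S x⟩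

/-- the integrands are integrable -/
theorem mg_integrable {f : (A → ℝ) → ℝ} {D : A → (A → ℝ) → ℝ} (hf : Reg p f D) {S : Finset A}
    (hS : p ∉ S) {x : A → ℝ} (hx : x p = 0) :
    Integrable (fun y : S → ℝ => f (Function.updateFinset x S y)) ∧
      ∀ k, Integrable (fun y : S → ℝ => D k (Function.updateFinset x S y)) :=
  ⟨(ba_nice_f hf).int S x hS hx, fun k => (ba_nice_D hf k).int S x hS hx⟩

theorem mg_meas {f : (A → ℝ) → ℝ} (hf : Measurable f) (S : Finset A) : Measurable (mg f S) := by
  have h : Measurable (fun z : (A → ℝ) × (S → ℝ) => f (Function.updateFinset z.1 S z.2)) :=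
    hf.comp measurable_updateFinset'
  exact (StronglyMeasurable.integral_prod_right (ν := (volume : Measure (S → ℝ)))
    (f := fun (x : A → ℝ) (y : S → ℝ) => f (Function.updateFinset x S y))
    h.stronglyMeasurable).measurable

theorem mg_empty (f : (A → ℝ) → ℝ) : mg f ∅ = f := by
  funext x
  unfold mg
  simp only [Function.updateFinset_empty]
  rw [integral_const]
  have : (volume : Measure ((∅ : Finset A) → ℝ)).real Set.univ = 1 := by
    rw [volume_pi, Measure.pi_of_empty]
    simp
  rw [this, one_smul]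

/-- a marginal does not depend on the coordinates in `S` -/
theorem mg_indep (f : (A → ℝ) → ℝ) (S : Finset A) {x y : A → ℝ} (h : ∀ i ∉ S, x i = y i) :
    mg f S x = mg f S y := by
  unfold mg
  congr 1
  funext z
  congr 1
  funext i
  by_cases hi : i ∈ S
  · simp [Function.updateFinset, hi]
  · simp [Function.updateFinset, hi, h i hi]

theorem ba_erase_pos {H : (A → ℝ) → ℝ} (hH : ba_Nice p H) (h0 : ∀ y, 0 ≤ H y) {S : Finset A}
    (hS : p ∉ S) {k : A} (hk : k ∈ S) {x : A → ℝ} (hx : x p = 0) :
    Integrable (fun r => mg H (S.erase k) (Function.update x k r)) ∧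
      mg H S x = ∫ r, mg H (S.erase k) (Function.update x k r) := by
  have hkp : p ≠ k := fun h => hS (h ▸ hk)
  have hS' : p ∉ S.erase k := fun h => hS (Finset.mem_of_mem_erase h)
  have hx' : ∀ r, Function.update x k r p = 0 := fun r => by
    rw [Function.update_of_ne hkp, hx]
  have e1 : ∫⁻ r, ENNReal.ofReal (mg H (S.erase k) (Function.update x k r)) =
      ENNReal.ofReal (mg H S x) := by
    rw [← ba_lmg hH h0 hS hx, lmg_erase hH.meas.ennreal_ofReal hk x]
    apply lintegral_congr
    intro r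
    rw [ba_lmg hH h0 hS' (hx' r)]
  have hm : Measurable (fun r => mg H (S.erase k) (Function.update x k r)) :=
    (mg_meas hH.meas _).comp (measurable_update x)
  have hnn : ∀ r, 0 ≤ mg H (S.erase k) (Function.update x k r) :=
    fun r => ba_mg_nonneg h0 _ _
  have hI : Integrable (fun r => mg H (S.erase k) (Function.update x k r)) := by
    refine ⟨hm.aestronglyMeasurable, ?_⟩
    rw [hasFiniteIntegral_iff_ofReal (Filter.Eventually.of_forall hnn), e1]
    exact ENNReal.ofReal_lt_top
  refine ⟨hI, ?_⟩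
  rw [integral_eq_lintegral_of_nonneg_ae (Filter.Eventually.of_forall hnn)
    hm.aestronglyMeasurable, e1, ENNReal.toReal_ofReal (ba_mg_nonneg h0 _ _)]

theorem ba_erase {H : (A → ℝ) → ℝ} (hH : ba_Nice p H) {S : Finset A}
    (hS : p ∉ S) {k : A} (hk : k ∈ S) {x : A → ℝ} (hx : x p = 0) :
    mg H S x = ∫ r, mg H (S.erase k) (Function.update x k r) := by
  have hkp : p ≠ k := fun h => hS (h ▸ hk)
  have hS' : p ∉ S.erase k := fun h => hS (Finset.mem_of_mem_erase h)
  have hx' : ∀ r, Function.update x k r p = 0 := fun r => by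
    rw [Function.update_of_ne hkp, hx]
  have hP : ba_Nice p (fun y => max (H y) 0) :=
    ⟨hH.meas.max measurable_const, fun S x hS hx => (hH.int S x hS hx).pos_part⟩
  have hN : ba_Nice p (fun y => max (-H y) 0) :=
    ⟨hH.meas.neg.max measurable_const, fun S x hS hx => (hH.int S x hS hx).neg_part⟩
  have hs : ∀ (S : Finset A) (x : A → ℝ), p ∉ S → x p = 0 →
      mg H S x = mg (fun y => max (H y) 0) S x - mg (fun y => max (-H y) 0) S x := by
    intro S x hS hx
    unfold mg
    rw [← integral_sub (hP.int S x hS hx) (hN.int S x hS hx)]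
    congr 1
    funext y
    rcases le_total 0 (H (Function.updateFinset x S y)) with h | h
    · rw [max_eq_left h, max_eq_right (neg_nonpos.2 h), sub_zero]
    · rw [max_eq_right h, max_eq_left (neg_nonneg.2 h)]; ring
  have h1 := ba_erase_pos hP (fun y => le_max_right _ _) hS hk hx
  have h2 := ba_erase_pos hN (fun y => le_max_right _ _) hS hk hx
  rw [hs S x hS hx, h1.2, h2.2, ← integral_sub h1.1 h2.1]
  congr 1
  funext r
  rw [hs (S.erase k) _ hS' (hx' r)]

/-- integration of one coordinate -/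
theorem mg_erase {f : (A → ℝ) → ℝ} {D : A → (A → ℝ) → ℝ} (hf : Reg p f D) {S : Finset A}
    (hS : p ∉ S) {k : A} (hk : k ∈ S) {x : A → ℝ} (hx : x p = 0) :
    mg f S x = ∫ r, mg f (S.erase k) (Function.update x k r) ∧
      ∀ j, mg (D j) S x = ∫ r, mg (D j) (S.erase k) (Function.update x k r) :=
  ⟨ba_erase (ba_nice_f hf) hS hk hx, fun j => ba_erase (ba_nice_D hf j) hS hk hx⟩

/-- the starting state is legal -/
theorem mg_start {f : (A → ℝ) → ℝ} {D : A → (A → ℝ) → ℝ} (hf : Reg p f D) :
    mg f (Finset.univ.erase p) 0 = 1 := by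
  have h1 : ∫⁻ x, ENNReal.ofReal (f x) ∂bs p = lmg (fun y => ENNReal.ofReal (f y))
      (Finset.univ.erase p) 0 := lmg_bs hf.cont.measurable.ennreal_ofReal p
  rw [(mg_eq_lmg hf (Finset.notMem_erase p _) (x := 0) rfl).1] at h1
  have h2 := integral_eq_lintegral_of_nonneg_ae (μ := bs p)
    (Filter.Eventually.of_forall hf.nonneg) hf.cont.measurable.aestronglyMeasurable
  rw [h1, hf.int, ENNReal.toReal_ofReal
    (mg_eq_lmg hf (Finset.notMem_erase p _) (x := 0) rfl).2] at h2
  exact h2.symm

end HK
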