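import Mathlib
import Pool.Agent.Lib_helper12.HK.DefsA
import Pool.Agent.Lib_helper12.HK.DefsB
import Pool.Agent.Lib_helper12.HK.W.ba

set_option autoImplicit false

namespace HK

open MeasureTheory QG

variable {A : Type} [Fintype A] [DecidableEq A] {p : A}

theorem bb_cont_y (x : A → ℝ) (S : Finset A) :
    Continuous (fun y : S → ℝ => Function.updateFinset x S y) := by
  refine continuous_pi fun i => ?_
  by_cases h : i ∈ S
  · simp only [Function.updateFinset, h, dite_true]
    exact continuous_apply _
  · simp only [Function.updateFinset, h, dite_false]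
    exact continuous_const

theorem bb_cont_x (S : Finset A) (y : S → ℝ) :
    Continuous (fun x : A → ℝ => Function.updateFinset x S y) := by
  refine continuous_pi fun i => ?_
  by_cases h : i ∈ S
  · simp only [Function.updateFinset, h, dite_true]
    exact continuous_const
  · simp only [Function.updateFinset, h, dite_false]
    exact continuous_apply _

theorem bb_off {S : Finset A} {i : A} (h : i ∉ S) (x : A → ℝ) (y : S → ℝ) :
    Function.updateFinset x S y i = x i := by
  simp only [Function.updateFinset, h, dite_false]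

theorem bb_on {S : Finset A} (i : S) (x : A → ℝ) (y : S → ℝ) :
    Function.updateFinset x S y i = y i := by
  simp only [Function.updateFinset, i.2, dite_true]

/-- the box -/
def bb_box (S : Finset A) (R : ℝ) : Set (S → ℝ) := Set.pi Set.univ (fun _ => Set.Icc (-R) R)

omit [Fintype A] [DecidableEq A] in
theorem bb_box_compact (S : Finset A) (R : ℝ) : IsCompact (bb_box S R) :=
  isCompact_univ_pi (fun _ => isCompact_Icc)

omit [Fintype A] [DecidableEq A] in
theorem bb_box_integrable (S : Finset A) (R C : ℝ) :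
    Integrable ((bb_box S R).indicator (fun _ => C)) := by
  have hm : MeasurableSet (bb_box S R) := (bb_box_compact S R).isClosed.measurableSet
  rw [integrable_indicator_iff hm]
  exact integrableOn_const ((bb_box_compact S R).measure_lt_top.ne)

/-- a function with values bounded by `C` that vanishes outside a box -/
theorem bb_bound {g : (A → ℝ) → ℝ} {R C : ℝ} (hC : ∀ z : A → ℝ, z p = 0 → |g z| ≤ C)
    (hR : ∀ z : A → ℝ, z p = 0 → g z ≠ 0 → ∀ i, |z i| ≤ R) {S : Finset A} {x : A → ℝ}
    (hx : x p = 0) (hS : p ∉ S) (y : S → ℝ) :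
    ‖g (Function.updateFinset x S y)‖ ≤ (bb_box S R).indicator (fun _ => C) y := by
  have hp : Function.updateFinset x S y p = 0 := by rw [bb_off hS, hx]
  rw [Real.norm_eq_abs]
  by_cases h : y ∈ bb_box S R
  · rw [Set.indicator_of_mem h]
    exact hC _ hp
  · rw [Set.indicator_of_notMem h]
    have h0 : g (Function.updateFinset x S y) = 0 := by
      by_contra hne
      refine h ?_
      intro i _
      have := hR _ hp hne i
      rw [bb_on] at this
      exact abs_le.1 this
    rw [h0, abs_zero]

theorem bb_fbound {f : (A → ℝ) → ℝ} {D : A → (A → ℝ) → ℝ} (hf : Reg p f D) :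
    ∃ R C : ℝ, (∀ z : A → ℝ, z p = 0 → |f z| ≤ C) ∧
      (∀ z : A → ℝ, z p = 0 → f z ≠ 0 → ∀ i, |z i| ≤ R) := by
  obtain ⟨R, hR⟩ := hf.supp
  have hK : IsCompact (Set.pi Set.univ (fun _ : A => Set.Icc (-R) R)) :=
    isCompact_univ_pi (fun _ => isCompact_Icc)
  obtain ⟨C, hC⟩ := hK.exists_bound_of_continuousOn hf.cont.continuousOn
  refine ⟨R, max C 0, ?_, hR⟩
  intro z hz
  by_cases h : f z = 0
  · rw [h, abs_zero]
    exact le_max_right _ _
  · refine le_trans ?_ (le_max_left _ _)
    have := hC z (fun i _ => abs_le.1 (hR z hz h i))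
    rwa [Real.norm_eq_abs] at this

/-- marginals are continuous and positive on convex sets -/
theorem mg_cont {f : (A → ℝ) → ℝ} {D : A → (A → ℝ) → ℝ} (hf : Reg p f D) {S : Finset A}
    (hS : p ∉ S) : ContinuousOn (mg f S) {x | x p = 0} := by
  obtain ⟨R, C, hC, hR⟩ := bb_fbound hf
  unfold mg
  refine continuousOn_of_dominated (bound := (bb_box S R).indicator (fun _ => C)) ?_ ?_
    (bb_box_integrable S R C) ?_
  · intro x _
    exact (hf.cont.comp (bb_cont_y x S)).aestronglyMeasurable
  · intro x hx
    exact Filter.Eventually.of_forall fun y => bb_bound hC hR hx hS y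
  · exact Filter.Eventually.of_forall fun y => (hf.cont.comp (bb_cont_x S y)).continuousOn

theorem mg_pos_iff {f : (A → ℝ) → ℝ} {D : A → (A → ℝ) → ℝ} (hf : Reg p f D) {S : Finset A}
    (hS : p ∉ S) {x : A → ℝ} (hx : x p = 0) :
    0 < mg f S x ↔ ∃ y : A → ℝ, (∀ i ∉ S, y i = x i) ∧ 0 < f y := by
  have hcont : Continuous (fun y : S → ℝ => f (Function.updateFinset x S y)) :=
    hf.cont.comp (bb_cont_y x S)
  constructor
  · intro h
    by_contra hcon
    push Not at hcon
    have h0 : mg f S x ≤ 0 := by
      unfold mg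
      refine integral_nonpos fun y => ?_
      exact hcon _ (fun i hi => bb_off hi x y)
    exact absurd h (not_lt.2 h0)
  · rintro ⟨y, hy, hfy⟩
    have hyS : Function.updateFinset x S (fun i : S => y i) = y := by
      funext i
      by_cases hi : i ∈ S
      · exact bb_on ⟨i, hi⟩ x _
      · rw [bb_off hi, hy i hi]
    unfold mg
    rw [integral_pos_iff_support_of_nonneg (fun y => hf.nonneg _) (mg_integrable hf hS hx).1]
    refine (hcont.isOpen_support).measure_pos _ ⟨fun i : S => y i, ?_⟩
    rw [Function.mem_support, hyS]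
    exact hfy.ne'

theorem mg_convex {f : (A → ℝ) → ℝ} {D : A → (A → ℝ) → ℝ} (hf : Reg p f D) {S : Finset A}
    (hS : p ∉ S) : Convex ℝ {x : A → ℝ | x p = 0 ∧ 0 < mg f S x} := by
  rintro x ⟨hx, hx'⟩ z ⟨hz, hz'⟩ a b ha hb hab
  obtain ⟨y, hy, hfy⟩ := (mg_pos_iff hf hS hx).1 hx'
  obtain ⟨w, hw, hfw⟩ := (mg_pos_iff hf hS hz).1 hz'
  have h0 : (a • x + b • z) p = 0 := by
    simp [hx, hz]
  refine ⟨h0, (mg_pos_iff hf hS h0).2 ⟨a • y + b • w, ?_, hf.conv hfy hfw ha hb hab⟩⟩
  intro i hi
  simp [hy i hi, hw i hi]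

theorem mg_supp {f : (A → ℝ) → ℝ} {D : A → (A → ℝ) → ℝ} (hf : Reg p f D) : ∃ R : ℝ,
    ∀ (S : Finset A) (x : A → ℝ), p ∉ S → x p = 0 → 0 < mg f S x → ∀ i ∉ S, |x i| ≤ R := by
  obtain ⟨R, hR⟩ := hf.supp
  refine ⟨R, ?_⟩
  intro S x hS hx h i hi
  obtain ⟨y, hy, hfy⟩ := (mg_pos_iff hf hS hx).1 h
  have hyp : y p = 0 := by rw [hy p hS, hx]
  rw [← hy i hi]
  exact hR y hyp hfy.ne' i

/-- the weak derivative of a marginal -/
theorem mg_ftc {f : (A → ℝ) → ℝ} {D : A → (A → ℝ) → ℝ} (hf : Reg p f D) {S : Finset A}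
    (hS : p ∉ S) {k : A} (hk : k ∉ S) (hkp : k ≠ p) {x : A → ℝ} (hx : x p = 0) (a b : ℝ) :
    mg f S (Function.update x k b) - mg f S (Function.update x k a) =
      ∫ r in a..b, mg (D k) S (Function.update x k r) := by
  obtain ⟨R, C0, hC0, hR⟩ := bb_fbound hf
  obtain ⟨C, hC⟩ := hf.bdd
  have hcomm : ∀ (r : ℝ) (y : S → ℝ), Function.updateFinset (Function.update x k r) S y =
      Function.update (Function.updateFinset x S y) k r := by
    intro r y
    funext i
    by_cases hi : i = k
    · subst hi
      rw [bb_off hk, Function.update_self, Function.update_self]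
    · rw [Function.update_of_ne hi]
      by_cases hiS : i ∈ S
      · exact (bb_on ⟨i, hiS⟩ _ y).trans (bb_on ⟨i, hiS⟩ _ y).symm
      · rw [bb_off hiS, bb_off hiS, Function.update_of_ne hi]
  have hxr : ∀ r, (Function.update x k r) p = 0 := by
    intro r
    rw [Function.update_of_ne hkp.symm, hx]
  have i1 := (mg_integrable hf hS (hxr b)).1
  have i2 := (mg_integrable hf hS (hxr a)).1
  have hRD : ∀ z : A → ℝ, z p = 0 → D k z ≠ 0 → ∀ i, |z i| ≤ R := by
    intro z hz hne
    refine hR z hz ?_
    intro h0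
    exact hne (hf.zero k z h0)
  have hmeas : Measurable (fun q : ℝ × (S → ℝ) =>
      D k (Function.updateFinset (Function.update x k q.1) S q.2)) := by
    refine (hf.meas k).comp ?_
    refine measurable_updateFinset'.comp (Measurable.prodMk ?_ measurable_snd)
    exact (measurable_update x).comp measurable_fst
  have hint : Integrable (Function.uncurry (fun (r : ℝ) (y : S → ℝ) =>
      D k (Function.updateFinset (Function.update x k r) S y)))
      ((volume.restrict (Set.uIoc a b)).prod volume) := by
    have hfin : IsFiniteMeasure (volume.restrict (Set.uIoc a b) : Measure ℝ) := by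
      refine ⟨?_⟩
      rw [Measure.restrict_apply_univ, Set.uIoc]
      exact measure_Ioc_lt_top
    refine ((bb_box_integrable S R C).comp_snd (volume.restrict (Set.uIoc a b))).mono'
      hmeas.aestronglyMeasurable ?_
    refine Filter.Eventually.of_forall fun q => ?_
    exact bb_bound (p := p) (hC k) hRD (hxr q.1) hS q.2
  have hsw := intervalIntegral_integral_swap (a := a) (b := b) hint
  unfold mg
  rw [hsw, ← integral_sub i1 i2]
  refine integral_congr_ae (Filter.Eventually.of_forall fun y => ?_)
  simp only [hcomm]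
  exact hf.ftc k hkp _ a b (by rw [bb_off hS, hx])

end HK
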