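import Mathlib
import Pool.Agent.Lib_helper12.HK.DefsA
import Pool.Agent.Lib_helper12.HK.DefsB
import Pool.Agent.Lib_helper12.HK.W.ba
import Pool.Agent.Lib_helper12.HK.W.bb

set_option autoImplicit false

namespace HK

open MeasureTheory QG

variable {A : Type} [Fintype A] [DecidableEq A] {p : A}

theorem bc_bdd {f : (A → ℝ) → ℝ} {D : A → (A → ℝ) → ℝ} (hf : Reg p f D) {S : Finset A}
    (hS : p ∉ S) (k : A) : ∃ C : ℝ, ∀ x : A → ℝ, x p = 0 → |mg (D k) S x| ≤ C := by
  obtain ⟨R, hR⟩ := hf.supp
  obtain ⟨C, hC⟩ := hf.bdd
  refine ⟨∫ y : S → ℝ, Set.indicator (Set.Icc (fun _ : S => -R) (fun _ => R))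
      (fun _ : S → ℝ => C) y, ?_⟩
  intro x hx
  have hI : Integrable (Set.indicator (Set.Icc (fun _ : S => -R) (fun _ => R))
      (fun _ : S → ℝ => C)) := by
    rw [integrable_indicator_iff measurableSet_Icc]
    exact integrableOn_const (isCompact_Icc.measure_lt_top).ne
  rw [← Real.norm_eq_abs]
  refine norm_integral_le_of_norm_le hI (Filter.Eventually.of_forall ?_)
  intro y
  have hup : Function.updateFinset x S y p = 0 := by
    simp [Function.updateFinset, hS, hx]
  by_cases hy : D k (Function.updateFinset x S y) = 0
  · rw [hy, norm_zero]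
    refine Set.indicator_nonneg ?_ _
    intro _ _
    exact (abs_nonneg _).trans (hC k _ hup)
  · have hmem : y ∈ Set.Icc (fun _ : S => -R) (fun _ => R) := by
      have h := hR _ hup (fun h0 => hy (hf.zero k _ h0))
      constructor
      · intro i
        have := h i
        rw [show Function.updateFinset x S y i = y i by simp [Function.updateFinset],
          abs_le] at this
        exact this.1
      · intro i
        have := h i
        rw [show Function.updateFinset x S y i = y i by simp [Function.updateFinset],
          abs_le] at this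
        exact this.2
    rw [Set.indicator_of_mem hmem]
    exact hC k _ hup

/-- the conditional densities are densities on the line -/
theorem cde_dn {f : (A → ℝ) → ℝ} {D : A → (A → ℝ) → ℝ} (hf : Reg p f D) {S : Finset A}
    (hS : p ∉ S) {k : A} (hk : k ∈ S) {x : A → ℝ} (hx : x p = 0) (hp : 0 < mg f S x) :
    Dn (cde f S x k) (fun r => mg (D k) (S.erase k) (Function.update x k r) / mg f S x) := by
  have hkp : p ≠ k := fun h => hS (h ▸ hk)
  have hS' : p ∉ S.erase k := fun h => hS (Finset.mem_of_mem_erase h)
  have hx' : ∀ r, Function.update x k r p = 0 := fun r => by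
    rw [Function.update_of_ne hkp, hx]
  have hkS : k ∉ S.erase k := Finset.notMem_erase k S
  have hnn : ∀ r, 0 ≤ mg f (S.erase k) (Function.update x k r) :=
    fun r => (mg_eq_lmg hf hS' (hx' r)).2
  have hiff : ∀ r, 0 < cde f S x k r ↔ 0 < mg f (S.erase k) (Function.update x k r) := by
    intro r
    unfold cde
    rw [div_pos_iff_of_pos_right hp]
  refine ⟨?_, ?_, ?_, ?_, ?_, ?_, ?_, ?_, ?_⟩
  · intro r
    exact div_nonneg (hnn r) hp.le
  · have h := (mg_cont hf hS').comp_continuous (f := fun r : ℝ => Function.update x k r)
      (continuous_const.update k continuous_id) hx'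
    exact h.div_const _
  · obtain ⟨R, hR⟩ := mg_supp hf
    refine ⟨R, fun r hr => ?_⟩
    have h0 : 0 < cde f S x k r := lt_of_le_of_ne (div_nonneg (hnn r) hp.le) (Ne.symm hr)
    have := hR (S.erase k) (Function.update x k r) hS' (hx' r) ((hiff r).1 h0) k hkS
    simpa using this
  · have hc : Convex ℝ {r | 0 < cde f S x k r} := by
      intro r hr s hs a b ha hb hab
      have h := mg_convex hf hS' (x := Function.update x k r) (y := Function.update x k s)
        (a := a) (b := b) ⟨hx' r, (hiff r).1 hr⟩
      have h2 := h ⟨hx' s, (hiff s).1 hs⟩ ha hb hab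
      have e : a • Function.update x k r + b • Function.update x k s =
          Function.update x k (a • r + b • s) := by
        funext i
        by_cases hi : i = k
        · subst hi; simp
        · simp only [Pi.add_apply, Pi.smul_apply, Function.update_of_ne hi, smul_eq_mul]
          rw [← add_mul, hab, one_mul]
      rw [e] at h2
      exact (hiff _).2 h2.2
    exact hc.ordConnected
  · unfold cde
    rw [integral_div, ← (mg_erase hf hS hk hx).1]
    exact div_self hp.ne'
  · exact ((mg_meas (hf.meas k) _).comp (measurable_update x)).div_const _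
  · obtain ⟨C, hC⟩ := bc_bdd hf hS' k
    refine ⟨C / mg f S x, fun r => ?_⟩
    rw [abs_div, abs_of_pos hp]
    exact div_le_div_of_nonneg_right (hC _ (hx' r)) hp.le
  · intro r hr
    have h0 : ¬ 0 < mg f (S.erase k) (Function.update x k r) := by
      rw [← hiff, hr]; exact lt_irrefl _
    rw [mg_pos_iff hf hS' (hx' r)] at h0
    push Not at h0
    have h1 : mg (D k) (S.erase k) (Function.update x k r) = 0 := by
      unfold mg
      have : ∀ y : ↥(S.erase k) → ℝ,
          D k (Function.updateFinset (Function.update x k r) (S.erase k) y) = 0 := by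
        intro y
        apply hf.zero
        refine le_antisymm (h0 _ ?_) (hf.nonneg _)
        intro i hi
        rw [Function.updateFinset, dif_neg hi]
      simp only [this, integral_zero]
    simp only [h1, zero_div]
  · intro a b
    have h := mg_ftc hf hS' hkS (Ne.symm hkp) hx a b
    unfold cde
    rw [← sub_div, h, intervalIntegral.integral_div]

end HK
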