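import Mathlib
import Pool.Agent.Lib_helper12.HK.DefsA
import Pool.Agent.Lib_helper12.HK.DefsB
import Pool.Agent.Lib_helper12.HK.W.ba
import Pool.Agent.Lib_helper12.HK.W.bb
import Pool.Agent.Lib_helper12.HK.W.bc
import Pool.Agent.Lib_helper12.HK.W.ad

set_option autoImplicit false

namespace HK

open MeasureTheory QG

variable {A : Type} [Fintype A] [DecidableEq A] {p : A}

theorem bd_integrable {g d : ℝ → ℝ} (h : Dn g d) : Integrable g := by
  apply MeasureTheory.Integrable.of_integral_ne_zero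
  rw [h.int]
  exact one_ne_zero

theorem bd_mono {g d : ℝ → ℝ} (h : Dn g d) {a b : ℝ} (hab : a ≤ b) :
    ∫ y in Set.Iic a, g y ≤ ∫ y in Set.Iic b, g y :=
  setIntegral_mono_set (bd_integrable h).integrableOn
    (Filter.Eventually.of_forall fun x => h.nonneg x)
    (Filter.Eventually.of_forall fun _ hx => le_trans hx hab)

theorem bd_le_iff {g d : ℝ → ℝ} (h : Dn g d) {u : ℝ} (hu : u ∈ Set.Ioo (0 : ℝ) 1) (r : ℝ) :
    qt g u ≤ r ↔ u ≤ ∫ y in Set.Iic r, g y := by
  constructor
  · intro hr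
    calc u = ∫ y in Set.Iic (qt g u), g y := (qt_basic h hu).2.symm
      _ ≤ _ := bd_mono h hr
  · intro hr
    obtain ⟨R, hR⟩ := h.supp
    unfold qt
    rw [if_pos hu]
    refine csInf_le ⟨-R, ?_⟩ hr
    intro x hx
    by_contra hlt
    rw [not_le] at hlt
    have h0 : ∫ y in Set.Iic x, g y = 0 := by
      rw [setIntegral_congr_fun (g := fun _ => (0 : ℝ)) measurableSet_Iic]
      · simp
      · intro y hy
        by_contra hne
        have := abs_le.mp (hR y hne)
        have hy' : y ≤ x := hy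
        linarith [this.1]
    have hx' : u ≤ ∫ y in Set.Iic x, g y := hx
    rw [h0] at hx'
    exact absurd hu.1 (not_lt.mpr hx')

omit [Fintype A] in
theorem bd_update (k : A) : Measurable (fun z : (A → ℝ) × ℝ => Function.update z.1 k z.2) := by
  rw [measurable_pi_iff]
  intro i
  by_cases hi : i = k
  · subst hi
    simp only [Function.update_self]
    exact measurable_snd
  · simp only [Function.update_of_ne hi]
    exact (measurable_pi_apply i).comp measurable_fst

theorem bd_cdf {f : (A → ℝ) → ℝ} (hf : Measurable f) (S : Finset A) (k : A) (r : ℝ) :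
    Measurable (fun x : A → ℝ => ∫ y in Set.Iic r, cde f S x k y) := by
  have h1 : Measurable (Function.uncurry fun (x : A → ℝ) (y : ℝ) => cde f S x k y) := by
    unfold Function.uncurry cde
    exact ((mg_meas hf (S.erase k)).comp (bd_update k)).div ((mg_meas hf S).comp measurable_fst)
  exact (h1.stronglyMeasurable.integral_prod_right (ν := volume.restrict (Set.Iic r))).measurable

/-- measurability of the quantiles -/
theorem qt_meas {f : (A → ℝ) → ℝ} {D : A → (A → ℝ) → ℝ} (hf : Reg p f D) {S : Finset A}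
    (hS : p ∉ S) {k : A} (hk : k ∈ S) :
    Measurable (fun z : {x : A → ℝ // x p = 0 ∧ 0 < mg f S x} × Set.Ioo (0 : ℝ) 1 =>
      qt (cde f S z.1.1 k) z.2.1) := by
  apply measurable_of_Iic
  intro r
  have e : (fun z : {x : A → ℝ // x p = 0 ∧ 0 < mg f S x} × Set.Ioo (0 : ℝ) 1 =>
      qt (cde f S z.1.1 k) z.2.1) ⁻¹' Set.Iic r =
      {z | (z.2.1 : ℝ) ≤ ∫ y in Set.Iic r, cde f S z.1.1 k y} := by
    ext z
    exact bd_le_iff (cde_dn hf hS hk z.1.2.1 z.1.2.2) z.2.2 r
  rw [e]
  exact measurableSet_le (measurable_subtype_coe.comp measurable_snd)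
    ((bd_cdf hf.cont.measurable S k r).comp (measurable_subtype_coe.comp measurable_fst))

theorem bd_pos {f : (A → ℝ) → ℝ} {D : A → (A → ℝ) → ℝ} (hf : Reg p f D) {S : Finset A}
    (hS : p ∉ S) {k : A} (hk : k ∈ S) {x : A → ℝ} (hx : x p = 0) (hp : 0 < mg f S x) {u : ℝ}
    (hu : u ∈ Set.Ioo (0 : ℝ) 1) :
    0 < mg f (S.erase k) (Function.update x k (qt (cde f S x k) u)) := by
  have h := (qt_basic (cde_dn hf hS hk hx hp) hu).1
  have h' : 0 < mg f (S.erase k) (Function.update x k (qt (cde f S x k) u)) / mg f S x := h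
  exact (div_pos_iff_of_pos_right hp).mp h'

/-- a step from a legal state is legal -/
theorem step_legal {f f' : (A → ℝ) → ℝ} {D D' : A → (A → ℝ) → ℝ} (hf : Reg p f D)
    (hf' : Reg p f' D') {σ : St A → A} (hσ : Pol σ) {s : St A} (hs : Lg p f f' s)
    (hn : s.1.Nonempty) {u : ℝ} (hu : u ∈ Set.Ioo (0 : ℝ) 1) :
    Lg p f f' (step f f' σ s u) ∧ (step f f' σ s u).1.card + 1 = s.1.card := by
  have hm := hσ.mem s hn
  have hne : p ≠ σ s := fun h => hs.mem (h ▸ hm)
  refine ⟨⟨?_, ?_, ?_, ?_, ?_⟩, ?_⟩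
  · exact fun h => hs.mem (Finset.mem_of_mem_erase h)
  · show Function.update s.2.1 (σ s) _ p = 0
    rw [Function.update_of_ne hne]
    exact hs.z1
  · show Function.update s.2.2 (σ s) _ p = 0
    rw [Function.update_of_ne hne]
    exact hs.z2
  · exact bd_pos hf hs.mem hm hs.z1 hs.p1 hu
  · exact bd_pos hf' hs.mem hm hs.z2 hs.p2 hu
  · exact Finset.card_erase_add_one hm

end HK
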