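import Mathlib
import Pool.Agent.Lib_helper12.HK.DefsA
import Pool.Agent.Lib_helper12.HK.DefsB
import Pool.Agent.Lib_helper12.HK.W.ba
import Pool.Agent.Lib_helper12.HK.W.bb
import Pool.Agent.Lib_helper12.HK.W.bc
import Pool.Agent.Lib_helper12.HK.W.bd
import Pool.Agent.Lib_helper12.HK.W.ad

set_option autoImplicit false

namespace HK

open MeasureTheory QG

theorem be_cover {α β ι : Type} [MeasurableSpace α] [MeasurableSpace β] [Countable ι] {f : α → β}
    (s : ι → Set α) (hs : ∀ i, MeasurableSet (s i)) (hcov : ∀ a, ∃ i, a ∈ s i)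
    (hf : ∀ i, Measurable (fun a : s i => f a)) : Measurable f := by
  intro T hT
  have h1 : f ⁻¹' T = ⋃ i, Subtype.val '' ((fun a : s i => f a) ⁻¹' T) := by
    ext a
    constructor
    · intro ha
      obtain ⟨i, hi⟩ := hcov a
      exact Set.mem_iUnion.2 ⟨i, ⟨a, hi⟩, ha, rfl⟩
    · intro ha
      obtain ⟨i, ⟨b, hb⟩, hb1, hb2⟩ := Set.mem_iUnion.1 ha
      subst hb2
      exact hb1
  rw [h1]
  exact MeasurableSet.iUnion (fun i => (hs i).subtype_image (hf i hT))

theorem be_update {A Z : Type} [DecidableEq A] [MeasurableSpace Z] {x : Z → A → ℝ} {r : Z → ℝ}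
    (hx : Measurable x) (hr : Measurable r) (k : A) :
    Measurable (fun z => Function.update (x z) k (r z)) := by
  rw [measurable_pi_iff]
  intro i
  by_cases hi : i = k
  · subst hi
    simp only [Function.update_self]
    exact hr
  · simp only [Function.update_of_ne hi]
    exact (measurable_pi_apply i).comp hx

theorem be_prob1 : IsProbabilityMeasure un1 := by
  constructor
  unfold un1
  rw [Measure.comap_apply _ Subtype.val_injective
    (fun t ht => measurableSet_Ioo.subtype_image ht) _ MeasurableSet.univ]
  rw [Set.image_univ, Subtype.range_coe_subtype]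
  change volume (Set.Ioo (0 : ℝ) 1) = 1
  rw [Real.volume_Ioo]
  norm_num

variable {A : Type} [Fintype A] [DecidableEq A] {p : A}

/-- measurability of the run -/
theorem rn_meas {f f' : (A → ℝ) → ℝ} {D D' : A → (A → ℝ) → ℝ} (hf : Reg p f D)
    (hf' : Reg p f' D') {σ : St A → A} (hσ : Pol σ) (N : ℕ) (S : Finset A) (hN : S.card = N)
    (Φ : (A → ℝ) × (A → ℝ) → ENNReal) (hΦ : Measurable Φ) :
    Measurable (fun z : {b : (A → ℝ) × (A → ℝ) // Lg p f f' (S, b)} × Un N =>
      Φ (rn f f' σ N (S, z.1.1) z.2).2) := by
  induction N generalizing S with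
  | zero =>
    exact hΦ.comp (measurable_subtype_coe.comp measurable_fst)
  | succ N ih =>
    apply be_cover (fun k : A => {z : {b : (A → ℝ) × (A → ℝ) // Lg p f f' (S, b)} × Un (N + 1) |
      σ (S, z.1.1) = k})
    · intro k
      exact (measurable_subtype_coe.comp measurable_fst) (hσ.meas S k)
    · intro z
      exact ⟨σ (S, z.1.1), rfl⟩
    · intro k
      have hSne : S.Nonempty := Finset.card_pos.1 (by omega)
      by_cases hk : k ∈ S
      · have hcard : (S.erase k).card = N := by
          rw [Finset.card_erase_of_mem hk, hN]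
          rfl
        have hih := ih (S.erase k) hcard
        -- the new state
        have hleg : ∀ z : {z : {b : (A → ℝ) × (A → ℝ) // Lg p f f' (S, b)} × Un (N + 1) |
            σ (S, z.1.1) = k}, Lg p f f' (S.erase k,
              (Function.update z.1.1.1.1 k (qt (cde f S z.1.1.1.1 k) (z.1.2 0).1),
              Function.update z.1.1.1.2 k (qt (cde f' S z.1.1.1.2 k) (z.1.2 0).1))) := by
          intro z
          have h1 := (step_legal hf hf' hσ z.1.1.2 hSne (z.1.2 0).2).1
          have h2 : σ (S, z.1.1.1) = k := z.2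
          unfold step at h1
          simp only [h2] at h1
          exact h1
        have hm1 : Measurable (fun z : {z : {b : (A → ℝ) × (A → ℝ) // Lg p f f' (S, b)} ×
            Un (N + 1) | σ (S, z.1.1) = k} => qt (cde f S z.1.1.1.1 k) (z.1.2 0).1) := by
          have hq := qt_meas (A := A) hf (S := S)
          by_cases hpS : p ∈ S
          · have : IsEmpty {z : {b : (A → ℝ) × (A → ℝ) // Lg p f f' (S, b)} ×
              Un (N + 1) | σ (S, z.1.1) = k} := ⟨fun z => z.1.1.2.mem hpS⟩
            exact measurable_of_empty _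
          · have hg : Measurable (fun z : {z : {b : (A → ℝ) × (A → ℝ) // Lg p f f' (S, b)} ×
                Un (N + 1) | σ (S, z.1.1) = k} =>
                ((⟨z.1.1.1.1, z.1.1.2.z1, z.1.1.2.p1⟩ : {x : A → ℝ // x p = 0 ∧ 0 < mg f S x}),
                  z.1.2 0)) := by
              apply Measurable.prodMk
              · exact (measurable_fst.comp (measurable_subtype_coe.comp
                  (measurable_fst.comp measurable_subtype_coe))).subtype_mk
              · exact (measurable_pi_apply 0).comp (measurable_snd.comp measurable_subtype_coe)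
            exact (hq hpS hk).comp hg
        have hm2 : Measurable (fun z : {z : {b : (A → ℝ) × (A → ℝ) // Lg p f f' (S, b)} ×
            Un (N + 1) | σ (S, z.1.1) = k} => qt (cde f' S z.1.1.1.2 k) (z.1.2 0).1) := by
          have hq := qt_meas (A := A) hf' (S := S)
          by_cases hpS : p ∈ S
          · have : IsEmpty {z : {b : (A → ℝ) × (A → ℝ) // Lg p f f' (S, b)} ×
              Un (N + 1) | σ (S, z.1.1) = k} := ⟨fun z => z.1.1.2.mem hpS⟩
            exact measurable_of_empty _
          · have hg : Measurable (fun z : {z : {b : (A → ℝ) × (A → ℝ) // Lg p f f' (S, b)} ×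
                Un (N + 1) | σ (S, z.1.1) = k} =>
                ((⟨z.1.1.1.2, z.1.1.2.z2, z.1.1.2.p2⟩ : {x : A → ℝ // x p = 0 ∧ 0 < mg f' S x}),
                  z.1.2 0)) := by
              apply Measurable.prodMk
              · exact (measurable_snd.comp (measurable_subtype_coe.comp
                  (measurable_fst.comp measurable_subtype_coe))).subtype_mk
              · exact (measurable_pi_apply 0).comp (measurable_snd.comp measurable_subtype_coe)
            exact (hq hpS hk).comp hg
        have hG : Measurable (fun z : {z : {b : (A → ℝ) × (A → ℝ) // Lg p f f' (S, b)} ×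
            Un (N + 1) | σ (S, z.1.1) = k} =>
            ((⟨_, hleg z⟩ : {b : (A → ℝ) × (A → ℝ) // Lg p f f' (S.erase k, b)}),
              (fun i : Fin N => z.1.2 i.succ))) := by
          apply Measurable.prodMk
          · apply Measurable.subtype_mk
            apply Measurable.prodMk
            · exact be_update (measurable_fst.comp (measurable_subtype_coe.comp
                (measurable_fst.comp measurable_subtype_coe))) hm1 k
            · exact be_update (measurable_snd.comp (measurable_subtype_coe.comp
                (measurable_fst.comp measurable_subtype_coe))) hm2 k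
          · exact measurable_pi_lambda _ (fun i => (measurable_pi_apply i.succ).comp
              (measurable_snd.comp measurable_subtype_coe))
        have hcomp := hih.comp hG
        refine (congrArg Measurable ?_).mp hcomp
        funext z
        have h2 : σ (S, z.1.1.1) = k := z.2
        simp only [Function.comp, rn, step, h2]
      · have : IsEmpty {z : {b : (A → ℝ) × (A → ℝ) // Lg p f f' (S, b)} ×
            Un (N + 1) | σ (S, z.1.1) = k} := ⟨fun z => hk (by
              have h1 := hσ.mem (S, z.1.1.1) hSne
              have h2 : σ (S, z.1.1.1) = k := z.2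
              rw [h2] at h1
              exact h1)⟩
        exact measurable_of_empty _

/-- after `N` steps all sites are sampled -/
theorem rn_empty {f f' : (A → ℝ) → ℝ} {D D' : A → (A → ℝ) → ℝ} (hf : Reg p f D)
    (hf' : Reg p f' D') {σ : St A → A} (hσ : Pol σ) (N : ℕ) (s : St A) (hs : Lg p f f' s)
    (hN : s.1.card = N) (u : Un N) : (rn f f' σ N s u).1 = ∅ ∧ Lg p f f' (rn f f' σ N s u) := by
  induction N generalizing s with
  | zero => exact ⟨Finset.card_eq_zero.1 hN, hs⟩
  | succ N ih =>
    have h1 := step_legal hf hf' hσ hs (Finset.card_pos.1 (by omega)) (u 0).2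
    exact ih (step f f' σ s (u 0)) h1.1 (by omega) (fun i => u i.succ)

/-- sampled coordinates do not change -/
theorem rn_fix {f f' : (A → ℝ) → ℝ} {σ : St A → A} (hσ : Pol σ) (N : ℕ) (s : St A)
    (hN : s.1.card = N) (u : Un N) {i : A} (hi : i ∉ s.1) :
    (rn f f' σ N s u).2.1 i = s.2.1 i ∧ (rn f f' σ N s u).2.2 i = s.2.2 i := by
  induction N generalizing s with
  | zero => exact ⟨rfl, rfl⟩
  | succ N ih =>
    have hm : σ s ∈ s.1 := hσ.mem s (Finset.card_pos.1 (by omega))
    have hne : i ≠ σ s := fun h => hi (h ▸ hm)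
    have h1 := ih (step f f' σ s (u 0)) (by
      change (s.1.erase (σ s)).card = N
      rw [Finset.card_erase_of_mem hm, hN]
      rfl) (fun i => u i.succ) (fun h => hi (Finset.mem_of_mem_erase h))
    have h2 : (step f f' σ s (u 0)).2.1 i = s.2.1 i := Function.update_of_ne hne _ _
    have h3 : (step f f' σ s (u 0)).2.2 i = s.2.2 i := Function.update_of_ne hne _ _
    exact ⟨h1.1.trans h2, h1.2.trans h3⟩

/-- the first step -/
theorem rn_step {f f' : (A → ℝ) → ℝ} {D D' : A → (A → ℝ) → ℝ} (hf : Reg p f D)
    (hf' : Reg p f' D') {σ : St A → A} (hσ : Pol σ) (N : ℕ) (s : St A) (hs : Lg p f f' s)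
    (hN : s.1.card = N + 1) (Φ : (A → ℝ) × (A → ℝ) → ENNReal) (hΦ : Measurable Φ) :
    ∫⁻ u, Φ (rn f f' σ (N + 1) s u).2 ∂unN (N + 1) =
      ∫⁻ v in Set.Ioo (0 : ℝ) 1, ∫⁻ u, Φ (rn f f' σ N (step f f' σ s v) u).2 ∂unN N := by
  have := be_prob1
  have hmeas : Measurable (fun u : Un (N + 1) => Φ (rn f f' σ (N + 1) s u).2) := by
    have h1 := rn_meas hf hf' hσ (N + 1) s.1 hN Φ hΦ
    have h2 : Measurable (fun u : Un (N + 1) =>
        ((⟨s.2, hs⟩ : {b : (A → ℝ) × (A → ℝ) // Lg p f f' (s.1, b)}), u)) :=
      measurable_const.prodMk measurable_id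
    exact h1.comp h2
  have hmp := measurePreserving_piFinSuccAbove (fun _ : Fin (N + 1) => un1) 0
  have h3 := (hmp.symm _).lintegral_comp hmeas
  unfold unN
  rw [← h3, lintegral_prod]
  · have h4 := lintegral_subtype_comap (μ := volume) (s := Set.Ioo (0 : ℝ) 1) measurableSet_Ioo
      (fun v => ∫⁻ u, Φ (rn f f' σ N (step f f' σ s v) u).2 ∂(Measure.pi fun _ : Fin N => un1))
    rw [← h4]
    rfl
  · exact (hmeas.comp (MeasurableEquiv.measurable _)).aemeasurable

instance (N : ℕ) : IsProbabilityMeasure (unN N) := by
  have := be_prob1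
  unfold unN
  infer_instance

end HK
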