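import Mathlib
import Pool.Agent.Lib_helper12.HK.DefsA
import Pool.Agent.Lib_helper12.HK.DefsB
import Pool.Agent.Lib_helper12.HK.W.ab
import Pool.Agent.Lib_helper12.HK.W.ba
import Pool.Agent.Lib_helper12.HK.W.bb
import Pool.Agent.Lib_helper12.HK.W.bc
import Pool.Agent.Lib_helper12.HK.W.bd
import Pool.Agent.Lib_helper12.HK.W.be
import Pool.Agent.Lib_helper12.HK.W.ad

set_option autoImplicit false

namespace HK

open MeasureTheory QG

variable {A : Type} [Fintype A] [DecidableEq A] {p : A}

theorem bf_zero {f : (A → ℝ) → ℝ} (hf : Continuous f) {S : Finset A} {x : A → ℝ}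
    (h : lmg (fun y => ENNReal.ofReal (f y)) S x = 0) (Ψ : (A → ℝ) → ENNReal) :
    lmg (fun y => ENNReal.ofReal (f y) * Ψ y) S x = 0 := by
  have hm : Measurable (fun y : S → ℝ => ENNReal.ofReal (f (Function.updateFinset x S y))) :=
    (hf.measurable.comp measurable_updateFinset).ennreal_ofReal
  have h1 : (fun y : S → ℝ => ENNReal.ofReal (f (Function.updateFinset x S y))) =ᵐ[volume] 0 :=
    (lintegral_eq_zero_iff hm).1 h
  have h2 : (fun y : S → ℝ => ENNReal.ofReal (f (Function.updateFinset x S y)) *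
      Ψ (Function.updateFinset x S y)) =ᵐ[volume] 0 := by
    filter_upwards [h1] with y hy
    simp only [Pi.zero_apply] at hy ⊢
    rw [hy, zero_mul]
  calc lmg (fun y => ENNReal.ofReal (f y) * Ψ y) S x = ∫⁻ _ : S → ℝ, 0 := lintegral_congr_ae h2
    _ = 0 := lintegral_zero

/-- the martingale property of conditional expectations -/
theorem mart {f : (A → ℝ) → ℝ} {D : A → (A → ℝ) → ℝ} (hf : Reg p f D) {S : Finset A}
    (hS : p ∉ S) {k : A} (hk : k ∈ S) {x : A → ℝ} (hx : x p = 0) (hp : 0 < mg f S x)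
    {Ψ : (A → ℝ) → ENNReal} (hΨ : Measurable Ψ) :
    lmg (fun y => ENNReal.ofReal (f y) * Ψ y) S x / ENNReal.ofReal (mg f S x) =
      ∫⁻ u in Set.Ioo (0 : ℝ) 1,
        lmg (fun y => ENNReal.ofReal (f y) * Ψ y) (S.erase k)
          (Function.update x k (qt (cde f S x k) u)) /
        ENNReal.ofReal (mg f (S.erase k) (Function.update x k (qt (cde f S x k) u))) := by
  have hF : Measurable (fun y => ENNReal.ofReal (f y) * Ψ y) :=
    hf.cont.measurable.ennreal_ofReal.mul hΨ
  have hpk : p ≠ k := fun h => hS (h ▸ hk)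
  have hS' : p ∉ S.erase k := fun h => hS (Finset.mem_of_mem_erase h)
  have hd := cde_dn hf hS hk hx hp
  have hup : Measurable (fun r : ℝ => Function.update x k r) := measurable_update x
  have hΦ : Measurable (fun r : ℝ =>
      lmg (fun y => ENNReal.ofReal (f y) * Ψ y) (S.erase k) (Function.update x k r) /
        ENNReal.ofReal (mg f (S.erase k) (Function.update x k r))) :=
    ((lmg_meas hF _).comp hup).div
      (((mg_meas hf.cont.measurable _).comp hup).ennreal_ofReal)
  have hq := qt_law hd hΦ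
  rw [hq]
  have hM0 : ENNReal.ofReal (mg f S x) ≠ 0 := by
    rw [Ne, ENNReal.ofReal_eq_zero, not_le]; exact hp
  have e : ∀ r : ℝ, ENNReal.ofReal (cde f S x k r) *
      (lmg (fun y => ENNReal.ofReal (f y) * Ψ y) (S.erase k) (Function.update x k r) /
        ENNReal.ofReal (mg f (S.erase k) (Function.update x k r))) =
      lmg (fun y => ENNReal.ofReal (f y) * Ψ y) (S.erase k) (Function.update x k r) /
        ENNReal.ofReal (mg f S x) := by
    intro r
    have hx' : Function.update x k r p = 0 := by rw [Function.update_of_ne hpk, hx]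
    obtain ⟨i1, i2⟩ := mg_eq_lmg hf hS' hx'
    rw [cde, ENNReal.ofReal_div_of_pos hp]
    rcases i2.lt_or_eq with h0 | h0
    · have hm0 : ENNReal.ofReal (mg f (S.erase k) (Function.update x k r)) ≠ 0 := by
        rw [Ne, ENNReal.ofReal_eq_zero, not_le]; exact h0
      rw [div_eq_mul_inv, div_eq_mul_inv, div_eq_mul_inv]
      calc _ = (ENNReal.ofReal (mg f (S.erase k) (Function.update x k r)) *
            (ENNReal.ofReal (mg f (S.erase k) (Function.update x k r)))⁻¹) *
            (lmg (fun y => ENNReal.ofReal (f y) * Ψ y) (S.erase k) (Function.update x k r) *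
              (ENNReal.ofReal (mg f S x))⁻¹) := by ring
        _ = _ := by rw [ENNReal.mul_inv_cancel hm0 ENNReal.ofReal_ne_top, one_mul]
    · rw [← h0, ENNReal.ofReal_zero] at i1
      have hz := bf_zero hf.cont i1 Ψ
      rw [← h0, ENNReal.ofReal_zero, ENNReal.zero_div, zero_mul, hz, ENNReal.zero_div]
  rw [lintegral_congr e]
  simp only [div_eq_mul_inv]
  have hm : Measurable (fun r : ℝ =>
      lmg (fun y => ENNReal.ofReal (f y) * Ψ y) (S.erase k) (Function.update x k r)) :=
    (lmg_meas hF _).comp hup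
  rw [lintegral_mul_const _ hm, ← lmg_erase hF hk]

/-- the laws of the two fields at the end of the run -/
theorem rn_law {f f' : (A → ℝ) → ℝ} {D D' : A → (A → ℝ) → ℝ} (hf : Reg p f D)
    (hf' : Reg p f' D') {σ : St A → A} (hσ : Pol σ) (N : ℕ) (s : St A) (hs : Lg p f f' s)
    (hN : s.1.card = N) (Ψ : (A → ℝ) → ENNReal) (hΨ : Measurable Ψ) :
    (∫⁻ u, Ψ (rn f f' σ N s u).2.1 ∂unN N =
      lmg (fun y => ENNReal.ofReal (f y) * Ψ y) s.1 s.2.1 / ENNReal.ofReal (mg f s.1 s.2.1)) ∧
    ∫⁻ u, Ψ (rn f f' σ N s u).2.2 ∂unN N =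
      lmg (fun y => ENNReal.ofReal (f' y) * Ψ y) s.1 s.2.2 / ENNReal.ofReal (mg f' s.1 s.2.2) := by
  induction N generalizing s with
  | zero =>
    have h1 : s.1 = ∅ := Finset.card_eq_zero.1 hN
    have hp1 := hs.p1
    have hp2 := hs.p2
    rw [h1, mg_empty] at hp1 hp2
    rw [h1, mg_empty, mg_empty, lmg_empty, lmg_empty]
    simp only [rn, lintegral_const, measure_univ, mul_one]
    have key : ∀ (r : ℝ) (a : ENNReal), 0 < r → a = ENNReal.ofReal r * a / ENNReal.ofReal r := by
      intro r a hr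
      have h0 : ENNReal.ofReal r ≠ 0 := by
        rw [Ne, ENNReal.ofReal_eq_zero, not_le]; exact hr
      rw [mul_comm, mul_div_assoc, ENNReal.div_self h0 ENNReal.ofReal_ne_top, mul_one]
    exact ⟨key _ _ hp1, key _ _ hp2⟩
  | succ N ih =>
    have hn : s.1.Nonempty := Finset.card_pos.1 (by omega)
    have hk := hσ.mem s hn
    have r1 := rn_step hf hf' hσ N s hs hN (fun b => Ψ b.1) (hΨ.comp measurable_fst)
    have r2 := rn_step hf hf' hσ N s hs hN (fun b => Ψ b.2) (hΨ.comp measurable_snd)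
    have hstep : ∀ v ∈ Set.Ioo (0 : ℝ) 1, Lg p f f' (step f f' σ s v) ∧
        (step f f' σ s v).1.card = N := by
      intro v hv
      obtain ⟨g1, g2⟩ := step_legal hf hf' hσ hs hn hv
      exact ⟨g1, by omega⟩
    constructor
    · rw [r1, mart hf hs.mem hk hs.z1 hs.p1 hΨ]
      refine setLIntegral_congr_fun measurableSet_Ioo ?_
      intro v hv
      obtain ⟨g1, g2⟩ := hstep v hv
      exact (ih _ g1 g2).1
    · rw [r2, mart hf' hs.mem hk hs.z2 hs.p2 hΨ]
      refine setLIntegral_congr_fun measurableSet_Ioo ?_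
      intro v hv
      obtain ⟨g1, g2⟩ := hstep v hv
      exact (ih _ g1 g2).2

end HK
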