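import Mathlib
import Pool.Agent.Lib_helper12.HK.DefsA
import Pool.Agent.Lib_helper12.HK.DefsB
import Pool.Agent.Lib_helper12.HK.W.ab
import Pool.Agent.Lib_helper12.HK.W.ba
import Pool.Agent.Lib_helper12.HK.W.bb
import Pool.Agent.Lib_helper12.HK.W.bc
import Pool.Agent.Lib_helper12.HK.W.bd
import Pool.Agent.Lib_helper12.HK.W.be
import Pool.Agent.Lib_helper12.HK.W.bf
import Pool.Agent.Lib_helper12.HK.W.ad

set_option autoImplicit false

namespace HK

open MeasureTheory QG

variable {A : Type} [Fintype A] [DecidableEq A] {p : A}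

/-- the conditional law of the first field given both fields outside `T` -/
theorem rn_cond {f f' : (A → ℝ) → ℝ} {D D' : A → (A → ℝ) → ℝ} (hf : Reg p f D)
    (hf' : Reg p f' D') {σ : St A → A} (hσ : Pol σ) (T : Finset A) (hT : p ∉ T)
    (hT' : ∀ s : St A, ¬ s.1 ⊆ T → σ s ∉ T) (N : ℕ) (s : St A) (hs : Lg p f f' s)
    (hTs : T ⊆ s.1) (hN : s.1.card = N) (Φ : (A → ℝ) × (A → ℝ) → ENNReal)
    (Ψ : (A → ℝ) → ENNReal) (hΦ : Measurable Φ) (hΨ : Measurable Ψ)
    (hi : ∀ x x' y y' : A → ℝ, (∀ i ∉ T, x i = y i) → (∀ i ∉ T, x' i = y' i) →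
      Φ (x, x') = Φ (y, y')) :
    ∫⁻ u, Φ (rn f f' σ N s u).2 * Ψ (rn f f' σ N s u).2.1 ∂unN N =
      ∫⁻ u, Φ (rn f f' σ N s u).2 *
        (lmg (fun x => ENNReal.ofReal (f x) * Ψ x) T (rn f f' σ N s u).2.1 /
          lmg (fun x => ENNReal.ofReal (f x)) T (rn f f' σ N s u).2.1) ∂unN N := by
  have hfm : Measurable (fun x => ENNReal.ofReal (f x)) := hf.cont.measurable.ennreal_ofReal
  have hfΨ : Measurable (fun x => ENNReal.ofReal (f x) * Ψ x) := hfm.mul hΨ
  induction N generalizing s with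
  | zero =>
    -- all sites are sampled: `T = s.1 = ∅`
    have hsT : s.1 ⊆ T := by
      rw [Finset.card_eq_zero.mp hN]
      exact Finset.empty_subset T
    have hTe : T = ∅ := by
      apply Finset.eq_empty_of_forall_notMem
      intro i hiT
      have := hTs hiT
      rw [Finset.card_eq_zero.mp hN] at this
      exact Finset.notMem_empty i this
    subst hTe
    refine lintegral_congr fun u => ?_
    have h1 := (rn_empty hf hf' hσ 0 s hs hN u)
    have hp : 0 < f (rn f f' σ 0 s u).2.1 := by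
      have h2 := h1.2.p1
      rw [h1.1, mg_empty] at h2
      exact h2
    rw [lmg_empty, lmg_empty]
    congr 1
    have h3 : ENNReal.ofReal (f (rn f f' σ 0 s u).2.1) ≠ 0 := by
      rw [Ne, ENNReal.ofReal_eq_zero, not_le]
      exact hp
    rw [mul_comm, ENNReal.mul_div_cancel_right h3 ENNReal.ofReal_ne_top]
  | succ N ih =>
    by_cases hsT : s.1 ⊆ T
    · have hsT' : s.1 = T := Finset.Subset.antisymm hsT hTs
      have hfix1 : ∀ u, ∀ i ∉ T, (rn f f' σ (N + 1) s u).2.1 i = s.2.1 i := fun u i hi' =>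
        (rn_fix hσ (N + 1) s hN u (hsT' ▸ hi')).1
      have hfix2 : ∀ u, ∀ i ∉ T, (rn f f' σ (N + 1) s u).2.2 i = s.2.2 i := fun u i hi' =>
        (rn_fix hσ (N + 1) s hN u (hsT' ▸ hi')).2
      have hP : ∀ u, Φ (rn f f' σ (N + 1) s u).2 = Φ s.2 := fun u => by
        have := hi (rn f f' σ (N + 1) s u).2.1 (rn f f' σ (N + 1) s u).2.2 s.2.1 s.2.2
          (hfix1 u) (hfix2 u)
        simpa using this
      have hL1 : ∀ u, lmg (fun x => ENNReal.ofReal (f x) * Ψ x) T
          (rn f f' σ (N + 1) s u).2.1 = lmg (fun x => ENNReal.ofReal (f x) * Ψ x) T s.2.1 :=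
        fun u => lmg_indep _ T (hfix1 u)
      have hL2 : ∀ u, lmg (fun x => ENNReal.ofReal (f x)) T
          (rn f f' σ (N + 1) s u).2.1 = lmg (fun x => ENNReal.ofReal (f x)) T s.2.1 :=
        fun u => lmg_indep _ T (hfix1 u)
      have hmeas : Measurable (fun u => Ψ (rn f f' σ (N + 1) s u).2.1) := by
        have h1 := rn_meas hf hf' hσ (N + 1) s.1 hN (fun b => Ψ b.1) (hΨ.comp measurable_fst)
        have h2 : Measurable (fun u : Un (N + 1) =>
            ((⟨s.2, hs⟩ : {b : (A → ℝ) × (A → ℝ) // Lg p f f' (s.1, b)}), u)) :=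
          measurable_prodMk_left
        exact h1.comp h2
      have hlaw := (rn_law hf hf' hσ (N + 1) s hs hN Ψ hΨ).1
      have hden := (mg_eq_lmg hf hs.mem hs.z1).1
      calc ∫⁻ u, Φ (rn f f' σ (N + 1) s u).2 * Ψ (rn f f' σ (N + 1) s u).2.1 ∂unN (N + 1)
          = ∫⁻ u, Φ s.2 * Ψ (rn f f' σ (N + 1) s u).2.1 ∂unN (N + 1) :=
            lintegral_congr fun u => by rw [hP u]
        _ = Φ s.2 * ∫⁻ u, Ψ (rn f f' σ (N + 1) s u).2.1 ∂unN (N + 1) :=
            lintegral_const_mul _ hmeas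
        _ = Φ s.2 * (lmg (fun x => ENNReal.ofReal (f x) * Ψ x) T s.2.1 /
              lmg (fun x => ENNReal.ofReal (f x)) T s.2.1) := by
            rw [hlaw, hden.symm, hsT']
        _ = ∫⁻ _u, Φ s.2 * (lmg (fun x => ENNReal.ofReal (f x) * Ψ x) T s.2.1 /
              lmg (fun x => ENNReal.ofReal (f x)) T s.2.1) ∂unN (N + 1) := by
            rw [lintegral_const, measure_univ, mul_one]
        _ = _ := lintegral_congr fun u => by rw [hP u, hL1 u, hL2 u]
    · have hσT : σ s ∉ T := hT' s hsT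
      have hne : s.1.Nonempty := by
        rw [← Finset.card_pos, hN]
        exact Nat.succ_pos N
      have m1 : Measurable (fun b : (A → ℝ) × (A → ℝ) => Φ b * Ψ b.1) :=
        hΦ.mul (hΨ.comp measurable_fst)
      have m2 : Measurable (fun b : (A → ℝ) × (A → ℝ) => Φ b *
          (lmg (fun x => ENNReal.ofReal (f x) * Ψ x) T b.1 /
            lmg (fun x => ENNReal.ofReal (f x)) T b.1)) :=
        hΦ.mul (((lmg_meas hfΨ T).comp measurable_fst).div
          ((lmg_meas hfm T).comp measurable_fst))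
      have e1 := rn_step hf hf' hσ N s hs hN _ m1
      have e2 := rn_step hf hf' hσ N s hs hN _ m2
      rw [e1, e2]
      refine setLIntegral_congr_fun measurableSet_Ioo fun v hv => ?_
      obtain ⟨hl, hc⟩ := step_legal hf hf' hσ hs hne hv
      refine ih (step f f' σ s v) hl ?_ (by omega)
      intro i hiT
      show i ∈ s.1.erase (σ s)
      rw [Finset.mem_erase]
      exact ⟨fun h => hσT (h ▸ hiT), hTs hiT⟩

end HK
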