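import Mathlib
import Pool.Agent.Lib_helper12.HK.DefsA
import Pool.Agent.Lib_helper12.HK.DefsB
import Pool.Agent.Lib_helper12.HK.W.ba
import Pool.Agent.Lib_helper12.HK.W.bb
import Pool.Agent.Lib_helper12.HK.W.bc
import Pool.Agent.Lib_helper12.HK.W.bd
import Pool.Agent.Lib_helper12.HK.W.be
import Pool.Agent.Lib_helper12.HK.W.bf
import Pool.Agent.Lib_helper12.HK.W.ad
import Pool.Agent.Lib_helper12.HK.W.ae

set_option autoImplicit false

namespace HK

open MeasureTheory QG

variable {A : Type} [Fintype A] [DecidableEq A] {p : A}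

/-- the abstract computation: the law of `X` is given by `lmg` -/
theorem bh_gen {Ω : Type} [MeasurableSpace Ω] (μ : Measure Ω) (X : Ω → A → ℝ)
    {f G H : (A → ℝ) → ℝ} {S : Finset A} {x : A → ℝ}
    (hm : ∀ Ψ : (A → ℝ) → ENNReal, Measurable Ψ → Measurable (fun u => Ψ (X u)))
    (hlaw : ∀ Ψ : (A → ℝ) → ENNReal, Measurable Ψ →
      ∫⁻ u, Ψ (X u) ∂μ = lmg (fun y => ENNReal.ofReal (f y) * Ψ y) S x /
        ENNReal.ofReal (mg f S x))
    (hf : ∀ y, 0 ≤ f y) (hp : 0 < mg f S x)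
    (hH : Integrable (fun y : S → ℝ => H (Function.updateFinset x S y)))
    (hG : Measurable G) (hGH : ∀ y, f y * G y = H y) :
    Integrable (fun u => G (X u)) μ ∧ ∫ u, G (X u) ∂μ = mg H S x / mg f S x := by
  have hmG : Measurable (fun u => G (X u)) := by
    have h1 : (fun u => G (X u)) = fun u => (ENNReal.ofReal (G (X u))).toReal -
        (ENNReal.ofReal (-G (X u))).toReal := by
      funext u
      rcases le_total 0 (G (X u)) with h | h
      · rw [ENNReal.toReal_ofReal h, ENNReal.ofReal_of_nonpos (neg_nonpos.2 h)]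
        simp
      · rw [ENNReal.ofReal_of_nonpos h, ENNReal.toReal_ofReal (neg_nonneg.2 h)]
        simp
    rw [h1]
    exact (ENNReal.measurable_toReal.comp (hm (fun y => ENNReal.ofReal (G y)) hG.ennreal_ofReal)).sub
      (ENNReal.measurable_toReal.comp (hm (fun y => ENNReal.ofReal (-G y)) hG.neg.ennreal_ofReal))
  have hpos : ∫⁻ u, ENNReal.ofReal (G (X u)) ∂μ =
      (∫⁻ y : S → ℝ, ENNReal.ofReal (H (Function.updateFinset x S y))) /
        ENNReal.ofReal (mg f S x) := by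
    rw [hlaw (fun y => ENNReal.ofReal (G y)) hG.ennreal_ofReal]
    congr 1
    unfold lmg
    apply lintegral_congr
    intro y
    simp only []
    rw [← ENNReal.ofReal_mul (hf _), hGH]
  have hneg : ∫⁻ u, ENNReal.ofReal (-G (X u)) ∂μ =
      (∫⁻ y : S → ℝ, ENNReal.ofReal (-H (Function.updateFinset x S y))) /
        ENNReal.ofReal (mg f S x) := by
    rw [hlaw (fun y => ENNReal.ofReal (-G y)) hG.neg.ennreal_ofReal]
    congr 1
    unfold lmg
    apply lintegral_congr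
    intro y
    simp only []
    rw [← ENNReal.ofReal_mul (hf _), mul_neg, hGH]
  have hc : ENNReal.ofReal (mg f S x) ≠ 0 := by
    rw [Ne, ENNReal.ofReal_eq_zero, not_le]; exact hp
  have hint : Integrable (fun u => G (X u)) μ := by
    refine ⟨hmG.aestronglyMeasurable, ?_⟩
    rw [hasFiniteIntegral_iff_norm]
    have e : ∫⁻ u, ENNReal.ofReal ‖G (X u)‖ ∂μ =
        (∫⁻ y : S → ℝ, ENNReal.ofReal ‖H (Function.updateFinset x S y)‖) /
        ENNReal.ofReal (mg f S x) := by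
      rw [hlaw (fun y => ENNReal.ofReal ‖G y‖) hG.norm.ennreal_ofReal]
      congr 1
      unfold lmg
      apply lintegral_congr
      intro y
      simp only []
      rw [← ENNReal.ofReal_mul (hf _), ← hGH, norm_mul, Real.norm_of_nonneg (hf _)]
    rw [e]
    refine ENNReal.div_lt_top ?_ hc
    have := hH.2
    rw [hasFiniteIntegral_iff_norm] at this
    exact this.ne
  refine ⟨hint, ?_⟩
  rw [integral_eq_lintegral_pos_part_sub_lintegral_neg_part hint, hpos, hneg,
    ENNReal.toReal_div, ENNReal.toReal_div, ENNReal.toReal_ofReal hp.le, ← sub_div]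
  congr 1
  unfold mg
  rw [integral_eq_lintegral_pos_part_sub_lintegral_neg_part hH]

theorem bh_meas {f f' : (A → ℝ) → ℝ} {D D' : A → (A → ℝ) → ℝ} (hf : Reg p f D)
    (hf' : Reg p f' D') {σ : St A → A} (hσ : Pol σ) (N : ℕ) (s : St A) (hs : Lg p f f' s)
    (hN : s.1.card = N) (Φ : (A → ℝ) × (A → ℝ) → ENNReal) (hΦ : Measurable Φ) :
    Measurable (fun u => Φ (rn f f' σ N s u).2) := by
  have h := rn_meas hf hf' hσ N s.1 hN Φ hΦ
  have h2 : Measurable (fun u : Un N =>
      ((⟨s.2, hs⟩, u) : {b : (A → ℝ) × (A → ℝ) // Lg p f f' (s.1, b)} × Un N)) :=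
    measurable_prodMk_left
  exact h.comp h2

theorem bh_quot {f : (A → ℝ) → ℝ} {D : A → (A → ℝ) → ℝ} (hf : Reg p f D) (k : A)
    (y : A → ℝ) : f y * (D k y / f y) = D k y := by
  by_cases h : f y = 0
  · rw [h, hf.zero k y h]; simp
  · field_simp

theorem bh_both {f f' : (A → ℝ) → ℝ} {D D' : A → (A → ℝ) → ℝ} (hf : Reg p f D)
    (hf' : Reg p f' D') {σ : St A → A} (hσ : Pol σ) (N : ℕ) (s : St A) (hs : Lg p f f' s)
    (hN : s.1.card = N) (k : A) :
    (Integrable (fun u => D k (rn f f' σ N s u).2.1 / f (rn f f' σ N s u).2.1) (unN N) ∧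
      ∫ u, D k (rn f f' σ N s u).2.1 / f (rn f f' σ N s u).2.1 ∂unN N =
        mg (D k) s.1 s.2.1 / mg f s.1 s.2.1) ∧
    (Integrable (fun u => D' k (rn f f' σ N s u).2.2 / f' (rn f f' σ N s u).2.2) (unN N) ∧
      ∫ u, D' k (rn f f' σ N s u).2.2 / f' (rn f f' σ N s u).2.2 ∂unN N =
        mg (D' k) s.1 s.2.2 / mg f' s.1 s.2.2) := by
  constructor
  · exact bh_gen (unN N) (fun u => (rn f f' σ N s u).2.1) (f := f) (G := fun y => D k y / f y)
      (H := D k) (S := s.1) (x := s.2.1)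
      (fun Ψ hΨ => bh_meas hf hf' hσ N s hs hN (fun b => Ψ b.1) (hΨ.comp measurable_fst))
      (fun Ψ hΨ => (rn_law hf hf' hσ N s hs hN Ψ hΨ).1) hf.nonneg hs.p1
      ((mg_integrable hf hs.mem hs.z1).2 k) ((hf.meas k).div hf.cont.measurable)
      (bh_quot hf k)
  · exact bh_gen (unN N) (fun u => (rn f f' σ N s u).2.2) (f := f') (G := fun y => D' k y / f' y)
      (H := D' k) (S := s.1) (x := s.2.2)
      (fun Ψ hΨ => bh_meas hf hf' hσ N s hs hN (fun b => Ψ b.2) (hΨ.comp measurable_snd))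
      (fun Ψ hΨ => (rn_law hf hf' hσ N s hs hN Ψ hΨ).2) hf'.nonneg hs.p2
      ((mg_integrable hf' hs.mem hs.z2).2 k) ((hf'.meas k).div hf'.cont.measurable)
      (bh_quot hf' k)

/-- the forces are integrable -/
theorem rn_int {f f' : (A → ℝ) → ℝ} {D D' : A → (A → ℝ) → ℝ} (hf : Reg p f D)
    (hf' : Reg p f' D') {σ : St A → A} (hσ : Pol σ) (N : ℕ) (s : St A) (hs : Lg p f f' s)
    (hN : s.1.card = N) (k : A) :
    Integrable (fun u => D k (rn f f' σ N s u).2.1 / f (rn f f' σ N s u).2.1) (unN N) ∧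
      Integrable (fun u => D' k (rn f f' σ N s u).2.2 / f' (rn f f' σ N s u).2.2) (unN N) :=
  ⟨(bh_both hf hf' hσ N s hs hN k).1.1, (bh_both hf hf' hσ N s hs hN k).2.1⟩

/-- the conditional expectation of the forces -/
theorem rn_force {f f' : (A → ℝ) → ℝ} {D D' : A → (A → ℝ) → ℝ} (hf : Reg p f D)
    (hf' : Reg p f' D') {σ : St A → A} (hσ : Pol σ) (N : ℕ) (s : St A) (hs : Lg p f f' s)
    (hN : s.1.card = N) (k : A) :
    (∫ u, D k (rn f f' σ N s u).2.1 / f (rn f f' σ N s u).2.1 ∂unN N =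
      mg (D k) s.1 s.2.1 / mg f s.1 s.2.1) ∧
    ∫ u, D' k (rn f f' σ N s u).2.2 / f' (rn f f' σ N s u).2.2 ∂unN N =
      mg (D' k) s.1 s.2.2 / mg f' s.1 s.2.2 :=
  ⟨(bh_both hf hf' hσ N s hs hN k).1.2, (bh_both hf hf' hσ N s hs hN k).2.2⟩

end HK
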