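import Mathlib
import Pool.Agent.Lib_helper12.HK.DefsA
import Pool.Agent.Lib_helper12.HK.DefsB
import Pool.Agent.Lib_helper12.HK.W.ba
import Pool.Agent.Lib_helper12.HK.W.bb
import Pool.Agent.Lib_helper12.HK.W.bc
import Pool.Agent.Lib_helper12.HK.W.bd
import Pool.Agent.Lib_helper12.HK.W.be
import Pool.Agent.Lib_helper12.HK.W.bf
import Pool.Agent.Lib_helper12.HK.W.bh
import Pool.Agent.Lib_helper12.HK.W.ad
import Pool.Agent.Lib_helper12.HK.W.ae
import Pool.Agent.Lib_helper12.HK.W.af

set_option autoImplicit false

namespace HK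

open MeasureTheory QG

variable {A : Type} [Fintype A] [DecidableEq A] {p : A}

theorem bi_un1_prob : IsProbabilityMeasure un1 := by
  constructor
  unfold un1
  rw [(MeasurableEmbedding.subtype_coe measurableSet_Ioo).comap_apply, Set.image_univ,
    Subtype.range_coe, Real.volume_Ioo]
  norm_num

/-- the first uniform random number is separated from the others -/
theorem bi_fub {N : ℕ} (G : Set.Ioo (0 : ℝ) 1 × Un N → ℝ) (h : ∫ v, ∫ u, G (v, u) ∂unN N ∂un1 ≤ 0) :
    ∫ u : Un (N + 1), G (u 0, fun i => u i.succ) ∂unN (N + 1) ≤ 0 := by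
  have := bi_un1_prob
  have mp := measurePreserving_piFinSuccAbove (fun _ : Fin (N + 1) => un1) 0
  have e1 : ∫ u : Un (N + 1), G (u 0, fun i => u i.succ) ∂unN (N + 1) =
      ∫ z, G z ∂(un1.prod (unN N)) := by
    have := mp.integral_comp' G
    unfold unN
    rw [← this]
    rfl
  rw [e1]
  by_cases hI : Integrable G (un1.prod (unN N))
  · rw [integral_prod G hI]; exact h
  · rw [integral_undef hI]

/-- the key inequality from any legal state in which `k` is not sampled -/
theorem rn_key {f f' : (A → ℝ) → ℝ} {D D' : A → (A → ℝ) → ℝ} (hf : Reg p f D)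
    (hf' : Reg p f' D') {σ : St A → A} (hσ : Pol σ) (N : ℕ) (s : St A) (hs : Lg p f f' s)
    (hN : s.1.card = N) (k : A) (hk : k ∈ s.1) :
    ∫ u, ((rn f f' σ N s u).2.2 k - (rn f f' σ N s u).2.1 k) *
      (D k (rn f f' σ N s u).2.1 / f (rn f f' σ N s u).2.1 -
        D' k (rn f f' σ N s u).2.2 / f' (rn f f' σ N s u).2.2) ∂unN N ≤ 0 := by
  induction N generalizing s with
  | zero =>
    rw [Finset.card_eq_zero] at hN
    rw [hN] at hk
    simp at hk
  | succ N ih =>
    have hn : s.1.Nonempty := ⟨k, hk⟩
    refine bi_fub (fun z => ((rn f f' σ N (step f f' σ s z.1) z.2).2.2 k -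
      (rn f f' σ N (step f f' σ s z.1) z.2).2.1 k) *
      (D k (rn f f' σ N (step f f' σ s z.1) z.2).2.1 /
        f (rn f f' σ N (step f f' σ s z.1) z.2).2.1 -
        D' k (rn f f' σ N (step f f' σ s z.1) z.2).2.2 /
          f' (rn f f' σ N (step f f' σ s z.1) z.2).2.2)) ?_
    have leg : ∀ v : Set.Ioo (0 : ℝ) 1, Lg p f f' (step f f' σ s v) ∧
        (step f f' σ s v).1.card = N := by
      intro v
      have := step_legal hf hf' hσ hs hn v.2
      exact ⟨this.1, by omega⟩
    by_cases hj : σ s = k
    · have inner : ∀ v : Set.Ioo (0 : ℝ) 1,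
          (∫ u, ((rn f f' σ N (step f f' σ s v) u).2.2 k -
            (rn f f' σ N (step f f' σ s v) u).2.1 k) *
            (D k (rn f f' σ N (step f f' σ s v) u).2.1 /
              f (rn f f' σ N (step f f' σ s v) u).2.1 -
              D' k (rn f f' σ N (step f f' σ s v) u).2.2 /
                f' (rn f f' σ N (step f f' σ s v) u).2.2) ∂unN N) =
          (qt (cde f' s.1 s.2.2 k) v - qt (cde f s.1 s.2.1 k) v) *
            (mg (D k) (s.1.erase k) (Function.update s.2.1 k (qt (cde f s.1 s.2.1 k) v)) /
                mg f s.1 s.2.1 / cde f s.1 s.2.1 k (qt (cde f s.1 s.2.1 k) v) -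
              mg (D' k) (s.1.erase k) (Function.update s.2.2 k (qt (cde f' s.1 s.2.2 k) v)) /
                mg f' s.1 s.2.2 / cde f' s.1 s.2.2 k (qt (cde f' s.1 s.2.2 k) v)) := by
        intro v
        obtain ⟨lv, cv⟩ := leg v
        have hnk : k ∉ (step f f' σ s v).1 := by
          unfold step; simp [hj]
        have fx := fun u => rn_fix (f := f) (f' := f') hσ N (step f f' σ s v) cv u hnk
        have q1 : (step f f' σ s v).2.1 k = qt (cde f s.1 s.2.1 k) v := by
          unfold step; simp [hj]
        have q2 : (step f f' σ s v).2.2 k = qt (cde f' s.1 s.2.2 k) v := by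
          unfold step; simp [hj]
        have i1 := rn_int hf hf' hσ N (step f f' σ s v) lv cv k
        have f1 := rn_force hf hf' hσ N (step f f' σ s v) lv cv k
        have E : ∀ u, ((rn f f' σ N (step f f' σ s v) u).2.2 k -
            (rn f f' σ N (step f f' σ s v) u).2.1 k) *
            (D k (rn f f' σ N (step f f' σ s v) u).2.1 /
              f (rn f f' σ N (step f f' σ s v) u).2.1 -
              D' k (rn f f' σ N (step f f' σ s v) u).2.2 /
                f' (rn f f' σ N (step f f' σ s v) u).2.2) =
            (qt (cde f' s.1 s.2.2 k) v - qt (cde f s.1 s.2.1 k) v) *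
            (D k (rn f f' σ N (step f f' σ s v) u).2.1 /
              f (rn f f' σ N (step f f' σ s v) u).2.1 -
              D' k (rn f f' σ N (step f f' σ s v) u).2.2 /
                f' (rn f f' σ N (step f f' σ s v) u).2.2) := by
          intro u
          rw [(fx u).1, (fx u).2, q1, q2]
        rw [integral_congr_ae (Filter.Eventually.of_forall E), integral_const_mul,
          integral_sub i1.1 i1.2, f1.1, f1.2]
        have s1 : (step f f' σ s v).1 = s.1.erase k := by unfold step; simp [hj]
        have s2 : (step f f' σ s v).2.1 =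
            Function.update s.2.1 k (qt (cde f s.1 s.2.1 k) v) := by
          unfold step; simp [hj]
        have s3 : (step f f' σ s v).2.2 =
            Function.update s.2.2 k (qt (cde f' s.1 s.2.2 k) v) := by
          unfold step; simp [hj]
        rw [s1, s2, s3]
        have m1 := hs.p1.ne'
        have m2 := hs.p2.ne'
        unfold cde
        rw [div_div_div_cancel_right₀ m1, div_div_div_cancel_right₀ m2]
      rw [integral_congr_ae (Filter.Eventually.of_forall inner)]
      have K := K1 (cde_dn hf hs.mem hk hs.z1 hs.p1) (cde_dn hf' hs.mem hk hs.z2 hs.p2)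
      unfold un1
      rw [integral_subtype_comap measurableSet_Ioo (fun v : ℝ =>
        (qt (cde f' s.1 s.2.2 k) v - qt (cde f s.1 s.2.1 k) v) *
            (mg (D k) (s.1.erase k) (Function.update s.2.1 k (qt (cde f s.1 s.2.1 k) v)) /
                mg f s.1 s.2.1 / cde f s.1 s.2.1 k (qt (cde f s.1 s.2.1 k) v) -
              mg (D' k) (s.1.erase k) (Function.update s.2.2 k (qt (cde f' s.1 s.2.2 k) v)) /
                mg f' s.1 s.2.2 / cde f' s.1 s.2.2 k (qt (cde f' s.1 s.2.2 k) v)))]
      exact K
    · refine integral_nonpos (fun v => ?_)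
      obtain ⟨lv, cv⟩ := leg v
      refine ih (step f f' σ s v) lv cv ?_
      unfold step
      exact Finset.mem_erase.mpr ⟨fun h => hj h.symm, hk⟩

end HK
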