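import Mathlib
import Pool.Agent.Lib_helper12.HK.DefsA
import Pool.Agent.Lib_helper12.HK.DefsB
import Pool.Agent.Lib_helper12.HK.W.ab
import Pool.Agent.Lib_helper12.HK.W.ba
import Pool.Agent.Lib_helper12.HK.W.bd
import Pool.Agent.Lib_helper12.HK.W.be
import Pool.Agent.Lib_helper12.HK.W.bf
import Pool.Agent.Lib_helper12.HK.W.bg
import Pool.Agent.Lib_helper12.HK.W.bh
import Pool.Agent.Lib_helper12.HK.W.bi

set_option autoImplicit false

namespace HK

open MeasureTheory QG

variable {A : Type} [Fintype A] [DecidableEq A] {p : A}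

/-- the start of the run -/
theorem bz_start {f f' : (A → ℝ) → ℝ} {D D' : A → (A → ℝ) → ℝ} (hf : Reg p f D)
    (hf' : Reg p f' D') : Lg p f f' ((Finset.univ.erase p, 0, 0) : St A) where
  mem := Finset.notMem_erase p _
  z1 := rfl
  z2 := rfl
  p1 := by rw [mg_start hf]; exact one_pos
  p2 := by rw [mg_start hf']; exact one_pos

/-- measurability at the starting state -/
theorem bz_meas {f f' : (A → ℝ) → ℝ} {D D' : A → (A → ℝ) → ℝ} (hf : Reg p f D)
    (hf' : Reg p f' D') {σ : St A → A} (hσ : Pol σ) :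
    Measurable fun u : Un (Finset.univ.erase p).card =>
      (rn f f' σ (Finset.univ.erase p).card ((Finset.univ.erase p, 0, 0) : St A) u).2 := by
  intro s hs
  have h1 := rn_meas hf hf' hσ (Finset.univ.erase p).card (Finset.univ.erase p) rfl
    (s.indicator 1) (measurable_one.indicator hs)
  have h2 : Measurable fun u : Un (Finset.univ.erase p).card =>
      ((⟨(0, 0), bz_start hf hf'⟩ : {b : (A → ℝ) × (A → ℝ) //
        Lg p f f' (Finset.univ.erase p, b)}), u) :=
    measurable_const.prodMk measurable_id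
  have h3 := h1.comp h2
  have h4 := h3 (measurableSet_singleton (1 : ENNReal))
  convert h4 using 1
  ext u
  simp only [Set.mem_preimage, Function.comp, Set.mem_singleton_iff]
  by_cases h : (rn f f' σ (Finset.univ.erase p).card ((Finset.univ.erase p, 0, 0) : St A) u).2 ∈ s
  · rw [Set.indicator_of_mem h]
    simpa using h
  · rw [Set.indicator_of_notMem h]
    simpa using h

/-- the law from the integrals of functions -/
theorem bz_law {Ω : Type} [MeasurableSpace Ω] {P : Measure Ω} {z : Ω → A → ℝ} (hz : Measurable z)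
    {g : (A → ℝ) → ℝ} (hg : Measurable g) (hg1 : mg g (Finset.univ.erase p) 0 = 1)
    (h : ∀ Ψ : (A → ℝ) → ENNReal, Measurable Ψ → ∫⁻ u, Ψ (z u) ∂P =
      lmg (fun y => ENNReal.ofReal (g y) * Ψ y) (Finset.univ.erase p) 0 /
        ENNReal.ofReal (mg g (Finset.univ.erase p) 0)) :
    P.map z = (bs p).withDensity (fun x => ENNReal.ofReal (g x)) := by
  refine Measure.ext fun s hs => ?_
  rw [Measure.map_apply hz hs, withDensity_apply _ hs]
  have h1 := h (s.indicator 1) (measurable_one.indicator hs)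
  have hm : Measurable fun y => ENNReal.ofReal (g y) * s.indicator (1 : (A → ℝ) → ENNReal) y :=
    hg.ennreal_ofReal.mul (measurable_one.indicator hs)
  rw [hg1, ENNReal.ofReal_one, div_one, ← lmg_bs hm] at h1
  have e1 : ∫⁻ u, s.indicator (1 : (A → ℝ) → ENNReal) (z u) ∂P = P (z ⁻¹' s) := by
    have : (fun u => s.indicator (1 : (A → ℝ) → ENNReal) (z u)) = (z ⁻¹' s).indicator 1 := by
      funext u
      by_cases h : z u ∈ s
      · rw [Set.indicator_of_mem h, Set.indicator_of_mem (show u ∈ z ⁻¹' s from h)]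
        rfl
      · rw [Set.indicator_of_notMem h, Set.indicator_of_notMem (show u ∉ z ⁻¹' s from h)]
    rw [this, lintegral_indicator_one (hz hs)]
  rw [← e1, h1, ← lintegral_indicator hs]
  refine lintegral_congr fun x => ?_
  by_cases h : x ∈ s
  · rw [Set.indicator_of_mem h, Set.indicator_of_mem h]
    simp
  · rw [Set.indicator_of_notMem h, Set.indicator_of_notMem h, mul_zero]

/-- the run stays in a closed set of states -/
theorem bz_run {f f' : (A → ℝ) → ℝ} {D D' : A → (A → ℝ) → ℝ} (hf : Reg p f D)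
    (hf' : Reg p f' D') {σ : St A → A} (hσ : Pol σ) {J : Set (St A)}
    (hJ : ∀ s ∈ J, s.1.Nonempty → p ∉ s.1 → s.2.1 p = 0 → s.2.2 p = 0 → 0 < mg f s.1 s.2.1 →
      0 < mg f' s.1 s.2.2 → ∀ u ∈ Set.Ioo (0 : ℝ) 1, step f f' σ s u ∈ J) (N : ℕ) :
    ∀ (s : St A), Lg p f f' s → s.1.card = N → s ∈ J → ∀ u : Un N, rn f f' σ N s u ∈ J := by
  induction N with
  | zero => intro s _ _ hs u; exact hs
  | succ N ih =>
    intro s hl hc hs u
    have hn : s.1.Nonempty := Finset.card_pos.1 (by omega)
    obtain ⟨h1, h2⟩ := step_legal hf hf' hσ hl hn (u 0).2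
    exact ih _ h1 (by omega) (hJ s hs hn hl.mem hl.z1 hl.z2 hl.p1 hl.p2 _ (u 0).2) _

/-- Theorem B: the adaptive quantile coupling exists -/
theorem coupling {f f' : (A → ℝ) → ℝ} {D D' : A → (A → ℝ) → ℝ} (hf : Reg p f D)
    (hf' : Reg p f' D') {σ : St A → A} (hσ : Pol σ) :
    ∃ (Ω : Type) (_ : MeasurableSpace Ω) (P : Measure Ω) (z z' : Ω → A → ℝ),
      ACpl p f f' D D' σ P z z' := by
  have hl := bz_start hf hf'
  have hm := bz_meas hf hf' hσ
  have he := fun u => rn_empty hf hf' hσ (Finset.univ.erase p).card _ hl rfl u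
  refine ⟨Un (Finset.univ.erase p).card, inferInstance, unN _,
    fun u => (rn f f' σ (Finset.univ.erase p).card ((Finset.univ.erase p, 0, 0) : St A) u).2.1,
    fun u => (rn f f' σ (Finset.univ.erase p).card ((Finset.univ.erase p, 0, 0) : St A) u).2.2,
    ?_⟩
  refine
    { prob := inferInstance
      meas := hm.fst
      meas' := hm.snd
      law := bz_law hm.fst hf.cont.measurable (mg_start hf) fun Ψ hΨ =>
        (rn_law hf hf' hσ _ _ hl rfl Ψ hΨ).1
      law' := bz_law hm.snd hf'.cont.measurable (mg_start hf') fun Ψ hΨ =>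
        (rn_law hf hf' hσ _ _ hl rfl Ψ hΨ).2
      zp := ?_
      int := fun k _ => rn_int hf hf' hσ _ _ hl rfl k
      key := fun k hk => rn_key hf hf' hσ _ _ hl rfl k (Finset.mem_erase.2 ⟨hk, Finset.mem_univ _⟩)
      run := ?_
      cond := ?_ }
  · intro u
    obtain ⟨h1, h2⟩ := he u
    refine ⟨h2.z1, h2.z2, ?_, ?_⟩
    · have := h2.p1
      rw [h1, mg_empty] at this
      exact this
    · have := h2.p2
      rw [h1, mg_empty] at this
      exact this
  · intro J h0 hJ u
    have h3 := bz_run hf hf' hσ hJ _ _ hl rfl h0 u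
    have h4 : ((∅, (rn f f' σ (Finset.univ.erase p).card
        ((Finset.univ.erase p, 0, 0) : St A) u).2.1, (rn f f' σ (Finset.univ.erase p).card
        ((Finset.univ.erase p, 0, 0) : St A) u).2.2) : St A) =
        rn f f' σ (Finset.univ.erase p).card ((Finset.univ.erase p, 0, 0) : St A) u := by
      rw [← (he u).1]
    show ((∅, (rn f f' σ (Finset.univ.erase p).card
        ((Finset.univ.erase p, 0, 0) : St A) u).2.1, (rn f f' σ (Finset.univ.erase p).card
        ((Finset.univ.erase p, 0, 0) : St A) u).2.2) : St A) ∈ J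
    rw [h4]
    exact h3
  · intro T hT hT' Φ Ψ hΦ hΨ hi
    refine rn_cond hf hf' hσ T hT hT' _ _ hl ?_ rfl Φ Ψ hΦ hΨ hi
    intro i hi
    rw [Finset.mem_erase]
    refine ⟨?_, Finset.mem_univ _⟩
    rintro rfl
    exact hT hi

end HK
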