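import Mathlib
import Pool.Agent.Lib_helper12.HK.DefsE
import Pool.Agent.Lib_helper12.HK.W.ei
import Pool.Agent.Lib_helper69.HKF.W.fb
import Pool.Agent.Lib_helper69.HKF.W.fc
import Pool.Agent.Lib_helper69.HKF.W.fd
import Pool.Agent.Lib_helper69.HKF.W.fe

/-!
# Project HK, Part F: percolation estimates (`meas_Bds`, `rad_tail`, `gam_exp`, `cl_tail`).
-/

set_option autoImplicit false
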