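import Mathlib
import Pool.Agent.Lib_helper12.HK.DefsG

set_option autoImplicit false

namespace HK

open MeasureTheory QG

theorem am_le (t : Fin 4 → ℝ) (j : Fin 4) : t j ≤ t (am t) := by
  obtain ⟨i, hi⟩ := Finite.exists_max t
  unfold am
  split_ifs with h0 h1 h2
  · exact h0 j
  · exact h1 j
  · exact h2 j
  · fin_cases i
    · exact absurd hi h0
    · exact absurd hi h1
    · exact absurd hi h2
    · exact hi j

theorem an_le (t : Fin 4 → ℝ) (j : Fin 4) : t (an t) ≤ t j := by
  have h := am_le (fun i => - t i) j
  unfold an
  linarith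

theorem osc_eq (t : Fin 4 → ℝ) : osc t = t (am t) - t (an t) := by
  unfold osc
  congr 1
  · apply le_antisymm
    · exact Finset.sup'_le _ _ fun j _ => am_le t j
    · exact Finset.le_sup' t (Finset.mem_univ _)
  · apply le_antisymm
    · exact Finset.inf'_le t (Finset.mem_univ _)
    · exact Finset.le_inf' _ _ fun j _ => an_le t j

theorem osc_le_iff (t : Fin 4 → ℝ) (r : ℝ) : osc t ≤ r ↔ ∀ i j, t i - t j ≤ r := by
  rw [osc_eq]
  constructor
  · intro h i j
    linarith [am_le t i, an_le t j]
  · intro h
    exact h _ _

theorem abs_le_osc (t : Fin 4 → ℝ) (i j : Fin 4) : |t i - t j| ≤ osc t := by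
  have h := (osc_le_iff t (osc t)).1 le_rfl
  rw [abs_le]
  constructor
  · linarith [h j i]
  · exact h i j

theorem osc_conv (t t' : Fin 4 → ℝ) {s : ℝ} (h0 : 0 ≤ s) (h1 : s ≤ 1) :
    osc (fun i => (1 - s) * t i + s * t' i) ≤ (1 - s) * osc t + s * osc t' := by
  rw [osc_le_iff]
  intro i j
  have h := (osc_le_iff t (osc t)).1 le_rfl i j
  have h' := (osc_le_iff t' (osc t')).1 le_rfl i j
  have h2 := mul_le_mul_of_nonneg_left h (by linarith : (0 : ℝ) ≤ 1 - s)
  have h3 := mul_le_mul_of_nonneg_left h' h0
  linarith

theorem wh_pos_iff (t : Fin 4 → ℝ) : 0 < wh t ↔ osc t < 2 := by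
  unfold wh
  rw [lt_max_iff]
  constructor
  · rintro (h | h)
    · exact absurd h (lt_irrefl _)
    · linarith
  · intro h
    right
    linarith

theorem wh_mid (t t' : Fin 4 → ℝ) : wh t * wh t' ≤ wh (fun i => (t i + t' i) / 2) ^ 2 := by
  by_cases h1 : osc t < 2
  · by_cases h2 : osc t' < 2
    · have e1 : wh t = 2 - osc t := by
        unfold wh
        exact max_eq_right (by linarith)
      have e2 : wh t' = 2 - osc t' := by
        unfold wh
        exact max_eq_right (by linarith)
      have h3 := osc_conv t t' (s := 1 / 2) (by norm_num) (by norm_num)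
      have e3 : (fun i => (1 - 1 / 2 : ℝ) * t i + 1 / 2 * t' i) = fun i => (t i + t' i) / 2 := by
        funext i
        ring
      rw [e3] at h3
      have h4 : ((2 - osc t) + (2 - osc t')) / 2 ≤ wh (fun i => (t i + t' i) / 2) := by
        unfold wh
        refine le_trans ?_ (le_max_right _ _)
        linarith
      have h5 : (((2 - osc t) + (2 - osc t')) / 2) ^ 2 ≤ wh (fun i => (t i + t' i) / 2) ^ 2 :=
        pow_le_pow_left₀ (by linarith) h4 2
      rw [e1, e2]
      refine le_trans ?_ h5
      nlinarith [sq_nonneg ((2 - osc t) - (2 - osc t'))]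
    · have e2 : wh t' = 0 := by
        unfold wh
        exact max_eq_left (by linarith)
      rw [e2, mul_zero]
      positivity
  · have e2 : wh t = 0 := by
      unfold wh
      exact max_eq_left (by linarith)
    rw [e2, zero_mul]
    positivity

theorem ga_set (i : Fin 4) : MeasurableSet {t : Fin 4 → ℝ | ∀ j, t j ≤ t i} := by
  have : {t : Fin 4 → ℝ | ∀ j, t j ≤ t i} = ⋂ j, {t : Fin 4 → ℝ | t j ≤ t i} := by
    ext t
    simp
  rw [this]
  exact MeasurableSet.iInter fun j =>
    measurableSet_le (measurable_pi_apply j) (measurable_pi_apply i)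

theorem am_meas : Measurable am := by
  unfold am
  refine Measurable.ite (ga_set 0) measurable_const ?_
  refine Measurable.ite (ga_set 1) measurable_const ?_
  exact Measurable.ite (ga_set 2) measurable_const measurable_const

theorem an_meas : Measurable an := by
  unfold an
  exact am_meas.comp (measurable_pi_iff.2 fun i => (measurable_pi_apply i).neg)

theorem ga_osc_cont : Continuous osc := by
  unfold osc
  refine Continuous.sub ?_ ?_
  · exact Continuous.finset_sup'_apply _ fun i _ => continuous_apply i
  · exact Continuous.finset_inf'_apply _ fun i _ => continuous_apply i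

theorem Gh_meas (i : Fin 4) : Measurable (Gh i) := by
  unfold Gh
  refine Measurable.div (Measurable.sub ?_ ?_) ?_
  · refine Measurable.ite ?_ measurable_const measurable_const
    have : {t : Fin 4 → ℝ | i = am t} = am ⁻¹' {i} := by
      ext t
      simp [eq_comm]
    rw [this]
    exact am_meas (measurableSet_singleton i)
  · refine Measurable.ite ?_ measurable_const measurable_const
    have : {t : Fin 4 → ℝ | i = an t} = an ⁻¹' {i} := by
      ext t
      simp [eq_comm]
    rw [this]
    exact an_meas (measurableSet_singleton i)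
  · exact measurable_const.sub ga_osc_cont.measurable

theorem ga_Gh_wh (t : Fin 4 → ℝ) (i : Fin 4) (h : osc t < 2) :
    Gh i t * wh t = (if i = am t then 1 else 0) - (if i = an t then 1 else 0) := by
  have e1 : wh t = 2 - osc t := by
    unfold wh
    exact max_eq_right (by linarith)
  unfold Gh
  rw [e1]
  exact div_mul_cancel₀ _ (by linarith)

theorem ga_Gh_wh0 (t : Fin 4 → ℝ) (i : Fin 4) (h : 2 ≤ osc t) : Gh i t * wh t = 0 := by
  have e1 : wh t = 0 := by
    unfold wh
    exact max_eq_left (by linarith)
  rw [e1, mul_zero]

theorem Gh_wh (t : Fin 4 → ℝ) (i : Fin 4) : |Gh i t * wh t| ≤ 1 := by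
  by_cases h : osc t < 2
  · rw [ga_Gh_wh t i h]
    split_ifs <;> norm_num
  · rw [ga_Gh_wh0 t i (by linarith)]
    norm_num

/-- the weak derivative of the weight of a cell -/
theorem wh_ftc (t : Fin 4 → ℝ) (i : Fin 4) (a b : ℝ) :
    wh (Function.update t i b) - wh (Function.update t i a) =
      ∫ r in a..b, -(Gh i (Function.update t i r) * wh (Function.update t i r)) := by
  have hne : (Finset.univ.erase i).Nonempty := by
    fin_cases i <;> decide
  obtain ⟨j0, hj0, hmax⟩ := Finset.exists_max_image (Finset.univ.erase i) t hne
  obtain ⟨j1, hj1, hmin⟩ := Finset.exists_min_image (Finset.univ.erase i) t hne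
  have hj0i : j0 ≠ i := Finset.ne_of_mem_erase hj0
  have hj1i : j1 ≠ i := Finset.ne_of_mem_erase hj1
  set M := t j0 with hM
  set m := t j1 with hm
  have hmM : m ≤ M := hmax j1 hj1
  have hle : ∀ j, j ≠ i → t j ≤ M := fun j hj => hmax j (Finset.mem_erase.2 ⟨hj, Finset.mem_univ _⟩)
  have hge : ∀ j, j ≠ i → m ≤ t j := fun j hj => hmin j (Finset.mem_erase.2 ⟨hj, Finset.mem_univ _⟩)
  have hui : ∀ r, Function.update t i r i = r := fun r => Function.update_self _ _ _
  have huj : ∀ r j, j ≠ i → Function.update t i r j = t j := fun r j hj =>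
    Function.update_of_ne hj _ _
  have hosc : ∀ r, osc (Function.update t i r) = max M r - min m r := by
    intro r
    apply le_antisymm
    · rw [osc_le_iff]
      intro k l
      have h1 : Function.update t i r k ≤ max M r := by
        by_cases hk : k = i
        · rw [hk, hui]
          exact le_max_right _ _
        · rw [huj r k hk]
          exact (hle k hk).trans (le_max_left _ _)
      have h2 : min m r ≤ Function.update t i r l := by
        by_cases hl : l = i
        · rw [hl, hui]
          exact min_le_right _ _
        · rw [huj r l hl]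
          exact (min_le_left _ _).trans (hge l hl)
      linarith
    · have h := (osc_le_iff (Function.update t i r) _).1 le_rfl
      have h00 := h j0 j1
      have h01 := h j0 i
      have h10 := h i j1
      have h11 := h i i
      rw [huj r j0 hj0i, huj r j1 hj1i] at h00
      rw [huj r j0 hj0i, hui] at h01
      rw [huj r j1 hj1i, hui] at h10
      rw [hui] at h11
      rcases le_total M r with hMr | hMr
      · rw [max_eq_right hMr]
        rcases le_total m r with hmr | hmr
        · rw [min_eq_left hmr]
          exact h10
        · rw [min_eq_right hmr]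
          exact h11
      · rw [max_eq_left hMr]
        rcases le_total m r with hmr | hmr
        · rw [min_eq_left hmr]
          exact h00
        · rw [min_eq_right hmr]
          exact h01
  have hwh : ∀ r, wh (Function.update t i r) = max 0 (2 - (max M r - min m r)) := by
    intro r
    unfold wh
    rw [hosc]
  -- the function is Lipschitz
  have hlip : LipschitzWith 2 fun r => max 0 (2 - (max M r - min m r)) := by
    refine LipschitzWith.of_dist_le_mul fun x y => ?_
    rw [Real.dist_eq, Real.dist_eq]
    have h1 : |max 0 (2 - (max M x - min m x)) - max 0 (2 - (max M y - min m y))| ≤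
        |(2 - (max M x - min m x)) - (2 - (max M y - min m y))| := by
      rw [max_comm 0, max_comm 0]
      exact abs_max_sub_max_le_abs _ _ _
    have h2 : |max M x - max M y| ≤ |x - y| := by
      rw [max_comm M, max_comm M]
      exact abs_max_sub_max_le_abs _ _ _
    have h3 : |min m x - min m y| ≤ |x - y| := by
      have h4 := abs_min_sub_min_le_max m x m y
      rw [sub_self, abs_zero, max_eq_right (abs_nonneg _)] at h4
      exact h4
    calc |max 0 (2 - (max M x - min m x)) - max 0 (2 - (max M y - min m y))|
        ≤ |(2 - (max M x - min m x)) - (2 - (max M y - min m y))| := h1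
      _ = |(min m x - min m y) - (max M x - max M y)| := by congr 1; ring
      _ ≤ |min m x - min m y| + |max M x - max M y| := abs_sub _ _
      _ ≤ ((2 : NNReal) : ℝ) * |x - y| := by
          push_cast
          linarith
  have hac : AbsolutelyContinuousOnInterval (fun r => max 0 (2 - (max M r - min m r))) a b :=
    (hlip.lipschitzOnWith (s := Set.uIcc a b)).absolutelyContinuousOnInterval
  have hint := hac.integral_deriv_eq_sub
  rw [hwh, hwh, ← hint]
  apply intervalIntegral.integral_congr_ae
  have hfin : ({M, m, M - 2, m + 2} : Set ℝ).Countable := (Set.toFinite _).countable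
  filter_upwards [hfin.ae_notMem volume] with r hr _
  simp only [Set.mem_insert_iff, Set.mem_singleton_iff, not_or] at hr
  obtain ⟨hr1, hr2, hr3, hr4⟩ := hr
  -- indices
  have ham_ne : r < M → i ≠ am (Function.update t i r) := by
    intro h heq
    have h1 := am_le (Function.update t i r) j0
    rw [← heq, hui, huj r j0 hj0i] at h1
    linarith
  have han_ne : m < r → i ≠ an (Function.update t i r) := by
    intro h heq
    have h1 := an_le (Function.update t i r) j1
    rw [← heq, hui, huj r j1 hj1i] at h1
    linarith
  have ham : M < r → i = am (Function.update t i r) := by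
    intro h
    by_contra hne
    have h1 := am_le (Function.update t i r) i
    rw [hui, huj r _ (fun h => hne h.symm)] at h1
    have h2 := hle _ (fun h : am (Function.update t i r) = i => hne h.symm)
    linarith
  have han : r < m → i = an (Function.update t i r) := by
    intro h
    by_contra hne
    have h1 := an_le (Function.update t i r) i
    rw [hui, huj r _ (fun h => hne h.symm)] at h1
    have h2 := hge _ (fun h : an (Function.update t i r) = i => hne h.symm)
    linarith
  rcases lt_or_gt_of_ne hr1 with hrM | hrM
  · rcases lt_or_gt_of_ne hr2 with hrm | hrm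
    · -- r < m
      have ho : osc (Function.update t i r) = M - r := by
        rw [hosc, max_eq_left hrM.le, min_eq_right hrm.le]
      rcases lt_or_gt_of_ne hr3 with h2 | h2
      · -- M - r > 2
        rw [ga_Gh_wh0 _ _ (by rw [ho]; linarith), neg_zero]
        have hd : HasDerivAt (fun _ : ℝ => (0 : ℝ)) 0 r := hasDerivAt_const _ _
        refine (hd.congr_of_eventuallyEq ?_).deriv
        filter_upwards [Iio_mem_nhds hrM, Iio_mem_nhds hrm, Iio_mem_nhds h2] with x h3 h4 h5
        rw [max_eq_left (Set.mem_Iio.1 h3).le, min_eq_right (Set.mem_Iio.1 h4).le]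
        exact max_eq_left (by linarith [Set.mem_Iio.1 h5])
      · rw [ga_Gh_wh _ _ (by rw [ho]; linarith), if_neg (ham_ne hrM), if_pos (han hrm)]
        have hd : HasDerivAt (fun x : ℝ => 2 - (M - x)) 1 r := by
          have := ((hasDerivAt_id r).const_sub M).const_sub 2
          simpa using this
        have e : -((0 : ℝ) - 1) = 1 := by norm_num
        rw [e]
        refine (hd.congr_of_eventuallyEq ?_).deriv
        filter_upwards [Iio_mem_nhds hrM, Iio_mem_nhds hrm, Ioi_mem_nhds h2] with x h3 h4 h5
        rw [max_eq_left (Set.mem_Iio.1 h3).le, min_eq_right (Set.mem_Iio.1 h4).le]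
        exact max_eq_right (by linarith [Set.mem_Ioi.1 h5])
    · -- m < r < M
      have hconst : deriv (fun x => max 0 (2 - (max M x - min m x))) r = 0 := by
        have hd : HasDerivAt (fun _ : ℝ => max 0 (2 - (M - m))) 0 r := hasDerivAt_const _ _
        refine (hd.congr_of_eventuallyEq ?_).deriv
        filter_upwards [Iio_mem_nhds hrM, Ioi_mem_nhds hrm] with x h3 h4
        rw [max_eq_left (Set.mem_Iio.1 h3).le, min_eq_left (Set.mem_Ioi.1 h4).le]
      rw [hconst]
      by_cases h2 : osc (Function.update t i r) < 2
      · rw [ga_Gh_wh _ _ h2, if_neg (ham_ne hrM), if_neg (han_ne hrm)]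
        norm_num
      · rw [ga_Gh_wh0 _ _ (by linarith), neg_zero]
  · -- M < r
    have hrm : m < r := lt_of_le_of_lt hmM hrM
    have ho : osc (Function.update t i r) = r - m := by
      rw [hosc, max_eq_right (le_of_lt hrM), min_eq_left hrm.le]
    rcases lt_or_gt_of_ne hr4 with h2 | h2
    · rw [ga_Gh_wh _ _ (by rw [ho]; linarith), if_pos (ham hrM), if_neg (han_ne hrm)]
      have hd : HasDerivAt (fun x : ℝ => 2 - (x - m)) (-1) r := by
        have := ((hasDerivAt_id r).sub_const m).const_sub 2
        simpa using this
      have e : -((1 : ℝ) - 0) = -1 := by norm_num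
      rw [e]
      refine (hd.congr_of_eventuallyEq ?_).deriv
      filter_upwards [Ioi_mem_nhds hrM, Ioi_mem_nhds hrm, Iio_mem_nhds h2] with x h3 h4 h5
      rw [max_eq_right (Set.mem_Ioi.1 h3).le, min_eq_left (Set.mem_Ioi.1 h4).le]
      exact max_eq_right (by linarith [Set.mem_Iio.1 h5])
    · rw [ga_Gh_wh0 _ _ (by rw [ho]; linarith), neg_zero]
      have hd : HasDerivAt (fun _ : ℝ => (0 : ℝ)) 0 r := hasDerivAt_const _ _
      refine (hd.congr_of_eventuallyEq ?_).deriv
      filter_upwards [Ioi_mem_nhds hrM, Ioi_mem_nhds hrm, Ioi_mem_nhds h2] with x h3 h4 h5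
      rw [max_eq_right (Set.mem_Ioi.1 h3).le, min_eq_left (Set.mem_Ioi.1 h4).le]
      exact max_eq_left (by linarith [Set.mem_Ioi.1 h5])

end HK
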