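import Mathlib
import Pool.Agent.Lib_helper12.HK.DefsG

set_option autoImplicit false

namespace HK

open MeasureTheory QG

theorem gb_ac {g g' : ℝ → ℝ} (ig : ∀ a b, IntervalIntegrable g' volume a b)
    (hg : ∀ a b, g b - g a = ∫ r in a..b, g' r) (a b : ℝ) :
    AbsolutelyContinuousOnInterval g a b := by
  have h1 := (ig a b).absolutelyContinuousOnInterval_intervalIntegral (c := a) Set.left_mem_uIcc
  have h2 : AbsolutelyContinuousOnInterval (fun _ : ℝ => g a) a b :=
    ((LipschitzWith.const (g a)).lipschitzOnWith (s := Set.uIcc a b)).absolutelyContinuousOnInterval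
  have h3 := h2.add h1
  have e : g = (fun _ : ℝ => g a) + fun x => ∫ v in a..x, g' v := by
    funext x
    have := hg a x
    simp only [Pi.add_apply]
    linarith
  rw [e]
  exact h3

theorem gb_deriv {g g' : ℝ → ℝ} (ig : ∀ a b, IntervalIntegrable g' volume a b)
    (hg : ∀ a b, g b - g a = ∫ r in a..b, g' r) (a b : ℝ) :
    ∀ᵐ x, x ∈ Set.uIcc a b → deriv g x = g' x := by
  filter_upwards [(ig a b).ae_hasDerivAt_integral] with x hx hxab
  have h1 := hx hxab a Set.left_mem_uIcc
  have h2 : HasDerivAt (fun y => g a + ∫ t in a..y, g' t) (g' x) x := h1.const_add (g a)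
  have e : (fun y => g a + ∫ t in a..y, g' t) = g := by
    funext y
    have := hg a y
    linarith
  rw [e] at h2
  exact h2.deriv

/-- the product rule for weak derivatives -/
theorem ftc_mul {g g' h h' : ℝ → ℝ} (ig : ∀ a b, IntervalIntegrable g' volume a b)
    (ih : ∀ a b, IntervalIntegrable h' volume a b) (hg : ∀ a b, g b - g a = ∫ r in a..b, g' r)
    (hh : ∀ a b, h b - h a = ∫ r in a..b, h' r) (a b : ℝ) :
    IntervalIntegrable (fun r => g' r * h r + g r * h' r) volume a b ∧
      g b * h b - g a * h a = ∫ r in a..b, (g' r * h r + g r * h' r) := by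
  have h1 := gb_ac ig hg a b
  have h2 := gb_ac ih hh a b
  refine ⟨((ig a b).mul_continuousOn h2.continuousOn).add
    ((ih a b).continuousOn_mul h1.continuousOn), ?_⟩
  rw [← AbsolutelyContinuousOnInterval.integral_deriv_mul_eq_sub h1 h2]
  apply intervalIntegral.integral_congr_ae
  filter_upwards [gb_deriv ig hg a b, gb_deriv ih hh a b] with x hx1 hx2 hx3
  have hx4 : x ∈ Set.uIcc a b := Set.uIoc_subset_uIcc hx3
  rw [hx1 hx4, hx2 hx4]

theorem ftc_prod {ι : Type} [DecidableEq ι] (s : Finset ι) {g g' : ι → ℝ → ℝ}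
    (ig : ∀ i ∈ s, ∀ a b, IntervalIntegrable (g' i) volume a b)
    (hg : ∀ i ∈ s, ∀ a b, g i b - g i a = ∫ r in a..b, g' i r) (a b : ℝ) :
    IntervalIntegrable (fun r => ∑ i ∈ s, g' i r * ∏ j ∈ s.erase i, g j r) volume a b ∧
      ∏ i ∈ s, g i b - ∏ i ∈ s, g i a = ∫ r in a..b, ∑ i ∈ s, g' i r * ∏ j ∈ s.erase i, g j r := by
  induction s using Finset.induction_on generalizing a b with
  | empty => simp
  | insert i s hi IH =>
    have IH' := fun a b => IH (fun j hj => ig j (Finset.mem_insert_of_mem hj))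
      (fun j hj => hg j (Finset.mem_insert_of_mem hj)) a b
    have key := ftc_mul (g := g i) (g' := g' i) (h := fun r => ∏ j ∈ s, g j r)
      (h' := fun r => ∑ j ∈ s, g' j r * ∏ l ∈ s.erase j, g l r)
      (ig i (Finset.mem_insert_self i s)) (fun a b => (IH' a b).1)
      (hg i (Finset.mem_insert_self i s)) (fun a b => (IH' a b).2) a b
    have e : (fun r => ∑ j ∈ insert i s, g' j r * ∏ l ∈ (insert i s).erase j, g l r) =
        fun r => g' i r * ∏ j ∈ s, g j r +
          g i r * ∑ j ∈ s, g' j r * ∏ l ∈ s.erase j, g l r := by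
      funext r
      rw [Finset.sum_insert hi, Finset.erase_insert hi, Finset.mul_sum]
      congr 1
      refine Finset.sum_congr rfl fun j hj => ?_
      have hij : i ≠ j := fun h => hi (h ▸ hj)
      rw [Finset.erase_insert_of_ne hij, Finset.prod_insert]
      · ring
      · intro h
        exact hi (Finset.mem_of_mem_erase h)
    rw [Finset.prod_insert hi, Finset.prod_insert hi, e]
    exact key

end HK
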