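import Mathlib
import Pool.Agent.Lib_helper12.HK.DefsG
import Pool.Agent.Lib_helper12.HK.W.ga
import Pool.Agent.Lib_helper12.HK.W.gb
import Pool.Agent.Lib_helper69.HKL.W.mb

set_option autoImplicit false

namespace HK

open MeasureTheory QG

theorem gc_wt (n : ℕ) [NeZero n] (a : Ev n → ℝ) :
    wt wh (cn n) 0 a = ∏ v, wh (loc (cn n) a v) := by
  simp [wt, dot]

theorem gc_wt_nonneg (n : ℕ) [NeZero n] (a : Ev n → ℝ) : 0 ≤ wt wh (cn n) 0 a := by
  rw [gc_wt]
  exact Finset.prod_nonneg fun v _ => (wh_basic _).1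

theorem fh_pos_iff (n : ℕ) [NeZero n] (a : Ev n → ℝ) :
    0 < fh n a ↔ ∀ v, osc (loc (cn n) a v) < 2 := by
  have hZ := (wt_int_h n (pp n)).2
  have h1 : 0 < fh n a ↔ 0 < wt wh (cn n) 0 a := by
    unfold fh
    constructor
    · intro h
      by_contra hc
      have h2 : wt wh (cn n) 0 a / Zt wh (cn n) (pp n) 0 ≤ 0 :=
        div_nonpos_of_nonpos_of_nonneg (not_lt.1 hc) hZ.le
      linarith
    · intro h
      exact div_pos h hZ
  rw [h1, gc_wt]
  constructor
  · intro h v
    by_contra hc
    have h0 : wh (loc (cn n) a v) = 0 := by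
      have h2 := (wh_pos_iff (loc (cn n) a v)).not.2 hc
      exact le_antisymm (not_lt.1 h2) (wh_basic _).1
    rw [Finset.prod_eq_zero (Finset.mem_univ v) h0] at h
    exact lt_irrefl _ h
  · intro h
    exact Finset.prod_pos fun v _ => (wh_pos_iff _).2 (h v)

theorem muh_eq (n : ℕ) [NeZero n] :
    muh n 0 = (bs (pp n)).withDensity (fun a => ENNReal.ofReal (fh n a)) := by
  rfl

theorem gc_loc_cont (n : ℕ) (v : Od n) : Continuous fun a : Ev n → ℝ => loc (cn n) a v := by
  unfold loc
  exact continuous_pi fun i => continuous_apply _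

theorem gc_cont (n : ℕ) [NeZero n] : Continuous (fh n) := by
  have h : fh n = fun a => (∏ v, wh (loc (cn n) a v)) / Zt wh (cn n) (pp n) 0 := by
    funext a
    rw [fh, gc_wt]
  rw [h]
  exact (continuous_finsetProd _ fun v _ => wh_cont.comp (gc_loc_cont n v)).div_const _

theorem gc_Fo_meas (n : ℕ) [NeZero n] (k : Ev n) : Measurable fun a => Fo Gh (cn n) a k := by
  unfold Fo
  refine Finset.measurable_sum _ fun v _ => Finset.measurable_sum _ fun i _ => ?_
  by_cases h : cn n v i = k
  · simp only [h, if_true]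
    exact (Gh_meas i).comp (gc_loc_cont n v).measurable
  · simp only [h, if_false]
    exact measurable_const

theorem gc_bdd (n : ℕ) [NeZero n] (a : Ev n → ℝ) (v : Od n) (i : Fin 4) :
    |(∏ v, wh (loc (cn n) a v)) * Gh i (loc (cn n) a v)| ≤ 2 ^ (Fintype.card (Od n)) := by
  have h1 : (∏ v, wh (loc (cn n) a v)) * Gh i (loc (cn n) a v) =
      (Gh i (loc (cn n) a v) * wh (loc (cn n) a v)) *
        ∏ w ∈ Finset.univ.erase v, wh (loc (cn n) a w) := by
    rw [← Finset.mul_prod_erase Finset.univ (fun w => wh (loc (cn n) a w)) (Finset.mem_univ v)]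
    ring
  rw [h1, abs_mul]
  have h2 : |∏ w ∈ Finset.univ.erase v, wh (loc (cn n) a w)| ≤
      2 ^ (Finset.univ.erase v).card := by
    rw [Finset.abs_prod, ← Finset.prod_const]
    refine Finset.prod_le_prod (fun w _ => abs_nonneg _) fun w _ => ?_
    rw [abs_of_nonneg (wh_basic _).1]
    exact (wh_basic _).2.1
  have h3 : (2 : ℝ) ^ (Finset.univ.erase v).card ≤ 2 ^ (Fintype.card (Od n)) := by
    refine pow_le_pow_right₀ (by norm_num) ?_
    exact (Finset.card_erase_le).trans (le_of_eq rfl)
  calc |Gh i (loc (cn n) a v) * wh (loc (cn n) a v)| *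
        |∏ w ∈ Finset.univ.erase v, wh (loc (cn n) a w)| ≤ 1 * 2 ^ (Fintype.card (Od n)) :=
        mul_le_mul (Gh_wh _ _) (h2.trans h3) (abs_nonneg _) (by norm_num)
    _ = _ := one_mul _

theorem gc_two (n : ℕ) [NeZero n] (hn : 2 ≤ n) : (1 : ZMod (2 * n)) ≠ -1 ∧ (1 : ZMod (2 * n)) ≠ 0 := by
  have h1 : (1 : ZMod (2 * n)) ≠ 0 := by
    have : Fact (1 < 2 * n) := ⟨by omega⟩
    exact one_ne_zero
  refine ⟨?_, h1⟩
  intro h
  have h2 : ((2 : ℕ) : ZMod (2 * n)) = 0 := by
    push_cast
    have : (1 : ZMod (2 * n)) + 1 = 0 := by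
      nth_rewrite 1 [h]
      ring
    rw [← this]
    ring
  rw [ZMod.natCast_eq_zero_iff] at h2
  have := Nat.le_of_dvd (by norm_num) h2
  omega

theorem gc_inj (n : ℕ) [NeZero n] (hn : 2 ≤ n) (v : Od n) : Function.Injective (cn n v) := by
  intro i j h
  have h1 : dir n i = dir n j := by
    have h2 := congrArg Subtype.val h
    simp only [cn] at h2
    exact add_left_cancel h2
  obtain ⟨ha, hb⟩ := gc_two n hn
  have hc : (-1 : ZMod (2 * n)) ≠ 0 := neg_ne_zero.2 hb
  fin_cases i <;> fin_cases j <;> simp [dir, Prod.ext_iff] at h1 <;> first | rfl | skip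
  all_goals exfalso
  all_goals first
    | exact ha h1
    | exact ha h1.symm
    | exact hb h1
    | exact hb h1.symm
    | exact hb h1.1
    | exact hb h1.2

theorem gc_loc_upd (n : ℕ) [NeZero n] (hn : 2 ≤ n) (v : Od n) (i : Fin 4) (x : Ev n → ℝ) (r : ℝ) :
    loc (cn n) (Function.update x (cn n v i) r) v = Function.update (loc (cn n) x v) i r := by
  funext j
  unfold loc
  by_cases h : j = i
  · subst h; simp
  · have h2 : cn n v j ≠ cn n v i := fun h3 => h (gc_inj n hn v h3)
    simp [h, h2]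

theorem gc_loc_upd2 (n : ℕ) (v : Od n) (k : Ev n) (x : Ev n → ℝ) (r : ℝ)
    (h : ∀ i, cn n v i ≠ k) : loc (cn n) (Function.update x k r) v = loc (cn n) x v := by
  funext j
  unfold loc
  simp [h j]

/-- the weak derivative of one cell -/
noncomputable def gc_g' (n : ℕ) (k : Ev n) (a : Ev n → ℝ) (v : Od n) : ℝ :=
  -(∑ i, if cn n v i = k then Gh i (loc (cn n) a v) * wh (loc (cn n) a v) else 0)

theorem gc_g'_bdd (n : ℕ) (k : Ev n) (a : Ev n → ℝ) (v : Od n) : |gc_g' n k a v| ≤ 4 := by
  unfold gc_g'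
  rw [abs_neg]
  refine (Finset.abs_sum_le_sum_abs _ _).trans ?_
  calc ∑ i : Fin 4, |if cn n v i = k then Gh i (loc (cn n) a v) * wh (loc (cn n) a v) else 0|
      ≤ ∑ i : Fin 4, 1 := by
        refine Finset.sum_le_sum fun i _ => ?_
        split_ifs
        · exact Gh_wh _ _
        · simp
    _ = 4 := by simp

theorem gc_g'_meas (n : ℕ) [NeZero n] (k : Ev n) (v : Od n) : Measurable fun a => gc_g' n k a v := by
  unfold gc_g'
  refine (Finset.measurable_sum _ fun i _ => ?_).neg
  by_cases h : cn n v i = k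
  · simp only [h, if_true]
    exact ((Gh_meas i).comp (gc_loc_cont n v).measurable).mul
      (wh_cont.comp (gc_loc_cont n v)).measurable
  · simp only [h, if_false]
    exact measurable_const

theorem gc_upd_cont (n : ℕ) (k : Ev n) (x : Ev n → ℝ) :
    Continuous fun r : ℝ => Function.update x k r :=
  continuous_const.update k continuous_id

theorem gc_g'_int (n : ℕ) [NeZero n] (k : Ev n) (x : Ev n → ℝ) (v : Od n) (a b : ℝ) :
    IntervalIntegrable (fun r => gc_g' n k (Function.update x k r) v) volume a b := by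
  rw [intervalIntegrable_iff]
  refine Measure.integrableOn_of_bounded (M := 4) ?_ ?_ ?_
  · simp
  · exact ((gc_g'_meas n k v).comp (gc_upd_cont n k x).measurable).aestronglyMeasurable
  · exact Filter.Eventually.of_forall fun r => by
      rw [Real.norm_eq_abs]; exact gc_g'_bdd _ _ _ _

theorem gc_g'_ftc (n : ℕ) [NeZero n] (hn : 2 ≤ n) (k : Ev n) (x : Ev n → ℝ) (v : Od n)
    (a b : ℝ) : wh (loc (cn n) (Function.update x k b) v) -
      wh (loc (cn n) (Function.update x k a) v) =
      ∫ r in a..b, gc_g' n k (Function.update x k r) v := by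
  by_cases h : ∃ i, cn n v i = k
  · obtain ⟨i, rfl⟩ := h
    rw [gc_loc_upd n hn, gc_loc_upd n hn, wh_ftc]
    refine intervalIntegral.integral_congr fun r _ => ?_
    simp only [gc_g']
    rw [Finset.sum_eq_single i]
    · rw [if_pos rfl, gc_loc_upd n hn]
    · intro j _ hj
      exact if_neg fun h => hj (gc_inj n hn v h)
    · intro h; exact absurd (Finset.mem_univ _) h
  · push Not at h
    rw [gc_loc_upd2 n v k x b h, gc_loc_upd2 n v k x a h, sub_self]
    have : (fun r => gc_g' n k (Function.update x k r) v) = fun _ => 0 := by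
      funext r
      simp [gc_g', h]
    rw [this]
    simp

/-- the density of the hammock field is regular -/
theorem reg_fh (n : ℕ) [NeZero n] (hn : 2 ≤ n) : Reg (pp n) (fh n) (Dh n) := by
  have hZ := (wt_int_h n (pp n)).2
  have hnn : ∀ x, 0 ≤ fh n x := fun x => div_nonneg (gc_wt_nonneg n x) hZ.le
  refine ⟨hnn, gc_cont n, ?_, ?_, ?_, ?_, ?_, ?_, ?_⟩
  · refine ⟨∑ y : Ev n, 2 * (lv n y (pp n) : ℝ), fun x hx hf i => ?_⟩
    have h1 : wt wh (cn n) 0 x ≠ 0 := by
      intro h; apply hf; rw [fh, h, zero_div]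
    have h2 := lip_of_wt n h1 i (pp n)
    rw [hx, sub_zero] at h2
    refine h2.trans ?_
    exact Finset.single_le_sum (f := fun y : Ev n => 2 * (lv n y (pp n) : ℝ))
      (fun y _ => by positivity) (Finset.mem_univ i)
  · intro x hx y hy s t hs ht hst
    simp only [Set.mem_ofPred_eq] at hx hy ⊢
    rw [fh_pos_iff] at hx hy ⊢
    intro v
    have h1 := osc_conv (loc (cn n) x v) (loc (cn n) y v) ht (by linarith : t ≤ 1)
    have h2 : (1 - t) = s := by linarith
    rw [h2] at h1
    have h3 : loc (cn n) (s • x + t • y) v =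
        fun i => s * loc (cn n) x v i + t * loc (cn n) y v i := by
      funext i
      simp [loc]
    rw [h3]
    refine lt_of_le_of_lt h1 ?_
    rcases eq_or_lt_of_le hs with h4 | h4
    · have h5 : t = 1 := by linarith
      rw [← h4, h5]; linarith [hy v]
    · have h5 := mul_lt_mul_of_pos_left (hx v) h4
      have h6 := mul_le_mul_of_nonneg_left (hy v).le ht
      nlinarith
  · unfold fh
    rw [integral_div]
    exact div_self hZ.ne'
  · intro k
    unfold Dh
    exact (((gc_cont n).measurable).mul (gc_Fo_meas n k)).neg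
  · refine ⟨(∑ v : Od n, ∑ i : Fin 4, 2 ^ (Fintype.card (Od n))) / Zt wh (cn n) (pp n) 0,
      fun k x _ => ?_⟩
    unfold Dh fh
    rw [abs_neg, gc_wt, div_mul_eq_mul_div, abs_div, abs_of_pos hZ]
    refine div_le_div_of_nonneg_right ?_ hZ.le
    unfold Fo
    rw [Finset.mul_sum]
    refine (Finset.abs_sum_le_sum_abs _ _).trans (Finset.sum_le_sum fun v _ => ?_)
    rw [Finset.mul_sum]
    refine (Finset.abs_sum_le_sum_abs _ _).trans (Finset.sum_le_sum fun i _ => ?_)
    split_ifs
    · exact gc_bdd n x v i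
    · simp
  · intro k x hx
    simp [Dh, hx]
  · intro k hk x a b hx
    have h1 := (ftc_prod (Finset.univ : Finset (Od n))
      (g := fun v r => wh (loc (cn n) (Function.update x k r) v))
      (g' := fun v r => gc_g' n k (Function.update x k r) v)
      (fun v _ a b => gc_g'_int n k x v a b) (fun v _ a b => gc_g'_ftc n hn k x v a b) a b).2
    have h2 : fh n (Function.update x k b) - fh n (Function.update x k a) =
        (∏ v, wh (loc (cn n) (Function.update x k b) v) -
          ∏ v, wh (loc (cn n) (Function.update x k a) v)) / Zt wh (cn n) (pp n) 0 := by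
      rw [fh, fh, gc_wt, gc_wt, sub_div]
    rw [h2, h1, ← intervalIntegral.integral_div]
    refine intervalIntegral.integral_congr fun r _ => ?_
    simp only [Dh, fh, gc_wt, Fo]
    rw [div_mul_eq_mul_div, ← neg_div]
    congr 1
    rw [Finset.mul_sum, ← Finset.sum_neg_distrib]
    refine Finset.sum_congr rfl fun v _ => ?_
    rw [← Finset.mul_prod_erase Finset.univ
      (fun w => wh (loc (cn n) (Function.update x k r) w)) (Finset.mem_univ v)]
    simp only [gc_g']
    rw [neg_mul, neg_inj, Finset.sum_mul, Finset.mul_sum]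
    refine Finset.sum_congr rfl fun i _ => ?_
    split_ifs
    · ring
    · simp

end HK
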