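import Mathlib
import Pool.Agent.Lib_helper12.HK.DefsG
import Pool.Agent.Lib_helper12.HK.W.gb

set_option autoImplicit false

namespace HK

open MeasureTheory QG

theorem gd_box {A : Type} (R : ℝ) : IsCompact {x : A → ℝ | ∀ i, |x i| ≤ R} := by
  have : {x : A → ℝ | ∀ i, |x i| ≤ R} = Set.pi Set.univ (fun _ => Set.Icc (-R) R) := by
    ext x
    constructor
    · intro h i _
      exact abs_le.mp (h i)
    · intro h i
      exact abs_le.mpr (h i (Set.mem_univ i))
  rw [this]
  exact isCompact_univ_pi (fun _ => isCompact_Icc)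

theorem gd_ae {A : Type} [Fintype A] [DecidableEq A] (p : A) : ∀ᵐ x ∂(bs p), x p = 0 := by
  have hs : ∀ y : A, SigmaFinite (if y = p then Measure.dirac (0 : ℝ) else volume) := by
    intro y
    split_ifs <;> infer_instance
  have h1 : ∀ᵐ r ∂(if p = p then Measure.dirac (0 : ℝ) else volume), r = 0 := by
    rw [if_pos rfl, ae_dirac_eq]
    exact rfl
  exact (Measure.tendsto_eval_ae_ae
    (μ := fun y : A => if y = p then Measure.dirac (0 : ℝ) else volume) (i := p)).eventually h1

/-- a continuous function is bounded on the box -/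
theorem gd_bdd {A : Type} {g : (A → ℝ) → ℝ} (hg : Continuous g) (R : ℝ) :
    ∃ C : ℝ, 0 ≤ C ∧ ∀ x : A → ℝ, (∀ i, |x i| ≤ R) → |g x| ≤ C := by
  obtain ⟨C, hC⟩ := (gd_box (A := A) R).exists_bound_of_continuousOn hg.continuousOn
  refine ⟨max C 0, le_max_right _ _, fun x hx => ?_⟩
  exact (hC x hx).trans (le_max_left _ _)

/-- a positive continuous function is bounded below on the box -/
theorem gd_low {A : Type} {g : (A → ℝ) → ℝ} (hg : Continuous g) (h0 : ∀ x, 0 < g x) (R : ℝ) :
    ∃ c : ℝ, 0 < c ∧ ∀ x : A → ℝ, (∀ i, |x i| ≤ R) → c ≤ g x := by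
  obtain ⟨C, hC, hb⟩ := gd_bdd (A := A) (g := fun x => (g x)⁻¹)
    (hg.inv₀ (fun x => (h0 x).ne')) R
  refine ⟨1 / (C + 1), by positivity, fun x hx => ?_⟩
  have h1 := hb x hx
  rw [abs_of_pos (inv_pos.mpr (h0 x))] at h1
  have h2 : (g x)⁻¹ ≤ C + 1 := by linarith
  rw [one_div]
  exact inv_le_of_inv_le₀ (h0 x) h2

/-- tilted densities are regular -/
theorem reg_tilt {A : Type} [Fintype A] [DecidableEq A] {p : A} {f : (A → ℝ) → ℝ}
    {D : A → (A → ℝ) → ℝ} {U : (A → ℝ) → ℝ} {U' : A → (A → ℝ) → ℝ} (hf : Reg p f D)
    (hU : Tilt U U') : 0 < ∫ b, f b * U b ∂bs p ∧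
      Reg p (fun a => f a * U a / ∫ b, f b * U b ∂bs p)
        (fun k a => (D k a * U a + f a * U' k a) / ∫ b, f b * U b ∂bs p) := by
  obtain ⟨R, hR⟩ := hf.supp
  obtain ⟨c, hc0, hc⟩ := gd_low hU.cont hU.pos R
  obtain ⟨CU, hCU0, hCU⟩ := gd_bdd hU.cont R
  obtain ⟨Cf, hCf0, hCf⟩ := gd_bdd hf.cont R
  obtain ⟨CD, hCD⟩ := hf.bdd
  have hfi : Integrable f (bs p) := integrable_of_integral_eq_one hf.int
  have hfU : Integrable (fun a => f a * U a) (bs p) := by
    refine (hfi.mul_const CU).mono' (hf.cont.mul hU.cont).aestronglyMeasurable ?_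
    filter_upwards [gd_ae p] with x hx
    by_cases h0 : f x = 0
    · rw [h0, zero_mul, zero_mul, norm_zero]
    · have h1 := hCU x (hR x hx h0)
      rw [Real.norm_eq_abs, abs_mul, abs_of_nonneg (hf.nonneg x)]
      exact mul_le_mul_of_nonneg_left h1 (hf.nonneg x)
  have hZ : 0 < ∫ b, f b * U b ∂bs p := by
    have h1 : ∫ b, f b * c ∂bs p ≤ ∫ b, f b * U b ∂bs p := by
      refine integral_mono_ae (hfi.mul_const c) hfU ?_
      filter_upwards [gd_ae p] with x hx
      by_cases h0 : f x = 0
      · simp [h0]
      · exact mul_le_mul_of_nonneg_left (hc x (hR x hx h0)) (hf.nonneg x)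
    rw [integral_mul_const, hf.int, one_mul] at h1
    linarith
  refine ⟨hZ, ?_⟩
  set Z : ℝ := ∫ b, f b * U b ∂bs p with hZd
  have hz : ∀ k x, f x = 0 → D k x * U x + f x * U' k x = 0 := by
    intro k x h
    rw [hf.zero k x h, h, zero_mul, zero_mul, add_zero]
  have hf0 : ∀ x, f x * U x / Z ≠ 0 → f x ≠ 0 := by
    intro x h h0
    exact h (by rw [h0, zero_mul, zero_div])
  refine
    { nonneg := fun x => div_nonneg (mul_nonneg (hf.nonneg x) (hU.pos x).le) hZ.le
      cont := (hf.cont.mul hU.cont).div_const Z
      supp := ⟨R, fun x hx h => hR x hx (hf0 x h)⟩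
      conv := ?_
      int := ?_
      meas := ?_
      bdd := ?_
      zero := ?_
      ftc := ?_ }
  · have : {x | 0 < f x * U x / Z} = {x | 0 < f x} := by
      ext x
      rw [Set.mem_ofPred_eq, Set.mem_ofPred_eq]
      constructor
      · intro h
        have h1 := hf0 x h.ne'
        exact lt_of_le_of_ne (hf.nonneg x) (Ne.symm h1)
      · intro h
        exact div_pos (mul_pos h (hU.pos x)) hZ
    rw [this]
    exact hf.conv
  · rw [integral_div, ← hZd, div_self hZ.ne']
  · intro k
    exact (((hf.meas k).mul hU.cont.measurable).add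
      (hf.cont.measurable.mul (hU.contD k).measurable)).div_const Z
  · have hk : ∀ k, ∃ C : ℝ, 0 ≤ C ∧ ∀ x : A → ℝ, (∀ i, |x i| ≤ R) → |U' k x| ≤ C :=
      fun k => gd_bdd (hU.contD k) R
    choose C' hC'0 hC' using hk
    refine ⟨(|CD| * CU + Cf * ∑ k, C' k) / Z, ?_⟩
    intro k x hx
    rw [abs_div, abs_of_pos hZ]
    refine div_le_div_of_nonneg_right ?_ hZ.le
    have hS : C' k ≤ ∑ k, C' k :=
      Finset.single_le_sum (f := C') (fun i _ => hC'0 i) (Finset.mem_univ k)
    have hS0 : 0 ≤ ∑ k, C' k := (hC'0 k).trans hS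
    by_cases h0 : f x = 0
    · rw [hz k x h0, abs_zero]
      positivity
    · have hb := hR x hx h0
      have h1 := hCU x hb
      have h2 := hCf x hb
      have h3 := (hC' k x hb).trans hS
      have h4 : |D k x| ≤ |CD| := (hCD k x hx).trans (le_abs_self _)
      calc |D k x * U x + f x * U' k x| ≤ |D k x * U x| + |f x * U' k x| := abs_add_le _ _
        _ = |D k x| * |U x| + |f x| * |U' k x| := by rw [abs_mul, abs_mul]
        _ ≤ |CD| * CU + Cf * ∑ k, C' k :=
            add_le_add (mul_le_mul h4 h1 (abs_nonneg _) (abs_nonneg _))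
              (mul_le_mul h2 h3 (abs_nonneg _) hCf0)
  · intro k x h
    have h1 : f x = 0 := by
      by_contra h0
      have : 0 < f x * U x / Z := div_pos
        (mul_pos (lt_of_le_of_ne (hf.nonneg x) (Ne.symm h0)) (hU.pos x)) hZ
      exact this.ne' h
    rw [hz k x h1, zero_div]
  · intro k hkp x a b hx
    have hup : ∀ r, Function.update x k r p = 0 := by
      intro r
      rw [Function.update_of_ne (Ne.symm hkp)]
      exact hx
    have cu : Continuous (fun r : ℝ => Function.update x k r) :=
      continuous_const.update k continuous_id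
    have ig : ∀ a b, IntervalIntegrable (fun r => D k (Function.update x k r)) volume a b := by
      intro a b
      rw [intervalIntegrable_iff]
      refine Measure.integrableOn_of_bounded (M := CD) ?_ ?_ ?_
      · rw [Set.uIoc]
        exact (measure_Ioc_lt_top).ne
      · exact ((hf.meas k).comp cu.measurable).aestronglyMeasurable
      · exact Filter.Eventually.of_forall (fun r => hCD k _ (hup r))
    have ch : Continuous (fun r => U' k (Function.update x k r)) := (hU.contD k).comp cu
    have ih : ∀ a b, IntervalIntegrable (fun r => U' k (Function.update x k r)) volume a b :=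
      fun a b => ch.intervalIntegrable a b
    have hh : ∀ a b, U (Function.update x k b) - U (Function.update x k a) =
        ∫ r in a..b, U' k (Function.update x k r) := by
      intro a b
      symm
      refine intervalIntegral.integral_eq_sub_of_hasDerivAt
        (f := fun r => U (Function.update x k r)) ?_ (ih a b)
      intro r _
      have h1 := hU.der k (Function.update x k r)
      simp only [Function.update_idem, Function.update_self] at h1
      exact h1
    have key := (ftc_mul (g := fun r => f (Function.update x k r))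
      (h := fun r => U (Function.update x k r)) ig ih
      (fun a b => hf.ftc k hkp x a b hx) hh a b).2
    rw [← sub_div, key, intervalIntegral.integral_div]

theorem gd_dot {A : Type} [Fintype A] [DecidableEq A] (l a : A → ℝ) (k : A) :
    HasDerivAt (fun r => dot l (Function.update a k r)) (l k) (a k) := by
  have h1 : ∀ r, dot l (Function.update a k r) = dot l a + l k * (r - a k) := by
    intro r
    unfold dot
    have h2 : ∀ y, l y * Function.update a k r y = l y * a y + if y = k then l k * (r - a k) else 0 := by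
      intro y
      by_cases h : y = k
      · subst h
        rw [Function.update_self, if_pos rfl]
        ring
      · rw [Function.update_of_ne h, if_neg h, add_zero]
    rw [Finset.sum_congr rfl (fun y _ => h2 y), Finset.sum_add_distrib, Finset.sum_ite_eq']
    simp
  have h3 : (fun r => dot l (Function.update a k r)) = fun r => dot l a + l k * (r - a k) :=
    funext h1
  rw [h3]
  have h4 : HasDerivAt (fun r : ℝ => dot l a + l k * (r - a k)) (l k * 1) (a k) :=
    (((hasDerivAt_id (a k)).sub_const (a k)).const_mul (l k)).const_add (dot l a)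
  rwa [mul_one] at h4

theorem gd_dotc {A : Type} [Fintype A] [DecidableEq A] (l : A → ℝ) :
    Continuous (fun a : A → ℝ => dot l a) := by
  unfold dot
  exact continuous_finsetSum _ (fun y _ => continuous_const.mul (continuous_apply y))

theorem tilt_exp {A : Type} [Fintype A] [DecidableEq A] (l : A → ℝ) :
    Tilt (fun a => Real.exp (dot l a)) (fun k a => l k * Real.exp (dot l a)) := by
  refine ⟨Real.continuous_exp.comp (gd_dotc l), fun a => Real.exp_pos _,
    fun k => continuous_const.mul (Real.continuous_exp.comp (gd_dotc l)), ?_⟩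
  intro k a
  have h := (gd_dot l a k).exp
  simp only [Function.update_eq_self] at h
  rw [mul_comm]
  exact h

theorem tilt_bd {A : Type} [Fintype A] [DecidableEq A] {u u' : ℝ → ℝ}
    (hu : ∀ x, HasDerivAt u (u' x) x) (hc : Continuous u') (h1 : ∀ x, |u x| ≤ 1) (l : A → ℝ) :
    Tilt (fun a => 1 + u (dot l a) / 2) (fun k a => l k * u' (dot l a) / 2) := by
  have cu : Continuous u := continuous_iff_continuousAt.mpr (fun x => (hu x).continuousAt)
  refine ⟨continuous_const.add ((cu.comp (gd_dotc l)).div_const 2), ?_,
    fun k => (continuous_const.mul (hc.comp (gd_dotc l))).div_const 2, ?_⟩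
  · intro a
    have := (abs_le.mp (h1 (dot l a))).1
    linarith
  · intro k a
    have h := gd_dot l a k
    have h2 : HasDerivAt u (u' (dot l a)) (dot l (Function.update a k (a k))) := by
      rw [Function.update_eq_self]
      exact hu _
    have h3 := ((h2.comp (a k) h).div_const 2).const_add 1
    rw [mul_comm (l k)]
    exact h3

end HK
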