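import Mathlib
import Pool.Agent.Lib_helper12.HK.DefsG
import Pool.Agent.Lib_helper12.HK.W.ga
import Pool.Agent.Lib_helper12.HK.W.gc

set_option autoImplicit false

namespace HK

open MeasureTheory QG

theorem ge_wt (n : ℕ) [NeZero n] {a : Ev n → ℝ} (ha : 0 < fh n a) : wt wh (cn n) 0 a ≠ 0 := by
  intro h
  unfold fh at ha
  rw [h, zero_div] at ha
  exact lt_irrefl _ ha

theorem ge_val (n : ℕ) [NeZero n] (s : ℤ) :
    ((s : ZMod (2 * n)).valMinAbs).natAbs ≤ s.natAbs := by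
  have hn : 0 < n := Nat.pos_of_ne_zero (NeZero.ne n)
  haveI : NeZero (2 * n) := ⟨by omega⟩
  refine ZMod.natAbs_min_of_le_div_two (2 * n) _ _ ?_ ?_
  · rw [ZMod.coe_valMinAbs]
  · exact ZMod.natAbs_valMinAbs_le _

theorem ge_lv (n : ℕ) [NeZero n] (x y : Ev n) :
    2 * (lv n x y : ℝ) ≤ ((y.1.1 - x.1.1).valMinAbs.natAbs : ℝ) +
      ((y.1.2 - x.1.2).valMinAbs.natAbs : ℝ) := by
  have h : 2 * lv n x y ≤ (y.1.1 - x.1.1).valMinAbs.natAbs + (y.1.2 - x.1.2).valMinAbs.natAbs := by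
    unfold lv
    exact Nat.mul_div_le _ 2
  exact_mod_cast h

/-- the fields are Lipschitz -/
theorem lip (n : ℕ) [NeZero n] {a : Ev n → ℝ} (ha : 0 < fh n a) {x y : Ev n} (s1 s2 : ℤ)
    (h : y.1 = x.1 + ((s1 : ZMod (2 * n)), (s2 : ZMod (2 * n)))) :
    |a y - a x| ≤ |(s1 : ℝ)| + |(s2 : ℝ)| := by
  have h1 := lip_of_wt n (ge_wt n ha) x y
  have h2 := ge_lv n x y
  have e1 : y.1.1 - x.1.1 = (s1 : ZMod (2 * n)) := by
    rw [h]
    show x.1.1 + (s1 : ZMod (2 * n)) - x.1.1 = _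
    ring
  have e2 : y.1.2 - x.1.2 = (s2 : ZMod (2 * n)) := by
    rw [h]
    show x.1.2 + (s2 : ZMod (2 * n)) - x.1.2 = _
    ring
  rw [e1, e2] at h2
  have h3 : (((s1 : ZMod (2 * n)).valMinAbs.natAbs : ℕ) : ℝ) ≤ |(s1 : ℝ)| := by
    rw [← Int.cast_abs, ← Nat.cast_natAbs]
    exact Nat.cast_le.mpr (ge_val n s1)
  have h4 : (((s2 : ZMod (2 * n)).valMinAbs.natAbs : ℕ) : ℝ) ≤ |(s2 : ℝ)| := by
    rw [← Int.cast_abs, ← Nat.cast_natAbs]
    exact Nat.cast_le.mpr (ge_val n s2)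
  rw [abs_sub_comm]
  linarith

theorem lipK (n m : ℕ) [NeZero n] {a : Ev n → ℝ} (ha : 0 < fh n a) (k k' : ℤ × ℤ) :
    |kf n m a k - kf n m a k'| ≤ 4 * m * (di k k' : ℝ) := by
  unfold kf
  have h1 := lip n ha (x := ke n m k') (y := ke n m k) (2 * m * (k.1 - k'.1))
    (2 * m * (k.2 - k'.2)) ?_
  · have e1 : |((2 * m * (k.1 - k'.1) : ℤ) : ℝ)| = 2 * m * |((k.1 - k'.1 : ℤ) : ℝ)| := by
      push_cast
      rw [abs_mul, abs_mul, abs_of_nonneg (by norm_num : (0 : ℝ) ≤ 2), Nat.abs_cast]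
    have e2 : |((2 * m * (k.2 - k'.2) : ℤ) : ℝ)| = 2 * m * |((k.2 - k'.2 : ℤ) : ℝ)| := by
      push_cast
      rw [abs_mul, abs_mul, abs_of_nonneg (by norm_num : (0 : ℝ) ≤ 2), Nat.abs_cast]
    rw [e1, e2] at h1
    have d1 : |((k.1 - k'.1 : ℤ) : ℝ)| ≤ (di k k' : ℝ) := by
      rw [← Int.cast_abs, Int.abs_eq_natAbs]
      have : (k.1 - k'.1).natAbs ≤ di k k' := le_max_left _ _
      exact_mod_cast this
    have d2 : |((k.2 - k'.2 : ℤ) : ℝ)| ≤ (di k k' : ℝ) := by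
      rw [← Int.cast_abs, Int.abs_eq_natAbs]
      have : (k.2 - k'.2).natAbs ≤ di k k' := le_max_right _ _
      exact_mod_cast this
    have hm : (0 : ℝ) ≤ 2 * m := by positivity
    have m1 := mul_le_mul_of_nonneg_left d1 hm
    have m2 := mul_le_mul_of_nonneg_left d2 hm
    linarith
  · refine Prod.ext ?_ ?_
    · show ((2 * m * k.1 : ℤ) : ZMod (2 * n)) = ((2 * m * k'.1 : ℤ) : ZMod (2 * n)) +
        ((2 * m * (k.1 - k'.1) : ℤ) : ZMod (2 * n))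
      rw [← Int.cast_add]
      congr 1
      ring
    · show ((2 * m * k.2 : ℤ) : ZMod (2 * n)) = ((2 * m * k'.2 : ℤ) : ZMod (2 * n)) +
        ((2 * m * (k.2 - k'.2) : ℤ) : ZMod (2 * n))
      rw [← Int.cast_add]
      congr 1
      ring

theorem fh_bound (n : ℕ) [NeZero n] {a : Ev n → ℝ} (ha : 0 < fh n a) (h0 : a (pp n) = 0)
    (y : Ev n) : |a y| ≤ 2 * n := by
  have hn : 0 < n := Nat.pos_of_ne_zero (NeZero.ne n)
  haveI : NeZero (2 * n) := ⟨by omega⟩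
  have h1 := lip_of_wt n (ge_wt n ha) (pp n) y
  rw [h0, zero_sub, abs_neg] at h1
  have h2 := ge_lv n (pp n) y
  have h3 : ((y.1.1 - (pp n).1.1).valMinAbs.natAbs : ℝ) ≤ n := by
    have : (y.1.1 - (pp n).1.1).valMinAbs.natAbs ≤ 2 * n / 2 := ZMod.natAbs_valMinAbs_le _
    rw [Nat.mul_div_cancel_left n (by norm_num)] at this
    exact_mod_cast this
  have h4 : ((y.1.2 - (pp n).1.2).valMinAbs.natAbs : ℝ) ≤ n := by
    have : (y.1.2 - (pp n).1.2).valMinAbs.natAbs ≤ 2 * n / 2 := ZMod.natAbs_valMinAbs_le _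
    rw [Nat.mul_div_cancel_left n (by norm_num)] at this
    exact_mod_cast this
  linarith

/-- sampled coordinates are Lipschitz -/
theorem mg_ext (n : ℕ) [NeZero n] (hn : 2 ≤ n) {S : Finset (Ev n)} (hS : pp n ∉ S)
    {a : Ev n → ℝ} (h0 : a (pp n) = 0) (ha : 0 < mg (fh n) S a) :
    ∃ b : Ev n → ℝ, (∀ y ∉ S, b y = a y) ∧ 0 < fh n b := by
  by_contra hcon
  have h1 : ∀ y : S → ℝ, fh n (Function.updateFinset a S y) ≤ 0 := by
    intro y
    by_contra hy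
    apply hcon
    refine ⟨Function.updateFinset a S y, ?_, not_le.mp hy⟩
    intro z hz
    unfold Function.updateFinset
    rw [dif_neg hz]
  unfold mg at ha
  exact absurd (integral_nonpos h1) (not_le.mpr ha)

end HK
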