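import Mathlib
import Pool.Agent.Lib_helper12.HK.DefsG
import Pool.Agent.Lib_helper12.HK.W.ga

set_option autoImplicit false

namespace HK

open MeasureTheory QG

/-- the algebraic core -/
theorem gf_core {A b D z z' : ℝ} (hz : 0 < z) (hz' : 0 < z') (h2 : z ≤ 2) (h2' : z' ≤ 2)
    (hD : D = z - z') (hA : D ≤ A) (hb : b ≤ D) (hb4 : D - b ≤ 4) :
    b ^ 2 / 16 ≤ A / z' - b / z := by
  have h1 : D / z' ≤ A / z' := by gcongr
  have h3 : D / z' - b / z = (D - b) / z + D ^ 2 / (z * z') := by
    rw [hD]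
    field_simp
    ring
  have h4 : (D - b) / 2 ≤ (D - b) / z := by
    apply div_le_div_of_nonneg_left (by linarith) hz h2
  have h5 : D ^ 2 / 4 ≤ D ^ 2 / (z * z') := by
    apply div_le_div_of_nonneg_left (by positivity) (by positivity)
    nlinarith
  have h6 : (D - b) ^ 2 ≤ 4 * (D - b) := by nlinarith
  nlinarith [sq_nonneg (D + (D - b)), sq_nonneg D]

/-- the sum against the forces -/
theorem gf_sum (h t : Fin 4 → ℝ) :
    ∑ i, h i * Gh i t = (h (am t) - h (an t)) / (2 - osc t) := by
  have h1 : ∀ i, h i * Gh i t =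
      ((if i = am t then h i else 0) - (if i = an t then h i else 0)) / (2 - osc t) := by
    intro i
    unfold Gh
    split_ifs <;> ring
  simp only [h1]
  rw [← Finset.sum_div, Finset.sum_sub_distrib, Finset.sum_ite_eq', Finset.sum_ite_eq']
  simp

/-- Lemma H1: the dissipation in a cell -/
theorem cell_ineq {t t' : Fin 4 → ℝ} (h : osc t < 2) (h' : osc t' < 2) :
    ((t' (am t) - t (am t)) - (t' (an t) - t (an t))) ^ 2 / 16 ≤ DD Gh t t' := by
  have e1 : DD Gh t t' = ((t' (am t') - t (am t')) - (t' (an t') - t (an t'))) / (2 - osc t') -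
      ((t' (am t) - t (am t)) - (t' (an t) - t (an t))) / (2 - osc t) := by
    have h1 := gf_sum (fun i => t' i - t i) t'
    have h2 := gf_sum (fun i => t' i - t i) t
    rw [← h1, ← h2, ← Finset.sum_sub_distrib]
    unfold DD
    exact Finset.sum_congr rfl fun i _ => by ring
  have o1 : 0 ≤ osc t := (abs_nonneg _).trans (abs_le_osc t 0 0)
  have o2 : 0 ≤ osc t' := (abs_nonneg _).trans (abs_le_osc t' 0 0)
  have a1 := osc_eq t
  have a2 := osc_eq t'
  have b1 := abs_le.1 (abs_le_osc t (am t') (an t'))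
  have b2 := abs_le.1 (abs_le_osc t' (am t) (an t))
  rw [e1]
  refine gf_core (D := osc t' - osc t) (by linarith) (by linarith) (by linarith) (by linarith)
    (by ring) ?_ ?_ ?_
  · linarith [b1.2]
  · linarith [b2.2]
  · linarith [b2.1]

end HK
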