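import Mathlib
import Pool.Agent.Lib_helper12.HK.DefsG
import Pool.Agent.Lib_helper12.HK.W.ga
import Pool.Agent.Lib_helper12.HK.W.gc
import Pool.Agent.Lib_helper12.HK.W.gd
import Pool.Agent.Lib_helper12.HK.W.ge
import Pool.Agent.Lib_helper12.HK.W.gf

set_option autoImplicit false

namespace HK

open MeasureTheory QG

theorem gg_fh_pos {n : ℕ} [NeZero n] (hn : 2 ≤ n) {U : (Ev n → ℝ) → ℝ} {a : Ev n → ℝ}
    (h : 0 < fT n U a) : 0 < fh n a := by
  rcases ((reg_fh n hn).nonneg a).lt_or_eq with h1 | h1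
  · exact h1
  · unfold fT at h
    rw [← h1, zero_mul, zero_div] at h
    exact absurd h (lt_irrefl _)

theorem gg_Dis {n : ℕ} [NeZero n] (a a' : Ev n → ℝ) :
    Dis n a a' = ∑ k, (a' k - a k) * (Fo Gh (cn n) a' k - Fo Gh (cn n) a k) := by
  unfold Dis DD Fo
  have e1 : ∀ k, (a' k - a k) * ((∑ v, ∑ i, if cn n v i = k then Gh i (loc (cn n) a' v) else 0) -
      ∑ v, ∑ i, if cn n v i = k then Gh i (loc (cn n) a v) else 0) =
      ∑ v, ∑ i, if cn n v i = k then
        (a' k - a k) * (Gh i (loc (cn n) a' v) - Gh i (loc (cn n) a v)) else 0 := by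
    intro k
    rw [← Finset.sum_sub_distrib, Finset.mul_sum]
    apply Finset.sum_congr rfl
    intro v _
    rw [← Finset.sum_sub_distrib, Finset.mul_sum]
    apply Finset.sum_congr rfl
    intro i _
    split_ifs <;> ring
  rw [Finset.sum_congr rfl (fun k _ => e1 k)]
  symm
  rw [Finset.sum_comm]
  apply Finset.sum_congr rfl
  intro v _
  rw [Finset.sum_comm]
  apply Finset.sum_congr rfl
  intro i _
  rw [Finset.sum_ite_eq]
  simp only [Finset.mem_univ, if_true]
  rfl

/-- the energy inequality for a coupling with a tilted field -/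
theorem energy_le (n : ℕ) [NeZero n] (hn : 2 ≤ n) {U : (Ev n → ℝ) → ℝ}
    {U' : Ev n → (Ev n → ℝ) → ℝ} (hU : Tilt U U') {σ : St (Ev n) → Ev n} {Ω : Type}
    [MeasurableSpace Ω] {P : Measure Ω} {z z' : Ω → Ev n → ℝ}
    (h : ACpl (pp n) (fh n) (fT n U) (Dh n) (DT n U U') σ P z z') :
    Integrable (fun ω => Dis n (z ω) (z' ω)) P ∧
      ∫ ω, Dis n (z ω) (z' ω) ∂P ≤
        ∫ ω, ∑ k, U' k (z' ω) / U (z' ω) * (z' ω k - z ω k) ∂P := by
  have hP := h.prob
  have hZ := (reg_tilt (reg_fh n hn) hU).1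
  set Z : ℝ := ∫ b, fh n b * U b ∂bs (pp n) with hZdef
  have hpos' : ∀ ω, 0 < fh n (z' ω) := fun ω => gg_fh_pos hn (h.zp ω).2.2.2
  have hb : ∀ ω k, |z ω k| ≤ 2 * n := fun ω k => fh_bound n (h.zp ω).2.2.1 (h.zp ω).1 k
  have hb' : ∀ ω k, |z' ω k| ≤ 2 * n := fun ω k => fh_bound n (hpos' ω) (h.zp ω).2.1 k
  -- pointwise identities
  have hD : ∀ ω k, Dh n k (z ω) / fh n (z ω) = -Fo Gh (cn n) (z ω) k := by
    intro ω k
    have := (h.zp ω).2.2.1
    unfold Dh
    field_simp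
  have hD' : ∀ ω k, DT n U U' k (z' ω) / fT n U (z' ω) =
      -Fo Gh (cn n) (z' ω) k + U' k (z' ω) / U (z' ω) := by
    intro ω k
    have h1 := hpos' ω
    have h2 := hU.pos (z' ω)
    unfold DT fT Dh
    rw [← hZdef]
    field_simp
  have hz : ∀ k, Measurable (fun ω => z ω k) := fun k => (measurable_pi_apply k).comp h.meas
  have hz' : ∀ k, Measurable (fun ω => z' ω k) := fun k => (measurable_pi_apply k).comp h.meas'
  have hhm : ∀ k, Measurable (fun ω => z' ω k - z ω k) := fun k => (hz' k).sub (hz k)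
  have hhb : ∀ k ω, ‖z' ω k - z ω k‖ ≤ 4 * n := by
    intro k ω
    rw [Real.norm_eq_abs]
    have h1 := abs_sub (z' ω k) (z ω k)
    have h2 := hb ω k
    have h3 := hb' ω k
    linarith
  -- integrability of the terms
  have hX : ∀ k, k ≠ pp n → Integrable (fun ω => (z' ω k - z ω k) *
      (Dh n k (z ω) / fh n (z ω) - DT n U U' k (z' ω) / fT n U (z' ω))) P := by
    intro k hk
    exact ((h.int k hk).1.sub (h.int k hk).2).bdd_mul (hhm k).aestronglyMeasurable
      (Filter.Eventually.of_forall (hhb k))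
  have hY : ∀ k, Integrable (fun ω => U' k (z' ω) / U (z' ω) * (z' ω k - z ω k)) P := by
    intro k
    have hcont : Continuous (fun a : Ev n → ℝ => U' k a / U a) :=
      (hU.contD k).div₀ hU.cont (fun a => (hU.pos a).ne')
    have hK : IsCompact (Set.pi Set.univ (fun _ : Ev n => Set.Icc (-(2 * n : ℝ)) (2 * n))) :=
      isCompact_univ_pi (fun _ => isCompact_Icc)
    obtain ⟨C, hC⟩ := hK.exists_bound_of_continuousOn hcont.continuousOn
    have hbd : ∀ ω, ‖U' k (z' ω) / U (z' ω)‖ ≤ C := by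
      intro ω
      apply hC
      intro y _
      exact abs_le.1 (hb' ω y)
    have hint : Integrable (fun ω => z' ω k - z ω k) P :=
      Integrable.of_bound (hhm k).aestronglyMeasurable (4 * n)
        (Filter.Eventually.of_forall (hhb k))
    exact hint.bdd_mul (hcont.measurable.comp h.meas').aestronglyMeasurable
      (Filter.Eventually.of_forall hbd)
  have hYs : Integrable (fun ω => ∑ k, U' k (z' ω) / U (z' ω) * (z' ω k - z ω k)) P :=
    integrable_finsetSum _ (fun k _ => hY k)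
  have hXs : Integrable (fun ω => ∑ k ∈ Finset.univ.erase (pp n), (z' ω k - z ω k) *
      (Dh n k (z ω) / fh n (z ω) - DT n U U' k (z' ω) / fT n U (z' ω))) P :=
    integrable_finsetSum _ (fun k hk => hX k (Finset.ne_of_mem_erase hk))
  have hdis : ∀ ω, Dis n (z ω) (z' ω) =
      ∑ k ∈ Finset.univ.erase (pp n), (z' ω k - z ω k) *
        (Dh n k (z ω) / fh n (z ω) - DT n U U' k (z' ω) / fT n U (z' ω)) +
      ∑ k, U' k (z' ω) / U (z' ω) * (z' ω k - z ω k) := by
    intro ω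
    have h0 : z' ω (pp n) - z ω (pp n) = 0 := by
      rw [(h.zp ω).1, (h.zp ω).2.1, sub_zero]
    have e1 : ∑ k ∈ Finset.univ.erase (pp n), (z' ω k - z ω k) *
        (Dh n k (z ω) / fh n (z ω) - DT n U U' k (z' ω) / fT n U (z' ω)) =
        ∑ k, (z' ω k - z ω k) *
        (Dh n k (z ω) / fh n (z ω) - DT n U U' k (z' ω) / fT n U (z' ω)) := by
      apply Finset.sum_erase
      rw [h0, zero_mul]
    rw [e1, ← Finset.sum_add_distrib, gg_Dis]
    apply Finset.sum_congr rfl
    intro k _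
    rw [hD, hD']
    ring
  have hdis' : (fun ω => Dis n (z ω) (z' ω)) = fun ω =>
      ∑ k ∈ Finset.univ.erase (pp n), (z' ω k - z ω k) *
        (Dh n k (z ω) / fh n (z ω) - DT n U U' k (z' ω) / fT n U (z' ω)) +
      ∑ k, U' k (z' ω) / U (z' ω) * (z' ω k - z ω k) := funext hdis
  refine ⟨by rw [hdis']; exact hXs.add hYs, ?_⟩
  rw [hdis', integral_add hXs hYs, integral_finsetSum _
    (fun k hk => hX k (Finset.ne_of_mem_erase hk))]
  have : ∑ k ∈ Finset.univ.erase (pp n), ∫ ω, (z' ω k - z ω k) *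
      (Dh n k (z ω) / fh n (z ω) - DT n U U' k (z' ω) / fT n U (z' ω)) ∂P ≤ 0 :=
    Finset.sum_nonpos (fun k hk => h.key k (Finset.ne_of_mem_erase hk))
  linarith

/-- the two fields of a coupling -/
theorem two_of (n : ℕ) [NeZero n] (hn : 2 ≤ n) {U : (Ev n → ℝ) → ℝ}
    {U' : Ev n → (Ev n → ℝ) → ℝ} (hU : Tilt U U') {σ : St (Ev n) → Ev n} {Ω : Type}
    [MeasurableSpace Ω] {P : Measure Ω} {z z' : Ω → Ev n → ℝ}
    (h : ACpl (pp n) (fh n) (fT n U) (Dh n) (DT n U U') σ P z z') : Two n P z z' where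
  prob := h.prob
  meas := h.meas
  meas' := h.meas'
  law := by rw [h.law, muh_eq]
  zp := fun ω => ⟨(h.zp ω).1, (h.zp ω).2.1, (h.zp ω).2.2.1, gg_fh_pos hn (h.zp ω).2.2.2⟩

end HK
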