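import Mathlib
import Pool.Agent.Lib_helper12.HK.DefsG

set_option autoImplicit false

namespace HK

open MeasureTheory QG

theorem gh_dir (n : ℕ) (i : Fin 4) :
    dir n i = (((dz i).1 : ZMod (2 * n)), ((dz i).2 : ZMod (2 * n))) := by
  fin_cases i <;> simp [dir, dz]

theorem gh_op (i : Fin 4) : dz (op i) = -dz i := by
  fin_cases i <;> simp [op, dz]

/-- the points of the strip -/
def gh_pt (n m : ℕ) (k : ℤ × ℤ) (i : Fin 4) (j : ℕ) : Ev n :=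
  ⟨(((2 * m * k.1 + 2 * j * (dz i).1 : ℤ) : ZMod (2 * n)),
    ((2 * m * k.2 + 2 * j * (dz i).2 : ℤ) : ZMod (2 * n))), by
    rw [par_int]
    have h : (2 * m * k.1 + 2 * j * (dz i).1 + (2 * m * k.2 + 2 * j * (dz i).2) : ℤ) =
        2 * (m * k.1 + m * k.2 + j * (dz i).1 + j * (dz i).2) := by ring
    rw [h]
    push_cast
    have h2 : (2 : ZMod 2) = 0 := by decide
    rw [h2, zero_mul]⟩

/-- telescoping along a strip -/
theorem strip_sum (n m : ℕ) (k : ℤ × ℤ) (i : Fin 4) (h : Ev n → ℝ) :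
    h (ke n m (k + dz i)) - h (ke n m k) = ∑ j ∈ Finset.range m,
      (h (cn n (sc n m k i j) i) - h (cn n (sc n m k i j) (op i))) := by
  have e1 : ∀ j, cn n (sc n m k i j) i = gh_pt n m k i (j + 1) := by
    intro j
    apply Subtype.ext
    show ((((2 * m * k.1 + (2 * j + 1) * (dz i).1 : ℤ) : ZMod (2 * n)),
      ((2 * m * k.2 + (2 * j + 1) * (dz i).2 : ℤ) : ZMod (2 * n))) : Tor n) + dir n i =
      (((2 * m * k.1 + 2 * ((j + 1 : ℕ) : ℤ) * (dz i).1 : ℤ) : ZMod (2 * n)),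
        ((2 * m * k.2 + 2 * ((j + 1 : ℕ) : ℤ) * (dz i).2 : ℤ) : ZMod (2 * n)))
    rw [gh_dir]
    refine Prod.ext ?_ ?_
    · show ((2 * m * k.1 + (2 * j + 1) * (dz i).1 : ℤ) : ZMod (2 * n)) +
        ((dz i).1 : ZMod (2 * n)) = _
      push_cast
      ring
    · show ((2 * m * k.2 + (2 * j + 1) * (dz i).2 : ℤ) : ZMod (2 * n)) +
        ((dz i).2 : ZMod (2 * n)) = _
      push_cast
      ring
  have e2 : ∀ j, cn n (sc n m k i j) (op i) = gh_pt n m k i j := by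
    intro j
    apply Subtype.ext
    show ((((2 * m * k.1 + (2 * j + 1) * (dz i).1 : ℤ) : ZMod (2 * n)),
      ((2 * m * k.2 + (2 * j + 1) * (dz i).2 : ℤ) : ZMod (2 * n))) : Tor n) + dir n (op i) =
      (((2 * m * k.1 + 2 * (j : ℤ) * (dz i).1 : ℤ) : ZMod (2 * n)),
        ((2 * m * k.2 + 2 * (j : ℤ) * (dz i).2 : ℤ) : ZMod (2 * n)))
    rw [gh_dir, gh_op]
    refine Prod.ext ?_ ?_
    · show ((2 * m * k.1 + (2 * j + 1) * (dz i).1 : ℤ) : ZMod (2 * n)) +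
        ((-(dz i).1 : ℤ) : ZMod (2 * n)) = _
      push_cast
      ring
    · show ((2 * m * k.2 + (2 * j + 1) * (dz i).2 : ℤ) : ZMod (2 * n)) +
        ((-(dz i).2 : ℤ) : ZMod (2 * n)) = _
      push_cast
      ring
  have e3 : ke n m (k + dz i) = gh_pt n m k i m := by
    apply Subtype.ext
    refine Prod.ext ?_ ?_
    · show ((2 * m * (k.1 + (dz i).1) : ℤ) : ZMod (2 * n)) =
        ((2 * m * k.1 + 2 * m * (dz i).1 : ℤ) : ZMod (2 * n))
      push_cast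
      ring
    · show ((2 * m * (k.2 + (dz i).2) : ℤ) : ZMod (2 * n)) =
        ((2 * m * k.2 + 2 * m * (dz i).2 : ℤ) : ZMod (2 * n))
      push_cast
      ring
  have e4 : ke n m k = gh_pt n m k i 0 := by
    apply Subtype.ext
    refine Prod.ext ?_ ?_
    · show ((2 * m * k.1 : ℤ) : ZMod (2 * n)) =
        ((2 * m * k.1 + 2 * ((0 : ℕ) : ℤ) * (dz i).1 : ℤ) : ZMod (2 * n))
      push_cast
      ring
    · show ((2 * m * k.2 : ℤ) : ZMod (2 * n)) =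
        ((2 * m * k.2 + 2 * ((0 : ℕ) : ℤ) * (dz i).2 : ℤ) : ZMod (2 * n))
      push_cast
      ring
  rw [e3, e4]
  have e5 : ∀ j ∈ Finset.range m, h (cn n (sc n m k i j) i) - h (cn n (sc n m k i j) (op i)) =
      h (gh_pt n m k i (j + 1)) - h (gh_pt n m k i j) := by
    intro j _
    rw [e1, e2]
  rw [Finset.sum_congr rfl e5, Finset.sum_range_sub (fun j => h (gh_pt n m k i j))]

/-- equality in `ZMod (2 n)` of small integers -/
theorem gh_zmod {n : ℕ} {a b : ℤ} (h : ((a : ℤ) : ZMod (2 * n)) = ((b : ℤ) : ZMod (2 * n)))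
    (h1 : |b - a| < 2 * n) : a = b := by
  have h2 : ((2 * n : ℕ) : ℤ) ∣ b - a := (ZMod.intCast_eq_intCast_iff_dvd_sub a b (2 * n)).1 h
  have h3 := Int.eq_zero_of_abs_lt_dvd h2 (by push_cast; exact h1)
  omega

/-- the boxes -/
theorem gh_box {n m : ℕ} (hm : 2 ≤ m) :
    8 * ((m : ℤ) * ((n / (8 * m) : ℕ) : ℤ)) ≤ n ∧
      8 * ((m : ℤ) * ((5 * n / (8 * m) : ℕ) : ℤ)) ≤ 5 * n := by
  have h1 : 8 * m * (n / (8 * m)) ≤ n := Nat.mul_div_le n (8 * m)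
  have h2 : 8 * m * (5 * n / (8 * m)) ≤ 5 * n := Nat.mul_div_le (5 * n) (8 * m)
  constructor
  · have : ((8 * m * (n / (8 * m)) : ℕ) : ℤ) ≤ n := by exact_mod_cast h1
    push_cast at this ⊢
    linarith
  · have : ((8 * m * (5 * n / (8 * m)) : ℕ) : ℤ) ≤ ((5 * n : ℕ) : ℤ) := by exact_mod_cast h2
    push_cast at this ⊢
    linarith

theorem gh_co {m : ℕ} (A B a : ℤ) (h1 : -A ≤ a) (h2 : a ≤ B) :
    -((m : ℤ) * A) ≤ m * a ∧ (m : ℤ) * a ≤ m * B := by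
  have hm : (0 : ℤ) ≤ m := by positivity
  constructor
  · have := mul_le_mul_of_nonneg_left h1 hm
    linarith
  · exact mul_le_mul_of_nonneg_left h2 hm

/-- the `K`-sites are different -/
theorem ke_inj (n m : ℕ) [NeZero n] (hb : 64 * m * (R0 + 10) ≤ n) (hm : 2 ≤ m) {k k' : ℤ × ℤ}
    (hk : k ∈ Lam n m) (hk' : k' ∈ Lam n m) (h : ke n m k = ke n m k') : k = k' := by
  have hn : 0 < n := Nat.pos_of_ne_zero (NeZero.ne n)
  have hm' : (0 : ℤ) < m := by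
    have : 0 < m := by omega
    exact_mod_cast this
  rw [Lam, Finset.mem_product, Finset.mem_Icc, Finset.mem_Icc] at hk hk'
  obtain ⟨b1, b2⟩ := gh_box (n := n) hm
  have e := congrArg Subtype.val h
  have e1 : ((2 * m * k.1 : ℤ) : ZMod (2 * n)) = ((2 * m * k'.1 : ℤ) : ZMod (2 * n)) :=
    congrArg Prod.fst e
  have e2 : ((2 * m * k.2 : ℤ) : ZMod (2 * n)) = ((2 * m * k'.2 : ℤ) : ZMod (2 * n)) :=
    congrArg Prod.snd e
  have key : ∀ a b : ℤ, (-((n / (8 * m) : ℕ) : ℤ) ≤ a ∧ a ≤ ((5 * n / (8 * m) : ℕ) : ℤ)) →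
      (-((n / (8 * m) : ℕ) : ℤ) ≤ b ∧ b ≤ ((5 * n / (8 * m) : ℕ) : ℤ)) →
      ((2 * m * a : ℤ) : ZMod (2 * n)) = ((2 * m * b : ℤ) : ZMod (2 * n)) → a = b := by
    intro a b ha hb' hab
    obtain ⟨c1, c2⟩ := gh_co (m := m) _ _ a ha.1 ha.2
    obtain ⟨c3, c4⟩ := gh_co (m := m) _ _ b hb'.1 hb'.2
    have f1 : 2 * (m : ℤ) * a = 2 * m * b := by
      refine gh_zmod hab ?_
      have g1 : 2 * (m : ℤ) * b - 2 * m * a = 2 * (m * b) - 2 * (m * a) := by ring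
      rw [g1, abs_lt]
      constructor <;> omega
    have f2 : (2 * (m : ℤ)) * (a - b) = 0 := by linarith
    rcases mul_eq_zero.1 f2 with f3 | f3
    · omega
    · omega
  exact Prod.ext (key _ _ hk.1 hk'.1 e1) (key _ _ hk.2 hk'.2 e2)

theorem gh_zero {m : ℕ} {a b : ℤ} (h : (m : ℤ) * a = b) (h1 : -(m : ℤ) < b) (h2 : b < m) :
    a = 0 := by
  by_contra h0
  rcases lt_or_gt_of_ne h0 with h3 | h3
  · have h4 : a ≤ -1 := by omega
    nlinarith [mul_nonneg (by omega : (0 : ℤ) ≤ m) (by omega : 0 ≤ -1 - a)]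
  · have h4 : 1 ≤ a := by omega
    nlinarith [mul_nonneg (by omega : (0 : ℤ) ≤ m) (by omega : 0 ≤ a - 1)]

theorem gh_one {m : ℕ} {a b : ℤ} (h : (m : ℤ) * a = b) (h1 : 0 < b) (h2 : b < 2 * m) :
    a = 1 := by
  by_contra h0
  rcases lt_or_gt_of_ne h0 with h3 | h3
  · have h4 : a ≤ 0 := by omega
    nlinarith [mul_nonneg (by omega : (0 : ℤ) ≤ m) (by omega : 0 ≤ -a)]
  · have h4 : 2 ≤ a := by omega
    nlinarith [mul_nonneg (by omega : (0 : ℤ) ≤ m) (by omega : 0 ≤ a - 2)]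

/-- the integer statement -/
theorem gh_int {m : ℕ} {k k' : ℤ × ℤ} {i i' : Fin 4} {j j' : ℕ} (hj : j < m) (hj' : j' < m)
    (e1 : 2 * ((m : ℤ) * k.1) + (2 * j + 1) * (dz i).1 =
      2 * ((m : ℤ) * k'.1) + (2 * j' + 1) * (dz i').1)
    (e2 : 2 * ((m : ℤ) * k.2) + (2 * j + 1) * (dz i).2 =
      2 * ((m : ℤ) * k'.2) + (2 * j' + 1) * (dz i').2) :
    (k' = k ∧ i' = i ∧ j' = j) ∨ (k' = k + dz i ∧ i' = op i ∧ j' = m - 1 - j) := by
  have d0 : dz 0 = (-1, 0) := rfl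
  have d1 : dz 1 = (1, 0) := rfl
  have d2 : dz 2 = (0, 1) := rfl
  have d3 : dz 3 = (0, -1) := rfl
  have hm : (0 : ℤ) < m := by
    have : 0 < m := by omega
    exact_mod_cast this
  have Z : ∀ a b : ℤ, 2 * ((m : ℤ) * a) = 2 * ((m : ℤ) * b) → a = b := by
    intro a b h
    have h1 : (m : ℤ) * (a - b) = 0 := by linarith
    rcases mul_eq_zero.1 h1 with h2 | h2
    · omega
    · omega
  have same : ∀ a b : ℤ, (m : ℤ) * a + j = m * b + j' → a = b ∧ j = j' := by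
    intro a b h
    have h1 : a - b = 0 := gh_zero (m := m) (b := (j' : ℤ) - j) (by rw [mul_sub]; linarith)
      (by omega) (by omega)
    have h2 : a = b := by omega
    rw [h2] at h
    exact ⟨h2, by omega⟩
  have opp : ∀ a b : ℤ, (m : ℤ) * a + j + j' + 1 = m * b → b = a + 1 ∧ j' = m - 1 - j := by
    intro a b h
    have h1 : b - a = 1 := gh_one (m := m) (b := (j : ℤ) + j' + 1) (by rw [mul_sub]; linarith)
      (by omega) (by omega)
    have h2 : b = a + 1 := by omega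
    rw [h2] at h
    have h3 : (j : ℤ) + j' + 1 = m := by linarith
    exact ⟨h2, by omega⟩
  obtain ⟨k1, k2⟩ := k
  obtain ⟨l1, l2⟩ := k'
  have R : ∀ s : Fin 4, ((k1, k2) : ℤ × ℤ) + dz s = (k1 + (dz s).1, k2 + (dz s).2) := fun s => rfl
  fin_cases i <;> fin_cases i' <;>
    simp only [Fin.zero_eta, Fin.mk_one, Fin.reduceFinMk, d0, d1, d2, d3, mul_neg,
      mul_one, mul_zero, add_zero] at e1 e2
  -- 0
  · obtain ⟨f1, f2⟩ := same l1 k1 (by linarith)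
    exact Or.inl ⟨Prod.ext f1 (Z _ _ e2).symm, rfl, f2.symm⟩
  · obtain ⟨f1, f2⟩ := opp l1 k1 (by linarith)
    refine Or.inr ⟨?_, rfl, f2⟩
    show (l1, l2) = (k1 + -1, k2 + 0)
    exact Prod.ext (by show l1 = k1 + -1; omega) (by show l2 = k2 + 0; rw [Z _ _ e2, add_zero])
  · exfalso; omega
  · exfalso; omega
  -- 1
  · obtain ⟨f1, f2⟩ := opp k1 l1 (by linarith)
    refine Or.inr ⟨?_, rfl, f2⟩
    show (l1, l2) = (k1 + 1, k2 + 0)
    exact Prod.ext (by show l1 = k1 + 1; omega) (by show l2 = k2 + 0; rw [Z _ _ e2, add_zero])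
  · obtain ⟨f1, f2⟩ := same k1 l1 (by linarith)
    exact Or.inl ⟨Prod.ext f1.symm (Z _ _ e2).symm, rfl, f2.symm⟩
  · exfalso; omega
  · exfalso; omega
  -- 2
  · exfalso; omega
  · exfalso; omega
  · obtain ⟨f1, f2⟩ := same k2 l2 (by linarith)
    exact Or.inl ⟨Prod.ext (Z _ _ e1).symm f1.symm, rfl, f2.symm⟩
  · obtain ⟨f1, f2⟩ := opp k2 l2 (by linarith)
    refine Or.inr ⟨?_, rfl, f2⟩
    show (l1, l2) = (k1 + 0, k2 + 1)
    exact Prod.ext (by show l1 = k1 + 0; rw [Z _ _ e1, add_zero]) (by show l2 = k2 + 1; omega)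
  -- 3
  · exfalso; omega
  · exfalso; omega
  · obtain ⟨f1, f2⟩ := opp l2 k2 (by linarith)
    refine Or.inr ⟨?_, rfl, f2⟩
    show (l1, l2) = (k1 + 0, k2 + -1)
    exact Prod.ext (by show l1 = k1 + 0; rw [Z _ _ e1, add_zero]) (by show l2 = k2 + -1; omega)
  · obtain ⟨f1, f2⟩ := same l2 k2 (by linarith)
    exact Or.inl ⟨Prod.ext (Z _ _ e1).symm f1, rfl, f2.symm⟩

/-- every cell is in at most two strips -/
theorem strip_mult (n m : ℕ) [NeZero n] (hb : 64 * m * (R0 + 10) ≤ n) (hm : 2 ≤ m) (v : Od n) :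
    (((LamI n m R0) ×ˢ (Finset.univ : Finset (Fin 4)) ×ˢ Finset.range m).filter
      (fun x => sc n m x.1 x.2.1 x.2.2 = v)).card ≤ 2 := by
  have hn : 0 < n := Nat.pos_of_ne_zero (NeZero.ne n)
  have hn' : (0 : ℤ) < n := by exact_mod_cast hn
  obtain ⟨b1, b2⟩ := gh_box (n := n) hm
  rcases Finset.eq_empty_or_nonempty (((LamI n m R0) ×ˢ (Finset.univ : Finset (Fin 4)) ×ˢ
    Finset.range m).filter (fun x => sc n m x.1 x.2.1 x.2.2 = v)) with h0 | ⟨x0, hx0⟩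
  · rw [h0]
    simp
  refine (Finset.card_le_card (t := {x0, (x0.1 + dz x0.2.1, op x0.2.1, m - 1 - x0.2.2)}) ?_).trans
    Finset.card_le_two
  intro x hx
  rw [Finset.mem_filter, Finset.mem_product, Finset.mem_product, Finset.mem_range, LamI,
    Finset.mem_product, Finset.mem_Icc, Finset.mem_Icc] at hx hx0
  obtain ⟨⟨⟨hx1, hx2⟩, -, hx3⟩, hx4⟩ := hx
  obtain ⟨⟨⟨hy1, hy2⟩, -, hy3⟩, hy4⟩ := hx0
  have e := congrArg Subtype.val (hy4.trans hx4.symm)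
  have hR : (0 : ℤ) ≤ (R0 : ℤ) := by positivity
  have hR1 : (1 : ℤ) ≤ (R0 : ℤ) := by unfold R0; norm_num
  have dzb : ∀ i : Fin 4, ((dz i).1 = 0 ∨ (dz i).1 = 1 ∨ (dz i).1 = -1) ∧
      ((dz i).2 = 0 ∨ (dz i).2 = 1 ∨ (dz i).2 = -1) := by
    intro i
    fin_cases i <;> simp [dz]
  have key : ∀ (a b s t : ℤ) (j j' : ℕ), j < m → j' < m → (s = 0 ∨ s = 1 ∨ s = -1) →
      (t = 0 ∨ t = 1 ∨ t = -1) →
      ((R0 : ℤ) - ((n / (8 * m) : ℕ) : ℤ) ≤ a ∧ a ≤ ((5 * n / (8 * m) : ℕ) : ℤ) - R0) →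
      ((R0 : ℤ) - ((n / (8 * m) : ℕ) : ℤ) ≤ b ∧ b ≤ ((5 * n / (8 * m) : ℕ) : ℤ) - R0) →
      ((2 * m * a + (2 * j + 1) * s : ℤ) : ZMod (2 * n)) =
        ((2 * m * b + (2 * j' + 1) * t : ℤ) : ZMod (2 * n)) →
      2 * ((m : ℤ) * a) + (2 * j + 1) * s = 2 * ((m : ℤ) * b) + (2 * j' + 1) * t := by
    intro a b s t j j' hj hj' hs ht ha hb' hab
    obtain ⟨c1, c2⟩ := gh_co (m := m) (((n / (8 * m) : ℕ) : ℤ) - 1)
      (((5 * n / (8 * m) : ℕ) : ℤ) - 1) a (by omega) (by omega)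
    obtain ⟨c3, c4⟩ := gh_co (m := m) (((n / (8 * m) : ℕ) : ℤ) - 1)
      (((5 * n / (8 * m) : ℕ) : ℤ) - 1) b (by omega) (by omega)
    rw [mul_sub, mul_one] at c1 c2 c3 c4
    have f1 : 2 * (m : ℤ) * a + (2 * j + 1) * s = 2 * m * b + (2 * j' + 1) * t := by
      refine gh_zmod hab ?_
      have g1 : 2 * (m : ℤ) * b + (2 * j' + 1) * t - (2 * m * a + (2 * j + 1) * s) =
        2 * (m * b) + (2 * j' + 1) * t - (2 * (m * a) + (2 * j + 1) * s) := by ring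
      rw [g1, abs_lt]
      rcases hs with rfl | rfl | rfl <;> rcases ht with rfl | rfl | rfl <;> constructor <;> omega
    linarith
  have e1 := key _ _ _ _ _ _ hy3 hx3 (dzb x0.2.1).1 (dzb x.2.1).1 hy1 hx1 (congrArg Prod.fst e)
  have e2 := key _ _ _ _ _ _ hy3 hx3 (dzb x0.2.1).2 (dzb x.2.1).2 hy2 hx2 (congrArg Prod.snd e)
  rw [Finset.mem_insert, Finset.mem_singleton]
  rcases gh_int hy3 hx3 e1 e2 with ⟨f1, f2, f3⟩ | ⟨f1, f2, f3⟩
  · left
    exact Prod.ext f1 (Prod.ext f2 f3)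
  · right
    exact Prod.ext f1 (Prod.ext f2 f3)

theorem LamI_nb {n m : ℕ} {k : ℤ × ℤ} (hk : k ∈ LamI n m R0) {k' : ℤ × ℤ} (h : di k k' ≤ R0) :
    k' ∈ Lam n m := by
  rw [LamI, Finset.mem_product, Finset.mem_Icc, Finset.mem_Icc] at hk
  rw [Lam, Finset.mem_product, Finset.mem_Icc, Finset.mem_Icc]
  unfold di at h
  have h1 : (k.1 - k'.1).natAbs ≤ R0 := (le_max_left _ _).trans h
  have h2 : (k.2 - k'.2).natAbs ≤ R0 := (le_max_right _ _).trans h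
  omega

end HK
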