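import Mathlib
import Pool.Agent.Lib_helper12.HK.DefsG
import Pool.Agent.Lib_helper12.HK.W.ga
import Pool.Agent.Lib_helper12.HK.W.gc
import Pool.Agent.Lib_helper12.HK.W.gf
import Pool.Agent.Lib_helper12.HK.W.gh

set_option autoImplicit false

namespace HK

open MeasureTheory QG

theorem gi_term (n m : ℕ) [NeZero n] {a a' : Ev n → ℝ} (ha : 0 < fh n a) (ha' : 0 < fh n a')
    (k : ℤ × ℤ) (i : Fin 4) (hP : Pat n m a k i) :
    ((a' (ke n m (k + dz i)) - a (ke n m (k + dz i))) - (a' (ke n m k) - a (ke n m k))) ^ 2 ≤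
      16 * m * ∑ j ∈ Finset.range m,
        DD Gh (loc (cn n) a (sc n m k i j)) (loc (cn n) a' (sc n m k i j)) := by
  have hs := strip_sum n m k i (fun y => a' y - a y)
  rw [hs]
  have h1 : (∑ j ∈ Finset.range m, ((a' (cn n (sc n m k i j) i) - a (cn n (sc n m k i j) i)) -
      (a' (cn n (sc n m k i j) (op i)) - a (cn n (sc n m k i j) (op i))))) ^ 2 ≤
      (m : ℝ) * ∑ j ∈ Finset.range m,
        ((a' (cn n (sc n m k i j) i) - a (cn n (sc n m k i j) i)) -
      (a' (cn n (sc n m k i j) (op i)) - a (cn n (sc n m k i j) (op i)))) ^ 2 := by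
    have := sq_sum_le_card_mul_sum_sq (s := Finset.range m)
      (f := fun j => ((a' (cn n (sc n m k i j) i) - a (cn n (sc n m k i j) i)) -
      (a' (cn n (sc n m k i j) (op i)) - a (cn n (sc n m k i j) (op i)))))
    rw [Finset.card_range] at this
    exact this
  refine h1.trans ?_
  have h2 : ∀ j ∈ Finset.range m,
      ((a' (cn n (sc n m k i j) i) - a (cn n (sc n m k i j) i)) -
      (a' (cn n (sc n m k i j) (op i)) - a (cn n (sc n m k i j) (op i)))) ^ 2 ≤
      16 * DD Gh (loc (cn n) a (sc n m k i j)) (loc (cn n) a' (sc n m k i j)) := by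
    intro j hj
    have h3 := cell_ineq ((fh_pos_iff n a).1 ha (sc n m k i j))
      ((fh_pos_iff n a').1 ha' (sc n m k i j))
    have h4 : ((a' (cn n (sc n m k i j) i) - a (cn n (sc n m k i j) i)) -
      (a' (cn n (sc n m k i j) (op i)) - a (cn n (sc n m k i j) (op i)))) ^ 2 =
      ((loc (cn n) a' (sc n m k i j) (am (loc (cn n) a (sc n m k i j))) -
        loc (cn n) a (sc n m k i j) (am (loc (cn n) a (sc n m k i j)))) -
       (loc (cn n) a' (sc n m k i j) (an (loc (cn n) a (sc n m k i j))) -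
        loc (cn n) a (sc n m k i j) (an (loc (cn n) a (sc n m k i j))))) ^ 2 := by
      rcases hP j (Finset.mem_range.1 hj) with ⟨e1, e2⟩ | ⟨e1, e2⟩
      · rw [e1, e2]; rfl
      · rw [e1, e2]
        simp only [loc]
        ring
    rw [h4]
    linarith
  calc (m : ℝ) * ∑ j ∈ Finset.range m,
        ((a' (cn n (sc n m k i j) i) - a (cn n (sc n m k i j) i)) -
      (a' (cn n (sc n m k i j) (op i)) - a (cn n (sc n m k i j) (op i)))) ^ 2
      ≤ (m : ℝ) * ∑ j ∈ Finset.range m,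
        16 * DD Gh (loc (cn n) a (sc n m k i j)) (loc (cn n) a' (sc n m k i j)) :=
        mul_le_mul_of_nonneg_left (Finset.sum_le_sum h2) (Nat.cast_nonneg _)
    _ = _ := by rw [← Finset.mul_sum]; ring

open Classical in
/-- the patterns give a lower bound for the dissipation -/
theorem strip_energy (n m : ℕ) [NeZero n] (hb : 64 * m * (R0 + 10) ≤ n) (hm : 2 ≤ m)
    {a a' : Ev n → ℝ} (ha : 0 < fh n a) (ha' : 0 < fh n a') :
    ∑ k ∈ LamI n m R0, ∑ i : Fin 4, (if ¬ Bad n m a k ∧ Pat n m a k i then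
      ((a' (ke n m (k + dz i)) - a (ke n m (k + dz i))) - (a' (ke n m k) - a (ke n m k))) ^ 2
        else 0) ≤ 32 * m * Dis n a a' := by
  have hD : ∀ v : Od n, 0 ≤ DD Gh (loc (cn n) a v) (loc (cn n) a' v) := fun v =>
    le_trans (by positivity) (cell_ineq ((fh_pos_iff n a).1 ha v) ((fh_pos_iff n a').1 ha' v))
  have h1 : ∀ k ∈ LamI n m R0, ∀ i : Fin 4, (if ¬ Bad n m a k ∧ Pat n m a k i then
      ((a' (ke n m (k + dz i)) - a (ke n m (k + dz i))) - (a' (ke n m k) - a (ke n m k))) ^ 2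
        else 0) ≤ 16 * m * ∑ j ∈ Finset.range m,
        DD Gh (loc (cn n) a (sc n m k i j)) (loc (cn n) a' (sc n m k i j)) := by
    intro k _ i
    split_ifs with h
    · exact gi_term n m ha ha' k i h.2
    · exact mul_nonneg (by positivity) (Finset.sum_nonneg fun j _ => hD _)
  refine (Finset.sum_le_sum fun k hk => Finset.sum_le_sum fun i _ => h1 k hk i).trans ?_
  have h2 : ∑ k ∈ LamI n m R0, ∑ i : Fin 4, 16 * (m : ℝ) * ∑ j ∈ Finset.range m,
        DD Gh (loc (cn n) a (sc n m k i j)) (loc (cn n) a' (sc n m k i j)) =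
      16 * m * ∑ x ∈ (LamI n m R0) ×ˢ (Finset.univ : Finset (Fin 4)) ×ˢ Finset.range m,
        DD Gh (loc (cn n) a (sc n m x.1 x.2.1 x.2.2)) (loc (cn n) a' (sc n m x.1 x.2.1 x.2.2)) := by
    rw [Finset.sum_product, Finset.mul_sum]
    refine Finset.sum_congr rfl fun k _ => ?_
    rw [Finset.sum_product, Finset.mul_sum]
  rw [h2, ← Finset.sum_fiberwise ((LamI n m R0) ×ˢ (Finset.univ : Finset (Fin 4)) ×ˢ
    Finset.range m) (fun x => sc n m x.1 x.2.1 x.2.2)]
  have h3 : ∀ v : Od n, (∑ x ∈ ((LamI n m R0) ×ˢ (Finset.univ : Finset (Fin 4)) ×ˢ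
      Finset.range m).filter (fun x => sc n m x.1 x.2.1 x.2.2 = v),
        DD Gh (loc (cn n) a (sc n m x.1 x.2.1 x.2.2)) (loc (cn n) a' (sc n m x.1 x.2.1 x.2.2))) ≤
      2 * DD Gh (loc (cn n) a v) (loc (cn n) a' v) := by
    intro v
    have e : ∀ x ∈ ((LamI n m R0) ×ˢ (Finset.univ : Finset (Fin 4)) ×ˢ
      Finset.range m).filter (fun x => sc n m x.1 x.2.1 x.2.2 = v),
        DD Gh (loc (cn n) a (sc n m x.1 x.2.1 x.2.2)) (loc (cn n) a' (sc n m x.1 x.2.1 x.2.2)) =
        DD Gh (loc (cn n) a v) (loc (cn n) a' v) := by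
      intro x hx
      rw [(Finset.mem_filter.1 hx).2]
    rw [Finset.sum_congr rfl e, Finset.sum_const, nsmul_eq_mul]
    refine mul_le_mul_of_nonneg_right ?_ (hD v)
    have := strip_mult n m hb hm v
    have h4 : ((((LamI n m R0) ×ˢ (Finset.univ : Finset (Fin 4)) ×ˢ Finset.range m).filter
      (fun x => sc n m x.1 x.2.1 x.2.2 = v)).card : ℝ) ≤ 2 := by exact_mod_cast this
    exact h4
  calc 16 * (m : ℝ) * ∑ v : Od n, ∑ x ∈ ((LamI n m R0) ×ˢ (Finset.univ : Finset (Fin 4)) ×ˢ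
      Finset.range m).filter (fun x => sc n m x.1 x.2.1 x.2.2 = v),
        DD Gh (loc (cn n) a (sc n m x.1 x.2.1 x.2.2)) (loc (cn n) a' (sc n m x.1 x.2.1 x.2.2))
      ≤ 16 * (m : ℝ) * ∑ v : Od n, 2 * DD Gh (loc (cn n) a v) (loc (cn n) a' v) :=
        mul_le_mul_of_nonneg_left (Finset.sum_le_sum fun v _ => h3 v) (by positivity)
    _ = 32 * m * Dis n a a' := by
        unfold Dis
        rw [← Finset.mul_sum]
        ring

end HK
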