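import Mathlib
import Pool.Agent.Lib_helper12.HK.DefsG
import Pool.Agent.Lib_helper12.HK.W.ga
import Pool.Agent.Lib_helper12.HK.W.gh

set_option autoImplicit false

namespace HK

open MeasureTheory QG

theorem ke_nonK (n m : ℕ) [NeZero n] {k : ℤ × ℤ} (hk : k ∈ Lam n m) : ke n m k ∉ nonK n m := by
  classical
  unfold nonK
  intro h
  rw [Finset.mem_filter] at h
  exact h.2.2 k hk rfl

theorem pp_nonK (n m : ℕ) [NeZero n] : pp n ∉ nonK n m := by
  classical
  unfold nonK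
  intro h
  rw [Finset.mem_filter] at h
  exact h.2.1 rfl

theorem Bad_congr (n m : ℕ) [NeZero n] {a a' : Ev n → ℝ} (h : ∀ y ∉ nonK n m, a y = a' y)
    (k : ℤ × ℤ) : Bad n m a k ↔ Bad n m a' k := by
  unfold Bad
  constructor
  · rintro ⟨hk, k1, k2, hn, h1, h2, hs⟩
    refine ⟨hk, k1, k2, hn, h1, h2, ?_⟩
    unfold Steep at hs ⊢
    rw [← h _ (ke_nonK n m (LamI_nb hk h1)), ← h _ (ke_nonK n m (LamI_nb hk h2))]
    exact hs
  · rintro ⟨hk, k1, k2, hn, h1, h2, hs⟩
    refine ⟨hk, k1, k2, hn, h1, h2, ?_⟩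
    unfold Steep at hs ⊢
    rw [h _ (ke_nonK n m (LamI_nb hk h1)), h _ (ke_nonK n m (LamI_nb hk h2))]
    exact hs

theorem gj_steep (n m : ℕ) (k k' : ℤ × ℤ) : MeasurableSet {a : Ev n → ℝ | Steep n m a k k'} := by
  unfold Steep
  apply measurableSet_lt
  · exact measurable_const
  · exact ((measurable_pi_apply (ke n m k)).sub (measurable_pi_apply (ke n m k'))).abs

theorem Bad_meas (n m : ℕ) (k : ℤ × ℤ) : MeasurableSet {a : Ev n → ℝ | Bad n m a k} := by
  have he : {a : Ev n → ℝ | Bad n m a k} = {_a : Ev n → ℝ | k ∈ LamI n m R0} ∩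
      ⋃ k1 : ℤ × ℤ, ⋃ k2 : ℤ × ℤ, ({_a : Ev n → ℝ | nn k1 k2 ∧ di k k1 ≤ R0 ∧ di k k2 ≤ R0} ∩
        {a : Ev n → ℝ | Steep n m a k1 k2}) := by
    ext a
    simp only [Bad, Set.mem_ofPred_eq, Set.mem_inter_iff, Set.mem_iUnion]
    constructor
    · rintro ⟨hk, k1, k2, hn, h1, h2, hs⟩
      exact ⟨hk, k1, k2, ⟨hn, h1, h2⟩, hs⟩
    · rintro ⟨hk, k1, k2, ⟨hn, h1, h2⟩, hs⟩
      exact ⟨hk, k1, k2, hn, h1, h2, hs⟩
  rw [he]
  refine MeasurableSet.inter (MeasurableSet.const _) ?_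
  exact MeasurableSet.iUnion fun k1 => MeasurableSet.iUnion fun k2 =>
    MeasurableSet.inter (MeasurableSet.const _) (gj_steep n m k1 k2)

theorem gj_loc (n : ℕ) (v : Od n) : Measurable fun a : Ev n → ℝ => loc (cn n) a v := by
  apply measurable_pi_lambda
  intro i
  exact measurable_pi_apply _

theorem Pat_meas (n m : ℕ) (k : ℤ × ℤ) (i : Fin 4) :
    MeasurableSet {a : Ev n → ℝ | Pat n m a k i} := by
  have he : {a : Ev n → ℝ | Pat n m a k i} = ⋂ j : ℕ, ⋂ _ : j < m,
      (({a : Ev n → ℝ | am (loc (cn n) a (sc n m k i j)) = i} ∩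
          {a : Ev n → ℝ | an (loc (cn n) a (sc n m k i j)) = op i}) ∪
        ({a : Ev n → ℝ | am (loc (cn n) a (sc n m k i j)) = op i} ∩
          {a : Ev n → ℝ | an (loc (cn n) a (sc n m k i j)) = i})) := by
    ext a
    simp only [Pat, Set.mem_ofPred_eq, Set.mem_inter_iff, Set.mem_iInter, Set.mem_union]
  rw [he]
  refine MeasurableSet.iInter fun j => MeasurableSet.iInter fun _ => ?_
  have h1 : ∀ c : Fin 4, MeasurableSet {a : Ev n → ℝ | am (loc (cn n) a (sc n m k i j)) = c} :=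
    fun c => (am_meas.comp (gj_loc n _)) (MeasurableSet.singleton c)
  have h2 : ∀ c : Fin 4, MeasurableSet {a : Ev n → ℝ | an (loc (cn n) a (sc n m k i j)) = c} :=
    fun c => (an_meas.comp (gj_loc n _)) (MeasurableSet.singleton c)
  exact ((h1 _).inter (h2 _)).union ((h1 _).inter (h2 _))

theorem Eg_meas (n m : ℕ) :
    Measurable fun x : (Ev n → ℝ) × (Ev n → ℝ) => Eg n m x.1 x.2 := by
  classical
  unfold Eg
  simp only [Finset.sum_filter]
  apply Finset.measurable_fun_sum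
  intro k _
  apply Measurable.ite
  · exact (measurable_fst (Bad_meas n m k)).compl
  · apply Finset.measurable_fun_sum
    intro i _
    exact (((measurable_pi_apply (ke n m (k + dz i))).comp measurable_snd).sub
      ((measurable_pi_apply (ke n m k)).comp measurable_snd)).pow_const 2
  · exact measurable_const

/-- a policy that takes the sites outside `T` first -/
theorem pol_first {A : Type} [Fintype A] [DecidableEq A] [Nonempty A] (T : Finset A) :
    ∃ σ : St A → A, Pol σ ∧ ∀ s : St A, ¬ s.1 ⊆ T → σ s ∉ T := by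
  have hf : ∀ S : Finset A, ∃ k : A, (S.Nonempty → k ∈ S) ∧ (¬ S ⊆ T → k ∉ T) := by
    intro S
    by_cases h : S ⊆ T
    · by_cases h2 : S.Nonempty
      · obtain ⟨k, hk⟩ := h2
        exact ⟨k, fun _ => hk, fun h3 => absurd h h3⟩
      · exact ⟨Classical.arbitrary A, fun h3 => absurd h3 h2, fun h3 => absurd h h3⟩
    · obtain ⟨k, hk, hk2⟩ := Finset.not_subset.1 h
      exact ⟨k, fun _ => hk, fun _ => hk2⟩
  choose g hg1 hg2 using hf
  refine ⟨fun s => g s.1, ⟨?_, ?_⟩, ?_⟩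
  · intro S k
    exact MeasurableSet.const (g S = k)
  · intro s hs
    exact hg1 s.1 hs
  · intro s hs
    exact hg2 s.1 hs

end HK
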