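import Mathlib
import Pool.Agent.Lib_helper12.HK.DefsG
import Pool.Agent.Lib_helper12.HK.W.ba
import Pool.Agent.Lib_helper12.HK.W.bb
import Pool.Agent.Lib_helper12.HK.W.ga
import Pool.Agent.Lib_helper12.HK.W.gc
import Pool.Agent.Lib_helper12.HK.W.gd
import Pool.Agent.Lib_helper12.HK.W.ge
import Pool.Agent.Lib_helper12.HK.W.gg
import Pool.Agent.Lib_helper12.HK.W.gh
import Pool.Agent.Lib_helper12.HK.W.gi
import Pool.Agent.Lib_helper12.HK.W.gj

set_option autoImplicit false

namespace HK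

open MeasureTheory QG

open Classical in
/-- one term of the energy -/
noncomputable def gk_G (n m : ℕ) (k : ℤ × ℤ) (i : Fin 4) (x : (Ev n → ℝ) × (Ev n → ℝ)) : ℝ :=
  if Bad n m x.1 k then 0 else
    ((x.2 (ke n m (k + dz i)) - x.1 (ke n m (k + dz i))) - (x.2 (ke n m k) - x.1 (ke n m k))) ^ 2

theorem gk_G_nonneg (n m : ℕ) (k : ℤ × ℤ) (i : Fin 4) (x : (Ev n → ℝ) × (Ev n → ℝ)) :
    0 ≤ gk_G n m k i x := by
  unfold gk_G
  split_ifs
  · exact le_rfl
  · exact sq_nonneg _

theorem gk_G_meas (n m : ℕ) (k : ℤ × ℤ) (i : Fin 4) : Measurable (gk_G n m k i) := by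
  classical
  unfold gk_G
  refine Measurable.ite ((Bad_meas n m k).preimage measurable_fst) measurable_const ?_
  have h1 : ∀ y : Ev n, Measurable fun x : (Ev n → ℝ) × (Ev n → ℝ) => x.1 y :=
    fun y => (measurable_pi_apply y).comp measurable_fst
  have h2 : ∀ y : Ev n, Measurable fun x : (Ev n → ℝ) × (Ev n → ℝ) => x.2 y :=
    fun y => (measurable_pi_apply y).comp measurable_snd
  exact (((h2 _).sub (h1 _)).sub ((h2 _).sub (h1 _))).pow_const 2

theorem gk_di (k : ℤ × ℤ) (i : Fin 4) : di k (k + dz i) ≤ R0 := by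
  have : di k (k + dz i) = 1 := by
    unfold di dz
    fin_cases i <;> simp
  rw [this]
  norm_num [R0]

theorem gk_di0 (k : ℤ × ℤ) : di k k ≤ R0 := by
  simp [di]

theorem gk_G_congr (n m : ℕ) [NeZero n] {k : ℤ × ℤ} (hk : k ∈ LamI n m R0) (i : Fin 4)
    (x x' y y' : Ev n → ℝ) (h : ∀ j ∉ nonK n m, x j = y j) (h' : ∀ j ∉ nonK n m, x' j = y' j) :
    gk_G n m k i (x, x') = gk_G n m k i (y, y') := by
  have h1 := ke_nonK n m (LamI_nb hk (gk_di0 k))
  have h2 := ke_nonK n m (LamI_nb hk (gk_di k i))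
  have h3 := Bad_congr n m h k
  unfold gk_G
  simp only
  by_cases hb : Bad n m x k
  · rw [if_pos hb, if_pos (h3.1 hb)]
  · rw [if_neg hb, if_neg (fun h4 => hb (h3.2 h4)), h _ h1, h _ h2, h' _ h1, h' _ h2]

theorem gk_cond (n m : ℕ) [NeZero n] (hn : 2 ≤ n) {p0 : ℝ} (H : Hyp n m p0)
    {U : (Ev n → ℝ) → ℝ} {U' : Ev n → (Ev n → ℝ) → ℝ} {σ : St (Ev n) → Ev n}
    (hσ : ∀ s : St (Ev n), ¬ s.1 ⊆ nonK n m → σ s ∉ nonK n m) {Ω : Type}
    [MeasurableSpace Ω] {P : Measure Ω} {z z' : Ω → Ev n → ℝ}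
    (h : ACpl (pp n) (fh n) (fT n U) (Dh n) (DT n U U') σ P z z') {k : ℤ × ℤ}
    (hk : k ∈ LamI n m R0) (i : Fin 4) :
    ENNReal.ofReal p0 * ∫⁻ ω, ENNReal.ofReal (gk_G n m k i (z ω, z' ω)) ∂P ≤
      ∫⁻ ω, ENNReal.ofReal (gk_G n m k i (z ω, z' ω)) *
        {x | Pat n m x k i}.indicator 1 (z ω) ∂P := by
  have hf := reg_fh n hn
  have hpp := pp_nonK n m
  rw [h.cond (nonK n m) hpp hσ (fun x => ENNReal.ofReal (gk_G n m k i x))
    ({x | Pat n m x k i}.indicator 1) (gk_G_meas n m k i).ennreal_ofReal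
    (measurable_one.indicator (Pat_meas n m k i))
    (fun x x' y y' hx hx' => by
      rw [gk_G_congr n m hk i x x' y y' hx hx']),
    ← lintegral_const_mul' _ _ ENNReal.ofReal_ne_top]
  refine lintegral_mono fun ω => ?_
  obtain ⟨hz, hz', hfz, hfz'⟩ := h.zp ω
  by_cases hb : Bad n m (z ω) k
  · have : gk_G n m k i (z ω, z' ω) = 0 := by
      unfold gk_G; exact if_pos hb
    simp [this]
  · have h1 := H.pat k hk i (z ω) hz hb
    have h2 := (mg_eq_lmg hf hpp hz).1
    have h3 : 0 < mg (fh n) (nonK n m) (z ω) := (mg_pos_iff hf hpp hz).2 ⟨z ω, fun _ _ => rfl, hfz⟩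
    rw [mul_comm]
    refine mul_le_mul_right ?_ _
    rw [ENNReal.le_div_iff_mul_le]
    · exact h1
    · left
      rw [h2]
      exact (ENNReal.ofReal_pos.2 h3).ne'
    · left
      rw [h2]
      exact ENNReal.ofReal_ne_top

theorem gk_Eg (n m : ℕ) (a a' : Ev n → ℝ) :
    Eg n m a (fun y => a' y - a y) = ∑ k ∈ LamI n m R0, ∑ i : Fin 4, gk_G n m k i (a, a') := by
  classical
  unfold Eg
  rw [Finset.sum_filter]
  refine Finset.sum_congr rfl fun k _ => ?_
  unfold gk_G
  by_cases hb : Bad n m a k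
  · simp [hb]
  · simp [hb]

/-- the energy on the good edges of `K` -/
theorem energy_ge (n m : ℕ) [NeZero n] {p0 : ℝ} (H : Hyp n m p0) {U : (Ev n → ℝ) → ℝ}
    {U' : Ev n → (Ev n → ℝ) → ℝ} (hU : Tilt U U') {σ : St (Ev n) → Ev n}
    (hσ : ∀ s : St (Ev n), ¬ s.1 ⊆ nonK n m → σ s ∉ nonK n m) {Ω : Type}
    [MeasurableSpace Ω] {P : Measure Ω} {z z' : Ω → Ev n → ℝ}
    (h : ACpl (pp n) (fh n) (fT n U) (Dh n) (DT n U U') σ P z z') :
    Integrable (fun ω => Eg n m (z ω) (fun y => z' ω y - z ω y)) P ∧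
      p0 / (32 * m) * ∫ ω, Eg n m (z ω) (fun y => z' ω y - z ω y) ∂P ≤
        ∫ ω, Dis n (z ω) (z' ω) ∂P := by
  classical
  have hm2 := H.two
  have hn : 2 ≤ n := by
    have := H.big
    have h2 : 2 ≤ 64 * m * (R0 + 10) := by
      unfold R0
      omega
    omega
  have hD := (energy_le n hn hU h).1
  have hT := two_of n hn hU h
  have hP : IsProbabilityMeasure P := h.prob
  -- integrability of the terms
  have hI : ∀ k i, Integrable (fun ω => gk_G n m k i (z ω, z' ω)) P := by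
    intro k i
    refine Integrable.of_bound
      ((gk_G_meas n m k i).comp (h.meas.prodMk h.meas')).aestronglyMeasurable ((8 * (n : ℝ)) ^ 2)
      (Filter.Eventually.of_forall fun ω => ?_)
    obtain ⟨hz, hz', hfz, hfz'⟩ := hT.zp ω
    have b1 := fh_bound n hfz hz
    have b2 := fh_bound n hfz' hz'
    rw [Real.norm_eq_abs, abs_of_nonneg (gk_G_nonneg n m k i _)]
    unfold gk_G
    split_ifs
    · positivity
    · refine sq_le_sq' ?_ ?_
      · have e1 := abs_le.1 (b1 (ke n m (k + dz i)))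
        have e2 := abs_le.1 (b1 (ke n m k))
        have e3 := abs_le.1 (b2 (ke n m (k + dz i)))
        have e4 := abs_le.1 (b2 (ke n m k))
        simp only
        linarith [e1.1, e1.2, e2.1, e2.2, e3.1, e3.2, e4.1, e4.2]
      · have e1 := abs_le.1 (b1 (ke n m (k + dz i)))
        have e2 := abs_le.1 (b1 (ke n m k))
        have e3 := abs_le.1 (b2 (ke n m (k + dz i)))
        have e4 := abs_le.1 (b2 (ke n m k))
        simp only
        linarith [e1.1, e1.2, e2.1, e2.2, e3.1, e3.2, e4.1, e4.2]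
  have hE : Integrable (fun ω => Eg n m (z ω) (fun y => z' ω y - z ω y)) P := by
    simp only [gk_Eg]
    exact integrable_finsetSum _ fun k _ => integrable_finsetSum _ fun i _ => hI k i
  refine ⟨hE, ?_⟩
  have hE0 : ∀ ω, 0 ≤ Eg n m (z ω) (fun y => z' ω y - z ω y) := by
    intro ω
    rw [gk_Eg]
    exact Finset.sum_nonneg fun k _ => Finset.sum_nonneg fun i _ => gk_G_nonneg n m k i _
  -- the strips
  have hS : ∀ ω, ∑ k ∈ LamI n m R0, ∑ i : Fin 4, (gk_G n m k i (z ω, z' ω) *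
      {x | Pat n m x k i}.indicator 1 (z ω)) ≤ 32 * m * Dis n (z ω) (z' ω) := by
    intro ω
    obtain ⟨hz, hz', hfz, hfz'⟩ := hT.zp ω
    refine le_trans (le_of_eq ?_) (strip_energy n m H.big hm2 hfz hfz')
    refine Finset.sum_congr rfl fun k _ => Finset.sum_congr rfl fun i _ => ?_
    unfold gk_G
    by_cases hb : Bad n m (z ω) k
    · simp [hb]
    · by_cases hp : Pat n m (z ω) k i
      · simp [hb, hp, Set.indicator]
      · simp [hb, hp, Set.indicator]
  have hD0 : ∀ ω, 0 ≤ 32 * (m : ℝ) * Dis n (z ω) (z' ω) := by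
    intro ω
    refine le_trans ?_ (hS ω)
    refine Finset.sum_nonneg fun k _ => Finset.sum_nonneg fun i _ =>
      mul_nonneg (gk_G_nonneg n m k i _) ?_
    exact Set.indicator_nonneg (fun _ _ => by simp) _
  have key : ENNReal.ofReal p0 * ENNReal.ofReal
      (∫ ω, Eg n m (z ω) (fun y => z' ω y - z ω y) ∂P) ≤
      ENNReal.ofReal (∫ ω, 32 * m * Dis n (z ω) (z' ω) ∂P) := by
    rw [ofReal_integral_eq_lintegral_ofReal hE (Filter.Eventually.of_forall hE0),
      ofReal_integral_eq_lintegral_ofReal (hD.const_mul _) (Filter.Eventually.of_forall hD0)]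
    have e1 : ∫⁻ ω, ENNReal.ofReal (Eg n m (z ω) (fun y => z' ω y - z ω y)) ∂P =
        ∑ k ∈ LamI n m R0, ∑ i : Fin 4, ∫⁻ ω, ENNReal.ofReal (gk_G n m k i (z ω, z' ω)) ∂P := by
      have e2 : ∀ ω, ENNReal.ofReal (Eg n m (z ω) (fun y => z' ω y - z ω y)) =
          ∑ k ∈ LamI n m R0, ∑ i : Fin 4, ENNReal.ofReal (gk_G n m k i (z ω, z' ω)) := by
        intro ω
        rw [gk_Eg, ENNReal.ofReal_sum_of_nonneg
          fun k _ => Finset.sum_nonneg fun i _ => gk_G_nonneg n m k i _]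
        refine Finset.sum_congr rfl fun k _ => ?_
        rw [ENNReal.ofReal_sum_of_nonneg fun i _ => gk_G_nonneg n m k i _]
      simp only [e2]
      have e3 : ∀ k i, Measurable fun ω => ENNReal.ofReal (gk_G n m k i (z ω, z' ω)) :=
        fun k i => ((gk_G_meas n m k i).comp (h.meas.prodMk h.meas')).ennreal_ofReal
      rw [lintegral_finsetSum _ fun k _ => Finset.measurable_sum _ fun i _ => e3 k i]
      refine Finset.sum_congr rfl fun k _ => ?_
      rw [lintegral_finsetSum _ fun i _ => e3 k i]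
    rw [e1, Finset.mul_sum]
    have e4 : ∀ k ∈ LamI n m R0, ENNReal.ofReal p0 *
        ∑ i : Fin 4, ∫⁻ ω, ENNReal.ofReal (gk_G n m k i (z ω, z' ω)) ∂P ≤
        ∑ i : Fin 4, ∫⁻ ω, ENNReal.ofReal (gk_G n m k i (z ω, z' ω)) *
          {x | Pat n m x k i}.indicator 1 (z ω) ∂P := by
      intro k hk
      rw [Finset.mul_sum]
      exact Finset.sum_le_sum fun i _ => gk_cond n m hn H hσ h hk i
    refine (Finset.sum_le_sum e4).trans ?_
    have e5 : ∀ k i, Measurable fun ω => ENNReal.ofReal (gk_G n m k i (z ω, z' ω)) *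
        {x | Pat n m x k i}.indicator 1 (z ω) := fun k i =>
      (((gk_G_meas n m k i).comp (h.meas.prodMk h.meas')).ennreal_ofReal).mul
        ((measurable_one.indicator (Pat_meas n m k i)).comp h.meas)
    have e6 : ∀ k, ∑ i : Fin 4, ∫⁻ ω, ENNReal.ofReal (gk_G n m k i (z ω, z' ω)) *
          {x | Pat n m x k i}.indicator 1 (z ω) ∂P =
        ∫⁻ ω, ∑ i : Fin 4, ENNReal.ofReal (gk_G n m k i (z ω, z' ω)) *
          {x | Pat n m x k i}.indicator 1 (z ω) ∂P := by
      intro k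
      rw [lintegral_finsetSum _ fun i _ => e5 k i]
    simp only [e6]
    rw [← lintegral_finsetSum _ fun k _ => Finset.measurable_sum _ fun i _ => e5 k i]
    refine lintegral_mono fun ω => ?_
    refine le_trans (le_of_eq ?_) (ENNReal.ofReal_le_ofReal (hS ω))
    have e7 : ∀ k i, 0 ≤ gk_G n m k i (z ω, z' ω) * {x | Pat n m x k i}.indicator 1 (z ω) :=
      fun k i => mul_nonneg (gk_G_nonneg n m k i _)
        (Set.indicator_nonneg (fun _ _ => by simp) _)
    rw [ENNReal.ofReal_sum_of_nonneg fun k _ => Finset.sum_nonneg fun i _ => e7 k i]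
    refine Finset.sum_congr rfl fun k _ => ?_
    rw [ENNReal.ofReal_sum_of_nonneg fun i _ => e7 k i]
    refine Finset.sum_congr rfl fun i _ => ?_
    by_cases hp : Pat n m (z ω) k i
    · simp [hp, Set.indicator]
    · simp [hp, Set.indicator]
  rw [← ENNReal.ofReal_mul H.pos.le,
    ENNReal.ofReal_le_ofReal_iff (integral_nonneg hD0), integral_const_mul] at key
  have hm : (0 : ℝ) < 32 * m := by
    have : (0 : ℝ) < m := by
      have : 0 < m := by omega
      exact_mod_cast this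
    linarith
  rw [div_mul_eq_mul_div, div_le_iff₀ hm]
  linarith

end HK
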