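import Mathlib
import Pool.Agent.Lib_helper12.HK.DefsG

set_option autoImplicit false

namespace HK

open MeasureTheory QG

theorem gl_nn_dz (k : ℤ × ℤ) (i : Fin 4) : nn k (k + dz i) := by
  unfold nn
  fin_cases i <;> simp [dz]

theorem gl_dz_of_nn {x y : ℤ × ℤ} (h : nn x y) : ∃ j : Fin 4, y = x + dz j := by
  unfold nn at h
  have h1 : (x.1 - y.1 = 1 ∧ x.2 - y.2 = 0) ∨ (x.1 - y.1 = -1 ∧ x.2 - y.2 = 0) ∨
      (x.1 - y.1 = 0 ∧ x.2 - y.2 = 1) ∨ (x.1 - y.1 = 0 ∧ x.2 - y.2 = -1) := by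
    rcases abs_cases (x.1 - y.1) with h2 | h2 <;> rcases abs_cases (x.2 - y.2) with h3 | h3 <;>
      omega
  rcases h1 with h1 | h1 | h1 | h1
  · refine ⟨0, ?_⟩
    apply Prod.ext <;> simp [dz] <;> omega
  · refine ⟨1, ?_⟩
    apply Prod.ext <;> simp [dz] <;> omega
  · refine ⟨3, ?_⟩
    apply Prod.ext <;> simp [dz] <;> omega
  · refine ⟨2, ?_⟩
    apply Prod.ext <;> simp [dz] <;> omega

theorem gl_tel (h : ℤ × ℤ → ℝ) (γ : ℕ → ℤ × ℤ) (N : ℕ) :
    |h (γ N) - h (γ 0)| ≤ ∑ t ∈ Finset.range N, |h (γ (t + 1)) - h (γ t)| := by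
  rw [← Finset.sum_range_sub (fun t => h (γ t)) N]
  exact Finset.abs_sum_le_sum_abs _ _

open Classical in
theorem gl_edge {B : Set (ℤ × ℤ)} {ra : ℤ × ℤ → ℕ} {r : ℤ × ℤ → ℤ × ℤ} (hD : Det B ra r)
    {S' : Finset (ℤ × ℤ)} (k : ℤ × ℤ) (i : Fin 4)
    (hS : ∀ x, di k x ≤ ra k + ra (k + dz i) + 1 → x ∈ S') (h : ℤ × ℤ → ℝ) :
    |h (r (k + dz i)) - h (r k)| ≤
      ∑ x ∈ S'.filter (fun x => x ∉ B), ∑ j : Fin 4,
        (if di k x ≤ ra k + ra (k + dz i) + 1 then |h (x + dz j) - h x| else 0) := by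
  obtain ⟨N, γ, hγ, h0, hN, hp⟩ := hD.path k (k + dz i) (gl_nn_dz k i)
  rw [← h0, ← hN]
  refine (gl_tel h γ N).trans ?_
  set g : ℤ × ℤ → ℝ := fun x => ∑ j : Fin 4,
        (if di k x ≤ ra k + ra (k + dz i) + 1 then |h (x + dz j) - h x| else 0) with hg
  have hg0 : ∀ x, 0 ≤ g x := by
    intro x
    apply Finset.sum_nonneg
    intro j _
    split_ifs
    · exact abs_nonneg _
    · exact le_refl _
  have h1 : ∀ t ∈ Finset.range N, |h (γ (t + 1)) - h (γ t)| ≤ g (γ t) := by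
    intro t ht
    rw [Finset.mem_range] at ht
    obtain ⟨j, hj⟩ := gl_dz_of_nn (hγ.nn t ht)
    have h2 := (hp t ht.le).2
    rw [hj]
    simp only [hg]
    calc |h (γ t + dz j) - h (γ t)| =
        (if di k (γ t) ≤ ra k + ra (k + dz i) + 1 then |h (γ t + dz j) - h (γ t)| else 0) := by
          rw [if_pos h2]
      _ ≤ _ := Finset.single_le_sum (f := fun j => (if di k (γ t) ≤ ra k + ra (k + dz i) + 1 then
            |h (γ t + dz j) - h (γ t)| else 0)) (fun j _ => by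
              rw [if_pos h2]
              exact abs_nonneg _) (Finset.mem_univ j)
  refine (Finset.sum_le_sum h1).trans ?_
  have hinj : Set.InjOn γ (Finset.range N : Set ℕ) := by
    intro a ha b hb hab
    rw [Finset.mem_coe, Finset.mem_range] at ha hb
    exact hγ.inj (Set.mem_Iic.2 ha.le) (Set.mem_Iic.2 hb.le) hab
  rw [← Finset.sum_image (f := g) (g := γ) (s := Finset.range N) (fun a ha b hb => hinj ha hb)]
  apply Finset.sum_le_sum_of_subset_of_nonneg
  · intro x hx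
    rw [Finset.mem_image] at hx
    obtain ⟨t, ht, rfl⟩ := hx
    rw [Finset.mem_range] at ht
    have h2 := hp t ht.le
    rw [Finset.mem_filter]
    exact ⟨hS _ h2.2, h2.1⟩
  · intro x _ _
    exact hg0 x

open Classical in
/-- a functional evaluated at the representatives -/
theorem R_det {B : Set (ℤ × ℤ)} {ra : ℤ × ℤ → ℕ} {r : ℤ × ℤ → ℤ × ℤ} (hD : Det B ra r)
    {S S' : Finset (ℤ × ℤ)} {l : ℤ × ℤ → ℝ} {R : ℝ} {θ : ℤ × ℤ → Fin 4 → ℝ} (hF : Flow S l R θ)
    {r0 : ℕ} (hr : ∀ k ∈ S, ra k ≤ r0 ∧ ∀ i, ra (k + dz i) ≤ r0)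
    (hS : ∀ k ∈ S, ∀ x, di k x ≤ 2 * r0 + 1 → x ∈ S') (h : ℤ × ℤ → ℝ) :
    |pv S l (fun k => h (r k))| ≤
      ∑ x ∈ S'.filter (fun x => x ∉ B), ∑ j : Fin 4, ths S θ ra x * |h (x + dz j) - h x| := by
  rw [hF.eq]
  calc |∑ k ∈ S, ∑ i, θ k i * (h (r (k + dz i)) - h (r k))|
      ≤ ∑ k ∈ S, |∑ i, θ k i * (h (r (k + dz i)) - h (r k))| := Finset.abs_sum_le_sum_abs _ _
    _ ≤ ∑ k ∈ S, ∑ i, |θ k i * (h (r (k + dz i)) - h (r k))| :=
        Finset.sum_le_sum (fun k _ => Finset.abs_sum_le_sum_abs _ _)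
    _ ≤ ∑ k ∈ S, ∑ i, |θ k i| * ∑ x ∈ S'.filter (fun x => x ∉ B), ∑ j : Fin 4,
        (if di k x ≤ ra k + ra (k + dz i) + 1 then |h (x + dz j) - h x| else 0) := by
        apply Finset.sum_le_sum
        intro k hk
        apply Finset.sum_le_sum
        intro i _
        rw [abs_mul]
        apply mul_le_mul_of_nonneg_left _ (abs_nonneg _)
        apply gl_edge hD k i _ h
        intro x hx
        apply hS k hk x
        have h1 := hr k hk
        have h2 := h1.2 i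
        have h3 := h1.1
        omega
    _ = ∑ x ∈ S'.filter (fun x => x ∉ B), ∑ j : Fin 4, ths S θ ra x * |h (x + dz j) - h x| := by
        unfold ths
        simp only [Finset.mul_sum, Finset.sum_mul]
        have e1 : ∀ k ∈ S, ∑ i, ∑ x ∈ S'.filter (fun x => x ∉ B), ∑ j : Fin 4,
            |θ k i| * (if di k x ≤ ra k + ra (k + dz i) + 1 then |h (x + dz j) - h x| else 0) =
            ∑ x ∈ S'.filter (fun x => x ∉ B), ∑ j : Fin 4, ∑ i,
            |θ k i| * (if di k x ≤ ra k + ra (k + dz i) + 1 then |h (x + dz j) - h x| else 0) := by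
          intro k _
          rw [Finset.sum_comm]
          apply Finset.sum_congr rfl
          intro x _
          rw [Finset.sum_comm]
        rw [Finset.sum_congr rfl e1, Finset.sum_comm]
        apply Finset.sum_congr rfl
        intro x _
        rw [Finset.sum_comm]
        apply Finset.sum_congr rfl
        intro j _
        apply Finset.sum_congr rfl
        intro k _
        apply Finset.sum_congr rfl
        intro i _
        split_ifs
        · rfl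
        · simp

/-- the box -/
noncomputable def gl_box (x : ℤ × ℤ) (R : ℕ) : Finset (ℤ × ℤ) :=
  (Finset.Icc (x.1 - R) (x.1 + R)) ×ˢ (Finset.Icc (x.2 - R) (x.2 + R))

theorem gl_mem_box (x k : ℤ × ℤ) (R : ℕ) : k ∈ gl_box x R ↔ di k x ≤ R := by
  unfold gl_box di
  rw [Finset.mem_product, Finset.mem_Icc, Finset.mem_Icc]
  omega

theorem gl_card_box (x : ℤ × ℤ) (R : ℕ) : (gl_box x R).card = (2 * R + 1) ^ 2 := by
  unfold gl_box
  rw [Finset.card_product, Int.card_Icc, Int.card_Icc]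
  have h1 : (x.1 + R + 1 - (x.1 - R)).toNat = 2 * R + 1 := by omega
  have h2 : (x.2 + R + 1 - (x.2 - R)).toNat = 2 * R + 1 := by omega
  rw [h1, h2]
  ring

theorem gl_sum_box (x : ℤ × ℤ) (R : ℕ) : ∑ k ∈ gl_box x R, (1 / 4 : ℝ) ^ di k x =
    41 / 9 - (1 / 4 : ℝ) ^ R * (32 / 9 + 8 * R / 3) := by
  induction R with
  | zero =>
    have h1 : gl_box x 0 = {x} := by
      ext k
      rw [gl_mem_box, Finset.mem_singleton]
      unfold di
      constructor
      · intro h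
        apply Prod.ext <;> omega
      · rintro rfl
        simp
    rw [h1, Finset.sum_singleton]
    have h2 : di x x = 0 := by simp [di]
    rw [h2]
    norm_num
  | succ R ih =>
    have hsub : gl_box x R ⊆ gl_box x (R + 1) := by
      intro k hk
      rw [gl_mem_box] at hk ⊢
      omega
    rw [← Finset.sum_sdiff hsub, ih]
    have h1 : ∑ k ∈ gl_box x (R + 1) \ gl_box x R, (1 / 4 : ℝ) ^ di k x =
        (8 * R + 8) * (1 / 4 : ℝ) ^ (R + 1) := by
      have h2 : ∀ k ∈ gl_box x (R + 1) \ gl_box x R, (1 / 4 : ℝ) ^ di k x =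
          (1 / 4 : ℝ) ^ (R + 1) := by
        intro k hk
        rw [Finset.mem_sdiff, gl_mem_box, gl_mem_box] at hk
        have h3 : di k x = R + 1 := by omega
        rw [h3]
      rw [Finset.sum_congr rfl h2, Finset.sum_const, nsmul_eq_mul,
        Finset.card_sdiff_of_subset hsub, gl_card_box, gl_card_box]
      have h4 : (2 * (R + 1) + 1) ^ 2 - (2 * R + 1) ^ 2 = 8 * R + 8 := by
        have : (2 * (R + 1) + 1) ^ 2 = (8 * R + 8) + (2 * R + 1) ^ 2 := by ring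
        omega
      rw [h4]
      push_cast
      ring
    rw [h1]
    push_cast
    rw [pow_succ]
    ring

theorem gl_sum5 (x : ℤ × ℤ) (S : Finset (ℤ × ℤ)) : ∑ k ∈ S, (1 / 4 : ℝ) ^ di k x ≤ 5 := by
  set R := S.sup (fun k => di k x) with hR
  have hsub : S ⊆ gl_box x R := by
    intro k hk
    rw [gl_mem_box]
    exact Finset.le_sup (f := fun k => di k x) hk
  calc ∑ k ∈ S, (1 / 4 : ℝ) ^ di k x ≤ ∑ k ∈ gl_box x R, (1 / 4 : ℝ) ^ di k x :=
        Finset.sum_le_sum_of_subset_of_nonneg hsub (fun k _ _ => by positivity)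
    _ = 41 / 9 - (1 / 4 : ℝ) ^ R * (32 / 9 + 8 * R / 3) := gl_sum_box x R
    _ ≤ 5 := by
        have : 0 ≤ (1 / 4 : ℝ) ^ R * (32 / 9 + 8 * R / 3) := by positivity
        linarith

theorem gl_di_comm (x k : ℤ × ℤ) : di x k = di k x := by
  unfold di
  omega

/-- the test of Schur -/
theorem schur (S S' : Finset (ℤ × ℤ)) (θ : ℤ × ℤ → Fin 4 → ℝ) :
    ∑ x ∈ S', (∑ k ∈ S, ∑ i, |θ k i| * (1 / 4) ^ di k x) ^ 2 ≤ 100 * ∑ k ∈ S, ∑ i, θ k i ^ 2 := by
  have h1 : ∀ x ∈ S', (∑ k ∈ S, ∑ i, |θ k i| * (1 / 4) ^ di k x) ^ 2 ≤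
      20 * ∑ k ∈ S, ∑ i, θ k i ^ 2 * (1 / 4) ^ di k x := by
    intro x _
    have h2 : (∑ p ∈ S ×ˢ (Finset.univ : Finset (Fin 4)), |θ p.1 p.2| * (1 / 4) ^ di p.1 x) ^ 2 ≤
        (∑ p ∈ S ×ˢ (Finset.univ : Finset (Fin 4)), θ p.1 p.2 ^ 2 * (1 / 4) ^ di p.1 x) *
          ∑ p ∈ S ×ˢ (Finset.univ : Finset (Fin 4)), (1 / 4 : ℝ) ^ di p.1 x := by
      apply Finset.sum_sq_le_sum_mul_sum_of_sq_le_mul
      · intro p _; positivity
      · intro p _; positivity
      · intro p _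
        rw [mul_pow, sq_abs]
        apply le_of_eq
        ring
    rw [Finset.sum_product, Finset.sum_product, Finset.sum_product] at h2
    have h3 : ∑ k ∈ S, ∑ _i : Fin 4, (1 / 4 : ℝ) ^ di k x ≤ 20 := by
      have h4 := gl_sum5 x S
      have h5 : ∑ k ∈ S, ∑ _i : Fin 4, (1 / 4 : ℝ) ^ di k x =
          4 * ∑ k ∈ S, (1 / 4 : ℝ) ^ di k x := by
        rw [Finset.mul_sum]
        apply Finset.sum_congr rfl
        intro k _
        rw [Finset.sum_const, nsmul_eq_mul]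
        simp
      rw [h5]
      linarith
    have h6 : 0 ≤ ∑ k ∈ S, ∑ i, θ k i ^ 2 * (1 / 4 : ℝ) ^ di k x :=
      Finset.sum_nonneg (fun k _ => Finset.sum_nonneg (fun i _ => by positivity))
    calc (∑ k ∈ S, ∑ i, |θ k i| * (1 / 4) ^ di k x) ^ 2
        ≤ (∑ k ∈ S, ∑ i, θ k i ^ 2 * (1 / 4) ^ di k x) * ∑ k ∈ S, ∑ _i : Fin 4,
            (1 / 4 : ℝ) ^ di k x := h2
      _ ≤ (∑ k ∈ S, ∑ i, θ k i ^ 2 * (1 / 4) ^ di k x) * 20 :=
          mul_le_mul_of_nonneg_left h3 h6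
      _ = 20 * ∑ k ∈ S, ∑ i, θ k i ^ 2 * (1 / 4) ^ di k x := by ring
  calc ∑ x ∈ S', (∑ k ∈ S, ∑ i, |θ k i| * (1 / 4) ^ di k x) ^ 2
      ≤ ∑ x ∈ S', 20 * ∑ k ∈ S, ∑ i, θ k i ^ 2 * (1 / 4) ^ di k x := Finset.sum_le_sum h1
    _ = 20 * ∑ k ∈ S, ∑ i, θ k i ^ 2 * ∑ x ∈ S', (1 / 4 : ℝ) ^ di x k := by
        rw [← Finset.mul_sum, Finset.sum_comm]
        congr 1
        apply Finset.sum_congr rfl
        intro k _
        rw [Finset.sum_comm]
        apply Finset.sum_congr rfl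
        intro i _
        rw [Finset.mul_sum]
        apply Finset.sum_congr rfl
        intro x _
        rw [gl_di_comm x k]
    _ ≤ 20 * ∑ k ∈ S, ∑ i, θ k i ^ 2 * 5 := by
        apply mul_le_mul_of_nonneg_left _ (by norm_num)
        apply Finset.sum_le_sum
        intro k _
        apply Finset.sum_le_sum
        intro i _
        exact mul_le_mul_of_nonneg_left (gl_sum5 k S') (by positivity)
    _ = 100 * ∑ k ∈ S, ∑ i, θ k i ^ 2 := by
        simp only [← Finset.sum_mul]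
        ring

end HK
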