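import Mathlib
import Pool.Agent.Lib_helper12.HK.DefsG
import Pool.Agent.Lib_helper12.HK.W.gl

set_option autoImplicit false

namespace HK

open MeasureTheory QG

theorem gm_nat (s : ℕ) : ((1 : ℝ) / 256) ^ (s / 2) ≤ 16 * (1 / 16) ^ s := by
  have h1 : ((1 : ℝ) / 256) ^ (s / 2) = (1 / 16) ^ (2 * (s / 2)) := by
    rw [pow_mul]
    norm_num
  rw [h1]
  have h2 : s ≤ 2 * (s / 2) + 1 := by omega
  have h3 : ((1 : ℝ) / 16) ^ (2 * (s / 2) + 1) ≤ (1 / 16) ^ s :=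
    pow_le_pow_of_le_one (by norm_num) (by norm_num) h2
  rw [pow_succ] at h3
  linarith

theorem gm_min (s t : ℕ) {C p : ℝ} (hC : 0 ≤ C) (h1 : p ≤ C * (1 / 16) ^ s)
    (h2 : p ≤ C * (1 / 16) ^ t) : p ≤ C * ((1 / 4) ^ s * (1 / 4) ^ t) := by
  have key : ∀ a b : ℕ, b ≤ a → ((1 : ℝ) / 16) ^ a ≤ (1 / 4) ^ a * (1 / 4) ^ b := by
    intro a b hab
    have h3 : ((1 : ℝ) / 16) ^ a = (1 / 4) ^ a * (1 / 4) ^ a := by
      rw [← mul_pow]
      norm_num
    rw [h3]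
    apply mul_le_mul_of_nonneg_left _ (by positivity)
    exact pow_le_pow_of_le_one (by norm_num) (by norm_num) hab
  rcases le_total t s with h | h
  · exact h1.trans (mul_le_mul_of_nonneg_left (key s t h) hC)
  · refine h2.trans (mul_le_mul_of_nonneg_left ?_ hC)
    rw [mul_comm ((1 / 4 : ℝ) ^ s)]
    exact key t s h

section
variable {Ω : Type} [MeasurableSpace Ω] {P : Measure Ω} [IsProbabilityMeasure P]
    {ra : Ω → ℤ × ℤ → ℕ}

/-- the event -/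
def gm_A (ra : Ω → ℤ × ℤ → ℕ) (x : ℤ × ℤ) (j : (ℤ × ℤ) × Fin 4) : Set Ω :=
  {ω | di j.1 x ≤ ra ω j.1 + ra ω (j.1 + dz j.2) + 1}

theorem gm_meas (hm : ∀ k, Measurable fun ω => ra ω k) (x : ℤ × ℤ) (j : (ℤ × ℤ) × Fin 4) :
    MeasurableSet (gm_A ra x j) :=
  measurableSet_le measurable_const (((hm _).add (hm _)).add_const 1)

theorem gm_prob {C : ℝ} (hC : 0 ≤ C)
    (ht : ∀ k s, P {ω | s ≤ ra ω k} ≤ ENNReal.ofReal (C * (1 / 256) ^ s)) (x : ℤ × ℤ)
    (j : (ℤ × ℤ) × Fin 4) : P.real (gm_A ra x j) ≤ 32 * C * (1 / 16) ^ di j.1 x := by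
  have hsub : gm_A ra x j ⊆ {ω | di j.1 x / 2 ≤ ra ω j.1} ∪
      {ω | di j.1 x / 2 ≤ ra ω (j.1 + dz j.2)} := by
    intro ω hω
    have h1 : di j.1 x ≤ ra ω j.1 + ra ω (j.1 + dz j.2) + 1 := hω
    by_contra h2
    have h3 : ¬ (di j.1 x / 2 ≤ ra ω j.1) := fun h => h2 (Or.inl h)
    have h4 : ¬ (di j.1 x / 2 ≤ ra ω (j.1 + dz j.2)) := fun h => h2 (Or.inr h)
    omega
  have hr : ∀ k s, P.real {ω | s ≤ ra ω k} ≤ C * (1 / 256) ^ s := by
    intro k s
    exact ENNReal.toReal_le_of_le_ofReal (by positivity) (ht k s)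
  have h5 : P.real (gm_A ra x j) ≤ P.real {ω | di j.1 x / 2 ≤ ra ω j.1} +
      P.real {ω | di j.1 x / 2 ≤ ra ω (j.1 + dz j.2)} :=
    (measureReal_mono hsub).trans (measureReal_union_le _ _)
  have h6 := hr j.1 (di j.1 x / 2)
  have h7 := hr (j.1 + dz j.2) (di j.1 x / 2)
  have h8 := mul_le_mul_of_nonneg_left (gm_nat (di j.1 x)) hC
  linarith

theorem gm_ths (S : Finset (ℤ × ℤ)) (θ : ℤ × ℤ → Fin 4 → ℝ) (x : ℤ × ℤ) (ω : Ω) :
    ths S θ (ra ω) x = ∑ j ∈ S ×ˢ (Finset.univ : Finset (Fin 4)),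
      |θ j.1 j.2| * (gm_A ra x j).indicator (fun _ => (1 : ℝ)) ω := by
  classical
  unfold ths
  rw [Finset.sum_product]
  apply Finset.sum_congr rfl
  intro k _
  apply Finset.sum_congr rfl
  intro i _
  by_cases h : di k x ≤ ra ω k + ra ω (k + dz i) + 1
  · rw [if_pos h, Set.indicator_of_mem (show ω ∈ gm_A ra x (k, i) from h), mul_one]
  · rw [if_neg h, Set.indicator_of_notMem (show ω ∉ gm_A ra x (k, i) from h), mul_zero]

theorem gm_sq (S : Finset (ℤ × ℤ)) (θ : ℤ × ℤ → Fin 4 → ℝ) (x : ℤ × ℤ) (ω : Ω) :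
    ths S θ (ra ω) x ^ 2 = ∑ j ∈ S ×ˢ (Finset.univ : Finset (Fin 4)),
      ∑ j' ∈ S ×ˢ (Finset.univ : Finset (Fin 4)), |θ j.1 j.2| * |θ j'.1 j'.2| *
        (gm_A ra x j ∩ gm_A ra x j').indicator (fun _ => (1 : ℝ)) ω := by
  rw [gm_ths, sq, Finset.sum_mul_sum]
  apply Finset.sum_congr rfl
  intro j _
  apply Finset.sum_congr rfl
  intro j' _
  have h : (gm_A ra x j ∩ gm_A ra x j').indicator (fun _ => (1 : ℝ)) ω =
      (gm_A ra x j).indicator (fun _ => (1 : ℝ)) ω *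
        (gm_A ra x j').indicator (fun _ => (1 : ℝ)) ω := by
    have h1 := Set.inter_indicator_mul (s := gm_A ra x j) (t := gm_A ra x j')
      (fun _ => (1 : ℝ)) (fun _ => (1 : ℝ)) ω
    rw [← h1]
    simp only [mul_one]
  rw [h]
  ring

theorem gm_int (hm : ∀ k, Measurable fun ω => ra ω k) (x : ℤ × ℤ) (j j' : (ℤ × ℤ) × Fin 4)
    (c : ℝ) : Integrable (fun ω => c *
      (gm_A ra x j ∩ gm_A ra x j').indicator (fun _ => (1 : ℝ)) ω) P :=
  ((integrable_const (1 : ℝ)).indicator ((gm_meas hm x j).inter (gm_meas hm x j'))).const_mul c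

theorem gm_one (hm : ∀ k, Measurable fun ω => ra ω k) {C : ℝ} (hC : 0 ≤ C)
    (ht : ∀ k s, P {ω | s ≤ ra ω k} ≤ ENNReal.ofReal (C * (1 / 256) ^ s))
    (S : Finset (ℤ × ℤ)) (θ : ℤ × ℤ → Fin 4 → ℝ) (x : ℤ × ℤ) :
    Integrable (fun ω => ths S θ (ra ω) x ^ 2) P ∧
      ∫ ω, ths S θ (ra ω) x ^ 2 ∂P ≤
        32 * C * (∑ k ∈ S, ∑ i, |θ k i| * (1 / 4) ^ di k x) ^ 2 := by
  have hfun : (fun ω => ths S θ (ra ω) x ^ 2) = fun ω =>
      ∑ j ∈ S ×ˢ (Finset.univ : Finset (Fin 4)),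
      ∑ j' ∈ S ×ˢ (Finset.univ : Finset (Fin 4)), |θ j.1 j.2| * |θ j'.1 j'.2| *
        (gm_A ra x j ∩ gm_A ra x j').indicator (fun _ => (1 : ℝ)) ω := by
    funext ω
    exact gm_sq S θ x ω
  rw [hfun]
  refine ⟨integrable_finsetSum _ fun j _ => integrable_finsetSum _ fun j' _ =>
    gm_int hm x j j' _, ?_⟩
  rw [integral_finsetSum _ fun j _ => integrable_finsetSum _ fun j' _ => gm_int hm x j j' _]
  have h1 : ∀ j ∈ S ×ˢ (Finset.univ : Finset (Fin 4)),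
      ∫ ω, ∑ j' ∈ S ×ˢ (Finset.univ : Finset (Fin 4)), |θ j.1 j.2| * |θ j'.1 j'.2| *
        (gm_A ra x j ∩ gm_A ra x j').indicator (fun _ => (1 : ℝ)) ω ∂P ≤
      ∑ j' ∈ S ×ˢ (Finset.univ : Finset (Fin 4)), |θ j.1 j.2| * |θ j'.1 j'.2| *
        (32 * C * ((1 / 4) ^ di j.1 x * (1 / 4) ^ di j'.1 x)) := by
    intro j _
    rw [integral_finsetSum _ fun j' _ => gm_int hm x j j' _]
    apply Finset.sum_le_sum
    intro j' _
    rw [integral_const_mul]
    apply mul_le_mul_of_nonneg_left _ (by positivity)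
    rw [integral_indicator ((gm_meas hm x j).inter (gm_meas hm x j')), setIntegral_const,
      smul_eq_mul, mul_one]
    apply gm_min _ _ (by positivity)
    · exact (measureReal_mono Set.inter_subset_left).trans (gm_prob hC ht x j)
    · exact (measureReal_mono Set.inter_subset_right).trans (gm_prob hC ht x j')
  refine (Finset.sum_le_sum h1).trans (le_of_eq ?_)
  have h2 : ∑ k ∈ S, ∑ i, |θ k i| * (1 / 4 : ℝ) ^ di k x =
      ∑ j ∈ S ×ˢ (Finset.univ : Finset (Fin 4)), |θ j.1 j.2| * (1 / 4 : ℝ) ^ di j.1 x := by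
    rw [Finset.sum_product]
  rw [h2, sq, Finset.sum_mul_sum, Finset.mul_sum]
  apply Finset.sum_congr rfl
  intro j _
  rw [Finset.mul_sum]
  apply Finset.sum_congr rfl
  intro j' _
  ring

end

/-- the expected influence of the detours -/
theorem ths_exp {Ω : Type} [MeasurableSpace Ω] {P : Measure Ω} [IsProbabilityMeasure P]
    {ra : Ω → ℤ × ℤ → ℕ} (hm : ∀ k, Measurable fun ω => ra ω k) {C : ℝ} (hC : 0 ≤ C)
    (ht : ∀ k s, P {ω | s ≤ ra ω k} ≤ ENNReal.ofReal (C * (1 / 256) ^ s))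
    (S S' : Finset (ℤ × ℤ)) (θ : ℤ × ℤ → Fin 4 → ℝ) :
    Integrable (fun ω => ∑ x ∈ S', ths S θ (ra ω) x ^ 2) P ∧
      ∫ ω, ∑ x ∈ S', ths S θ (ra ω) x ^ 2 ∂P ≤ 3200 * C * ∑ k ∈ S, ∑ i, θ k i ^ 2 := by
  refine ⟨integrable_finsetSum _ fun x _ => (gm_one hm hC ht S θ x).1, ?_⟩
  rw [integral_finsetSum _ fun x _ => (gm_one hm hC ht S θ x).1]
  calc ∑ x ∈ S', ∫ ω, ths S θ (ra ω) x ^ 2 ∂P ≤
      ∑ x ∈ S', 32 * C * (∑ k ∈ S, ∑ i, |θ k i| * (1 / 4) ^ di k x) ^ 2 :=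
        Finset.sum_le_sum fun x _ => (gm_one hm hC ht S θ x).2
    _ = 32 * C * ∑ x ∈ S', (∑ k ∈ S, ∑ i, |θ k i| * (1 / 4) ^ di k x) ^ 2 := by
        rw [Finset.mul_sum]
    _ ≤ 32 * C * (100 * ∑ k ∈ S, ∑ i, θ k i ^ 2) :=
        mul_le_mul_of_nonneg_left (schur S S' θ) (by positivity)
    _ = 3200 * C * ∑ k ∈ S, ∑ i, θ k i ^ 2 := by ring

theorem rad_exp {Ω : Type} [MeasurableSpace Ω] {P : Measure Ω} [IsProbabilityMeasure P]
    {ra : Ω → ℕ} (hm : Measurable ra) {C : ℝ} (hC : 0 ≤ C)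
    (ht : ∀ s : ℕ, P {ω | s ≤ ra ω} ≤ ENNReal.ofReal (C * (1 / 256) ^ s)) :
    Integrable (fun ω => (ra ω : ℝ)) P ∧ ∫ ω, (ra ω : ℝ) ∂P ≤ C := by
  have hm' : Measurable fun ω => (ra ω : ℝ) := measurable_from_top.comp hm
  have hset : ∀ s : ℕ, MeasurableSet {ω | s + 1 ≤ ra ω} := fun s =>
    measurableSet_le measurable_const hm
  have hpt : ∀ ω, ENNReal.ofReal (ra ω : ℝ) =
      ∑' s : ℕ, {ω | s + 1 ≤ ra ω}.indicator (fun _ => (1 : ENNReal)) ω := by
    intro ω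
    rw [tsum_eq_sum (s := Finset.range (ra ω))]
    · rw [Finset.sum_congr rfl (g := fun _ => (1 : ENNReal))]
      · simp
      · intro s hs
        rw [Finset.mem_range] at hs
        exact Set.indicator_of_mem (show ω ∈ {ω | s + 1 ≤ ra ω} from hs) _
    · intro s hs
      rw [Finset.mem_range] at hs
      exact Set.indicator_of_notMem (show ω ∉ {ω | s + 1 ≤ ra ω} from fun h => hs h) _
  have hlin : ∫⁻ ω, ENNReal.ofReal (ra ω : ℝ) ∂P ≤ ENNReal.ofReal C := by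
    calc ∫⁻ ω, ENNReal.ofReal (ra ω : ℝ) ∂P =
        ∫⁻ ω, ∑' s : ℕ, {ω | s + 1 ≤ ra ω}.indicator (fun _ => (1 : ENNReal)) ω ∂P :=
          lintegral_congr hpt
      _ = ∑' s : ℕ, ∫⁻ ω, {ω | s + 1 ≤ ra ω}.indicator (fun _ => (1 : ENNReal)) ω ∂P := by
          rw [lintegral_tsum]
          intro s
          exact (measurable_const.indicator (hset s)).aemeasurable
      _ = ∑' s : ℕ, P {ω | s + 1 ≤ ra ω} := by
          apply tsum_congr
          intro s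
          rw [lintegral_indicator_const (hset s), one_mul]
      _ ≤ ∑' s : ℕ, ENNReal.ofReal (C * (1 / 256) ^ (s + 1)) :=
          ENNReal.tsum_le_tsum fun s => ht (s + 1)
      _ = ENNReal.ofReal (∑' s : ℕ, C * (1 / 256) ^ (s + 1)) := by
          rw [ENNReal.ofReal_tsum_of_nonneg]
          · intro s
            positivity
          · apply Summable.mul_left
            exact (summable_geometric_of_lt_one (by norm_num) (by norm_num)).comp_injective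
              (add_left_injective 1)
      _ ≤ ENNReal.ofReal C := by
          apply ENNReal.ofReal_le_ofReal
          have h1 : ∑' s : ℕ, C * (1 / 256 : ℝ) ^ (s + 1) = C * (1 / 256) * (1 - 1 / 256)⁻¹ := by
            rw [← tsum_geometric_of_lt_one (r := (1 / 256 : ℝ)) (by norm_num) (by norm_num),
              ← tsum_mul_left]
            apply tsum_congr
            intro s
            rw [pow_succ]
            ring
          rw [h1]
          norm_num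
          linarith
  have hint : Integrable (fun ω => (ra ω : ℝ)) P := by
    refine ⟨hm'.aestronglyMeasurable, ?_⟩
    rw [hasFiniteIntegral_iff_ofReal (ae_of_all _ fun ω => Nat.cast_nonneg _)]
    exact lt_of_le_of_lt hlin ENNReal.ofReal_lt_top
  refine ⟨hint, ?_⟩
  rw [integral_eq_lintegral_of_nonneg_ae (ae_of_all _ fun ω => Nat.cast_nonneg _)
    hm'.aestronglyMeasurable]
  exact ENNReal.toReal_le_of_le_ofReal hC hlin

end HK
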