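import Mathlib
import Pool.Agent.Lib_helper12.HK.DefsG
import Pool.Agent.Lib_helper12.HK.W.ei
import Pool.Agent.Lib_helper12.HK.W.fi
import Pool.Agent.Lib_helper12.HK.W.gc
import Pool.Agent.Lib_helper12.HK.W.ge
import Pool.Agent.Lib_helper12.HK.W.gj
import Pool.Agent.Lib_helper12.HK.W.gl
import Pool.Agent.Lib_helper12.HK.W.gm

set_option autoImplicit false

namespace HK

open MeasureTheory QG

theorem gn_hlip (n m : ℕ) [NeZero n] {a a' : Ev n → ℝ} (ha : 0 < fh n a) (ha' : 0 < fh n a')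
    (k k' : ℤ × ℤ) :
    |kf n m (fun y => a' y - a y) k - kf n m (fun y => a' y - a y) k'| ≤
      8 * m * (di k k' : ℝ) := by
  have h1 := lipK n m ha k k'
  have h2 := lipK n m ha' k k'
  unfold kf at h1 h2 ⊢
  have e : a' (ke n m k) - a (ke n m k) - (a' (ke n m k') - a (ke n m k')) =
      (a' (ke n m k) - a' (ke n m k')) - (a (ke n m k) - a (ke n m k')) := by ring
  rw [e]
  have h3 := abs_sub (a' (ke n m k) - a' (ke n m k')) (a (ke n m k) - a (ke n m k'))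
  linarith

theorem gn_hbd (n m : ℕ) [NeZero n] {a a' : Ev n → ℝ} (ha : 0 < fh n a) (ha' : 0 < fh n a')
    (h0 : a (pp n) = 0) (h0' : a' (pp n) = 0) (k : ℤ × ℤ) :
    |kf n m (fun y => a' y - a y) k| ≤ 4 * n := by
  have h1 := fh_bound n ha h0 (ke n m k)
  have h2 := fh_bound n ha' h0' (ke n m k)
  have h3 := abs_sub (a' (ke n m k)) (a (ke n m k))
  unfold kf
  show |a' (ke n m k) - a (ke n m k)| ≤ 4 * n
  linarith

theorem gn_pv_bd {V : Type} (S : Finset V) (l h : V → ℝ) {M : ℝ} (hM : ∀ k ∈ S, |h k| ≤ M) :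
    |pv S l h| ≤ M * n1 S l := by
  unfold pv n1
  rw [Finset.mul_sum]
  refine (Finset.abs_sum_le_sum_abs _ _).trans (Finset.sum_le_sum fun k hk => ?_)
  rw [abs_mul, mul_comm]
  exact mul_le_mul_of_nonneg_right (hM k hk) (abs_nonneg _)

/-- the deterministic inequality -/
theorem gn_pt (n m : ℕ) [NeZero n] {a a' : Ev n → ℝ} (ha : 0 < fh n a) (ha' : 0 < fh n a')
    {l : ℤ × ℤ → ℝ} {R : ℝ} {θ : ℤ × ℤ → Fin 4 → ℝ} (hF : Flow (TT n m) l R θ) {r0 : ℕ}
    (hS : ∀ k ∈ TT n m, ∀ x, di k x ≤ 2 * r0 + 1 → x ∈ LamI n m R0)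
    (hr : ∀ k ∈ TT n m, rad (Bds n m a : Set (ℤ × ℤ)) k ≤ r0 ∧
      ∀ i, rad (Bds n m a : Set (ℤ × ℤ)) (k + dz i) ≤ r0) :
    |pv (TT n m) l (kf n m (fun y => a' y - a y))| ≤
      8 * m * ∑ k ∈ TT n m, |l k| * (rad (Bds n m a : Set (ℤ × ℤ)) k : ℝ) +
        Real.sqrt (4 * ∑ x ∈ LamI n m R0, ths (TT n m) θ (rad (Bds n m a : Set (ℤ × ℤ))) x ^ 2) *
          Real.sqrt (Eg n m a (fun y => a' y - a y)) := by
  classical
  obtain ⟨h, hh⟩ : ∃ h : ℤ × ℤ → ℝ, h = kf n m (fun y => a' y - a y) := ⟨_, rfl⟩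
  obtain ⟨B, hB⟩ : ∃ B : Finset (ℤ × ℤ), B = Bds n m a := ⟨_, rfl⟩
  rw [← hh, ← hB]
  rw [← hB] at hr
  have hD := det_rep B
  have h1 := R_det hD hF hr hS h
  have h2 : pv (TT n m) l h = pv (TT n m) l (fun k => h k - h (rep (B : Set (ℤ × ℤ)) k)) +
      pv (TT n m) l (fun k => h (rep (B : Set (ℤ × ℤ)) k)) := by
    unfold pv
    rw [← Finset.sum_add_distrib]
    refine Finset.sum_congr rfl fun k _ => ?_
    ring
  have h3 : |pv (TT n m) l (fun k => h k - h (rep (B : Set (ℤ × ℤ)) k))| ≤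
      8 * m * ∑ k ∈ TT n m, |l k| * (rad (B : Set (ℤ × ℤ)) k : ℝ) := by
    unfold pv
    rw [Finset.mul_sum]
    refine (Finset.abs_sum_le_sum_abs _ _).trans (Finset.sum_le_sum fun k hk => ?_)
    rw [abs_mul]
    have h4 : |h k - h (rep (B : Set (ℤ × ℤ)) k)| ≤ 8 * m * (rad (B : Set (ℤ × ℤ)) k : ℝ) := by
      rw [hh]
      refine (gn_hlip n m ha ha' k _).trans (mul_le_mul_of_nonneg_left ?_ (by positivity))
      exact_mod_cast hD.dist k
    calc |l k| * |h k - h (rep (B : Set (ℤ × ℤ)) k)|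
        ≤ |l k| * (8 * m * (rad (B : Set (ℤ × ℤ)) k : ℝ)) :=
          mul_le_mul_of_nonneg_left h4 (abs_nonneg _)
      _ = 8 * m * (|l k| * (rad (B : Set (ℤ × ℤ)) k : ℝ)) := by ring
  have h5 : ∑ x ∈ (LamI n m R0).filter (fun x => x ∉ (B : Set (ℤ × ℤ))), ∑ j : Fin 4,
      ths (TT n m) θ (rad (B : Set (ℤ × ℤ))) x * |h (x + dz j) - h x| ≤
      Real.sqrt (4 * ∑ x ∈ LamI n m R0, ths (TT n m) θ (rad (B : Set (ℤ × ℤ))) x ^ 2) *
        Real.sqrt (Eg n m a (fun y => a' y - a y)) := by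
    rw [← Finset.sum_product' (s := (LamI n m R0).filter (fun x => x ∉ (B : Set (ℤ × ℤ))))
      (t := (Finset.univ : Finset (Fin 4)))
      (f := fun x j => ths (TT n m) θ (rad (B : Set (ℤ × ℤ))) x * |h (x + dz j) - h x|)]
    refine (Real.sum_mul_le_sqrt_mul_sqrt _ _ _).trans ?_
    refine mul_le_mul (Real.sqrt_le_sqrt ?_) (Real.sqrt_le_sqrt ?_) (Real.sqrt_nonneg _)
      (Real.sqrt_nonneg _)
    · rw [Finset.sum_product]
      show ∑ x ∈ (LamI n m R0).filter (fun x => x ∉ (B : Set (ℤ × ℤ))), ∑ _j : Fin 4,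
        ths (TT n m) θ (rad (B : Set (ℤ × ℤ))) x ^ 2 ≤ _
      rw [Finset.mul_sum]
      refine (Finset.sum_le_sum_of_subset_of_nonneg (Finset.filter_subset _ _)
        (fun x _ _ => Finset.sum_nonneg fun j _ => sq_nonneg _)).trans (le_of_eq ?_)
      refine Finset.sum_congr rfl fun x _ => ?_
      rw [Finset.sum_const, Finset.card_univ, Fintype.card_fin, nsmul_eq_mul]
      norm_num
    · rw [Finset.sum_product]
      show ∑ x ∈ (LamI n m R0).filter (fun x => x ∉ (B : Set (ℤ × ℤ))), ∑ j : Fin 4,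
        |h (x + dz j) - h x| ^ 2 ≤ _
      have h6 : (LamI n m R0).filter (fun x => x ∉ (B : Set (ℤ × ℤ))) =
          (LamI n m R0).filter (fun k => ¬ Bad n m a k) := by
        refine Finset.filter_congr fun x hx => ?_
        rw [Finset.mem_coe, hB]
        unfold Bds
        rw [Finset.mem_filter]
        constructor
        · intro h7 h8
          exact h7 ⟨hx, h8⟩
        · rintro h7 ⟨_, h8⟩
          exact h7 h8
      rw [h6]
      unfold Eg
      refine le_of_eq ?_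
      refine Finset.sum_congr (by congr) fun x _ => Finset.sum_congr rfl fun j _ => ?_
      rw [sq_abs, hh]
      rfl
  rw [h2]
  refine (abs_add_le _ _).trans (add_le_add h3 (h1.trans ?_))
  refine le_trans (le_of_eq ?_) h5
  refine Finset.sum_congr (by congr) fun x _ => rfl

/-- Cauchy-Schwarz -/
theorem gn_cs {Ω : Type} [MeasurableSpace Ω] {P : Measure Ω} {X Y : Ω → ℝ} (hX : Integrable X P)
    (hY : Integrable Y P) (hX0 : ∀ ω, 0 ≤ X ω) (hY0 : ∀ ω, 0 ≤ Y ω) :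
    Integrable (fun ω => Real.sqrt (X ω) * Real.sqrt (Y ω)) P ∧
      ∫ ω, Real.sqrt (X ω) * Real.sqrt (Y ω) ∂P ≤
        Real.sqrt (∫ ω, X ω ∂P) * Real.sqrt (∫ ω, Y ω ∂P) := by
  have mX : AEStronglyMeasurable (fun ω => Real.sqrt (X ω)) P :=
    Real.continuous_sqrt.comp_aestronglyMeasurable hX.aestronglyMeasurable
  have mY : AEStronglyMeasurable (fun ω => Real.sqrt (Y ω)) P :=
    Real.continuous_sqrt.comp_aestronglyMeasurable hY.aestronglyMeasurable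
  have sX : ∀ ω, Real.sqrt (X ω) ^ 2 = X ω := fun ω => Real.sq_sqrt (hX0 ω)
  have sY : ∀ ω, Real.sqrt (Y ω) ^ 2 = Y ω := fun ω => Real.sq_sqrt (hY0 ω)
  have LX : MemLp (fun ω => Real.sqrt (X ω)) 2 P := by
    rw [memLp_two_iff_integrable_sq mX]
    simp only [sX]
    exact hX
  have LY : MemLp (fun ω => Real.sqrt (Y ω)) 2 P := by
    rw [memLp_two_iff_integrable_sq mY]
    simp only [sY]
    exact hY
  refine ⟨LX.integrable_mul LY, ?_⟩
  have e2 : ENNReal.ofReal 2 = 2 := by norm_num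
  have h1 := integral_mul_le_Lp_mul_Lq_of_nonneg (μ := P) Real.HolderConjugate.two_two
    (f := fun ω => Real.sqrt (X ω)) (g := fun ω => Real.sqrt (Y ω))
    (Filter.Eventually.of_forall fun ω => Real.sqrt_nonneg _)
    (Filter.Eventually.of_forall fun ω => Real.sqrt_nonneg _) (by rw [e2]; exact LX)
    (by rw [e2]; exact LY)
  have h2 : ∀ Z : Ω → ℝ, (∀ ω, 0 ≤ Z ω) →
      (∫ ω, Real.sqrt (Z ω) ^ (2 : ℝ) ∂P) ^ (1 / 2 : ℝ) = Real.sqrt (∫ ω, Z ω ∂P) := by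
    intro Z hZ
    rw [Real.sqrt_eq_rpow]
    congr 1
    refine integral_congr_ae (Filter.Eventually.of_forall fun ω => ?_)
    show Real.sqrt (Z ω) ^ (2 : ℝ) = Z ω
    rw [Real.rpow_two]
    exact Real.sq_sqrt (hZ ω)
  rw [h2 X hX0, h2 Y hY0] at h1
  exact h1

theorem gn_num (n m : ℕ) (hm : 1 ≤ m) :
    ((n : ℝ) + 1) ^ 3 * (1 / 256) ^ ((n / (32 * m) - R0 - 1) / 2 + 1) ≤
      (32 * m) ^ 3 * 16 ^ R0 := by
  obtain ⟨q, hq⟩ : ∃ q : ℕ, q = n / (32 * m) := ⟨_, rfl⟩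
  rw [← hq]
  have h1 : n + 1 ≤ 32 * m * (q + 1) := by
    rw [hq]
    exact Nat.lt_mul_div_succ n (by omega)
  have h2 : q + 1 ≤ 2 ^ q := Nat.lt_two_pow_self
  have h3 : q ≤ 2 * ((q - R0 - 1) / 2 + 1) + R0 := by omega
  have h4 : (n + 1) ^ 3 ≤ (32 * m) ^ 3 * 16 ^ R0 * 256 ^ ((q - R0 - 1) / 2 + 1) := by
    calc (n + 1) ^ 3 ≤ (32 * m * (q + 1)) ^ 3 := Nat.pow_le_pow_left h1 3
      _ ≤ (32 * m * 2 ^ q) ^ 3 := Nat.pow_le_pow_left (Nat.mul_le_mul_left _ h2) 3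
      _ = (32 * m) ^ 3 * 8 ^ q := by
          rw [mul_pow, ← pow_mul, mul_comm q 3, pow_mul]
          norm_num
      _ ≤ (32 * m) ^ 3 * 16 ^ q := Nat.mul_le_mul_left _ (Nat.pow_le_pow_left (by norm_num) q)
      _ ≤ (32 * m) ^ 3 * 16 ^ (2 * ((q - R0 - 1) / 2 + 1) + R0) :=
          Nat.mul_le_mul_left _ (Nat.pow_le_pow_right (by norm_num) h3)
      _ = (32 * m) ^ 3 * 16 ^ R0 * 256 ^ ((q - R0 - 1) / 2 + 1) := by
          rw [pow_add, pow_mul]
          norm_num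
          ring
  have h5 : ((n : ℝ) + 1) ^ 3 ≤ (32 * m) ^ 3 * 16 ^ R0 * 256 ^ ((q - R0 - 1) / 2 + 1) := by
    exact_mod_cast h4
  rw [one_div, inv_pow, ← div_eq_mul_inv, div_le_iff₀ (by positivity)]
  exact h5

theorem gn_card (n m : ℕ) (hm : 2 ≤ m) : ((TT n m).card : ℝ) ≤ ((n : ℝ) + 1) ^ 2 := by
  have h : (TT n m).card ≤ (n + 1) ^ 2 := by
    unfold TT LamI
    rw [Finset.card_product, Int.card_Icc, sq]
    have h1 : n / (8 * m) ≤ n / 16 := Nat.div_le_div_left (by omega) (by norm_num)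
    have h2 : 5 * n / (8 * m) ≤ 5 * n / 16 := Nat.div_le_div_left (by omega) (by norm_num)
    have h4 : ∀ a b c : ℕ, a ≤ n / 16 → b ≤ 5 * n / 16 →
        ((b : ℤ) - (c : ℤ) + 1 - ((c : ℤ) - (a : ℤ))).toNat ≤ n + 1 := by
      intro a b c ha hb
      omega
    have h3 := h4 (n / (8 * m)) (5 * n / (8 * m)) (n / (32 * m)) h1 h2
    exact Nat.mul_le_mul h3 h3
  exact_mod_cast h

theorem gn_sub (n m : ℕ) (h : R0 + 1 ≤ n / (32 * m)) (k : ℤ × ℤ) (hk : k ∈ TT n m) (x : ℤ × ℤ)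
    (hx : di k x ≤ 2 * ((n / (32 * m) - R0 - 1) / 2) + 1) : x ∈ LamI n m R0 := by
  obtain ⟨q, hq⟩ : ∃ q : ℕ, q = n / (32 * m) := ⟨_, rfl⟩
  unfold TT LamI at hk
  unfold LamI
  rw [← hq] at hk hx h
  rw [Finset.mem_product, Finset.mem_Icc, Finset.mem_Icc] at hk ⊢
  obtain ⟨⟨h1, h2⟩, ⟨h3, h4⟩⟩ := hk
  have h5 : (k.1 - x.1).natAbs ≤ 2 * ((q - R0 - 1) / 2) + 1 := (le_max_left _ _).trans hx
  have h6 : (k.2 - x.2).natAbs ≤ 2 * ((q - R0 - 1) / 2) + 1 := (le_max_right _ _).trans hx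
  have h7 : 2 * ((q - R0 - 1) / 2) + 1 + R0 ≤ q := by omega
  obtain ⟨w, hw⟩ : ∃ w : ℕ, w = 2 * ((q - R0 - 1) / 2) + 1 := ⟨_, rfl⟩
  rw [← hw] at h5 h6 h7
  refine ⟨⟨?_, ?_⟩, ⟨?_, ?_⟩⟩ <;> omega

/-- inequality (R): functionals are controlled by the energy on the good edges -/
theorem R_thm (m : ℕ) (p0 : ℝ) : ∃ (C : ℝ) (n0 : ℕ), 0 ≤ C ∧ ∀ (n : ℕ) [NeZero n], n0 ≤ n →
    Hyp n m p0 → ∀ {Ω : Type} [MeasurableSpace Ω] {P : Measure Ω} {z z' : Ω → Ev n → ℝ},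
    Two n P z z' → Integrable (fun ω => Eg n m (z ω) (fun y => z' ω y - z ω y)) P →
    ∀ (l : ℤ × ℤ → ℝ) (R : ℝ) (θ : ℤ × ℤ → Fin 4 → ℝ), Flow (TT n m) l R θ →
      Integrable (fun ω => pv (TT n m) l (kf n m (fun y => z' ω y - z ω y))) P ∧
      ∫ ω, |pv (TT n m) l (kf n m (fun y => z' ω y - z ω y))| ∂P ≤
        C * (Real.sqrt (R * ∫ ω, Eg n m (z ω) (fun y => z' ω y - z ω y) ∂P) +
          n1 (TT n m) l) := by
  obtain ⟨C1, hC1, htail⟩ := rad_tail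
  obtain ⟨K, hK⟩ : ∃ K : ℝ, K = (32 * m) ^ 3 * 16 ^ R0 := ⟨_, rfl⟩
  have hK0 : 0 ≤ K := by rw [hK]; positivity
  refine ⟨8 * m * C1 + Real.sqrt (12800 * C1) + 20 * C1 * K, 0, by positivity, ?_⟩
  intro n _ _ H Ω _ P z z' h2 hE l R θ hF
  have hprob := h2.prob
  have hm2 := H.two
  have hbig := H.big
  have hq : R0 + 1 ≤ n / (32 * m) := by
    rw [Nat.le_div_iff_mul_le (by omega)]
    refine le_trans ?_ hbig
    calc (R0 + 1) * (32 * m) ≤ (R0 + 10) * (64 * m) :=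
          Nat.mul_le_mul (by omega) (by omega)
      _ = 64 * m * (R0 + 10) := by ring
  obtain ⟨r0, hr0⟩ : ∃ r0 : ℕ, r0 = (n / (32 * m) - R0 - 1) / 2 := ⟨_, rfl⟩
  have hnum := gn_num n m (by omega)
  rw [← hr0, ← hK] at hnum
  have hsub := gn_sub n m hq
  rw [← hr0] at hsub
  -- the radii
  obtain ⟨ra, hra⟩ : ∃ ra : Ω → ℤ × ℤ → ℕ, ra = fun ω k => rad (Bds n m (z ω) : Set (ℤ × ℤ)) k :=
    ⟨_, rfl⟩
  have hmeas : ∀ k, Measurable fun ω => ra ω k := by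
    intro k
    rw [hra]
    exact (meas_Bds n m (fun B => rad (B : Set (ℤ × ℤ)) k)).comp h2.meas
  have ht : ∀ k (s : ℕ), P {ω | s ≤ ra ω k} ≤ ENNReal.ofReal (C1 * (1 / 256) ^ s) := by
    intro k s
    have hms : MeasurableSet {a : Ev n → ℝ | s ≤ rad (Bds n m a : Set (ℤ × ℤ)) k} :=
      measurableSet_le measurable_const (meas_Bds n m (fun B => rad (B : Set (ℤ × ℤ)) k))
    have h3 := htail n m p0 H k s
    rw [← h2.law, Measure.map_apply h2.meas hms] at h3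
    rw [hra]
    exact h3
  -- the functional
  obtain ⟨X, hX⟩ : ∃ X : Ω → ℝ, X = fun ω => pv (TT n m) l (kf n m (fun y => z' ω y - z ω y)) :=
    ⟨_, rfl⟩
  have hXm : Measurable X := by
    rw [hX]
    unfold pv kf
    refine Finset.measurable_sum _ fun k _ => ?_
    exact measurable_const.mul (((measurable_pi_apply _).comp h2.meas').sub
      ((measurable_pi_apply _).comp h2.meas))
  have hXb : ∀ ω, |X ω| ≤ 4 * n * n1 (TT n m) l := by
    intro ω
    rw [hX]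
    obtain ⟨z1, z2, z3, z4⟩ := h2.zp ω
    exact gn_pv_bd _ _ _ fun k _ => gn_hbd n m z3 z4 z1 z2 k
  have hXi : Integrable X P := by
    refine Integrable.mono' (integrable_const (4 * n * n1 (TT n m) l)) hXm.aestronglyMeasurable ?_
    exact Filter.Eventually.of_forall fun ω => by
      rw [Real.norm_eq_abs]
      exact hXb ω
  have hn1 : 0 ≤ n1 (TT n m) l := Finset.sum_nonneg fun k _ => abs_nonneg _
  -- the bad event
  obtain ⟨A, hA⟩ : ∃ A : Set Ω, A = {ω | ∃ k ∈ TT n m, r0 + 1 ≤ ra ω k ∨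
      ∃ i : Fin 4, r0 + 1 ≤ ra ω (k + dz i)} := ⟨_, rfl⟩
  have hAeq : A = ⋃ k ∈ TT n m, ({ω | r0 + 1 ≤ ra ω k} ∪
      ⋃ i : Fin 4, {ω | r0 + 1 ≤ ra ω (k + dz i)}) := by
    rw [hA]
    ext ω
    simp only [Set.mem_iUnion, Set.mem_union, exists_prop]
    rfl
  have hms : ∀ k, MeasurableSet {ω | r0 + 1 ≤ ra ω k} := fun k =>
    measurableSet_le measurable_const (hmeas k)
  have hAm : MeasurableSet A := by
    rw [hAeq]
    exact Finset.measurableSet_biUnion _ fun k _ => (hms k).union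
      (MeasurableSet.iUnion fun i => hms _)
  have hPA : P.real A ≤ 5 * (TT n m).card * (C1 * (1 / 256) ^ (r0 + 1)) := by
    have h3 : P A ≤ ENNReal.ofReal (5 * (TT n m).card * (C1 * (1 / 256) ^ (r0 + 1))) := by
      rw [hAeq]
      refine (measure_biUnion_finset_le _ _).trans ?_
      have h4 : ∀ k ∈ TT n m, P ({ω | r0 + 1 ≤ ra ω k} ∪
          ⋃ i : Fin 4, {ω | r0 + 1 ≤ ra ω (k + dz i)}) ≤
          ENNReal.ofReal (5 * (C1 * (1 / 256) ^ (r0 + 1))) := by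
        intro k _
        refine (measure_union_le _ _).trans ?_
        have h5 : P (⋃ i : Fin 4, {ω | r0 + 1 ≤ ra ω (k + dz i)}) ≤
            ∑ _i : Fin 4, ENNReal.ofReal (C1 * (1 / 256) ^ (r0 + 1)) :=
          (measure_iUnion_fintype_le _ _).trans (Finset.sum_le_sum fun i _ => ht _ _)
        refine (add_le_add (ht k (r0 + 1)) h5).trans (le_of_eq ?_)
        rw [Finset.sum_const, Finset.card_univ, Fintype.card_fin, nsmul_eq_mul,
          ENNReal.ofReal_mul (by norm_num : (0 : ℝ) ≤ 5)]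
        have h6 : ENNReal.ofReal 5 = 5 := by norm_num
        rw [h6]
        have h7 : (5 : ENNReal) = 1 + 4 := by norm_num
        rw [h7, add_mul, one_mul]
        norm_num
      refine (Finset.sum_le_sum h4).trans (le_of_eq ?_)
      rw [Finset.sum_const, nsmul_eq_mul, ← ENNReal.ofReal_natCast,
        ← ENNReal.ofReal_mul (Nat.cast_nonneg _)]
      congr 1
      ring
    exact ENNReal.toReal_le_of_le_ofReal (by positivity) h3
  -- the pointwise inequality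
  obtain ⟨Y1, hY1⟩ : ∃ Y1 : Ω → ℝ, Y1 = fun ω => ∑ k ∈ TT n m, |l k| * (ra ω k : ℝ) := ⟨_, rfl⟩
  obtain ⟨U, hU⟩ : ∃ U : Ω → ℝ, U = fun ω =>
      4 * ∑ x ∈ LamI n m R0, ths (TT n m) θ (ra ω) x ^ 2 := ⟨_, rfl⟩
  obtain ⟨W, hW⟩ : ∃ W : Ω → ℝ, W = fun ω => Eg n m (z ω) (fun y => z' ω y - z ω y) := ⟨_, rfl⟩
  have hU0 : ∀ ω, 0 ≤ U ω := by
    intro ω
    rw [hU]
    exact mul_nonneg (by norm_num) (Finset.sum_nonneg fun x _ => sq_nonneg _)
  have hW0 : ∀ ω, 0 ≤ W ω := by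
    intro ω
    rw [hW]
    unfold Eg
    exact Finset.sum_nonneg fun k _ => Finset.sum_nonneg fun i _ => sq_nonneg _
  have hpt : ∀ ω, |X ω| ≤ 8 * m * Y1 ω + Real.sqrt (U ω) * Real.sqrt (W ω) +
      A.indicator (fun _ => 4 * n * n1 (TT n m) l) ω := by
    intro ω
    obtain ⟨z1, z2, z3, z4⟩ := h2.zp ω
    have hY0 : 0 ≤ 8 * m * Y1 ω := by
      rw [hY1]
      exact mul_nonneg (by positivity) (Finset.sum_nonneg fun k _ => by positivity)
    by_cases hω : ω ∈ A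
    · rw [Set.indicator_of_mem hω]
      have h3 := hXb ω
      have h4 : 0 ≤ Real.sqrt (U ω) * Real.sqrt (W ω) := by positivity
      linarith
    · rw [Set.indicator_of_notMem hω, add_zero]
      have hr : ∀ k ∈ TT n m, rad (Bds n m (z ω) : Set (ℤ × ℤ)) k ≤ r0 ∧
          ∀ i, rad (Bds n m (z ω) : Set (ℤ × ℤ)) (k + dz i) ≤ r0 := by
        intro k hk
        constructor
        · by_contra hc
          apply hω
          rw [hA]
          refine ⟨k, hk, Or.inl ?_⟩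
          rw [hra]
          exact not_le.mp hc
        · intro i
          by_contra hc
          apply hω
          rw [hA]
          refine ⟨k, hk, Or.inr ⟨i, ?_⟩⟩
          rw [hra]
          exact not_le.mp hc
      have h3 := gn_pt n m z3 z4 hF (r0 := r0) hsub hr
      rw [hX, hY1, hU, hW, hra]
      exact h3
  -- the integrals
  have hY1i : Integrable Y1 P ∧ ∫ ω, Y1 ω ∂P ≤ C1 * n1 (TT n m) l := by
    rw [hY1]
    have h3 : ∀ k ∈ TT n m, Integrable (fun ω => |l k| * (ra ω k : ℝ)) P := fun k _ =>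
      (rad_exp (hmeas k) hC1 (ht k)).1.const_mul _
    refine ⟨integrable_finsetSum _ h3, ?_⟩
    rw [integral_finsetSum _ h3]
    unfold n1
    rw [Finset.mul_sum]
    refine Finset.sum_le_sum fun k _ => ?_
    rw [integral_const_mul, mul_comm C1]
    exact mul_le_mul_of_nonneg_left (rad_exp (hmeas k) hC1 (ht k)).2 (abs_nonneg _)
  have hths := ths_exp hmeas hC1 ht (TT n m) (LamI n m R0) θ
  have hUi : Integrable U P := by
    rw [hU]
    exact hths.1.const_mul 4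
  have hUle : ∫ ω, U ω ∂P ≤ 12800 * C1 * R := by
    rw [hU, integral_const_mul]
    have h3 := hths.2
    have h4 : 3200 * C1 * ∑ k ∈ TT n m, ∑ i, θ k i ^ 2 ≤ 3200 * C1 * R :=
      mul_le_mul_of_nonneg_left hF.le (by positivity)
    linarith
  have hWi : Integrable W P := by
    rw [hW]
    exact hE
  obtain ⟨hci, hcle⟩ := gn_cs hUi hWi hU0 hW0
  have hW0' : 0 ≤ ∫ ω, W ω ∂P := integral_nonneg hW0
  have hcle' : ∫ ω, Real.sqrt (U ω) * Real.sqrt (W ω) ∂P ≤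
      Real.sqrt (12800 * C1) * Real.sqrt (R * ∫ ω, W ω ∂P) := by
    refine hcle.trans ?_
    rw [← Real.sqrt_mul' _ hW0', ← Real.sqrt_mul (by positivity)]
    refine Real.sqrt_le_sqrt ?_
    calc (∫ ω, U ω ∂P) * ∫ ω, W ω ∂P ≤ (12800 * C1 * R) * ∫ ω, W ω ∂P :=
          mul_le_mul_of_nonneg_right hUle hW0'
      _ = 12800 * C1 * (R * ∫ ω, W ω ∂P) := by ring
  have hIi : Integrable (A.indicator (fun _ => 4 * n * n1 (TT n m) l)) P :=
    (integrable_const _).indicator hAm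
  have hIle : ∫ ω, A.indicator (fun _ => 4 * n * n1 (TT n m) l) ω ∂P ≤
      20 * C1 * K * n1 (TT n m) l := by
    rw [integral_indicator_const _ hAm, smul_eq_mul]
    have hcard := gn_card n m hm2
    have h3 : P.real A * (4 * n) ≤ 20 * C1 * K := by
      calc P.real A * (4 * n)
          ≤ (5 * (TT n m).card * (C1 * (1 / 256) ^ (r0 + 1))) * (4 * n) :=
            mul_le_mul_of_nonneg_right hPA (by positivity)
        _ ≤ (5 * ((n : ℝ) + 1) ^ 2 * (C1 * (1 / 256) ^ (r0 + 1))) * (4 * ((n : ℝ) + 1)) := by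
            refine mul_le_mul ?_ (by linarith) (by positivity) (by positivity)
            exact mul_le_mul_of_nonneg_right (mul_le_mul_of_nonneg_left hcard (by norm_num))
              (by positivity)
        _ = 20 * C1 * (((n : ℝ) + 1) ^ 3 * (1 / 256) ^ (r0 + 1)) := by ring
        _ ≤ 20 * C1 * K := mul_le_mul_of_nonneg_left hnum (by positivity)
    calc P.real A * (4 * n * n1 (TT n m) l) = (P.real A * (4 * n)) * n1 (TT n m) l := by ring
      _ ≤ 20 * C1 * K * n1 (TT n m) l := mul_le_mul_of_nonneg_right h3 hn1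
  have hfin : ∫ ω, |X ω| ∂P ≤ 8 * m * (C1 * n1 (TT n m) l) +
      Real.sqrt (12800 * C1) * Real.sqrt (R * ∫ ω, W ω ∂P) + 20 * C1 * K * n1 (TT n m) l := by
    refine (integral_mono hXi.abs (((hY1i.1.const_mul (8 * m)).add hci).add hIi) hpt).trans ?_
    have e1 : ∫ ω, (((fun ω => 8 * m * Y1 ω) + fun ω => Real.sqrt (U ω) * Real.sqrt (W ω)) +
        A.indicator (fun _ => 4 * n * n1 (TT n m) l)) ω ∂P =
        (∫ ω, 8 * m * Y1 ω ∂P + ∫ ω, Real.sqrt (U ω) * Real.sqrt (W ω) ∂P) +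
          ∫ ω, A.indicator (fun _ => 4 * n * n1 (TT n m) l) ω ∂P := by
      rw [integral_add' ((hY1i.1.const_mul (8 * m)).add hci) hIi,
        integral_add' (hY1i.1.const_mul (8 * m)) hci]
    rw [e1, integral_const_mul]
    have h5 : 8 * m * ∫ ω, Y1 ω ∂P ≤ 8 * m * (C1 * n1 (TT n m) l) :=
      mul_le_mul_of_nonneg_left hY1i.2 (by positivity)
    linarith
  refine ⟨by rw [hX] at hXi; exact hXi, ?_⟩
  have hgoal : ∫ ω, |X ω| ∂P ≤ (8 * m * C1 + Real.sqrt (12800 * C1) + 20 * C1 * K) *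
      (Real.sqrt (R * ∫ ω, W ω ∂P) + n1 (TT n m) l) := by
    refine hfin.trans ?_
    have s1 : 0 ≤ Real.sqrt (12800 * C1) := Real.sqrt_nonneg _
    have s2 : 0 ≤ Real.sqrt (R * ∫ ω, W ω ∂P) := Real.sqrt_nonneg _
    have t1 : 0 ≤ (8 * m * C1 + 20 * C1 * K) * Real.sqrt (R * ∫ ω, W ω ∂P) := by positivity
    have t2 : 0 ≤ Real.sqrt (12800 * C1) * n1 (TT n m) l := mul_nonneg s1 hn1
    have e : (8 * m * C1 + Real.sqrt (12800 * C1) + 20 * C1 * K) *
      (Real.sqrt (R * ∫ ω, W ω ∂P) + n1 (TT n m) l) =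
      (8 * m * C1 + 20 * C1 * K) * Real.sqrt (R * ∫ ω, W ω ∂P) +
      Real.sqrt (12800 * C1) * n1 (TT n m) l + (8 * m * (C1 * n1 (TT n m) l) +
      Real.sqrt (12800 * C1) * Real.sqrt (R * ∫ ω, W ω ∂P) + 20 * C1 * K * n1 (TT n m) l) := by
      ring
    rw [e]
    linarith
  rw [hX, hW] at hgoal
  exact hgoal

end HK
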