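import Mathlib
import Pool.Agent.Lib_helper12.HK.DefsH
import Pool.Agent.Lib_helper12.HK.W.aa

set_option autoImplicit false

namespace HK

open MeasureTheory QG

theorem ha_set (t : Fin 4 → ℝ) : {x : ℝ | ∀ i, |x - t i| ≤ 1} =
    Set.Icc (Finset.univ.sup' Finset.univ_nonempty t - 1)
      (Finset.univ.inf' Finset.univ_nonempty t + 1) := by
  ext x
  rw [Set.mem_Icc]
  change (∀ i, |x - t i| ≤ 1) ↔ _
  constructor
  · intro h
    constructor
    · obtain ⟨i, _, hi⟩ := Finset.exists_mem_eq_sup' Finset.univ_nonempty t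
      rw [hi]
      have := (abs_le.mp (h i)).1
      linarith
    · obtain ⟨i, _, hi⟩ := Finset.exists_mem_eq_inf' Finset.univ_nonempty t
      rw [hi]
      have := (abs_le.mp (h i)).2
      linarith
  · rintro ⟨h1, h2⟩ i
    have h3 := Finset.le_sup' t (Finset.mem_univ i)
    have h4 := Finset.inf'_le t (Finset.mem_univ i)
    rw [abs_le]
    constructor <;> linarith

theorem ha_length (t : Fin 4 → ℝ) :
    volume {x : ℝ | ∀ i, |x - t i| ≤ 1} = ENNReal.ofReal (wh t) := by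
  rw [ha_set, Real.volume_Icc]
  have e : Finset.univ.inf' Finset.univ_nonempty t + 1 -
      (Finset.univ.sup' Finset.univ_nonempty t - 1) = 2 - osc t := by
    unfold osc
    ring
  rw [e]
  unfold wh
  rcases le_total 0 (2 - osc t) with h | h
  · rw [max_eq_right h]
  · rw [max_eq_left h, ENNReal.ofReal_of_nonpos h, ENNReal.ofReal_zero]

theorem ha_meas (t : Fin 4 → ℝ) : MeasurableSet {x : ℝ | ∀ i, |x - t i| ≤ 1} := by
  rw [ha_set]
  exact measurableSet_Icc

open Classical in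
/-- the indicator -/
noncomputable def ha_ind (t : Fin 4 → ℝ) (x : ℝ) : ENNReal :=
  if ∀ i, |x - t i| ≤ 1 then 1 else 0

theorem ha_ind_eq (t : Fin 4 → ℝ) :
    ha_ind t = {x : ℝ | ∀ i, |x - t i| ≤ 1}.indicator 1 := by
  funext x
  unfold ha_ind
  by_cases h : ∀ i, |x - t i| ≤ 1
  · rw [if_pos h, Set.indicator_of_mem (by exact h), Pi.one_apply]
  · rw [if_neg h, Set.indicator_of_notMem (by exact h)]

theorem ha_int (t : Fin 4 → ℝ) : ∫⁻ x, ha_ind t x = ENNReal.ofReal (wh t) := by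
  rw [ha_ind_eq, lintegral_indicator_one (ha_meas t), ha_length]

theorem ha_abs {x y s s' : ℝ} (h1 : |x - s| ≤ 1) (h2 : |y - s'| ≤ 1) :
    |x ⊔ y - s ⊔ s'| ≤ 1 ∧ |x ⊓ y - s ⊓ s'| ≤ 1 := by
  rw [abs_le] at h1 h2 ⊢
  rw [abs_le]
  rcases le_total x y with a | a <;> rcases le_total s s' with b | b
  · rw [sup_eq_right.mpr a, sup_eq_right.mpr b, inf_eq_left.mpr a, inf_eq_left.mpr b]
    exact ⟨h2, h1⟩
  · rw [sup_eq_right.mpr a, sup_eq_left.mpr b, inf_eq_left.mpr a, inf_eq_right.mpr b]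
    exact ⟨⟨by linarith, by linarith⟩, by linarith, by linarith⟩
  · rw [sup_eq_left.mpr a, sup_eq_right.mpr b, inf_eq_right.mpr a, inf_eq_left.mpr b]
    exact ⟨⟨by linarith, by linarith⟩, by linarith, by linarith⟩
  · rw [sup_eq_left.mpr a, sup_eq_left.mpr b, inf_eq_right.mpr a, inf_eq_right.mpr b]
    exact ⟨h1, h2⟩

/-- Lemma H1: the weight of a cell is multivariate totally positive -/
theorem wh_mtp2 (t t' : Fin 4 → ℝ) : wh t * wh t' ≤ wh (t ⊔ t') * wh (t ⊓ t') := by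
  have hm : ∀ s : Fin 4 → ℝ, Measurable (ha_ind s) := by
    intro s
    rw [ha_ind_eq]
    exact measurable_one.indicator (ha_meas s)
  have h := four1 (hm t) (hm t') (hm (t ⊔ t')) (hm (t ⊓ t')) (by
    intro x y
    by_cases h1 : ∀ i, |x - t i| ≤ 1
    · by_cases h2 : ∀ i, |y - t' i| ≤ 1
      · have h3 : ∀ i, |x ⊔ y - (t ⊔ t') i| ≤ 1 := fun i => (ha_abs (h1 i) (h2 i)).1
        have h4 : ∀ i, |x ⊓ y - (t ⊓ t') i| ≤ 1 := fun i => (ha_abs (h1 i) (h2 i)).2
        unfold ha_ind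
        rw [if_pos h1, if_pos h2, if_pos h3, if_pos h4]
      · have : ha_ind t' y = 0 := if_neg h2
        rw [this, mul_zero]
        exact zero_le
    · have : ha_ind t x = 0 := if_neg h1
      rw [this, zero_mul]
      exact zero_le)
  rw [ha_int, ha_int, ha_int, ha_int] at h
  have w0 : ∀ s, 0 ≤ wh s := fun s => le_max_left _ _
  rw [← ENNReal.ofReal_mul (w0 _), ← ENNReal.ofReal_mul (w0 _)] at h
  exact (ENNReal.ofReal_le_ofReal_iff (mul_nonneg (w0 _) (w0 _))).mp h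

end HK
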