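import Mathlib
import Pool.Agent.Lib_helper12.HK.DefsH
import Pool.Agent.Lib_helper12.HK.W.ab

set_option autoImplicit false

namespace HK

open MeasureTheory QG

theorem hb_shift {A : Type} [Fintype A] [DecidableEq A] {Fi : (A → ℝ) → ENNReal}
    (hsh : ∀ (x : A → ℝ) (M : ℝ), Fi (fun i => x i + M) = Fi x) (I : Finset A) (x : A → ℝ) (M : ℝ) :
    lmg Fi I (fun i => x i + M) = lmg Fi I x := by
  unfold lmg
  have e : ∀ ξ : I → ℝ, Fi (Function.updateFinset (fun i => x i + M) I ξ) =
      Fi (Function.updateFinset x I (ξ + fun _ => -M)) := by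
    intro ξ
    rw [← hsh (Function.updateFinset x I (ξ + fun _ => -M)) M]
    congr 1
    funext i
    rw [Function.updateFinset_def, Function.updateFinset_def]
    by_cases hi : i ∈ I
    · simp [hi]
    · simp [hi]
  rw [lintegral_congr e]
  exact lintegral_add_right_eq_self (fun ξ => Fi (Function.updateFinset x I ξ)) (fun _ => -M)

theorem hb_loc {A : Type} [Fintype A] [DecidableEq A] {Fi : (A → ℝ) → ENNReal} (U : Finset A)
    (hloc : ∀ x x' : A → ℝ, (∀ i ∈ U, x i = x' i) → Fi x = Fi x') (I : Finset A) {x z : A → ℝ}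
    (h : ∀ i ∈ U, i ∉ I → x i = z i) : lmg Fi I x = lmg Fi I z := by
  unfold lmg
  refine lintegral_congr fun ξ => hloc _ _ fun i hi => ?_
  rw [Function.updateFinset_def, Function.updateFinset_def]
  by_cases hI : i ∈ I
  · simp [hI]
  · simp only [hI, dite_false]
    exact h i hi hI

/-- a completion -/
theorem hb_ex {A : Type} [Fintype A] [DecidableEq A] {Fi : (A → ℝ) → ENNReal} (I : Finset A)
    {x : A → ℝ} (h : lmg Fi I x ≠ 0) : ∃ X : A → ℝ, Fi X ≠ 0 ∧ ∀ i ∉ I, X i = x i := by
  by_contra h0
  apply h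
  unfold lmg
  have e : ∀ ξ : I → ℝ, Fi (Function.updateFinset x I ξ) = 0 := by
    intro ξ
    by_contra h1
    apply h0
    refine ⟨Function.updateFinset x I ξ, h1, fun i hi => ?_⟩
    rw [Function.updateFinset_def]
    simp [hi]
  rw [lintegral_congr e, lintegral_zero]

/-- the pointwise comparison -/
theorem hb_pt {A : Type} [Fintype A] [DecidableEq A] {Fi Fo Fo' : (A → ℝ) → ENNReal}
    (hi : Measurable Fi) (R T S : Finset A) {y : A}
    (hyR : y ∈ R) (hyS : y ∈ S) (hmtp : ∀ x x', Fi x * Fi x' ≤ Fi (x ⊔ x') * Fi (x ⊓ x'))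
    (hsh : ∀ (x : A → ℝ) (M : ℝ), Fi (fun i => x i + M) = Fi x)
    (hloc : ∀ x x' : A → ℝ, (∀ i ∈ R ∪ T, x i = x' i) → Fi x = Fi x')
    (hout : ∀ x x' : A → ℝ, (∀ i ∉ R, x i = x' i) → Fo x = Fo x')
    (hout' : ∀ x x' : A → ℝ, (∀ i ∉ R, x i = x' i) → Fo' x = Fo' x') {b b' : A → ℝ} {M : ℝ}
    (hc : ∀ x x' : A → ℝ, (∀ i ∉ S, x i = b i) → (∀ i ∉ S, x' i = b' i) → Fi x * Fo x ≠ 0 →
      Fi x' * Fo' x' ≠ 0 → ∀ t ∈ R ∪ T, (t ∈ R → t ∉ S) → x' t ≤ x t + M)
    {r1 r2 : ℝ} (hr : r2 ≤ r1) {x x' : A → ℝ} (hx : ∀ i ∉ S, x i = b i)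
    (hx' : ∀ i ∉ S, x' i = b' i) :
    Fo' x' * lmg Fi ((S ∩ R).erase y) (Function.update x' y (r1 + M)) *
        (Fo x * lmg Fi ((S ∩ R).erase y) (Function.update x y r2)) ≤
      Fo' x' * lmg Fi ((S ∩ R).erase y) (Function.update x' y (r2 + M)) *
        (Fo x * lmg Fi ((S ∩ R).erase y) (Function.update x y r1)) := by
  set I := (S ∩ R).erase y with hI
  have hIS : ∀ i ∈ I, i ∈ S := fun i h => (Finset.mem_inter.1 (Finset.mem_of_mem_erase h)).1
  have hIR : ∀ i ∈ I, i ∈ R := fun i h => (Finset.mem_inter.1 (Finset.mem_of_mem_erase h)).2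
  have hyI : y ∉ I := Finset.notMem_erase y _
  by_cases h1 : lmg Fi I (Function.update x' y (r1 + M)) = 0
  · rw [h1]
    simp
  by_cases h2 : lmg Fi I (Function.update x y r2) = 0
  · rw [h2]
    simp
  by_cases h3 : Fo' x' = 0
  · rw [h3]
    simp
  by_cases h4 : Fo x = 0
  · rw [h4]
    simp
  obtain ⟨X', hX', hX'2⟩ := hb_ex I h1
  obtain ⟨X, hX, hX2⟩ := hb_ex I h2
  have k1 : Fo' X' = Fo' x' := by
    refine hout' _ _ fun i hi => ?_
    rw [hX'2 i (fun h => hi (hIR i h)), Function.update_of_ne]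
    rintro rfl
    exact hi hyR
  have k2 : Fo X = Fo x := by
    refine hout _ _ fun i hi => ?_
    rw [hX2 i (fun h => hi (hIR i h)), Function.update_of_ne]
    rintro rfl
    exact hi hyR
  have hcc := hc X X' (fun i hi => by
      rw [hX2 i (fun h => hi (hIS i h)), Function.update_of_ne, hx i hi]
      rintro rfl
      exact hi hyS) (fun i hi => by
      rw [hX'2 i (fun h => hi (hIS i h)), Function.update_of_ne, hx' i hi]
      rintro rfl
      exact hi hyS) (mul_ne_zero hX (by rw [k2]; exact h4)) (mul_ne_zero hX' (by rw [k1]; exact h3))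
  -- the relevant coordinates
  have key : ∀ t ∈ R ∪ T, t ∉ I → t ≠ y → x' t ≤ x t + M := by
    intro t ht htI hty
    have h5 := hcc t ht (fun htR htS => htI (Finset.mem_erase.2 ⟨hty, Finset.mem_inter.2 ⟨htS, htR⟩⟩))
    rw [hX'2 t htI, hX2 t htI, Function.update_of_ne hty, Function.update_of_ne hty] at h5
    exact h5
  have main : lmg Fi I (Function.update x' y (r1 + M)) * lmg Fi I (Function.update x y r2) ≤
      lmg Fi I (Function.update x' y (r2 + M)) * lmg Fi I (Function.update x y r1) := by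
    have e1 : lmg Fi I (Function.update x' y (r1 + M)) =
        lmg Fi I (Function.update (fun i => x' i + -M) y r1) := by
      rw [← hb_shift hsh I (Function.update x' y (r1 + M)) (-M)]
      congr 1
      funext i
      by_cases hi : i = y
      · rw [hi]; simp
      · simp [hi]
    have e2 : lmg Fi I (Function.update x' y (r2 + M)) =
        lmg Fi I (Function.update (fun i => x' i + -M) y r2) := by
      rw [← hb_shift hsh I (Function.update x' y (r2 + M)) (-M)]
      congr 1
      funext i
      by_cases hi : i = y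
      · rw [hi]; simp
      · simp [hi]
    have e3 := four_lmg hi hi hi hi hmtp I (Function.update (fun i => x' i + -M) y r1)
      (Function.update x y r2)
    rw [e1, e2]
    refine e3.trans (le_of_eq ?_)
    rw [mul_comm]
    congr 1
    · refine hb_loc (R ∪ T) hloc I fun i hi hiI => ?_
      rw [Pi.inf_apply]
      by_cases hiy : i = y
      · rw [hiy, Function.update_self, Function.update_self, Function.update_self]
        exact min_eq_right hr
      · rw [Function.update_of_ne hiy, Function.update_of_ne hiy, Function.update_of_ne hiy]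
        exact min_eq_left (by linarith [key i hi hiI hiy])
    · refine hb_loc (R ∪ T) hloc I fun i hi hiI => ?_
      rw [Pi.sup_apply]
      by_cases hiy : i = y
      · rw [hiy, Function.update_self, Function.update_self, Function.update_self]
        exact max_eq_left hr
      · rw [Function.update_of_ne hiy, Function.update_of_ne hiy, Function.update_of_ne hiy]
        exact max_eq_right (by linarith [key i hi hiI hiy])
  calc Fo' x' * lmg Fi I (Function.update x' y (r1 + M)) *
        (Fo x * lmg Fi I (Function.update x y r2)) =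
      Fo' x' * Fo x * (lmg Fi I (Function.update x' y (r1 + M)) *
        lmg Fi I (Function.update x y r2)) := by ring
    _ ≤ Fo' x' * Fo x * (lmg Fi I (Function.update x' y (r2 + M)) *
        lmg Fi I (Function.update x y r1)) := by gcongr
    _ = _ := by ring

/-- the splitting of the integral -/
theorem hb_split {A : Type} [Fintype A] [DecidableEq A] {Fi Fo : (A → ℝ) → ENNReal}
    (hi : Measurable Fi) (ho : Measurable Fo) (R S : Finset A) {y : A} (hyR : y ∈ R)
    (hout : ∀ x x' : A → ℝ, (∀ i ∉ R, x i = x' i) → Fo x = Fo x') (b : A → ℝ) (r : ℝ) :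
    lmg (fun x => Fi x * Fo x) (S.erase y) (Function.update b y r) =
      ∫⁻ τ : (S \ R : Finset A) → ℝ, Fo (Function.updateFinset b (S \ R) τ) *
        lmg Fi ((S ∩ R).erase y) (Function.update (Function.updateFinset b (S \ R) τ) y r) := by
  have hE : S.erase y = ((S ∩ R).erase y) ∪ (S \ R) := by
    ext i
    rw [Finset.mem_union, Finset.mem_erase, Finset.mem_erase, Finset.mem_inter, Finset.mem_sdiff]
    constructor
    · rintro ⟨h1, h2⟩
      by_cases h3 : i ∈ R
      · exact Or.inl ⟨h1, h2, h3⟩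
      · exact Or.inr ⟨h2, h3⟩
    · rintro (⟨h1, h2, -⟩ | ⟨h1, h2⟩)
      · exact ⟨h1, h2⟩
      · refine ⟨?_, h1⟩
        rintro rfl
        exact h2 hyR
  have hd : Disjoint ((S ∩ R).erase y) (S \ R) := by
    rw [Finset.disjoint_left]
    intro i h1 h2
    exact (Finset.mem_sdiff.1 h2).2 (Finset.mem_inter.1 (Finset.mem_of_mem_erase h1)).2
  have hyE : y ∉ S \ R := fun h => (Finset.mem_sdiff.1 h).2 hyR
  have hm : Measurable (fun x => Fi x * Fo x) := hi.mul ho
  rw [hE, lmg_union hm hd]
  show ∫⁻ τ : (S \ R : Finset A) → ℝ, lmg (fun x => Fi x * Fo x) ((S ∩ R).erase y)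
    (Function.updateFinset (Function.update b y r) (S \ R) τ) = _
  refine lintegral_congr fun τ => ?_
  have e1 : Function.updateFinset (Function.update b y r) (S \ R) τ =
      Function.update (Function.updateFinset b (S \ R) τ) y r := by
    funext i
    by_cases hiy : i = y
    · rw [hiy, Function.update_self, Function.updateFinset_def]
      simp only [hyE, dite_false]
      rw [Function.update_self]
    · rw [Function.update_of_ne hiy, Function.updateFinset_def, Function.updateFinset_def]
      by_cases h : i ∈ S \ R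
      · simp only [h, dite_true]
      · simp only [h, dite_false]
        rw [Function.update_of_ne hiy]
  rw [e1]
  have e2 : (fun x => Fi x * Fo x) = fun x => Fo x * Fi x := by
    funext x
    rw [mul_comm]
  rw [e2, lmg_mul hi ((S ∩ R).erase y) (fun x z h => hout x z fun i hi => h i (fun h' =>
    hi (Finset.mem_inter.1 (Finset.mem_of_mem_erase h')).2))]
  congr 1
  refine hout _ _ fun i hi => ?_
  rw [Function.update_of_ne]
  rintro rfl
  exact hi hyR

/-- Lemma H2, abstract form: comparison of marginals -/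
theorem cmp {A : Type} [Fintype A] [DecidableEq A] {Fi Fo Fo' : (A → ℝ) → ENNReal}
    (hi : Measurable Fi) (ho : Measurable Fo) (ho' : Measurable Fo') (R T S : Finset A) {y : A}
    (hyR : y ∈ R) (hyS : y ∈ S) (hmtp : ∀ x x', Fi x * Fi x' ≤ Fi (x ⊔ x') * Fi (x ⊓ x'))
    (hsh : ∀ (x : A → ℝ) (M : ℝ), Fi (fun i => x i + M) = Fi x)
    (hloc : ∀ x x' : A → ℝ, (∀ i ∈ R ∪ T, x i = x' i) → Fi x = Fi x')
    (hout : ∀ x x' : A → ℝ, (∀ i ∉ R, x i = x' i) → Fo x = Fo x')
    (hout' : ∀ x x' : A → ℝ, (∀ i ∉ R, x i = x' i) → Fo' x = Fo' x') {b b' : A → ℝ} {M : ℝ}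
    (hc : ∀ x x' : A → ℝ, (∀ i ∉ S, x i = b i) → (∀ i ∉ S, x' i = b' i) → Fi x * Fo x ≠ 0 →
      Fi x' * Fo' x' ≠ 0 → ∀ t ∈ R ∪ T, (t ∈ R → t ∉ S) → x' t ≤ x t + M)
    {r1 r2 : ℝ} (hr : r2 ≤ r1) :
    lmg (fun x => Fi x * Fo' x) (S.erase y) (Function.update b' y (r1 + M)) *
        lmg (fun x => Fi x * Fo x) (S.erase y) (Function.update b y r2) ≤
      lmg (fun x => Fi x * Fo' x) (S.erase y) (Function.update b' y (r2 + M)) *
        lmg (fun x => Fi x * Fo x) (S.erase y) (Function.update b y r1) := by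
  rw [hb_split hi ho' R S hyR hout', hb_split hi ho R S hyR hout, hb_split hi ho' R S hyR hout',
    hb_split hi ho R S hyR hout]
  have hmeas : ∀ (G : (A → ℝ) → ENNReal), Measurable G → ∀ (c : A → ℝ) (r : ℝ),
      Measurable fun τ : (S \ R : Finset A) → ℝ => G (Function.updateFinset c (S \ R) τ) *
        lmg Fi ((S ∩ R).erase y) (Function.update (Function.updateFinset c (S \ R) τ) y r) := by
    intro G hG c r
    have h1 : Measurable fun τ : (S \ R : Finset A) → ℝ => Function.updateFinset c (S \ R) τ :=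
      measurable_updateFinset
    refine (hG.comp h1).mul ((lmg_meas hi _).comp ?_)
    refine measurable_pi_iff.2 fun i => ?_
    by_cases hi' : i = y
    · rw [hi']
      simp only [Function.update_self]
      exact measurable_const
    · simp only [Function.update_of_ne hi']
      exact (measurable_pi_apply i).comp h1
  rw [← lintegral_lintegral_mul (hmeas Fo' ho' b' (r1 + M)).aemeasurable
      (hmeas Fo ho b r2).aemeasurable,
    ← lintegral_lintegral_mul (hmeas Fo' ho' b' (r2 + M)).aemeasurable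
      (hmeas Fo ho b r1).aemeasurable]
  refine lintegral_mono fun τ' => lintegral_mono fun τ => ?_
  refine hb_pt hi R T S hyR hyS hmtp hsh hloc hout hout' hc hr ?_ ?_
  · intro i hi
    rw [Function.updateFinset_def]
    have h : i ∉ S \ R := fun h => hi (Finset.mem_sdiff.1 h).1
    simp only [h, dite_false]
  · intro i hi
    rw [Function.updateFinset_def]
    have h : i ∉ S \ R := fun h => hi (Finset.mem_sdiff.1 h).1
    simp only [h, dite_false]

end HK
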