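import Mathlib
import Pool.Agent.Lib_helper12.HK.DefsH
import Pool.Agent.Lib_helper12.HK.W.ab
import Pool.Agent.Lib_helper12.HK.W.ag
import Pool.Agent.Lib_helper12.HK.W.ba
import Pool.Agent.Lib_helper12.HK.W.bb
import Pool.Agent.Lib_helper12.HK.W.bc
import Pool.Agent.Lib_helper12.HK.W.gc
import Pool.Agent.Lib_helper12.HK.W.ge
import Pool.Agent.Lib_helper12.HK.W.ha
import Pool.Agent.Lib_helper12.HK.W.hb
import Pool.Agent.Lib_helper69.HKL.W.mb

set_option autoImplicit false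

namespace HK

open MeasureTheory QG

open Classical in
/-- the cells with a corner in `R` -/
noncomputable def hc_C (n : ℕ) [NeZero n] (R : Finset (Ev n)) : Finset (Od n) :=
  Finset.univ.filter fun v => ∃ i, cn n v i ∈ R

open Classical in
/-- the corners outside `R` of these cells -/
noncomputable def hc_T (n : ℕ) [NeZero n] (R : Finset (Ev n)) : Finset (Ev n) :=
  Finset.univ.filter fun t => t ∉ R ∧ ∃ v i j, cn n v i ∈ R ∧ cn n v j = t

/-- the inner product -/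
noncomputable def hc_in (n : ℕ) [NeZero n] (R : Finset (Ev n)) (a : Ev n → ℝ) : ℝ :=
  ∏ v ∈ hc_C n R, wh (loc (cn n) a v)

open Classical in
/-- the outer product -/
noncomputable def hc_out (n : ℕ) [NeZero n] (R : Finset (Ev n)) (a : Ev n → ℝ) : ℝ :=
  ∏ v ∈ Finset.univ \ hc_C n R, wh (loc (cn n) a v)

theorem hc_meas_loc (n : ℕ) [NeZero n] (v : Od n) :
    Measurable fun a : Ev n → ℝ => wh (loc (cn n) a v) := by
  apply wh_cont.measurable.comp
  apply measurable_pi_lambda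
  intro i
  exact measurable_pi_apply _

theorem hc_in_meas (n : ℕ) [NeZero n] (R : Finset (Ev n)) : Measurable (hc_in n R) := by
  unfold hc_in
  exact Finset.measurable_fun_prod _ fun v _ => hc_meas_loc n v

theorem hc_out_meas (n : ℕ) [NeZero n] (R : Finset (Ev n)) : Measurable (hc_out n R) := by
  classical
  unfold hc_out
  exact Finset.measurable_fun_prod _ fun v _ => hc_meas_loc n v

theorem hc_in_nonneg (n : ℕ) [NeZero n] (R : Finset (Ev n)) (a : Ev n → ℝ) : 0 ≤ hc_in n R a :=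
  Finset.prod_nonneg fun _ _ => (wh_basic _).1

theorem hc_out_nonneg (n : ℕ) [NeZero n] (R : Finset (Ev n)) (a : Ev n → ℝ) :
    0 ≤ hc_out n R a := by
  classical
  exact Finset.prod_nonneg fun _ _ => (wh_basic _).1

theorem hc_fh (n : ℕ) [NeZero n] (R : Finset (Ev n)) (a : Ev n → ℝ) :
    fh n a = hc_in n R a * (hc_out n R a / Zt wh (cn n) (pp n) 0) := by
  classical
  unfold fh wt hc_in hc_out
  have h1 : dot (0 : Ev n → ℝ) a = 0 := by simp [dot]
  rw [h1, Real.exp_zero, mul_one, ← mul_div_assoc]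
  congr 1
  exact ((mul_comm _ _).trans (Finset.prod_sdiff (Finset.subset_univ _))).symm

theorem hc_in_mtp (n : ℕ) [NeZero n] (R : Finset (Ev n)) (x x' : Ev n → ℝ) :
    hc_in n R x * hc_in n R x' ≤ hc_in n R (x ⊔ x') * hc_in n R (x ⊓ x') := by
  unfold hc_in
  rw [← Finset.prod_mul_distrib, ← Finset.prod_mul_distrib]
  apply Finset.prod_le_prod
  · intro v _
    exact mul_nonneg (wh_basic _).1 (wh_basic _).1
  · intro v _
    exact wh_mtp2 _ _

/-- Lemma H2: comparison of the quantiles at the site `y` -/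
theorem q_cmp (n : ℕ) [NeZero n] (hn : 2 ≤ n) {f1 f2 V1 V2 : (Ev n → ℝ) → ℝ}
    {D1 D2 : Ev n → (Ev n → ℝ) → ℝ} (h1 : Reg (pp n) f1 D1) (h2 : Reg (pp n) f2 D2)
    (e1 : ∀ a, f1 a = fh n a * V1 a) (e2 : ∀ a, f2 a = fh n a * V2 a) (v1 : Measurable V1)
    (v2 : Measurable V2) (w1 : ∀ a, 0 ≤ V1 a) (w2 : ∀ a, 0 ≤ V2 a) {R S : Finset (Ev n)}
    (hR : pp n ∉ R) (hS : pp n ∉ S)
    (l1 : ∀ x x' : Ev n → ℝ, (∀ i ∉ R, x i = x' i) → V1 x = V1 x')
    (l2 : ∀ x x' : Ev n → ℝ, (∀ i ∉ R, x i = x' i) → V2 x = V2 x') {y : Ev n} (hyR : y ∈ R)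
    (hyS : y ∈ S) {b1 b2 : Ev n → ℝ} (z1 : b1 (pp n) = 0) (z2 : b2 (pp n) = 0)
    (p1 : 0 < mg f1 S b1) (p2 : 0 < mg f2 S b2) {M : ℝ}
    (hs : ∀ t ∈ R, t ∉ S → b2 t ≤ b1 t + M)
    (ht : ∀ (v : Od n) (i j : Fin 4), cn n v i ∈ R → cn n v j ∉ R →
      ∃ k : Ev n, k ∉ S ∧ ∃ s1 s2 : ℤ,
        (cn n v j).1 = k.1 + ((s1 : ZMod (2 * n)), (s2 : ZMod (2 * n))) ∧
        b2 k - b1 k + 2 * (|(s1 : ℝ)| + |(s2 : ℝ)|) ≤ M) {u : ℝ} (hu : u ∈ Set.Ioo (0 : ℝ) 1) :
    qt (cde f2 S b2 y) u ≤ qt (cde f1 S b1 y) u + M := by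
  classical
  have hZ : 0 < Zt wh (cn n) (pp n) 0 := (wt_int_h n (pp n)).2
  set Z := Zt wh (cn n) (pp n) 0 with hZdef
  set Fi : (Ev n → ℝ) → ENNReal := fun a => ENNReal.ofReal (hc_in n R a) with hFi
  set G1 : (Ev n → ℝ) → ENNReal := fun a => ENNReal.ofReal (hc_out n R a / Z * V1 a) with hG1
  set G2 : (Ev n → ℝ) → ENNReal := fun a => ENNReal.ofReal (hc_out n R a / Z * V2 a) with hG2
  have eF1 : (fun x => Fi x * G1 x) = fun x => ENNReal.ofReal (f1 x) := by
    funext x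
    rw [hFi, hG1]
    simp only
    rw [← ENNReal.ofReal_mul (hc_in_nonneg n R x), e1, hc_fh n R x, ← hZdef, mul_assoc]
  have eF2 : (fun x => Fi x * G2 x) = fun x => ENNReal.ofReal (f2 x) := by
    funext x
    rw [hFi, hG2]
    simp only
    rw [← ENNReal.ofReal_mul (hc_in_nonneg n R x), e2, hc_fh n R x, ← hZdef, mul_assoc]
  have hmFi : Measurable Fi := (hc_in_meas n R).ennreal_ofReal
  have hmG1 : Measurable G1 := (((hc_out_meas n R).div_const Z).mul v1).ennreal_ofReal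
  have hmG2 : Measurable G2 := (((hc_out_meas n R).div_const Z).mul v2).ennreal_ofReal
  have hmtp : ∀ x x', Fi x * Fi x' ≤ Fi (x ⊔ x') * Fi (x ⊓ x') := by
    intro x x'
    rw [hFi]
    simp only
    rw [← ENNReal.ofReal_mul (hc_in_nonneg n R _), ← ENNReal.ofReal_mul (hc_in_nonneg n R _)]
    exact ENNReal.ofReal_le_ofReal (hc_in_mtp n R x x')
  have hsh : ∀ (x : Ev n → ℝ) (M : ℝ), Fi (fun i => x i + M) = Fi x := by
    intro x M
    rw [hFi]
    simp only
    congr 1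
    unfold hc_in
    apply Finset.prod_congr rfl
    intro v _
    exact (wh_basic (loc (cn n) x v)).2.2.1 M
  have hloc : ∀ x x' : Ev n → ℝ, (∀ i ∈ R ∪ hc_T n R, x i = x' i) → Fi x = Fi x' := by
    intro x x' h
    rw [hFi]
    simp only
    congr 1
    unfold hc_in
    apply Finset.prod_congr rfl
    intro v hv
    congr 1
    funext j
    apply h
    obtain ⟨i, hi⟩ := (Finset.mem_filter.1 hv).2
    rw [Finset.mem_union]
    by_cases hj : cn n v j ∈ R
    · exact Or.inl hj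
    · exact Or.inr (Finset.mem_filter.2 ⟨Finset.mem_univ _, hj, v, i, j, hi, rfl⟩)
  have houtp : ∀ x x' : Ev n → ℝ, (∀ i ∉ R, x i = x' i) → hc_out n R x = hc_out n R x' := by
    intro x x' h
    unfold hc_out
    apply Finset.prod_congr rfl
    intro v hv
    congr 1
    funext j
    apply h
    intro hj
    exact (Finset.mem_sdiff.1 hv).2 (Finset.mem_filter.2 ⟨Finset.mem_univ _, j, hj⟩)
  have hout1 : ∀ x x' : Ev n → ℝ, (∀ i ∉ R, x i = x' i) → G1 x = G1 x' := by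
    intro x x' h
    rw [hG1]
    simp only
    rw [houtp x x' h, l1 x x' h]
  have hout2 : ∀ x x' : Ev n → ℝ, (∀ i ∉ R, x i = x' i) → G2 x = G2 x' := by
    intro x x' h
    rw [hG2]
    simp only
    rw [houtp x x' h, l2 x x' h]
  have pos1 : ∀ x, Fi x * G1 x ≠ 0 → 0 < fh n x := by
    intro x hx
    have : ENNReal.ofReal (f1 x) ≠ 0 := by rw [← congrFun eF1 x]; exact hx
    have h3 : 0 < f1 x := by
      by_contra hcon
      exact this (ENNReal.ofReal_of_nonpos (not_lt.1 hcon))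
    rw [e1] at h3
    by_contra hcon
    have := mul_nonpos_of_nonpos_of_nonneg (not_lt.1 hcon) (w1 x)
    linarith
  have pos2 : ∀ x, Fi x * G2 x ≠ 0 → 0 < fh n x := by
    intro x hx
    have : ENNReal.ofReal (f2 x) ≠ 0 := by rw [← congrFun eF2 x]; exact hx
    have h3 : 0 < f2 x := by
      by_contra hcon
      exact this (ENNReal.ofReal_of_nonpos (not_lt.1 hcon))
    rw [e2] at h3
    by_contra hcon
    have := mul_nonpos_of_nonpos_of_nonneg (not_lt.1 hcon) (w2 x)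
    linarith
  have hc : ∀ x x' : Ev n → ℝ, (∀ i ∉ S, x i = b1 i) → (∀ i ∉ S, x' i = b2 i) →
      Fi x * G1 x ≠ 0 → Fi x' * G2 x' ≠ 0 → ∀ t ∈ R ∪ hc_T n R, (t ∈ R → t ∉ S) →
      x' t ≤ x t + M := by
    intro x x' hx hx' hp hp' t htt htR
    by_cases htr : t ∈ R
    · have h3 := htR htr
      rw [hx t h3, hx' t h3]
      exact hs t htr h3
    · have h3 : t ∈ hc_T n R := by
        rcases Finset.mem_union.1 htt with h | h
        · exact absurd h htr
        · exact h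
      obtain ⟨_, v, i, j, hi, rfl⟩ := (Finset.mem_filter.1 h3).2
      obtain ⟨k, hkS, s1, s2, hk, hM⟩ := ht v i j hi htr
      have l3 := lip n (pos1 x hp) s1 s2 hk
      have l4 := lip n (pos2 x' hp') s1 s2 hk
      rw [hx k hkS] at l3
      rw [hx' k hkS] at l4
      have l5 := (abs_le.1 l3).1
      have l6 := (abs_le.1 l4).2
      linarith
  have hyp : y ≠ pp n := fun h => hS (h ▸ hyS)
  have hSe : pp n ∉ S.erase y := fun h => hS (Finset.mem_of_mem_erase h)
  have zu1 : ∀ r : ℝ, Function.update b1 y r (pp n) = 0 := by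
    intro r
    rw [Function.update_of_ne hyp.symm, z1]
  have zu2 : ∀ r : ℝ, Function.update b2 y r (pp n) = 0 := by
    intro r
    rw [Function.update_of_ne hyp.symm, z2]
  have key : ∀ r1 r2 : ℝ, r2 ≤ r1 →
      mg f2 (S.erase y) (Function.update b2 y (r1 + M)) *
        mg f1 (S.erase y) (Function.update b1 y r2) ≤
      mg f2 (S.erase y) (Function.update b2 y (r2 + M)) *
        mg f1 (S.erase y) (Function.update b1 y r1) := by
    intro r1 r2 hr
    have h3 := cmp hmFi hmG1 hmG2 R (hc_T n R) S hyR hyS hmtp hsh hloc hout1 hout2 hc hr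
    rw [eF1, eF2] at h3
    obtain ⟨a1, a2⟩ := mg_eq_lmg h2 hSe (zu2 (r1 + M))
    obtain ⟨a3, a4⟩ := mg_eq_lmg h1 hSe (zu1 r2)
    obtain ⟨a5, a6⟩ := mg_eq_lmg h2 hSe (zu2 (r2 + M))
    obtain ⟨a7, a8⟩ := mg_eq_lmg h1 hSe (zu1 r1)
    rw [a1, a3, a5, a7, ← ENNReal.ofReal_mul a2, ← ENNReal.ofReal_mul a6,
      ENNReal.ofReal_le_ofReal_iff (mul_nonneg a6 a8)] at h3
    exact h3
  refine qt_le (cde_dn h1 hS hyS z1 p1) (cde_dn h2 hS hyS z2 p2) ?_ hu
  intro r1 r2 hr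
  unfold cde
  have h3 := key r1 r2 hr
  rw [div_mul_div_comm, div_mul_div_comm]
  exact div_le_div_of_nonneg_right h3 (mul_pos p2 p1).le

end HK
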