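import Mathlib
import Pool.Agent.Lib_helper12.HK.DefsH

set_option autoImplicit false

namespace HK

open MeasureTheory QG

theorem hd_dir (n : ℕ) (i : Fin 4) :
    dir n i = (((dz i).1 : ZMod (2 * n)), ((dz i).2 : ZMod (2 * n))) := by
  fin_cases i <;> simp [dir, dz]

theorem hd_dz (i : Fin 4) : |(dz i).1| ≤ 1 ∧ |(dz i).2| ≤ 1 := by
  fin_cases i <;> simp [dz]

/-- the box index of an integer near the box of `0` -/
theorem hd_box {m : ℤ} (hm : 2 ≤ m) {t : ℤ} (h1 : -m - 1 ≤ t) (h2 : t ≤ m + 2) :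
    ∃ c s' : ℤ, |c| ≤ 1 ∧ -m < s' ∧ s' ≤ m ∧ t = 2 * m * c + s' := by
  by_cases ha : m < t
  · exact ⟨1, t - 2 * m, by norm_num, by linarith, by linarith, by ring⟩
  · by_cases hb : t ≤ -m
    · exact ⟨-1, t + 2 * m, by norm_num, by linarith, by linarith, by ring⟩
    · exact ⟨0, t, by norm_num, by linarith, by linarith, by ring⟩

/-- the corners outside the boxes of `O` of a cell with a corner in the boxes of `O` -/
theorem bxs_nb (n m : ℕ) [NeZero n] (hm : 2 ≤ m) (O : Set (ℤ × ℤ)) (v : Od n) (i j : Fin 4)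
    (hi : cn n v i ∈ bxs n m O) (hj : cn n v j ∉ bxs n m O) :
    ∃ k' : ℤ × ℤ, k' ∉ O ∧ (∃ k ∈ O, di k k' ≤ 1) ∧ ∃ s1 s2 : ℤ, |s1| + |s2| ≤ 2 * m ∧
      (cn n v j).1 = (ke n m k').1 + ((s1 : ZMod (2 * n)), (s2 : ZMod (2 * n))) := by
  obtain ⟨k, hk, s1, s2, h1, h2, h3, h4, h5⟩ := hi
  have hm' : (2 : ℤ) ≤ m := by exact_mod_cast hm
  set e1 : ℤ := (dz j).1 - (dz i).1 with he1
  set e2 : ℤ := (dz j).2 - (dz i).2 with he2
  have hz := hd_dz i
  have hz' := hd_dz j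
  have hb1 : |e1| ≤ 2 := by
    rw [he1]
    have := abs_sub (dz j).1 (dz i).1
    linarith [hz.1, hz'.1]
  have hb2 : |e2| ≤ 2 := by
    rw [he2]
    have := abs_sub (dz j).2 (dz i).2
    linarith [hz.2, hz'.2]
  have hcn : (cn n v j).1 = (ke n m k).1 +
      (((s1 + e1 : ℤ) : ZMod (2 * n)), ((s2 + e2 : ℤ) : ZMod (2 * n))) := by
    have e0 : (cn n v j).1 = (cn n v i).1 - dir n i + dir n j := by
      simp only [cn]
      abel
    rw [e0, h5, hd_dir, hd_dir, he1, he2]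
    ext
    · simp only [Prod.fst_add, Prod.fst_sub]
      push_cast
      ring
    · simp only [Prod.snd_add, Prod.snd_sub]
      push_cast
      ring
  rw [abs_le] at hb1 hb2
  obtain ⟨c1, t1, hc1, ha1, hb1', ht1⟩ := hd_box hm' (t := s1 + e1) (by linarith) (by linarith)
  obtain ⟨c2, t2, hc2, ha2, hb2', ht2⟩ := hd_box hm' (t := s2 + e2) (by linarith) (by linarith)
  have hcn' : (cn n v j).1 = (ke n m (k.1 + c1, k.2 + c2)).1 +
      ((t1 : ZMod (2 * n)), (t2 : ZMod (2 * n))) := by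
    rw [hcn, ht1, ht2]
    ext
    · simp only [Prod.fst_add, ke]
      push_cast
      ring
    · simp only [Prod.snd_add, ke]
      push_cast
      ring
  refine ⟨(k.1 + c1, k.2 + c2), ?_, ⟨k, hk, ?_⟩, t1, t2, ?_, hcn'⟩
  · intro hO
    exact hj ⟨_, hO, t1, t2, ha1, hb1', ha2, hb2', hcn'⟩
  · unfold di
    rw [abs_le] at hc1 hc2
    simp only
    omega
  · have h6 : |t1| ≤ m := abs_le.mpr ⟨ha1.le, hb1'⟩
    have h7 : |t2| ≤ m := abs_le.mpr ⟨ha2.le, hb2'⟩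
    linarith

/-- coordinates in the planar box -/
theorem hd_Lam {n m : ℕ} (hm : 2 ≤ m) {k : ℤ × ℤ} (hk : k ∈ Lam n m) :
    (-(n : ℤ) ≤ 4 * (2 * m * k.1) ∧ 4 * (2 * m * k.1) ≤ 5 * n) ∧
      (-(n : ℤ) ≤ 4 * (2 * m * k.2) ∧ 4 * (2 * m * k.2) ≤ 5 * n) := by
  simp only [Lam, Finset.mem_product, Finset.mem_Icc] at hk
  have h1 : (8 * m : ℕ) * (n / (8 * m)) ≤ n := Nat.mul_div_le n (8 * m)
  have h2 : (8 * m : ℕ) * (5 * n / (8 * m)) ≤ 5 * n := Nat.mul_div_le (5 * n) (8 * m)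
  have h1' : (8 * m : ℤ) * ((n / (8 * m) : ℕ) : ℤ) ≤ n := by exact_mod_cast h1
  have h2' : (8 * m : ℤ) * ((5 * n / (8 * m) : ℕ) : ℤ) ≤ 5 * n := by exact_mod_cast h2
  have hm0 : (0 : ℤ) ≤ 8 * m := by positivity
  obtain ⟨⟨ha, hb⟩, hc, hd⟩ := hk
  have e1 := mul_le_mul_of_nonneg_left ha hm0
  have e2 := mul_le_mul_of_nonneg_left hb hm0
  have e3 := mul_le_mul_of_nonneg_left hc hm0
  have e4 := mul_le_mul_of_nonneg_left hd hm0
  refine ⟨⟨?_, ?_⟩, ?_, ?_⟩ <;> nlinarith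

/-- equal residues of close integers -/
theorem hd_eq {n : ℕ} {a b : ℤ} (h : (a : ZMod (2 * n)) = (b : ZMod (2 * n)))
    (h1 : |a - b| < 2 * n) : a = b := by
  have h2 : ((2 * n : ℕ) : ℤ) ∣ a - b := by
    have := (ZMod.intCast_eq_intCast_iff_dvd_sub b a (2 * n)).mp h.symm
    exact this
  have h3 := Int.eq_zero_of_abs_lt_dvd h2 (by push_cast; exact h1)
  linarith

theorem ke_bxs (n m : ℕ) [NeZero n] (hb : 64 * m * (R0 + 10) ≤ n) (hm : 2 ≤ m)
    {O : Set (ℤ × ℤ)} (hO : ∀ k ∈ O, k ∈ Lam n m) {k : ℤ × ℤ} (hk : k ∈ Lam n m) :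
    ke n m k ∈ bxs n m O ↔ k ∈ O := by
  have hb' : (64 : ℤ) * m ≤ n := by
    have : 64 * m ≤ n := le_trans (Nat.le_mul_of_pos_right _ (by omega)) hb
    exact_mod_cast this
  have hm' : (2 : ℤ) ≤ m := by exact_mod_cast hm
  constructor
  · rintro ⟨k', hk', s1, s2, h1, h2, h3, h4, h5⟩
    have hL := hd_Lam hm hk
    have hL' := hd_Lam hm (hO k' hk')
    have g1 := congrArg Prod.fst h5
    have g2 := congrArg Prod.snd h5
    simp only [ke, Prod.fst_add, Prod.snd_add] at g1 g2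
    rw [← Int.cast_add] at g1 g2
    have q1 := hd_eq g1 (by rw [abs_lt]; constructor <;> linarith [hL.1.1, hL.1.2, hL'.1.1, hL'.1.2])
    have q2 := hd_eq g2 (by rw [abs_lt]; constructor <;> linarith [hL.2.1, hL.2.2, hL'.2.1, hL'.2.2])
    have r1 : k.1 = k'.1 := by
      by_contra hne
      rcases lt_or_gt_of_ne hne with h | h
      · nlinarith
      · nlinarith
    have r2 : k.2 = k'.2 := by
      by_contra hne
      rcases lt_or_gt_of_ne hne with h | h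
      · nlinarith
      · nlinarith
    have : k = k' := Prod.ext r1 r2
    rw [this]
    exact hk'
  · intro h
    refine ⟨k, h, 0, 0, by linarith, by linarith, by linarith, by linarith, ?_⟩
    simp

theorem pp_bxs (n m : ℕ) [NeZero n] (hb : 64 * m * (R0 + 10) ≤ n) (hm : 2 ≤ m)
    {O : Set (ℤ × ℤ)} (hO : ∀ k ∈ O, k ∈ Lam n m) : pp n ∉ bxs n m O := by
  rintro ⟨k, hk, s1, s2, h1, h2, h3, h4, h5⟩
  have hb' : (64 : ℤ) * m ≤ n := by
    have : 64 * m ≤ n := le_trans (Nat.le_mul_of_pos_right _ (by omega)) hb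
    exact_mod_cast this
  have hm' : (2 : ℤ) ≤ m := by exact_mod_cast hm
  have hL := hd_Lam hm (hO k hk)
  have g1 := congrArg Prod.fst h5
  simp only [pp, dg, ke, Prod.fst_add] at g1
  rw [← Int.cast_add] at g1
  have g1' : (((n + n / 2 : ℕ) : ℤ) : ZMod (2 * n)) = ((2 * m * k.1 + s1 : ℤ) : ZMod (2 * n)) := by
    rw [← g1]
    exact Int.cast_natCast _
  have hn2 : (n : ℤ) - 1 ≤ 2 * ((n / 2 : ℕ) : ℤ) ∧ 2 * ((n / 2 : ℕ) : ℤ) ≤ n := by
    constructor <;> omega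
  have q1 := hd_eq g1' (by
    rw [abs_lt]
    push_cast at hn2 ⊢
    constructor <;> linarith [hL.1.1, hL.1.2, hn2.1, hn2.2])
  push_cast at q1 hn2
  linarith [hL.1.1, hL.1.2, hn2.1, hn2.2]

end HK
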