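import Mathlib
import Pool.Agent.Lib_helper12.HK.DefsH

set_option autoImplicit false

namespace HK

open MeasureTheory QG

theorem cl_mono {B B' : Set (ℤ × ℤ)} (h : B ⊆ B') {z : ℤ × ℤ} {ρ ρ' : ℕ} (hρ : ρ ≤ ρ')
    {x : ℤ × ℤ} (hx : Cl B z ρ' x) : Cl B' z ρ x := by
  induction hx with
  | base h1 => exact Cl.base (hρ.trans h1)
  | step _ h2 h3 ih => exact Cl.step ih (h h2) h3

theorem cl_stable {B B' : Set (ℤ × ℤ)} {z : ℤ × ℤ} {ρ : ℕ}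
    (h : ∀ x, Cl B z ρ x → x ∈ B' → x ∈ B) {x : ℤ × ℤ} (hx : Cl B' z ρ x) : Cl B z ρ x := by
  induction hx with
  | base h1 => exact Cl.base h1
  | step _ h2 h3 ih => exact Cl.step ih (h _ ih h2) h3

theorem oc_congr {B B' : Set (ℤ × ℤ)} {z : ℤ × ℤ} {ρ : ℕ} (h : ∀ x, Cl B z ρ x ↔ Cl B' z ρ x) :
    Oc B z ρ = Oc B' z ρ ∧ Gam B z ρ = Gam B' z ρ := by
  have h1 : Oc B z ρ = Oc B' z ρ := by
    have e : {x | ¬ Cl B z ρ x} = {x | ¬ Cl B' z ρ x} := by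
      ext x
      simp only [Set.mem_setOf_eq, h x]
    unfold Oc
    rw [e]
  refine ⟨h1, ?_⟩
  unfold Gam
  rw [h1]
  ext x
  simp only [Set.mem_setOf_eq, h x]

/-- the vertices of `Oc` are not in the closure -/
theorem oc_not {B : Set (ℤ × ℤ)} {z : ℤ × ℤ} {ρ : ℕ} (hz : ¬ Cl B z ρ z) {k : ℤ × ℤ}
    (hk : k ∈ Oc B z ρ) : ¬ Cl B z ρ k ∧ di z k < ρ := by
  have h1 : ¬ Cl B z ρ k := by
    have hk' : Relation.ReflTransGen (st {x | ¬ Cl B z ρ x}) z k := hk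
    rcases Relation.ReflTransGen.cases_tail hk' with h | ⟨b, _, h⟩
    · rw [h]
      exact hz
    · exact h.2.2
  refine ⟨h1, ?_⟩
  by_contra h
  exact h1 (Cl.base (not_lt.mp h))

/-- a neighbour of `Oc` outside `Oc` is in the circuit -/
theorem oc_nb {B : Set (ℤ × ℤ)} {z : ℤ × ℤ} {ρ : ℕ} (hz : ¬ Cl B z ρ z) {k k' : ℤ × ℤ}
    (hk : k ∈ Oc B z ρ) (h : di k k' ≤ 1) (hk' : k' ∉ Oc B z ρ) : k' ∈ Gam B z ρ := by
  refine ⟨?_, k, hk, h⟩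
  by_contra hc
  refine hk' ?_
  have hk1 : Relation.ReflTransGen (st {x | ¬ Cl B z ρ x}) z k := hk
  exact Relation.ReflTransGen.tail hk1 ⟨h, (oc_not hz hk).1, hc⟩

/-- the first exit from `Oc` -/
theorem oc_exit {B : Set (ℤ × ℤ)} {z : ℤ × ℤ} {ρ : ℕ} (hz : ¬ Cl B z ρ z) {k c : ℤ × ℤ}
    (hk : k ∈ Oc B z ρ) (hc : Cl B z ρ c) : ∃ g ∈ Gam B z ρ, di k g ≤ di k c := by
  classical
  let p : ℕ → ℤ × ℤ := fun j =>
    (k.1 + max (-(j : ℤ)) (min (j : ℤ) (c.1 - k.1)), k.2 + max (-(j : ℤ)) (min (j : ℤ) (c.2 - k.2)))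
  have p0 : p 0 = k := by
    apply Prod.ext
    · show k.1 + max (-((0 : ℕ) : ℤ)) (min ((0 : ℕ) : ℤ) (c.1 - k.1)) = k.1
      omega
    · show k.2 + max (-((0 : ℕ) : ℤ)) (min ((0 : ℕ) : ℤ) (c.2 - k.2)) = k.2
      omega
  have pN : p (di k c) = c := by
    apply Prod.ext
    · show k.1 + max (-((di k c : ℕ) : ℤ)) (min ((di k c : ℕ) : ℤ) (c.1 - k.1)) = c.1
      unfold di
      omega
    · show k.2 + max (-((di k c : ℕ) : ℤ)) (min ((di k c : ℕ) : ℤ) (c.2 - k.2)) = c.2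
      unfold di
      omega
  have ps : ∀ j, di (p j) (p (j + 1)) ≤ 1 := by
    intro j
    show max ((k.1 + max (-(j : ℤ)) (min (j : ℤ) (c.1 - k.1))) -
      (k.1 + max (-((j + 1 : ℕ) : ℤ)) (min ((j + 1 : ℕ) : ℤ) (c.1 - k.1)))).natAbs
      ((k.2 + max (-(j : ℤ)) (min (j : ℤ) (c.2 - k.2))) -
      (k.2 + max (-((j + 1 : ℕ) : ℤ)) (min ((j + 1 : ℕ) : ℤ) (c.2 - k.2)))).natAbs ≤ 1
    omega
  have pd : ∀ j, di k (p j) ≤ j := by
    intro j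
    show max (k.1 - (k.1 + max (-(j : ℤ)) (min (j : ℤ) (c.1 - k.1)))).natAbs
      (k.2 - (k.2 + max (-(j : ℤ)) (min (j : ℤ) (c.2 - k.2)))).natAbs ≤ j
    omega
  have hex : ∃ j, p j ∉ Oc B z ρ := ⟨di k c, by
    rw [pN]
    intro h
    exact (oc_not hz h).1 hc⟩
  have h1 := Nat.find_spec hex
  have h2 : Nat.find hex ≤ di k c := Nat.find_min' hex (by
    rw [pN]
    intro h
    exact (oc_not hz h).1 hc)
  obtain ⟨j, hj⟩ : ∃ j, Nat.find hex = j + 1 := by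
    rcases Nat.eq_zero_or_pos (Nat.find hex) with h | h
    · rw [h, p0] at h1
      exact absurd hk h1
    · exact ⟨Nat.find hex - 1, by omega⟩
  have h3 : p j ∈ Oc B z ρ := by
    by_contra h
    have := Nat.find_min' hex h
    omega
  rw [hj] at h1 h2
  exact ⟨p (j + 1), oc_nb hz h3 (ps j) h1, (pd (j + 1)).trans h2⟩

end HK
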