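import Mathlib
import Pool.Agent.Lib_helper12.HK.DefsH
import Pool.Agent.Lib_helper12.HK.W.fi
import Pool.Agent.Lib_helper12.HK.W.gj

set_option autoImplicit false

namespace HK

open MeasureTheory QG

theorem hf_unW {n m : ℕ} {z : ℤ × ℤ} {ρ : ℕ} {S : Finset (Ev n)} {B : Finset (ℤ × ℤ)}
    {k : ℤ × ℤ} (h : k ∈ unW n m z ρ S B) : k ∈ Lam n m ∧ ke n m k ∈ S := by
  classical
  unfold unW at h
  rw [Finset.mem_filter] at h
  exact ⟨h.1, h.2.2⟩

theorem sig_pol (n m : ℕ) [NeZero n] (z : ℤ × ℤ) (ρm : ℕ) : Pol (sig n m z ρm) := by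
  constructor
  · intro S k
    have h1 := meas_Bds n m (fun B => sx n m z ρm S B = k)
    have h2 : MeasurableSet {a : Ev n → ℝ | sx n m z ρm S (Bds n m a) = k} :=
      measurableSet_setOfPred.mpr h1
    exact measurable_fst h2
  · intro s hs
    unfold sig sx
    split_ifs with h1 h2
    · exact (hf_unW h1.choose_spec).2
    · exact (Finset.mem_sdiff.mp h2.choose_spec).1
    · exact hs.choose_spec

theorem sig_nonK (n m : ℕ) [NeZero n] (z : ℤ × ℤ) (ρm : ℕ) (s : St (Ev n))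
    (hs : ¬ s.1 ⊆ nonK n m) : sig n m z ρm s ∉ nonK n m := by
  have h0 : (s.1 \ nonK n m).Nonempty := by
    obtain ⟨x, hx, hx2⟩ := Finset.not_subset.mp hs
    exact ⟨x, Finset.mem_sdiff.mpr ⟨hx, hx2⟩⟩
  unfold sig sx
  split_ifs with h1
  · exact ke_nonK n m (hf_unW h1.choose_spec).1
  · exact (Finset.mem_sdiff.mp h0.choose_spec).2

/-- the next site is in the window of a closure of larger radius -/
theorem sx_spec (n m : ℕ) [NeZero n] (z : ℤ × ℤ) {ρ ρm : ℕ} (hρ : ρ ≤ ρm) (S : Finset (Ev n))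
    (B : Finset (ℤ × ℤ)) (h : (unW n m z ρ S B).Nonempty) :
    ∃ ρ', ρ ≤ ρ' ∧ ∃ k ∈ unW n m z ρ' S B, sx n m z ρm S B = ke n m k := by
  have h1 : ρ ≤ rex n m z ρm S B := by
    unfold rex
    exact Nat.le_findGreatest hρ h
  have h2 : (unW n m z (rex n m z ρm S B) S B).Nonempty := by
    unfold rex
    exact Nat.findGreatest_spec (P := fun ρ => (unW n m z ρ S B).Nonempty) hρ h
  refine ⟨rex n m z ρm S B, h1, h2.choose, h2.choose_spec, ?_⟩
  unfold sx
  rw [dif_pos h2]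

/-- as long as `K` is not sampled, sites of `K` are sampled -/
theorem sx_first (n m : ℕ) [NeZero n] (z : ℤ × ℤ) (ρm : ℕ) (S : Finset (Ev n))
    (B : Finset (ℤ × ℤ)) (h : ∃ k ∈ Lam n m, ke n m k ∈ S) :
    ∃ k ∈ Lam n m, sx n m z ρm S B = ke n m k := by
  classical
  obtain ⟨k, hk, hkS⟩ := h
  have h1 : (unW n m z 0 S B).Nonempty := by
    refine ⟨k, ?_⟩
    unfold unW
    rw [Finset.mem_filter]
    refine ⟨hk, ⟨hk, k, Cl.base (Nat.zero_le _), ?_⟩, hkS⟩
    unfold di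
    simp
  obtain ⟨ρ', _, k', hk', he⟩ := sx_spec n m z (Nat.zero_le ρm) S B h1
  exact ⟨k', (hf_unW hk').1, he⟩

end HK
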