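import Mathlib
import Pool.Agent.Lib_helper12.HK.DefsH
import Pool.Agent.Lib_helper12.HK.W.gh
import Pool.Agent.Lib_helper12.HK.W.gj
import Pool.Agent.Lib_helper12.HK.W.hd
import Pool.Agent.Lib_helper12.HK.W.he
import Pool.Agent.Lib_helper12.HK.W.hf

set_option autoImplicit false

namespace HK

open MeasureTheory QG

theorem hg_bad {n m : ℕ} [NeZero n] {a : Ev n → ℝ} {y : Ev n} (q : ℝ) {k : ℤ × ℤ}
    (h : ∀ k1, di k k1 ≤ R0 → ke n m k1 ≠ y) :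
    Bad n m (Function.update a y q) k ↔ Bad n m a k := by
  have hv : ∀ k1, di k k1 ≤ R0 → Function.update a y q (ke n m k1) = a (ke n m k1) := fun k1 hk =>
    Function.update_of_ne (h k1 hk) _ _
  unfold Bad
  constructor
  · rintro ⟨h1, k1, k2, h2, h3, h4, h5⟩
    refine ⟨h1, k1, k2, h2, h3, h4, ?_⟩
    unfold Steep at h5 ⊢
    rwa [hv k1 h3, hv k2 h4] at h5
  · rintro ⟨h1, k1, k2, h2, h3, h4, h5⟩
    refine ⟨h1, k1, k2, h2, h3, h4, ?_⟩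
    unfold Steep at h5 ⊢
    rwa [hv k1 h3, hv k2 h4]

theorem hg_bds {n m : ℕ} {a : Ev n → ℝ} {k : ℤ × ℤ} :
    k ∈ Bds n m a ↔ k ∈ LamI n m R0 ∧ Bad n m a k := by
  simp only [Bds, Finset.mem_filter]

theorem hg_unW {n m : ℕ} {z : ℤ × ℤ} {ρ : ℕ} {S : Finset (Ev n)} {B : Finset (ℤ × ℤ)}
    {k : ℤ × ℤ} : k ∈ unW n m z ρ S B ↔ k ∈ Lam n m ∧ k ∈ WC n m z ρ S B ∧ ke n m k ∈ S := by
  simp only [unW, Finset.mem_filter]

section
variable {n m : ℕ} [NeZero n] {z : ℤ × ℤ} {ρ ρm : ℕ} {f f' : (Ev n → ℝ) → ℝ}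

theorem hg_pp (hb : 64 * m * (R0 + 10) ≤ n) (hm : 2 ≤ m) {k : ℤ × ℤ} (hk : k ∈ Lam n m) :
    ke n m k ≠ pp n := by
  intro h
  have h1 := pp_bxs n m hb hm (O := {k}) (by
    intro k' hk'
    rw [Set.mem_singleton_iff] at hk'
    rw [hk']; exact hk)
  apply h1
  rw [← h]
  refine ⟨k, rfl, 0, 0, ?_, ?_, ?_, ?_, ?_⟩
  · have : (0 : ℤ) < m := by exact_mod_cast (by omega : 0 < m)
    linarith
  · exact Int.natCast_nonneg m
  · have : (0 : ℤ) < m := by exact_mod_cast (by omega : 0 < m)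
    linarith
  · exact Int.natCast_nonneg m
  · ext <;> simp

theorem inv_start (hb : 64 * m * (R0 + 10) ≤ n) (hm : 2 ≤ m) (hρ : ρ ≤ ρm)
    (hz : ∀ x, di z x ≤ ρm → x ∈ Lam n m) : Inv n m z ρ ((Finset.univ.erase (pp n), 0, 0) : St (Ev n)) := by
  have hne : ∀ y : Ev n, y ∉ (Finset.univ.erase (pp n) : Finset (Ev n)) → y = pp n := by
    intro y hy
    by_contra h
    exact hy (Finset.mem_erase.mpr ⟨h, Finset.mem_univ _⟩)
  refine ⟨?_, ?_, ?_⟩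
  · intro _ y hy hyp
    exact absurd (hne y hy) hyp
  · intro _ k hk hkS
    exact absurd (hne _ hkS) (hg_pp hb hm hk)
  · intro _ hz' k hk hkS
    have h1 := (oc_not hz' hk).2
    have h2 : k ∈ Lam n m := hz k (by omega)
    exact absurd (hne _ hkS) (hg_pp hb hm h2)

theorem hg_sig {s : St (Ev n)} (hs : s.1.Nonempty) : sig n m z ρm s ∈ s.1 :=
  (sig_pol n m z ρm).mem s hs

/-- known bad vertices stay known -/
theorem KS_step {s : St (Ev n)} (hs : s.1.Nonempty) (u : ℝ) :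
    KS n m s ⊆ KS n m (step f f' (sig n m z ρm) s u) := by
  intro k hk
  obtain ⟨h1, h2⟩ := hk
  rw [hg_bds] at h1
  have hne : ∀ k1, di k k1 ≤ R0 → ke n m k1 ≠ sig n m z ρm s := by
    intro k1 hk1 he
    apply h2 k1 hk1
    rw [he]
    exact hg_sig hs
  refine ⟨?_, ?_⟩
  · rw [hg_bds]
    exact ⟨h1.1, (hg_bad _ hne).mpr h1.2⟩
  · intro k1 hk1 hmem
    exact h2 k1 hk1 (Finset.mem_of_mem_erase hmem)

/-- a vertex whose window is sampled is not newly bad -/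
theorem KS_old {s : St (Ev n)} (hs : s.1.Nonempty) (u : ℝ) {k : ℤ × ℤ}
    (hk : ∀ k1 ∈ Lam n m, di k k1 ≤ R0 → ke n m k1 ∉ s.1)
    (h : k ∈ KS n m (step f f' (sig n m z ρm) s u)) : k ∈ KS n m s := by
  obtain ⟨h1, h2⟩ := h
  rw [hg_bds] at h1
  have hS : ∀ k1, di k k1 ≤ R0 → ke n m k1 ∉ s.1 := fun k1 hk1 =>
    hk k1 (LamI_nb h1.1 hk1) hk1
  have hne : ∀ k1, di k k1 ≤ R0 → ke n m k1 ≠ sig n m z ρm s := by
    intro k1 hk1 he
    apply hS k1 hk1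
    rw [he]
    exact hg_sig hs
  refine ⟨?_, hS⟩
  rw [hg_bds]
  exact ⟨h1.1, (hg_bad _ hne).mp h1.2⟩

/-- a complete closure does not change -/
theorem com_step {s : St (Ev n)} (hs : s.1.Nonempty) (u : ℝ)
    (hc : ¬ (unW n m z ρ s.1 (Bds n m s.2.1)).Nonempty) :
    (∀ x, Cl (KS n m (step f f' (sig n m z ρm) s u)) z ρ x ↔ Cl (KS n m s) z ρ x) ∧
      ¬ (unW n m z ρ (step f f' (sig n m z ρm) s u).1
        (Bds n m (step f f' (sig n m z ρm) s u).2.1)).Nonempty := by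
  have hc' : ∀ k, k ∈ Lam n m → k ∈ WC n m z ρ s.1 (Bds n m s.2.1) → ke n m k ∉ s.1 := by
    intro k h1 h2 h3
    exact hc ⟨k, hg_unW.mpr ⟨h1, h2, h3⟩⟩
  have hcl : ∀ x, Cl (KS n m (step f f' (sig n m z ρm) s u)) z ρ x ↔ Cl (KS n m s) z ρ x := by
    intro x
    constructor
    · intro hx
      refine cl_stable ?_ hx
      intro y hy hy'
      refine KS_old hs u ?_ hy'
      intro k1 hk1 hd
      exact hc' k1 hk1 ⟨hk1, y, hy, hd⟩
    · intro hx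
      exact cl_mono (KS_step hs u) le_rfl hx
  refine ⟨hcl, ?_⟩
  rintro ⟨k, hk⟩
  obtain ⟨h1, ⟨_, c, h2, h3⟩, h4⟩ := hg_unW.mp hk
  exact hc' k h1 ⟨h1, c, (hcl c).mp h2, h3⟩ (Finset.mem_of_mem_erase h4)

/-- the first two parts of the invariant -/
theorem inv_first {s : St (Ev n)} (hs : s.1.Nonempty) (h : Inv n m z ρ s) (u : ℝ) :
    let s' := step f f' (sig n m z ρm) s u
    (∃ k ∈ Lam n m, ke n m k ∈ s'.1) → ∀ y ∉ s'.1, y ≠ pp n → ∃ k ∈ Lam n m, ke n m k = y := by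
  intro s' hex y hy hyp
  obtain ⟨k0, hk0, hk0'⟩ := hex
  have hex' : ∃ k ∈ Lam n m, ke n m k ∈ s.1 := ⟨k0, hk0, Finset.mem_of_mem_erase hk0'⟩
  by_cases hys : y = sig n m z ρm s
  · obtain ⟨k, hk, he⟩ := sx_first n m z ρm s.1 (Bds n m s.2.1) hex'
    refine ⟨k, hk, ?_⟩
    rw [hys]
    exact he.symm
  · apply h.first hex' y _ hyp
    intro hyS
    exact hy (Finset.mem_erase.mpr ⟨hys, hyS⟩)

theorem inv_inc (hb : 64 * m * (R0 + 10) ≤ n) (hm : 2 ≤ m) (hρ : ρ ≤ ρm) {s : St (Ev n)}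
    (hs : s.1.Nonempty) (h : Inv n m z ρ s) (u : ℝ) :
    let s' := step f f' (sig n m z ρm) s u
    (unW n m z ρ s'.1 (Bds n m s'.2.1)).Nonempty → ∀ k ∈ Lam n m, ke n m k ∉ s'.1 →
      k ∈ WC n m z ρ s'.1 (Bds n m s'.2.1) := by
  intro s' hne k hk hkS
  have hsn : (unW n m z ρ s.1 (Bds n m s.2.1)).Nonempty := by
    by_contra hc
    exact (com_step (f := f) (f' := f') (ρm := ρm) hs u hc).2 hne
  have hWC : ∀ x, x ∈ WC n m z ρ s.1 (Bds n m s.2.1) →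
      x ∈ WC n m z ρ s'.1 (Bds n m s'.2.1) := by
    rintro x ⟨h1, c, h2, h3⟩
    exact ⟨h1, c, cl_mono (KS_step (f := f) (f' := f') (z := z) (ρm := ρm) hs u) le_rfl h2, h3⟩
  apply hWC
  by_cases hys : ke n m k = sig n m z ρm s
  · obtain ⟨ρ', hρ', k', hk', he⟩ := sx_spec n m z hρ s.1 (Bds n m s.2.1) hsn
    obtain ⟨h1, ⟨_, c, h2, h3⟩, h4⟩ := hg_unW.mp hk'
    have hkk : k = k' := by
      apply ke_inj n m hb hm hk h1
      rw [hys]
      exact he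
    subst hkk
    exact ⟨hk, c, cl_mono (Set.Subset.refl _) hρ' h2, h3⟩
  · apply h.inc hsn k hk
    intro hyS
    exact hkS (Finset.mem_erase.mpr ⟨hys, hyS⟩)

end

end HK
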