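import Mathlib
import Pool.Agent.Lib_helper12.HK.DefsH
import Pool.Agent.Lib_helper12.HK.DefsB
import Pool.Agent.Lib_helper12.HK.W.ba
import Pool.Agent.Lib_helper12.HK.W.bb
import Pool.Agent.Lib_helper12.HK.W.bd
import Pool.Agent.Lib_helper12.HK.W.ei
import Pool.Agent.Lib_helper12.HK.W.gc
import Pool.Agent.Lib_helper12.HK.W.gd
import Pool.Agent.Lib_helper12.HK.W.ge
import Pool.Agent.Lib_helper12.HK.W.gh
import Pool.Agent.Lib_helper12.HK.W.gj
import Pool.Agent.Lib_helper12.HK.W.hc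
import Pool.Agent.Lib_helper12.HK.W.hd
import Pool.Agent.Lib_helper12.HK.W.he
import Pool.Agent.Lib_helper12.HK.W.hf
import Pool.Agent.Lib_helper12.HK.W.hg

set_option autoImplicit false

namespace HK

open MeasureTheory QG

section
variable {n m : ℕ} [NeZero n] {z : ℤ × ℤ} {ρ ρm : ℕ}

theorem hi_unW {n m : ℕ} {z : ℤ × ℤ} {ρ : ℕ} {S : Finset (Ev n)} {B : Finset (ℤ × ℤ)}
    {k : ℤ × ℤ} : k ∈ unW n m z ρ S B ↔ k ∈ Lam n m ∧ k ∈ WC n m z ρ S B ∧ ke n m k ∈ S := by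
  simp only [unW, Finset.mem_filter]

/-- Lipschitz bounds for the difference at sampled `K`-sites -/
theorem hK_lip (hn : 2 ≤ n) {U : (Ev n → ℝ) → ℝ} {U' : Ev n → (Ev n → ℝ) → ℝ} (hU : Tilt U U')
    {s : St (Ev n)} (hs : Lg (pp n) (fh n) (fT n U) s) {k k' : ℤ × ℤ} (hk : ke n m k ∉ s.1)
    (hk' : ke n m k' ∉ s.1) : |hK n m s k - hK n m s k'| ≤ 8 * m * (di k k' : ℝ) := by
  have hR := reg_fh n hn
  have hT := reg_tilt hR hU
  obtain ⟨b, hb1, hb2⟩ := mg_ext n hn hs.mem hs.z1 hs.p1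
  obtain ⟨c, hc1, hc2⟩ := (mg_pos_iff hT.2 hs.mem hs.z2).1 hs.p2
  have hc3 : 0 < fh n c := by
    have h0 : (0 : ℝ) ≤ fh n c := hR.nonneg c
    rcases h0.lt_or_eq with h1 | h1
    · exact h1
    · exfalso
      rw [← h1] at hc2
      simp at hc2
  have l1 := lipK n m hb2 k k'
  have l2 := lipK n m hc3 k k'
  simp only [kf] at l1 l2
  rw [hb1 _ hk, hb1 _ hk'] at l1
  rw [hc1 _ hk, hc1 _ hk'] at l2
  simp only [hK]
  rw [abs_le] at l1 l2 ⊢
  constructor <;> linarith [l1.1, l1.2, l2.1, l2.2]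

/-- the third part of the invariant when the closure becomes complete -/
theorem inv_com1 (hb : 64 * m * (R0 + 10) ≤ n) (hm : 2 ≤ m) (hρ : ρ ≤ ρm)
    (hz : ∀ x, di z x ≤ ρm → x ∈ Lam n m) {U : (Ev n → ℝ) → ℝ}
    {U' : Ev n → (Ev n → ℝ) → ℝ} (hU : Tilt U U') {s : St (Ev n)} (hne : s.1.Nonempty)
    (hs : Lg (pp n) (fh n) (fT n U) s) (h : Inv n m z ρ s) {u : ℝ} (hu : u ∈ Set.Ioo (0 : ℝ) 1)
    (hi : (unW n m z ρ s.1 (Bds n m s.2.1)).Nonempty) :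
    let s' := step (fh n) (fT n U) (sig n m z ρm) s u
    ¬ (unW n m z ρ s'.1 (Bds n m s'.2.1)).Nonempty → ¬ Cl (KS n m s') z ρ z →
    ∀ k ∈ Oc (KS n m s') z ρ, ke n m k ∉ s'.1 →
      (∀ M : ℝ, (∀ g ∈ Gam (KS n m s') z ρ, hK n m s' g ≤ M) → hK n m s' k ≤ M + C2 m) ∧
      ∀ M : ℝ, (∀ g ∈ Gam (KS n m s') z ρ, M ≤ hK n m s' g) → M - C2 m ≤ hK n m s' k := by
  intro s' hc hz0 k hk hks
  have hn : 2 ≤ n := by
    have : 64 * 2 * (R0 + 10) ≤ 64 * m * (R0 + 10) := by gcongr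
    simp only [R0] at this hb
    omega
  have hR := reg_fh n hn
  have hT := reg_tilt hR hU
  have hlg := step_legal hR hT.2 (sig_pol n m z ρm) hs hne hu
  obtain ⟨hk1, hk2⟩ := oc_not hz0 hk
  have hkL : k ∈ Lam n m := hz k (by omega)
  -- a vertex of the closure near `k`
  have hcl : ∃ c, Cl (KS n m s') z ρ c ∧ di c k ≤ R0 := by
    by_cases hks' : ke n m k ∈ s.1
    · have he : ke n m k = sig n m z ρm s := by
        by_contra hne'
        exact hks (Finset.mem_erase.2 ⟨hne', hks'⟩)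
      obtain ⟨ρ', hρ', k1, hk1', hk1''⟩ := sx_spec n m z hρ s.1 (Bds n m s.2.1) hi
      have hk1m := hi_unW.1 hk1'
      have hkk : k = k1 := ke_inj n m hb hm hkL hk1m.1 (by rw [he]; exact hk1'')
      subst hkk
      obtain ⟨-, c, hc1, hc2⟩ := hk1m.2.1
      exact ⟨c, cl_mono (KS_step hne u) hρ' hc1, hc2⟩
    · obtain ⟨-, c, hc1, hc2⟩ := h.inc hi k hkL hks'
      exact ⟨c, cl_mono (KS_step hne u) le_rfl hc1, hc2⟩
  obtain ⟨c, hc1, hc2⟩ := hcl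
  obtain ⟨g, hg1, hg2⟩ := oc_exit hz0 hk hc1
  have hdi : di k c = di c k := by
    simp only [di]
    congr 1 <;> omega
  obtain ⟨-, hg3⟩ := gam_good hz0 hg1
  have hgL : g ∈ Lam n m := hz g (by omega)
  have hgs : ke n m g ∉ s'.1 := by
    intro hgs
    apply hc
    refine ⟨g, hi_unW.2 ⟨hgL, ⟨hgL, g, hg1.1, ?_⟩, hgs⟩⟩
    simp [di]
  have hl := hK_lip (m := m) hn hU hlg.1 hks hgs
  have hd : (di k g : ℝ) ≤ (R0 : ℝ) := by
    have : di k g ≤ R0 := by omega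
    exact_mod_cast this
  have hC : 8 * (m : ℝ) * (di k g : ℝ) ≤ C2 m := by
    simp only [C2]
    have hm0 : (0 : ℝ) ≤ 8 * (m : ℝ) := by positivity
    nlinarith
  have hl2 : |hK n m s' k - hK n m s' g| ≤ C2 m := hl.trans hC
  rw [abs_le] at hl2
  refine ⟨fun M hM => ?_, fun M hM => ?_⟩
  · have := hM g hg1
    linarith [hl2.1, hl2.2]
  · have := hM g hg1
    linarith [hl2.1, hl2.2]

end

end HK
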