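import Mathlib
import Pool.Agent.Lib_helper12.HK.DefsH
import Pool.Agent.Lib_helper12.HK.DefsB
import Pool.Agent.Lib_helper12.HK.W.ba
import Pool.Agent.Lib_helper12.HK.W.bb
import Pool.Agent.Lib_helper12.HK.W.bd
import Pool.Agent.Lib_helper12.HK.W.ei
import Pool.Agent.Lib_helper12.HK.W.gc
import Pool.Agent.Lib_helper12.HK.W.gd
import Pool.Agent.Lib_helper12.HK.W.ge
import Pool.Agent.Lib_helper12.HK.W.gh
import Pool.Agent.Lib_helper12.HK.W.gj
import Pool.Agent.Lib_helper12.HK.W.hc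
import Pool.Agent.Lib_helper12.HK.W.hd
import Pool.Agent.Lib_helper12.HK.W.he
import Pool.Agent.Lib_helper12.HK.W.hf
import Pool.Agent.Lib_helper12.HK.W.hg
import Pool.Agent.Lib_helper12.HK.W.hi

set_option autoImplicit false

namespace HK

open MeasureTheory QG

section
variable {n m : ℕ} [NeZero n] {z : ℤ × ℤ} {ρ ρm : ℕ}

theorem hj_unW {S : Finset (Ev n)} {B : Finset (ℤ × ℤ)}
    {k : ℤ × ℤ} : k ∈ unW n m z ρ S B ↔ k ∈ Lam n m ∧ k ∈ WC n m z ρ S B ∧ ke n m k ∈ S := by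
  simp only [unW, Finset.mem_filter]

/-- the third part of the invariant after the closure is complete: the maximum principle -/
theorem inv_com2 (hb : 64 * m * (R0 + 10) ≤ n) (hm : 2 ≤ m) (hρ : ρ ≤ ρm)
    (hz : ∀ x, di z x ≤ ρm → x ∈ Lam n m) {U : (Ev n → ℝ) → ℝ}
    {U' : Ev n → (Ev n → ℝ) → ℝ} (hU : Tilt U U')
    (hl : ∀ a a' : Ev n → ℝ, (∀ k ∈ Lam n m, ρm ≤ di z k → a (ke n m k) = a' (ke n m k)) →
      U a = U a') {s : St (Ev n)} (hne : s.1.Nonempty)
    (hs : Lg (pp n) (fh n) (fT n U) s) (h : Inv n m z ρ s) {u : ℝ} (hu : u ∈ Set.Ioo (0 : ℝ) 1)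
    (hc : ¬ (unW n m z ρ s.1 (Bds n m s.2.1)).Nonempty) :
    let s' := step (fh n) (fT n U) (sig n m z ρm) s u
    ¬ Cl (KS n m s') z ρ z →
    ∀ k ∈ Oc (KS n m s') z ρ, ke n m k ∉ s'.1 →
      (∀ M : ℝ, (∀ g ∈ Gam (KS n m s') z ρ, hK n m s' g ≤ M) → hK n m s' k ≤ M + C2 m) ∧
      ∀ M : ℝ, (∀ g ∈ Gam (KS n m s') z ρ, M ≤ hK n m s' g) → M - C2 m ≤ hK n m s' k := by
  intro s' hz0' k hk' hks
  have hn : 2 ≤ n := by
    have : 64 * 2 * (R0 + 10) ≤ 64 * m * (R0 + 10) := by gcongr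
    simp only [R0] at this hb
    omega
  have hR := reg_fh n hn
  have hT := reg_tilt hR hU
  have hZ : 0 < ∫ b, fh n b * U b ∂bs (pp n) := hT.1
  obtain ⟨hcl, -⟩ := com_step (f := fh n) (f' := fT n U) (ρm := ρm) hne u hc
  obtain ⟨hOc, hGam⟩ := oc_congr hcl
  have hz0 : ¬ Cl (KS n m s) z ρ z := fun h0 => hz0' ((hcl z).2 h0)
  have hk : k ∈ Oc (KS n m s) z ρ := by rw [← hOc]; exact hk'
  -- the circuit is sampled
  have hgs : ∀ g ∈ Gam (KS n m s) z ρ, ke n m g ∉ s.1 := by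
    intro g hg hgs
    obtain ⟨-, hg3⟩ := gam_good hz0 hg
    have hgL : g ∈ Lam n m := hz g (by omega)
    apply hc
    refine ⟨g, hj_unW.2 ⟨hgL, ⟨hgL, g, hg.1, ?_⟩, hgs⟩⟩
    simp [di]
  have hmem : sig n m z ρm s ∈ s.1 := (sig_pol n m z ρm).mem s hne
  -- the sampled values do not change
  have hold : ∀ x, ke n m x ∉ s.1 → hK n m s' x = hK n m s x := by
    intro x hx
    have hxs : ke n m x ≠ sig n m z ρm s := fun h0 => hx (h0 ▸ hmem)
    simp only [hK, s', step, Function.update_of_ne hxs]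
  have hGam' : ∀ g ∈ Gam (KS n m s) z ρ, hK n m s' g = hK n m s g :=
    fun g hg => hold g (hgs g hg)
  have hOL : ∀ x ∈ Oc (KS n m s) z ρ, x ∈ Lam n m := fun x hx =>
    hz x (by have := (oc_not hz0 hx).2; omega)
  rw [hGam]
  by_cases hks' : ke n m k ∈ s.1
  · have he : sig n m z ρm s = ke n m k := by
      by_contra hne'
      exact hks (Finset.mem_erase.2 ⟨fun h0 => hne' h0.symm, hks'⟩)
    have hfirst := h.first ⟨k, hOL k hk, hks'⟩
    -- the region
    have hfin : (bxs n m (Oc (KS n m s) z ρ)).Finite := Set.toFinite _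
    obtain ⟨R, hRm⟩ : ∃ R : Finset (Ev n), ∀ y, y ∈ R ↔ y ∈ bxs n m (Oc (KS n m s) z ρ) :=
      ⟨hfin.toFinset, fun y => hfin.mem_toFinset⟩
    have hpR : pp n ∉ R := fun h0 => pp_bxs n m hb hm hOL ((hRm _).1 h0)
    have hkR : ke n m k ∈ R := (hRm _).2 ((ke_bxs n m hb hm hOL (hOL k hk)).2 hk)
    have lU : ∀ x x' : Ev n → ℝ, (∀ i ∉ R, x i = x' i) → U x = U x' := by
      intro x x' hx
      apply hl
      intro k1 hk1 hk1'
      apply hx
      intro h0
      have h1 : k1 ∈ Oc (KS n m s) z ρ := (ke_bxs n m hb hm hOL hk1).1 ((hRm _).1 h0)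
      have := (oc_not hz0 h1).2
      omega
    have e1 : ∀ a, fh n a = fh n a * 1 := fun a => (mul_one _).symm
    have e2 : ∀ a, fT n U a = fh n a * (U a / ∫ b, fh n b * U b ∂bs (pp n)) := fun a => by
      simp only [fT, mul_div_assoc]
    have v2 : Measurable fun a => U a / ∫ b, fh n b * U b ∂bs (pp n) :=
      hU.cont.measurable.div_const _
    have w2 : ∀ a, 0 ≤ U a / ∫ b, fh n b * U b ∂bs (pp n) := fun a =>
      div_nonneg (hU.pos a).le hZ.le
    have l2 : ∀ x x' : Ev n → ℝ, (∀ i ∉ R, x i = x' i) →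
        U x / ∫ b, fh n b * U b ∂bs (pp n) = U x' / ∫ b, fh n b * U b ∂bs (pp n) :=
      fun x x' hx => by rw [lU x x' hx]
    have hmC : 2 * (2 * (m : ℝ)) ≤ C2 m := by
      simp only [C2, R0]
      have : (0 : ℝ) ≤ m := Nat.cast_nonneg m
      push_cast
      nlinarith
    -- the vertices of `R` that are sampled
    have hRs : ∀ t ∈ R, t ∉ s.1 → ∃ k1, k1 ∈ Oc (KS n m s) z ρ ∧ ke n m k1 = t := by
      intro t ht hts
      obtain ⟨k1, hk1, hk1'⟩ := hfirst t hts (fun h0 => hpR (h0 ▸ ht))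
      refine ⟨k1, ?_, hk1'⟩
      apply (ke_bxs n m hb hm hOL hk1).1
      rw [hk1']
      exact (hRm _).1 ht
    -- the neighbours of `R`
    have hRn : ∀ (v : Od n) (i j : Fin 4), cn n v i ∈ R → cn n v j ∉ R →
        ∃ g ∈ Gam (KS n m s) z ρ, ∃ s1 s2 : ℤ, |(s1 : ℝ)| + |(s2 : ℝ)| ≤ 2 * m ∧
        (cn n v j).1 = (ke n m g).1 + ((s1 : ZMod (2 * n)), (s2 : ZMod (2 * n))) := by
      intro v i j hvi hvj
      obtain ⟨k1, hk1, ⟨k2, hk2, hk12⟩, s1, s2, hs12, hv⟩ :=
        bxs_nb n m hm (Oc (KS n m s) z ρ) v i j ((hRm _).1 hvi) (fun h0 => hvj ((hRm _).2 h0))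
      refine ⟨k1, oc_nb hz0 hk2 hk12 hk1, s1, s2, ?_, hv⟩
      exact_mod_cast hs12
    have hq1 : s'.2.1 (ke n m k) = qt (cde (fh n) s.1 s.2.1 (ke n m k)) u := by
      simp only [s', step, he, Function.update_self]
    have hq2 : s'.2.2 (ke n m k) = qt (cde (fT n U) s.1 s.2.2 (ke n m k)) u := by
      simp only [s', step, he, Function.update_self]
    refine ⟨fun M hM => ?_, fun M hM => ?_⟩
    · have hM' : ∀ g ∈ Gam (KS n m s) z ρ, hK n m s g ≤ M := fun g hg => by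
        rw [← hGam' g hg]; exact hM g hg
      have hq := q_cmp n hn (f1 := fh n) (f2 := fT n U) (V1 := fun _ => 1)
        (V2 := fun a => U a / ∫ b, fh n b * U b ∂bs (pp n)) hR hT.2 e1 e2 measurable_const v2
        (fun _ => zero_le_one) w2 hpR hs.mem (fun _ _ _ => rfl) l2 hkR hks' hs.z1 hs.z2 hs.p1
        hs.p2 (M := M + C2 m) ?_ ?_ hu
      · simp only [hK]
        rw [hq1, hq2]
        linarith
      · intro t ht hts
        obtain ⟨k1, hk1, rfl⟩ := hRs t ht hts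
        have := (h.com hc hz0 k1 hk1 hts).1 M hM'
        simp only [hK] at this
        linarith
      · intro v i j hvi hvj
        obtain ⟨g, hg, s1, s2, hs12, hv⟩ := hRn v i j hvi hvj
        refine ⟨ke n m g, hgs g hg, s1, s2, hv, ?_⟩
        have := hM' g hg
        simp only [hK] at this
        linarith
    · have hM' : ∀ g ∈ Gam (KS n m s) z ρ, M ≤ hK n m s g := fun g hg => by
        rw [← hGam' g hg]; exact hM g hg
      have hq := q_cmp n hn (f1 := fT n U) (f2 := fh n)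
        (V1 := fun a => U a / ∫ b, fh n b * U b ∂bs (pp n)) (V2 := fun _ => 1) hT.2 hR e2 e1 v2
        measurable_const w2 (fun _ => zero_le_one) hpR hs.mem l2 (fun _ _ _ => rfl) hkR hks'
        hs.z2 hs.z1 hs.p2 hs.p1 (M := -M + C2 m) ?_ ?_ hu
      · simp only [hK]
        rw [hq1, hq2]
        linarith
      · intro t ht hts
        obtain ⟨k1, hk1, rfl⟩ := hRs t ht hts
        have := (h.com hc hz0 k1 hk1 hts).2 M hM'
        simp only [hK] at this
        linarith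
      · intro v i j hvi hvj
        obtain ⟨g, hg, s1, s2, hs12, hv⟩ := hRn v i j hvi hvj
        refine ⟨ke n m g, hgs g hg, s1, s2, hv, ?_⟩
        have := hM' g hg
        simp only [hK] at this
        linarith
  · rw [hold k hks']
    obtain ⟨h1, h2⟩ := h.com hc hz0 k hk hks'
    exact ⟨fun M hM => h1 M fun g hg => by rw [← hGam' g hg]; exact hM g hg,
      fun M hM => h2 M fun g hg => by rw [← hGam' g hg]; exact hM g hg⟩

end

end HK
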