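import Mathlib
import Pool.Agent.Lib_helper12.HK.DefsH
import Pool.Agent.Lib_helper12.HK.DefsB
import Pool.Agent.Lib_helper12.HK.W.ba
import Pool.Agent.Lib_helper12.HK.W.gc
import Pool.Agent.Lib_helper12.HK.W.gd
import Pool.Agent.Lib_helper12.HK.W.hf
import Pool.Agent.Lib_helper12.HK.W.hg
import Pool.Agent.Lib_helper12.HK.W.hi
import Pool.Agent.Lib_helper12.HK.W.hj

set_option autoImplicit false

namespace HK

open MeasureTheory QG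

theorem hk_KS (n m : ℕ) [NeZero n] (x y : Ev n → ℝ) :
    KS n m ((∅, x, y) : St (Ev n)) = (Bds n m x : Set (ℤ × ℤ)) := by
  ext k
  show (k ∈ Bds n m x ∧ ∀ k1, di k k1 ≤ R0 → ke n m k1 ∉ (∅ : Finset (Ev n))) ↔ k ∈ Bds n m x
  exact ⟨fun h => h.1, fun h => ⟨h, fun _ _ => Finset.notMem_empty _⟩⟩

theorem hk_unW (n m : ℕ) (z : ℤ × ℤ) (ρ : ℕ) (B : Finset (ℤ × ℤ)) :
    ¬ (unW n m z ρ (∅ : Finset (Ev n)) B).Nonempty := by
  classical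
  rintro ⟨k, hk⟩
  unfold unW at hk
  exact Finset.notMem_empty _ (Finset.mem_filter.mp hk).2.2

theorem hk_inv (n m : ℕ) [NeZero n] {p0 : ℝ} (H : Hyp n m p0) {z : ℤ × ℤ} {ρm : ℕ}
    (hz : ∀ x, di z x ≤ ρm → x ∈ Lam n m) {U : (Ev n → ℝ) → ℝ}
    {U' : Ev n → (Ev n → ℝ) → ℝ} (hU : Tilt U U')
    (hl : ∀ a a' : Ev n → ℝ, (∀ k ∈ Lam n m, ρm ≤ di z k → a (ke n m k) = a' (ke n m k)) →
      U a = U a') {Ω : Type} [MeasurableSpace Ω] {P : Measure Ω} {a a' : Ω → Ev n → ℝ}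
    (h : ACpl (pp n) (fh n) (fT n U) (Dh n) (DT n U U') (sig n m z ρm) P a a') (ω : Ω) {ρ : ℕ}
    (hρ : ρ ≤ ρm) : Inv n m z ρ ((∅, a ω, a' ω) : St (Ev n)) := by
  refine h.run {s | Inv n m z ρ s} ?_ ?_ ω
  · exact inv_start H.big H.two hρ hz
  · intro s hs hne hp h1 h2 h3 h4 u hu
    have hInv : Inv n m z ρ s := hs
    have hLg : Lg (pp n) (fh n) (fT n U) s := ⟨hp, h1, h2, h3, h4⟩
    refine Inv.mk ?_ ?_ ?_
    · exact inv_first hne hInv u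
    · exact inv_inc H.big H.two hρ hne hInv u
    · intro hc hcl
      by_cases hi : (unW n m z ρ s.1 (Bds n m s.2.1)).Nonempty
      · exact inv_com1 H.big H.two hρ hz hU hne hLg hInv hu hi hc hcl
      · exact inv_com2 H.big H.two hρ hz hU hl hne hLg hInv hu hi hcl

/-- Lemma H3: the maximum principle for the exploration coupling -/
theorem explore (n m : ℕ) [NeZero n] {p0 : ℝ} (H : Hyp n m p0) {z : ℤ × ℤ} {ρm : ℕ}
    (hz : ∀ x, di z x ≤ ρm → x ∈ Lam n m) {U : (Ev n → ℝ) → ℝ}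
    {U' : Ev n → (Ev n → ℝ) → ℝ} (hU : Tilt U U')
    (hl : ∀ a a' : Ev n → ℝ, (∀ k ∈ Lam n m, ρm ≤ di z k → a (ke n m k) = a' (ke n m k)) →
      U a = U a') {Ω : Type} [MeasurableSpace Ω] {P : Measure Ω} {a a' : Ω → Ev n → ℝ}
    (h : ACpl (pp n) (fh n) (fT n U) (Dh n) (DT n U U') (sig n m z ρm) P a a') (ω : Ω) {ρ : ℕ}
    (hρ : ρ ≤ ρm) (hc : ¬ Cl (Bds n m (a ω) : Set (ℤ × ℤ)) z ρ z) {k : ℤ × ℤ}
    (hk : k ∈ Oc (Bds n m (a ω) : Set (ℤ × ℤ)) z ρ) :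
    (∀ M : ℝ, (∀ g ∈ Gam (Bds n m (a ω) : Set (ℤ × ℤ)) z ρ,
        kf n m (fun y => a' ω y - a ω y) g ≤ M) →
      kf n m (fun y => a' ω y - a ω y) k ≤ M + C2 m) ∧
    ∀ M : ℝ, (∀ g ∈ Gam (Bds n m (a ω) : Set (ℤ × ℤ)) z ρ,
        M ≤ kf n m (fun y => a' ω y - a ω y) g) →
      M - C2 m ≤ kf n m (fun y => a' ω y - a ω y) k := by
  have hI := hk_inv n m H hz hU hl h ω hρ
  have hcl : ¬ Cl (KS n m ((∅, a ω, a' ω) : St (Ev n))) z ρ z := by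
    rw [hk_KS]
    exact hc
  have hko : k ∈ Oc (KS n m ((∅, a ω, a' ω) : St (Ev n))) z ρ := by
    rw [hk_KS]
    exact hk
  have hcom := hI.com (hk_unW n m z ρ _) hcl k hko (Finset.notMem_empty _)
  rw [hk_KS] at hcom
  exact hcom

end HK
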