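import Mathlib
import Pool.Agent.Lib_helper12.HK.DefsI
import Pool.Agent.Lib_helper12.HK.W.bz
import Pool.Agent.Lib_helper12.HK.W.gc
import Pool.Agent.Lib_helper12.HK.W.gd
import Pool.Agent.Lib_helper12.HK.W.gg
import Pool.Agent.Lib_helper12.HK.W.gj
import Pool.Agent.Lib_helper12.HK.W.gk
import Pool.Agent.Lib_helper12.HK.W.gn
import Pool.Agent.Lib_helper69.HKL.W.lb
import Pool.Agent.Lib_helper69.HKL.W.mc

set_option autoImplicit false

namespace HK

open MeasureTheory QG

theorem ia_wd {A : Type} [Fintype A] [DecidableEq A] {p : A} {f : (A → ℝ) → ℝ}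
    {D : A → (A → ℝ) → ℝ} (hf : Reg p f D) (G : (A → ℝ) → ℝ) :
    ∫ a, G a ∂((bs p).withDensity (fun a => ENNReal.ofReal (f a))) = ∫ a, f a * G a ∂bs p := by
  rw [integral_withDensity_eq_integral_toReal_smul hf.cont.measurable.ennreal_ofReal
    (Filter.Eventually.of_forall fun a => ENNReal.ofReal_lt_top)]
  refine integral_congr_ae (Filter.Eventually.of_forall fun a => ?_)
  simp only [smul_eq_mul]
  rw [ENNReal.toReal_ofReal (hf.nonneg a)]

theorem ia_bdd {A : Type} [Fintype A] [DecidableEq A] {p : A} {f : (A → ℝ) → ℝ}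
    {D : A → (A → ℝ) → ℝ} (hf : Reg p f D) {Ω : Type} [MeasurableSpace Ω] {P : Measure Ω}
    [IsProbabilityMeasure P] {z : Ω → A → ℝ} (hz : Measurable z)
    (hp : ∀ ω, z ω p = 0 ∧ 0 < f (z ω)) {L : (A → ℝ) → ℝ} (hL : Continuous L) :
    Integrable (fun ω => L (z ω)) P := by
  obtain ⟨R, hR⟩ := hf.supp
  have hK : IsCompact (Set.Icc (fun _ : A => -R) (fun _ => R)) := isCompact_Icc
  obtain ⟨C, hC⟩ := hK.exists_bound_of_continuousOn hL.continuousOn
  refine Integrable.of_bound (hL.measurable.comp hz).aestronglyMeasurable C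
    (Filter.Eventually.of_forall fun ω => hC _ ?_)
  have h := hR (z ω) (hp ω).1 (hp ω).2.ne'
  exact ⟨fun i => (abs_le.1 (h i)).1, fun i => (abs_le.1 (h i)).2⟩

theorem ia_L_cont (n m : ℕ) (S : Finset (ℤ × ℤ)) (l : ℤ × ℤ → ℝ) :
    Continuous (fun a : Ev n → ℝ => pv S l (kf n m a)) := by
  unfold pv kf
  exact continuous_finsetSum _ fun k _ => continuous_const.mul (continuous_apply _)

theorem ia_L_sub (n m : ℕ) (S : Finset (ℤ × ℤ)) (l : ℤ × ℤ → ℝ) (a b : Ev n → ℝ) :
    pv S l (kf n m (fun y => a y - b y)) = pv S l (kf n m a) - pv S l (kf n m b) := by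
  unfold pv kf
  rw [← Finset.sum_sub_distrib]
  exact Finset.sum_congr rfl fun k _ => by ring

theorem ia_L_neg (n m : ℕ) (S : Finset (ℤ × ℤ)) (l : ℤ × ℤ → ℝ) (a : Ev n → ℝ) :
    pv S l (kf n m (-a)) = -pv S l (kf n m a) := by
  unfold pv kf
  rw [← Finset.sum_neg_distrib]
  exact Finset.sum_congr rfl fun k _ => by simp

theorem ia_real {x E D C' K s R N : ℝ} (hC' : 0 ≤ C') (hK : 0 < K) (hs : 0 < s) (hR : 0 ≤ R)
    (hN : 0 ≤ N) (hE : 0 ≤ E) (h1 : E / K ≤ D) (h2 : D ≤ s * x)
    (h3 : x ≤ C' * (Real.sqrt (R * E) + N)) : x ≤ (C' ^ 2 * K + 2 * C') * (R * s + N) := by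
  have hEx : E ≤ K * (s * x) := by
    have := h1.trans h2
    rw [div_le_iff₀ hK] at this
    linarith
  have hx : 0 ≤ x := by
    by_contra hcon
    push Not at hcon
    have : K * (s * x) < 0 := mul_neg_of_pos_of_neg hK (mul_neg_of_pos_of_neg hs hcon)
    linarith
  have h4 : Real.sqrt (R * E) ≤ Real.sqrt (R * K * s) * Real.sqrt x := by
    rw [← Real.sqrt_mul (by positivity)]
    apply Real.sqrt_le_sqrt
    calc R * E ≤ R * (K * (s * x)) := mul_le_mul_of_nonneg_left hEx hR
      _ = R * K * s * x := by ring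
  have h5 : C' * (Real.sqrt (R * K * s) * Real.sqrt x) ≤ (x + C' ^ 2 * (R * K * s)) / 2 := by
    have e1 := Real.sq_sqrt (show 0 ≤ R * K * s by positivity)
    have e2 := Real.sq_sqrt hx
    nlinarith [sq_nonneg (Real.sqrt x - C' * Real.sqrt (R * K * s))]
  have h6 : x ≤ (x + C' ^ 2 * (R * K * s)) / 2 + C' * N := by
    calc x ≤ C' * (Real.sqrt (R * E) + N) := h3
      _ = C' * Real.sqrt (R * E) + C' * N := by ring
      _ ≤ C' * (Real.sqrt (R * K * s) * Real.sqrt x) + C' * N := by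
        have := mul_le_mul_of_nonneg_left h4 hC'
        linarith
      _ ≤ _ := by linarith
  have h7 : 0 ≤ C' * (R * s) := by positivity
  have h8 : 0 ≤ C' ^ 2 * K * N := by positivity
  nlinarith

theorem ia_n1 {V : Type} (S : Finset V) (l : V → ℝ) : 0 ≤ n1 S l :=
  Finset.sum_nonneg fun _ _ => abs_nonneg _

/-- Lemma G5: the mean under an exponential tilt -/
theorem tilt_mean (m : ℕ) (p0 : ℝ) : ∃ (C : ℝ) (n0 : ℕ), 0 ≤ C ∧ ∀ (n : ℕ) [NeZero n], n0 ≤ n →
    Hyp n m p0 → ∀ (l : ℤ × ℤ → ℝ) (R : ℝ) (θ : ℤ × ℤ → Fin 4 → ℝ), Flow (TT n m) l R θ →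
    ∀ s : ℝ, 0 ≤ s →
      ∫ a, pv (TT n m) l (kf n m a) * Real.exp (s * pv (TT n m) l (kf n m a)) ∂muh n 0 ≤
        C * (R * s + n1 (TT n m) l) *
          ∫ a, Real.exp (s * pv (TT n m) l (kf n m a)) ∂muh n 0 := by
  obtain ⟨C', n0, hC', hRt⟩ := R_thm m p0
  refine ⟨C' ^ 2 * |32 * m / p0| + 2 * C', max n0 2, by positivity, ?_⟩
  intro n _ hn H l R θ hθ s hs
  have hn0 : n0 ≤ n := le_trans (le_max_left _ _) hn
  have hn2 : 2 ≤ n := le_trans (le_max_right _ _) hn
  have hR0 : 0 ≤ R := le_trans (Finset.sum_nonneg fun k _ => Finset.sum_nonneg fun i _ =>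
    sq_nonneg _) hθ.le
  set S := TT n m with hS
  set L : (Ev n → ℝ) → ℝ := fun a => pv S l (kf n m a) with hL
  have hLc : Continuous L := ia_L_cont n m S l
  have hLodd : ∫ a, L a ∂muh n 0 = 0 :=
    muh_odd n hLc.measurable fun a => ia_L_neg n m S l a
  have hprob := muh_prob n
  have hCpos : 0 ≤ (C' ^ 2 * |32 * m / p0| + 2 * C') * (R * s + n1 S l) := by
    have := ia_n1 S l
    positivity
  rcases hs.eq_or_lt with hs0 | hspos
  · subst hs0
    have e1 : ∫ a, pv S l (kf n m a) * Real.exp (0 * pv S l (kf n m a)) ∂muh n 0 = 0 := by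
      simp only [zero_mul, Real.exp_zero, mul_one]
      exact hLodd
    rw [e1]
    exact mul_nonneg hCpos (integral_nonneg fun a => (Real.exp_pos _).le)
  · -- the tilt
    set lam : Ev n → ℝ := fun k => s * kv n m S l k with hlam
    have hdot : ∀ a, dot lam a = s * L a := by
      intro a
      simp only [hL]
      rw [← pv_kv]
      unfold dot
      rw [Finset.mul_sum]
      exact Finset.sum_congr rfl fun y _ => by simp only [hlam]; ring
    have hU := tilt_exp lam
    set U : (Ev n → ℝ) → ℝ := fun a => Real.exp (dot lam a) with hUdef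
    set U' : Ev n → (Ev n → ℝ) → ℝ := fun k a => lam k * Real.exp (dot lam a) with hU'def
    have hf := reg_fh n hn2
    obtain ⟨hZ, hfT⟩ := reg_tilt hf hU
    have hfT' : Reg (pp n) (fT n U) (DT n U U') := hfT
    have : Nonempty (Ev n) := ⟨pp n⟩
    obtain ⟨σ, hσ, hfirst⟩ := pol_first (nonK n m)
    obtain ⟨Ω, hΩ, P, z, z', hA⟩ := coupling hf hfT' hσ
    have hPprob := hA.prob
    have h2 := two_of n hn2 hU hA
    obtain ⟨hDi, hDle⟩ := energy_le n hn2 hU hA
    obtain ⟨hEi, hEge⟩ := energy_ge n m H hU hfirst hA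
    obtain ⟨hLi, hLle⟩ := hRt n hn0 H h2 hEi l R θ hθ
    -- integrability
    have hiz : Integrable (fun ω => L (z ω)) P :=
      ia_bdd hf hA.meas (fun ω => ⟨(hA.zp ω).1, (hA.zp ω).2.2.1⟩) hLc
    have hiz' : Integrable (fun ω => L (z' ω)) P :=
      ia_bdd hfT' hA.meas' (fun ω => ⟨(hA.zp ω).2.1, (hA.zp ω).2.2.2⟩) hLc
    set x : ℝ := ∫ ω, (L (z' ω) - L (z ω)) ∂P with hx
    have hz0 : ∫ ω, L (z ω) ∂P = 0 := by
      have h := integral_map (μ := P) hA.meas.aemeasurable (f := L)
        hLc.measurable.aestronglyMeasurable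
      rw [← h, hA.law, ← muh_eq]
      exact hLodd
    set Z : ℝ := ∫ b, fh n b * U b ∂bs (pp n) with hZdef
    have hz1 : ∫ ω, L (z' ω) ∂P = (∫ a, fh n a * (L a * U a) ∂bs (pp n)) / Z := by
      have h := integral_map (μ := P) hA.meas'.aemeasurable (f := L)
        hLc.measurable.aestronglyMeasurable
      rw [← h, hA.law', ia_wd hfT' L, ← integral_div]
      refine integral_congr_ae (Filter.Eventually.of_forall fun a => ?_)
      simp only [fT]
      rw [← hZdef]
      ring
    have hxeq : x = (∫ a, fh n a * (L a * U a) ∂bs (pp n)) / Z := by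
      rw [hx, integral_sub hiz' hiz, hz0, hz1, sub_zero]
    -- the energy
    have hDx : ∫ ω, ∑ k, U' k (z' ω) / U (z' ω) * (z' ω k - z ω k) ∂P = s * x := by
      rw [hx, ← integral_const_mul]
      refine integral_congr_ae (Filter.Eventually.of_forall fun ω => ?_)
      have e : ∀ k, U' k (z' ω) / U (z' ω) = lam k := by
        intro k
        simp only [hU'def, hUdef]
        rw [mul_div_assoc, div_self (Real.exp_pos _).ne', mul_one]
      simp only [e]
      have e2 := hdot (z' ω)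
      have e3 := hdot (z ω)
      unfold dot at e2 e3
      rw [mul_sub, ← e2, ← e3, ← Finset.sum_sub_distrib]
      exact Finset.sum_congr rfl fun k _ => by ring
    rw [hDx] at hDle
    set E : ℝ := ∫ ω, Eg n m (z ω) (fun y => z' ω y - z ω y) ∂P with hE
    have hE0 : 0 ≤ E := integral_nonneg fun ω => by
      unfold Eg
      exact Finset.sum_nonneg fun k _ => Finset.sum_nonneg fun i _ => sq_nonneg _
    have hm0 : (0 : ℝ) < m := by
      have := H.two
      exact_mod_cast (by omega : 0 < m)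
    have hK : 0 < 32 * (m : ℝ) / p0 := div_pos (by positivity) H.pos
    have hxle : x ≤ C' * (Real.sqrt (R * E) + n1 S l) := by
      refine le_trans ?_ hLle
      rw [hx]
      refine integral_mono (hiz'.sub hiz) hLi.abs fun ω => ?_
      simp only [ia_L_sub]
      exact le_abs_self _
    have hfin := ia_real hC' hK hspos hR0 (ia_n1 S l) hE0
      (show E / (32 * (m : ℝ) / p0) ≤ ∫ ω, Dis n (z ω) (z' ω) ∂P by
        refine le_trans (le_of_eq ?_) hEge
        have := H.pos
        field_simp) hDle hxle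
    -- conclusion
    have hreg1 : ∫ a, Real.exp (s * pv S l (kf n m a)) ∂muh n 0 = Z := by
      rw [muh_eq, ia_wd hf]
      refine integral_congr_ae (Filter.Eventually.of_forall fun a => ?_)
      simp only [hUdef]
      rw [hdot a]
    have hreg2 : ∫ a, pv S l (kf n m a) * Real.exp (s * pv S l (kf n m a)) ∂muh n 0 =
        ∫ a, fh n a * (L a * U a) ∂bs (pp n) := by
      rw [muh_eq, ia_wd hf]
      refine integral_congr_ae (Filter.Eventually.of_forall fun a => ?_)
      simp only [hUdef]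
      rw [hdot a]
    rw [hreg1, hreg2]
    have hxZ : ∫ a, fh n a * (L a * U a) ∂bs (pp n) = x * Z := by
      rw [hxeq, div_mul_cancel₀ _ hZ.ne']
    rw [hxZ, abs_of_pos hK]
    exact mul_le_mul_of_nonneg_right hfin hZ.le

end HK
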