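import Mathlib
import Pool.Agent.Lib_helper12.HK.DefsI
import Pool.Agent.Lib_helper12.HK.W.gc
import Pool.Agent.Lib_helper12.HK.W.ge
import Pool.Agent.Lib_helper12.HK.W.ia
import Pool.Agent.Lib_helper69.HKL.W.lb
import Pool.Agent.Lib_helper69.HKL.W.mc

set_option autoImplicit false

namespace HK

open MeasureTheory QG

theorem ib_int (n m : ℕ) [NeZero n] (S : Finset (ℤ × ℤ)) (l : ℤ × ℤ → ℝ) (s : ℝ) :
    Integrable (fun a => Real.exp (s * pv S l (kf n m a))) (muh n 0) := by
  have hp := muh_prob n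
  have hm : Measurable fun a : Ev n → ℝ => Real.exp (s * pv S l (kf n m a)) := by
    unfold pv kf
    refine Real.measurable_exp.comp (measurable_const.mul ?_)
    refine Finset.measurable_sum _ fun k _ => ?_
    exact measurable_const.mul (measurable_pi_apply _)
  refine Integrable.mono' (integrable_const
    (Real.exp (|s| * ∑ k ∈ S, |l k| * (2 * (lv n (ke n m k) (pp n) : ℝ))))) hm.aestronglyMeasurable ?_
  filter_upwards [muh_lip n] with a ha
  obtain ⟨h0, h1⟩ := ha
  rw [Real.norm_eq_abs, Real.abs_exp, Real.exp_le_exp]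
  refine (le_abs_self _).trans ?_
  rw [abs_mul]
  refine mul_le_mul_of_nonneg_left ?_ (abs_nonneg _)
  unfold pv kf
  refine (Finset.abs_sum_le_sum_abs _ _).trans (Finset.sum_le_sum fun k _ => ?_)
  rw [abs_mul]
  have h2 := h1 (ke n m k) (pp n)
  rw [h0, sub_zero] at h2
  exact mul_le_mul_of_nonneg_left h2 (abs_nonneg _)

theorem ib_core (n m : ℕ) [NeZero n] {C : ℝ} (hC : 0 ≤ C) (l : ℤ × ℤ → ℝ) {R : ℝ} (hR : 0 ≤ R)
    (ht : ∀ s : ℝ, 0 ≤ s →
      ∫ a, pv (TT n m) l (kf n m a) * Real.exp (s * pv (TT n m) l (kf n m a)) ∂muh n 0 ≤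
        C * (R * s + n1 (TT n m) l) *
          ∫ a, Real.exp (s * pv (TT n m) l (kf n m a)) ∂muh n 0) (s : ℝ) (hs : 0 ≤ s) :
    ∫ a, Real.exp (s * pv (TT n m) l (kf n m a)) ∂muh n 0 ≤
      Real.exp (C * (R * s ^ 2 + n1 (TT n m) l * |s|)) := by
  have hp := muh_prob n
  obtain ⟨N, hN⟩ : ∃ N : ℝ, N = n1 (TT n m) l := ⟨_, rfl⟩
  obtain ⟨L, hL⟩ : ∃ L : (Ev n → ℝ) → ℝ, L = fun a => pv (TT n m) l (kf n m a) := ⟨_, rfl⟩
  have hint : ∀ t : ℝ, Integrable (fun a => Real.exp (t * L a)) (muh n 0) := by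
    intro t
    rw [hL]
    exact ib_int n m (TT n m) l t
  have hset : ∀ t : ℝ, t ∈ interior (ProbabilityTheory.integrableExpSet L (muh n 0)) := by
    intro t
    have h1 : ProbabilityTheory.integrableExpSet L (muh n 0) = Set.univ := by
      refine Set.eq_univ_of_forall fun u => ?_
      exact hint u
    rw [h1, interior_univ]
    exact Set.mem_univ t
  obtain ⟨φ, hφ⟩ : ∃ φ : ℝ → ℝ, φ = fun t => ∫ a, Real.exp (t * L a) ∂muh n 0 := ⟨_, rfl⟩
  have hder : ∀ t, HasDerivAt φ (∫ a, L a * Real.exp (t * L a) ∂muh n 0) t := by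
    intro t
    have h1 := ProbabilityTheory.hasDerivAt_mgf (hset t)
    have h2 : ProbabilityTheory.mgf L (muh n 0) = φ := by
      rw [hφ]
      rfl
    rw [h2] at h1
    exact h1
  obtain ⟨ψ, hψ⟩ : ∃ ψ : ℝ → ℝ, ψ = fun t => φ t * Real.exp (-(C * (R * t ^ 2 / 2 + N * t))) :=
    ⟨_, rfl⟩
  have hderψ : ∀ t, HasDerivAt ψ ((∫ a, L a * Real.exp (t * L a) ∂muh n 0) *
      Real.exp (-(C * (R * t ^ 2 / 2 + N * t))) +
      φ t * (Real.exp (-(C * (R * t ^ 2 / 2 + N * t))) * (-(C * (R * t + N))))) t := by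
    intro t
    rw [hψ]
    refine (hder t).mul ?_
    have h1 : HasDerivAt (fun t : ℝ => -(C * (R * t ^ 2 / 2 + N * t))) (-(C * (R * t + N))) t := by
      have h2 : HasDerivAt (fun t : ℝ => t ^ 2) (2 * t) t := by
        have := hasDerivAt_pow 2 t
        simpa using this
      have h3 := ((((h2.const_mul R).div_const 2).add ((hasDerivAt_id t).const_mul N)).const_mul
        C).neg
      refine h3.congr_deriv ?_
      ring
    exact h1.exp
  have hanti : AntitoneOn ψ (Set.Ici 0) := by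
    refine antitoneOn_of_deriv_nonpos (convex_Ici 0) ?_ ?_ ?_
    · exact fun t _ => (hderψ t).continuousAt.continuousWithinAt
    · exact fun t _ => (hderψ t).differentiableAt.differentiableWithinAt
    · intro t ht0
      rw [interior_Ici] at ht0
      rw [(hderψ t).deriv]
      have h1 := ht t (le_of_lt ht0)
      have h2 : ∫ a, L a * Real.exp (t * L a) ∂muh n 0 ≤ C * (R * t + N) * φ t := by
        rw [hφ, hL, hN]
        exact h1
      have h3 : 0 < Real.exp (-(C * (R * t ^ 2 / 2 + N * t))) := Real.exp_pos _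
      have h4 : (∫ a, L a * Real.exp (t * L a) ∂muh n 0) *
          Real.exp (-(C * (R * t ^ 2 / 2 + N * t))) +
          φ t * (Real.exp (-(C * (R * t ^ 2 / 2 + N * t))) * (-(C * (R * t + N)))) =
          (∫ a, L a * Real.exp (t * L a) ∂muh n 0 - C * (R * t + N) * φ t) *
            Real.exp (-(C * (R * t ^ 2 / 2 + N * t))) := by ring
      rw [h4]
      exact mul_nonpos_of_nonpos_of_nonneg (by linarith) h3.le
  have h0 := hanti (Set.mem_Ici.mpr (le_refl (0 : ℝ))) (Set.mem_Ici.mpr hs) hs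
  have hψ0 : ψ 0 = 1 := by
    rw [hψ, hφ]
    simp
  have hN0 : 0 ≤ N := by
    rw [hN]
    exact Finset.sum_nonneg fun k _ => abs_nonneg _
  rw [hψ0] at h0
  have h5 : φ s ≤ Real.exp (C * (R * s ^ 2 / 2 + N * s)) := by
    have h6 : ψ s * Real.exp (C * (R * s ^ 2 / 2 + N * s)) = φ s := by
      rw [hψ]
      show φ s * Real.exp (-(C * (R * s ^ 2 / 2 + N * s))) *
        Real.exp (C * (R * s ^ 2 / 2 + N * s)) = φ s
      rw [mul_assoc, ← Real.exp_add, neg_add_cancel, Real.exp_zero, mul_one]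
    rw [← h6]
    calc ψ s * Real.exp (C * (R * s ^ 2 / 2 + N * s))
        ≤ 1 * Real.exp (C * (R * s ^ 2 / 2 + N * s)) :=
          mul_le_mul_of_nonneg_right h0 (Real.exp_pos _).le
      _ = Real.exp (C * (R * s ^ 2 / 2 + N * s)) := one_mul _
  have h7 : φ s ≤ Real.exp (C * (R * s ^ 2 + N * |s|)) := by
    refine h5.trans (Real.exp_le_exp.mpr ?_)
    rw [abs_of_nonneg hs]
    refine mul_le_mul_of_nonneg_left ?_ hC
    have h8 : 0 ≤ R * s ^ 2 := mul_nonneg hR (sq_nonneg s)
    linarith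
  rw [hφ, hL, hN] at h7
  exact h7

/-- exponential moments -/
theorem mgf_h (m : ℕ) (p0 : ℝ) : ∃ (C : ℝ) (n0 : ℕ), 0 ≤ C ∧ ∀ (n : ℕ) [NeZero n], n0 ≤ n →
    Hyp n m p0 → ∀ (l : ℤ × ℤ → ℝ) (R : ℝ) (θ : ℤ × ℤ → Fin 4 → ℝ), Flow (TT n m) l R θ →
    ∀ s : ℝ, ∫ a, Real.exp (s * pv (TT n m) l (kf n m a)) ∂muh n 0 ≤
      Real.exp (C * (R * s ^ 2 + n1 (TT n m) l * |s|)) := by
  obtain ⟨C, n0, hC, h⟩ := tilt_mean m p0
  refine ⟨C, n0, hC, ?_⟩
  intro n _ hn H l R θ hF s
  have hR : 0 ≤ R := le_trans (Finset.sum_nonneg fun k _ => Finset.sum_nonneg fun i _ =>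
    sq_nonneg _) hF.le
  rcases le_total 0 s with hs | hs
  · exact ib_core n m hC l hR (h n hn H l R θ hF) s hs
  · have hF' : Flow (TT n m) (fun k => -l k) R (fun k i => -θ k i) := by
      refine ⟨?_, ?_, ?_⟩
      · intro k hk i
        show -θ k i = 0
        rw [hF.supp k hk i, neg_zero]
      · intro g
        have h1 := hF.eq g
        have h2 : pv (TT n m) (fun k => -l k) g = -pv (TT n m) l g := by
          unfold pv
          rw [← Finset.sum_neg_distrib]
          refine Finset.sum_congr rfl fun k _ => ?_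
          ring
        rw [h2, h1, ← Finset.sum_neg_distrib]
        refine Finset.sum_congr rfl fun k _ => ?_
        rw [← Finset.sum_neg_distrib]
        refine Finset.sum_congr rfl fun i _ => ?_
        ring
      · refine le_trans (le_of_eq ?_) hF.le
        refine Finset.sum_congr rfl fun k _ => Finset.sum_congr rfl fun i _ => ?_
        ring
    have h3 := ib_core n m hC (fun k => -l k) hR (h n hn H _ R _ hF') (-s) (by linarith)
    have h4 : ∀ a : Ev n → ℝ, -s * pv (TT n m) (fun k => -l k) (kf n m a) =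
        s * pv (TT n m) l (kf n m a) := by
      intro a
      unfold pv
      rw [Finset.mul_sum, Finset.mul_sum]
      refine Finset.sum_congr rfl fun k _ => ?_
      ring
    have h5 : n1 (TT n m) (fun k => -l k) = n1 (TT n m) l := by
      unfold n1
      refine Finset.sum_congr rfl fun k _ => ?_
      rw [abs_neg]
    simp only [h4] at h3
    rw [h5, abs_neg, neg_sq] at h3
    exact h3

end HK
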