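import Mathlib
import Pool.Agent.Lib_helper12.HK.DefsI
import Pool.Agent.Lib_helper12.HK.W.gc
import Pool.Agent.Lib_helper12.HK.W.ge
import Pool.Agent.Lib_helper12.HK.W.ib
import Pool.Agent.Lib_helper69.HKL.W.la
import Pool.Agent.Lib_helper69.HKL.W.lb
import Pool.Agent.Lib_helper69.HKL.W.mc

set_option autoImplicit false

namespace HK

open MeasureTheory QG

/-- the functional is measurable -/
theorem ic_meas (n m : ℕ) [NeZero n] (S : Finset (ℤ × ℤ)) (l : ℤ × ℤ → ℝ) :
    Measurable (fun a : Ev n → ℝ => pv S l (kf n m a)) := by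
  unfold pv kf
  exact Finset.measurable_sum _ fun k _ => measurable_const.mul (measurable_pi_apply _)

/-- the functional is bounded -/
theorem ic_bdd (n m : ℕ) [NeZero n] (S : Finset (ℤ × ℤ)) (l : ℤ × ℤ → ℝ) :
    ∃ B : ℝ, 0 ≤ B ∧ ∀ᵐ a ∂muh n 0, |pv S l (kf n m a)| ≤ B := by
  refine ⟨∑ k ∈ S, |l k| * (2 * (lv n (ke n m k) (pp n) : ℝ)),
    Finset.sum_nonneg fun k _ => by positivity, ?_⟩
  filter_upwards [muh_lip n] with a ha
  unfold pv kf
  refine (Finset.abs_sum_le_sum_abs _ _).trans (Finset.sum_le_sum fun k _ => ?_)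
  rw [abs_mul]
  refine mul_le_mul_of_nonneg_left ?_ (abs_nonneg _)
  have h := ha.2 (ke n m k) (pp n)
  rw [ha.1, sub_zero] at h
  exact h

theorem ic_int (n m : ℕ) [NeZero n] (S : Finset (ℤ × ℤ)) (l : ℤ × ℤ → ℝ) (s : ℝ) :
    Integrable (fun a => Real.exp (s * pv S l (kf n m a))) (muh n 0) := by
  have hP := muh_prob n
  obtain ⟨B, hB, hb⟩ := ic_bdd n m S l
  refine Integrable.of_bound (C := Real.exp (|s| * B))
    (Real.measurable_exp.comp (measurable_const.mul (ic_meas n m S l))).aestronglyMeasurable ?_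
  filter_upwards [hb] with a ha
  rw [Real.norm_eq_abs, abs_of_pos (Real.exp_pos _), Real.exp_le_exp]
  calc s * pv S l (kf n m a) ≤ |s * pv S l (kf n m a)| := le_abs_self _
    _ = |s| * |pv S l (kf n m a)| := abs_mul _ _
    _ ≤ |s| * B := mul_le_mul_of_nonneg_left ha (abs_nonneg _)

/-- Part G: moments of functionals -/
theorem moments_h (m : ℕ) (p0 : ℝ) : ∃ (C : ℝ) (n0 : ℕ), 1 ≤ C ∧ ∀ (n : ℕ) [NeZero n], n0 ≤ n →
    Hyp n m p0 → ∀ (l : ℤ × ℤ → ℝ) (R : ℝ), 0 ≤ R →
    (∀ h : ℤ × ℤ → ℝ, pv (TT n m) l h ^ 2 ≤ R * Ez (TT n m) h) →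
    ∫ a, pv (TT n m) l (kf n m a) ^ 2 ∂muh n 0 ≤ C * (R + n1 (TT n m) l ^ 2) ∧
      ∫ a, pv (TT n m) l (kf n m a) ^ 4 ∂muh n 0 ≤ C * (R + n1 (TT n m) l ^ 2) ^ 2 := by
  obtain ⟨C, n0, hC, H⟩ := mgf_h m p0
  refine ⟨48 * Real.exp (2 * C), n0, ?_, ?_⟩
  · have : 1 ≤ Real.exp (2 * C) := Real.one_le_exp (by positivity)
    linarith
  intro n _ hn hyp l R hR hl
  obtain ⟨θ, t1, t2, t3⟩ := dual_nn (TT n m) hR hl
  have hF : Flow (TT n m) l R θ := ⟨t1, t3, t2⟩
  have hm := H n hn hyp l R θ hF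
  set S := TT n m with hS
  have hN0 : 0 ≤ n1 S l := by
    unfold n1
    exact Finset.sum_nonneg fun k _ => abs_nonneg _
  set N := n1 S l with hN
  set L : (Ev n → ℝ) → ℝ := fun a => pv S l (kf n m a) with hL
  have hW0 : 0 ≤ R + N ^ 2 := by positivity
  rcases hW0.eq_or_lt with hW | hW
  · have hN2 : N ^ 2 = 0 := by nlinarith [sq_nonneg N]
    have hN3 : N = 0 := by simpa using hN2
    have hl0 : ∀ k ∈ S, l k = 0 := by
      intro k hk
      have h1 : |l k| ≤ N := by
        rw [hN]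
        unfold n1
        exact Finset.single_le_sum (f := fun k => |l k|) (fun i _ => abs_nonneg _) hk
      rw [hN3] at h1
      exact abs_nonpos_iff.1 h1
    have hz : ∀ a : Ev n → ℝ, pv S l (kf n m a) = 0 := by
      intro a
      unfold pv
      exact Finset.sum_eq_zero fun k hk => by rw [hl0 k hk, zero_mul]
    simp only [hz]
    rw [← hW]
    simp
  · have hP := muh_prob n
    set s : ℝ := (Real.sqrt (R + N ^ 2))⁻¹ with hs
    have hq : 0 < Real.sqrt (R + N ^ 2) := Real.sqrt_pos.2 hW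
    have hs0 : 0 < s := inv_pos.2 hq
    have hs2 : s ^ 2 * (R + N ^ 2) = 1 := by
      rw [hs, inv_pow, Real.sq_sqrt hW.le, inv_mul_cancel₀ hW.ne']
    have hsR : R * s ^ 2 ≤ 1 := by nlinarith [mul_nonneg (sq_nonneg s) (sq_nonneg N)]
    have hsN : N * s ≤ 1 := by
      have h1 : (N * s) ^ 2 ≤ 1 ^ 2 := by
        nlinarith [mul_nonneg (sq_nonneg s) hR]
      exact (abs_le_of_sq_le_sq' h1 zero_le_one).2
    have key : ∫ a, Real.exp |s * L a| ∂muh n 0 ≤ 2 * Real.exp (2 * C) := by
      have h1 : ∫ a, Real.exp |s * L a| ∂muh n 0 ≤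
          ∫ a, (Real.exp (s * L a) + Real.exp (-s * L a)) ∂muh n 0 := by
        refine integral_mono_of_nonneg (Filter.Eventually.of_forall fun a => (Real.exp_pos _).le)
          ((ic_int n m S l s).add (ic_int n m S l (-s))) (Filter.Eventually.of_forall fun a => ?_)
        have := Real.exp_abs_le (s * L a)
        simpa [neg_mul] using this
      rw [integral_add (ic_int n m S l s) (ic_int n m S l (-s))] at h1
      have e1 := hm s
      have e2 := hm (-s)
      have e3 : Real.exp (C * (R * s ^ 2 + N * |s|)) ≤ Real.exp (2 * C) := by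
        rw [Real.exp_le_exp, abs_of_pos hs0]
        nlinarith
      rw [neg_sq, abs_neg] at e2
      linarith
    have hint : Integrable (fun a => Real.exp |s * L a|) (muh n 0) := by
      refine Integrable.mono ((ic_int n m S l s).add (ic_int n m S l (-s)))
        (Real.measurable_exp.comp ((measurable_const.mul (ic_meas n m S l)).abs)).aestronglyMeasurable
        (Filter.Eventually.of_forall fun a => ?_)
      have h1 := Real.exp_abs_le (s * L a)
      rw [Real.norm_eq_abs, abs_of_pos (Real.exp_pos _)]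
      refine le_trans ?_ (le_abs_self _)
      simpa [neg_mul] using h1
    have mom : ∀ j : ℕ, ∫ a, |s * L a| ^ j ∂muh n 0 ≤ j.factorial * (2 * Real.exp (2 * C)) := by
      intro j
      have h1 : ∫ a, |s * L a| ^ j ∂muh n 0 ≤ ∫ a, j.factorial * Real.exp |s * L a| ∂muh n 0 := by
        refine integral_mono_of_nonneg (Filter.Eventually.of_forall fun a => by positivity)
          (hint.const_mul _) (Filter.Eventually.of_forall fun a => ?_)
        have := Real.pow_div_factorial_le_exp |s * L a| (abs_nonneg _) j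
        rw [div_le_iff₀ (by positivity)] at this
        simp only
        linarith
      rw [integral_const_mul] at h1
      exact h1.trans (mul_le_mul_of_nonneg_left key (by positivity))
    have hE : 0 < Real.exp (2 * C) := Real.exp_pos _
    constructor
    · have h2 := mom 2
      have h3 : ∀ a, |s * L a| ^ 2 = s ^ 2 * L a ^ 2 := fun a => by rw [sq_abs]; ring
      simp only [h3] at h2
      rw [integral_const_mul] at h2
      have h4 : (Nat.factorial 2 : ℝ) = 2 := by norm_num [Nat.factorial]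
      rw [h4] at h2
      have h5 : ∫ a, L a ^ 2 ∂muh n 0 =
          (s ^ 2 * ∫ a, L a ^ 2 ∂muh n 0) * (R + N ^ 2) := by
        calc _ = (s ^ 2 * (R + N ^ 2)) * ∫ a, L a ^ 2 ∂muh n 0 := by rw [hs2, one_mul]
          _ = _ := by ring
      have h6 : ∫ a, L a ^ 2 ∂muh n 0 ≤ (2 * (2 * Real.exp (2 * C))) * (R + N ^ 2) := by
        rw [h5]
        exact mul_le_mul_of_nonneg_right h2 hW.le
      refine h6.trans ?_
      apply mul_le_mul_of_nonneg_right _ hW.le
      linarith
    · have h2 := mom 4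
      have h3 : ∀ a, |s * L a| ^ 4 = s ^ 4 * L a ^ 4 := fun a => by
        rw [show (4 : ℕ) = 2 * 2 by norm_num, pow_mul, sq_abs]; ring
      simp only [h3] at h2
      rw [integral_const_mul] at h2
      have h4 : (Nat.factorial 4 : ℝ) = 24 := by norm_num [Nat.factorial]
      rw [h4] at h2
      have h5 : ∫ a, L a ^ 4 ∂muh n 0 =
          (s ^ 4 * ∫ a, L a ^ 4 ∂muh n 0) * (R + N ^ 2) ^ 2 := by
        calc _ = (s ^ 2 * (R + N ^ 2)) ^ 2 * ∫ a, L a ^ 4 ∂muh n 0 := by rw [hs2]; ring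
          _ = _ := by ring
      have h6 : ∫ a, L a ^ 4 ∂muh n 0 ≤ (24 * (2 * Real.exp (2 * C))) * (R + N ^ 2) ^ 2 := by
        rw [h5]
        exact mul_le_mul_of_nonneg_right h2 (by positivity)
      refine h6.trans (le_of_eq ?_)
      ring

end HK
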