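import Mathlib
import Pool.Agent.Lib_helper12.HK.DefsI
import Pool.Agent.Lib_helper12.HK.W.gc
import Pool.Agent.Lib_helper12.HK.W.gd
import Pool.Agent.Lib_helper12.HK.W.gg
import Pool.Agent.Lib_helper12.HK.W.gk
import Pool.Agent.Lib_helper12.HK.W.gn
import Pool.Agent.Lib_helper69.HKL.W.lb

set_option autoImplicit false

namespace HK

open MeasureTheory QG

theorem id_real {x E D C' K R N : ℝ} (hC' : 0 ≤ C') (hK : 0 < K) (hR : 0 ≤ R)
    (hN : 0 ≤ N) (hE : 0 ≤ E) (hx : 0 ≤ x) (h1 : E / K ≤ D) (h2 : D ≤ x)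
    (h3 : x ≤ C' * (Real.sqrt (R * E) + N)) : E ≤ K * (C' ^ 2 * K + 2 * C') * (R + N) := by
  have hEx : E ≤ K * x := by
    have := h1.trans h2
    rw [div_le_iff₀ hK] at this
    linarith
  have h4 : Real.sqrt (R * E) ≤ Real.sqrt (R * K) * Real.sqrt x := by
    rw [← Real.sqrt_mul (by positivity)]
    apply Real.sqrt_le_sqrt
    calc R * E ≤ R * (K * x) := mul_le_mul_of_nonneg_left hEx hR
      _ = R * K * x := by ring
  have h5 : C' * (Real.sqrt (R * K) * Real.sqrt x) ≤ (x + C' ^ 2 * (R * K)) / 2 := by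
    have e1 := Real.sq_sqrt (show 0 ≤ R * K by positivity)
    have e2 := Real.sq_sqrt hx
    nlinarith [sq_nonneg (Real.sqrt x - C' * Real.sqrt (R * K))]
  have h6 : x ≤ (x + C' ^ 2 * (R * K)) / 2 + C' * N := by
    calc x ≤ C' * (Real.sqrt (R * E) + N) := h3
      _ = C' * Real.sqrt (R * E) + C' * N := by ring
      _ ≤ C' * (Real.sqrt (R * K) * Real.sqrt x) + C' * N := by
        have := mul_le_mul_of_nonneg_left h4 hC'
        linarith
      _ ≤ _ := by linarith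
  have h7 : x ≤ (C' ^ 2 * K + 2 * C') * (R + N) := by
    have h7 : 0 ≤ C' * R := by positivity
    have h8 : 0 ≤ C' ^ 2 * K * N := by positivity
    nlinarith
  calc E ≤ K * x := hEx
    _ ≤ K * ((C' ^ 2 * K + 2 * C') * (R + N)) := mul_le_mul_of_nonneg_left h7 hK.le
    _ = _ := by ring

/-- the energy of a coupling with a bounded tilt -/
theorem bd_mean (m : ℕ) (p0 : ℝ) : ∃ (C : ℝ) (n0 : ℕ), 0 ≤ C ∧ ∀ (n : ℕ) [NeZero n], n0 ≤ n →
    Hyp n m p0 → ∀ (l : ℤ × ℤ → ℝ) (R : ℝ) (θ : ℤ × ℤ → Fin 4 → ℝ), Flow (TT n m) l R θ →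
    ∀ {u u' : ℝ → ℝ}, (∀ x, HasDerivAt u (u' x) x) → Continuous u' → (∀ x, |u x| ≤ 1) →
    (∀ x, |u' x| ≤ 1) → ∀ {σ : St (Ev n) → Ev n},
    (∀ s : St (Ev n), ¬ s.1 ⊆ nonK n m → σ s ∉ nonK n m) → ∀ {Ω : Type} [MeasurableSpace Ω]
    {P : Measure Ω} {z z' : Ω → Ev n → ℝ},
    ACpl (pp n) (fh n) (fT n (Ub u (kv n m (TT n m) l))) (Dh n)
      (DT n (Ub u (kv n m (TT n m) l)) (Ub' u' (kv n m (TT n m) l))) σ P z z' →
    ∫ ω, Eg n m (z ω) (fun y => z' ω y - z ω y) ∂P ≤ C * (R + n1 (TT n m) l) := by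
  obtain ⟨C', n0, hC', hRt⟩ := R_thm m p0
  refine ⟨|32 * m / p0| * (C' ^ 2 * |32 * m / p0| + 2 * C'), max n0 2, by positivity, ?_⟩
  intro n _ hn H l R θ hθ u u' hu huc hu1 hu1' σ hσ Ω _ P z z' hA
  have hn0 : n0 ≤ n := le_trans (le_max_left _ _) hn
  have hn2 : 2 ≤ n := le_trans (le_max_right _ _) hn
  have hR0 : 0 ≤ R := le_trans (Finset.sum_nonneg fun k _ => Finset.sum_nonneg fun i _ =>
    sq_nonneg _) hθ.le
  have hN0 : 0 ≤ n1 (TT n m) l := Finset.sum_nonneg fun _ _ => abs_nonneg _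
  have hU : Tilt (Ub u (kv n m (TT n m) l)) (Ub' u' (kv n m (TT n m) l)) :=
    tilt_bd hu huc hu1 (kv n m (TT n m) l)
  have h2 := two_of n hn2 hU hA
  obtain ⟨hDi, hDle⟩ := energy_le n hn2 hU hA
  obtain ⟨hEi, hEge⟩ := energy_ge n m H hU hσ hA
  obtain ⟨hLi, hLle⟩ := hRt n hn0 H h2 hEi l R θ hθ
  have hE0 : 0 ≤ ∫ ω, Eg n m (z ω) (fun y => z' ω y - z ω y) ∂P := integral_nonneg fun ω => by
    unfold Eg
    exact Finset.sum_nonneg fun k _ => Finset.sum_nonneg fun i _ => sq_nonneg _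
  have hm0 : (0 : ℝ) < m := by
    have := H.two
    exact_mod_cast (by omega : 0 < m)
  have hp0 := H.pos
  have hK : 0 < 32 * (m : ℝ) / p0 := div_pos (by positivity) hp0
  have hDx : ∫ ω, Dis n (z ω) (z' ω) ∂P ≤
      ∫ ω, |pv (TT n m) l (kf n m (fun y => z' ω y - z ω y))| ∂P := by
    refine hDle.trans ((le_abs_self _).trans ?_)
    rw [← Real.norm_eq_abs]
    refine norm_integral_le_of_norm_le hLi.abs (Filter.Eventually.of_forall fun ω => ?_)
    have e1 : ∑ k, Ub' u' (kv n m (TT n m) l) k (z' ω) / Ub u (kv n m (TT n m) l) (z' ω) *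
        (z' ω k - z ω k) = (u' (dot (kv n m (TT n m) l) (z' ω)) /
          (2 + u (dot (kv n m (TT n m) l) (z' ω)))) *
          pv (TT n m) l (kf n m (fun y => z' ω y - z ω y)) := by
      rw [← pv_kv]
      unfold dot
      rw [Finset.mul_sum]
      refine Finset.sum_congr rfl fun k _ => ?_
      unfold Ub Ub' dot
      have h3 := (abs_le.1 (hu1 (∑ y, kv n m (TT n m) l y * z' ω y))).1
      have h4 : (2 + u (∑ y, kv n m (TT n m) l y * z' ω y)) ≠ 0 := by linarith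
      have h5 : (1 + u (∑ y, kv n m (TT n m) l y * z' ω y) / 2) ≠ 0 := by linarith
      field_simp
    rw [e1, Real.norm_eq_abs, abs_mul]
    have h3 := (abs_le.1 (hu1 (dot (kv n m (TT n m) l) (z' ω)))).1
    have h6 : |u' (dot (kv n m (TT n m) l) (z' ω)) /
        (2 + u (dot (kv n m (TT n m) l) (z' ω)))| ≤ 1 := by
      rw [abs_div, div_le_one (abs_pos.2 (by linarith))]
      refine (hu1' _).trans ?_
      rw [abs_of_pos (by linarith)]
      linarith
    exact mul_le_of_le_one_left (abs_nonneg _) h6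
  rw [abs_of_pos hK]
  refine id_real hC' hK hR0 hN0 hE0 (integral_nonneg fun ω => abs_nonneg _)
    (show (∫ ω, Eg n m (z ω) (fun y => z' ω y - z ω y) ∂P) / (32 * (m : ℝ) / p0) ≤
      ∫ ω, Dis n (z ω) (z' ω) ∂P by
      refine le_trans (le_of_eq ?_) hEge
      field_simp) hDx hLle

end HK
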