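import Mathlib
import Pool.Agent.Lib_helper12.HK.DefsI
import Pool.Agent.Lib_helper12.HK.W.ei
import Pool.Agent.Lib_helper12.HK.W.he

set_option autoImplicit false

namespace HK

open MeasureTheory QG

theorem ie_dir {k k' : ℤ × ℤ} (h : nn k k') : ∃ i : Fin 4, k' = k + dz i := by
  obtain ⟨a, b⟩ := k
  obtain ⟨c, d⟩ := k'
  unfold nn at h
  have h' : |a - c| + |b - d| = 1 := h
  have h0 : (c = a - 1 ∧ d = b) ∨ (c = a + 1 ∧ d = b) ∨ (c = a ∧ d = b + 1) ∨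
      (c = a ∧ d = b - 1) := by
    rcases abs_cases (a - c) with ⟨h1, h2⟩ | ⟨h1, h2⟩ <;>
      rcases abs_cases (b - d) with ⟨h3, h4⟩ | ⟨h3, h4⟩ <;> omega
  rcases h0 with ⟨h1, h2⟩ | ⟨h1, h2⟩ | ⟨h1, h2⟩ | ⟨h1, h2⟩
  · refine ⟨0, Prod.ext ?_ ?_⟩
    · show c = a + (-1)
      omega
    · show d = b + 0
      omega
  · refine ⟨1, Prod.ext ?_ ?_⟩
    · show c = a + 1
      omega
    · show d = b + 0
      omega
  · refine ⟨2, Prod.ext ?_ ?_⟩
    · show c = a + 0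
      omega
    · show d = b + 1
      omega
  · refine ⟨3, Prod.ext ?_ ?_⟩
    · show c = a + 0
      omega
    · show d = b + (-1)
      omega

theorem ie_path (G : Finset (ℤ × ℤ)) (h : ℤ × ℤ → ℝ) {N : ℕ} {γ : ℕ → ℤ × ℤ} (hγ : NPath N γ)
    (hG : ∀ j ≤ N, γ j ∈ G) :
    h (γ N) - h (γ 0) ≤ ∑ g ∈ G, ∑ i : Fin 4, |h (g + dz i) - h g| := by
  classical
  have h1 : h (γ N) - h (γ 0) = ∑ j ∈ Finset.range N, (h (γ (j + 1)) - h (γ j)) :=
    (Finset.sum_range_sub (fun j => h (γ j)) N).symm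
  rw [h1]
  have h2 : ∀ j ∈ Finset.range N, h (γ (j + 1)) - h (γ j) ≤
      ∑ i : Fin 4, |h (γ j + dz i) - h (γ j)| := by
    intro j hj
    obtain ⟨i, hi⟩ := ie_dir (hγ.nn j (Finset.mem_range.mp hj))
    rw [hi]
    refine (le_abs_self _).trans ?_
    exact Finset.single_le_sum (f := fun i => |h (γ j + dz i) - h (γ j)|)
      (fun i _ => abs_nonneg _) (Finset.mem_univ i)
  refine (Finset.sum_le_sum h2).trans ?_
  have hinj : Set.InjOn γ (Finset.range N : Set ℕ) := by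
    intro a ha b hb hab
    refine hγ.inj ?_ ?_ hab
    · exact (Finset.mem_range.mp (Finset.mem_coe.mp ha)).le
    · exact (Finset.mem_range.mp (Finset.mem_coe.mp hb)).le
  rw [← Finset.sum_image (f := fun g => ∑ i : Fin 4, |h (g + dz i) - h g|) hinj]
  refine Finset.sum_le_sum_of_subset_of_nonneg ?_ fun g _ _ =>
    Finset.sum_nonneg fun i _ => abs_nonneg _
  intro g hg
  obtain ⟨j, hj, rfl⟩ := Finset.mem_image.mp hg
  exact hG j (Finset.mem_range.mp hj).le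

theorem ie_cs (G : Finset (ℤ × ℤ)) (h : ℤ × ℤ → ℝ) :
    ∑ g ∈ G, ∑ i : Fin 4, |h (g + dz i) - h g| ≤ Real.sqrt (4 * G.card * Ez G h) := by
  have h1 : ∑ g ∈ G, ∑ i : Fin 4, |h (g + dz i) - h g| =
      ∑ x ∈ G ×ˢ (Finset.univ : Finset (Fin 4)), 1 * |h (x.1 + dz x.2) - h x.1| := by
    rw [Finset.sum_product]
    refine Finset.sum_congr rfl fun g _ => Finset.sum_congr rfl fun i _ => ?_
    rw [one_mul]
  rw [h1]
  refine (Real.sum_mul_le_sqrt_mul_sqrt _ _ _).trans (le_of_eq ?_)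
  have h2 : ∑ x ∈ G ×ˢ (Finset.univ : Finset (Fin 4)), (1 : ℝ) ^ 2 = 4 * G.card := by
    rw [Finset.sum_const, Finset.card_product, Finset.card_univ, Fintype.card_fin, nsmul_eq_mul]
    push_cast
    ring
  have h3 : ∑ x ∈ G ×ˢ (Finset.univ : Finset (Fin 4)), |h (x.1 + dz x.2) - h x.1| ^ 2 =
      Ez G h := by
    rw [Finset.sum_product]
    unfold Ez
    refine Finset.sum_congr rfl fun g _ => Finset.sum_congr rfl fun i _ => ?_
    rw [sq_abs]
  rw [h2, h3, ← Real.sqrt_mul (by positivity)]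

/-- Lemma I1, deterministic part -/
theorem osc_gam {n m : ℕ} {B : Set (ℤ × ℤ)} {z : ℤ × ℤ} {ρ r : ℕ}
    (hr : ∀ x, Cl B z ρ x → r < di z x) (hL : ∀ x, di z x ≤ ρ → x ∈ LamI n m R0)
    {h : ℤ × ℤ → ℝ} {C : ℝ} (hC : 0 ≤ C)
    (hmax : ∀ k ∈ Oc B z ρ, (∀ M : ℝ, (∀ g ∈ Gam B z ρ, h g ≤ M) → h k ≤ M + C) ∧
      ∀ M : ℝ, (∀ g ∈ Gam B z ρ, M ≤ h g) → M - C ≤ h k)
    {T : Finset (ℤ × ℤ)} {l : ℤ × ℤ → ℝ} (hl : ∀ k, l k ≠ 0 → k ∈ T ∧ di z k ≤ r)
    (h0 : ∑ k ∈ T, l k = 0) (h2 : n1 T l ≤ 2) :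
    |pv T l h| ≤ Real.sqrt (4 * (GF n m B z ρ).card * Ez (GF n m B z ρ) h) + 2 * C := by
  classical
  have hz : ¬ Cl B z ρ z := by
    intro hz
    have h3 := hr z hz
    have h4 : di z z = 0 := by
      unfold di
      rw [sub_self, sub_self]
      rfl
    omega
  have hmem : ∀ g, g ∈ GF n m B z ρ ↔ g ∈ Gam B z ρ := by
    intro g
    unfold GF
    rw [Finset.mem_filter]
    constructor
    · exact fun h3 => h3.2
    · exact fun h3 => ⟨hL g (gam_good hz h3).2, h3⟩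
  obtain ⟨g0, hg0⟩ := gam_ne hz
  have hne : (GF n m B z ρ).Nonempty := ⟨g0, (hmem g0).mpr hg0⟩
  obtain ⟨gM, hgM, hM⟩ := Finset.exists_max_image (GF n m B z ρ) h hne
  obtain ⟨gN, hgN, hN⟩ := Finset.exists_min_image (GF n m B z ρ) h hne
  have hM' : ∀ g ∈ Gam B z ρ, h g ≤ h gM := fun g hg => hM g ((hmem g).mpr hg)
  have hN' : ∀ g ∈ Gam B z ρ, h gN ≤ h g := fun g hg => hN g ((hmem g).mpr hg)
  obtain ⟨N, γ, hγ, hγ0, hγN, hγG⟩ := gam_conn hz ((hmem gN).mp hgN) ((hmem gM).mp hgM)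
  have hosc : h gM - h gN ≤
      Real.sqrt (4 * (GF n m B z ρ).card * Ez (GF n m B z ρ) h) := by
    have h3 := ie_path (GF n m B z ρ) h hγ (fun j hj => (hmem _).mpr (hγG j hj))
    rw [hγ0, hγN] at h3
    exact h3.trans (ie_cs _ _)
  have hMN : h gN ≤ h gM := hM gN hgN
  have e1 : pv T l h = ∑ k ∈ T, l k * (h k - (h gM + h gN) / 2) := by
    have h3 : ∑ k ∈ T, l k * (h k - (h gM + h gN) / 2) =
        pv T l h - (∑ k ∈ T, l k) * ((h gM + h gN) / 2) := by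
      unfold pv
      rw [Finset.sum_mul, ← Finset.sum_sub_distrib]
      refine Finset.sum_congr rfl fun k _ => ?_
      ring
    rw [h3, h0, zero_mul, sub_zero]
  have e2 : |pv T l h| ≤ ((h gM - h gN) / 2 + C) * n1 T l := by
    rw [e1]
    unfold n1
    rw [Finset.mul_sum]
    refine (Finset.abs_sum_le_sum_abs _ _).trans (Finset.sum_le_sum fun k _ => ?_)
    rw [abs_mul]
    by_cases hk : l k = 0
    · rw [hk, abs_zero, zero_mul, mul_zero]
    · obtain ⟨_, hkr⟩ := hl k hk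
      have hkO := oc_ball hr hkr
      have h4 := (hmax k hkO).1 (h gM) hM'
      have h5 := (hmax k hkO).2 (h gN) hN'
      have h6 : |h k - (h gM + h gN) / 2| ≤ (h gM - h gN) / 2 + C := by
        rw [abs_le]
        constructor <;> linarith
      rw [mul_comm]
      exact mul_le_mul_of_nonneg_right h6 (abs_nonneg _)
  have h7 : 0 ≤ (h gM - h gN) / 2 + C := by linarith
  have h8 : ((h gM - h gN) / 2 + C) * n1 T l ≤ ((h gM - h gN) / 2 + C) * 2 :=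
    mul_le_mul_of_nonneg_left h2 h7
  linarith

end HK
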