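import Mathlib
import Pool.Agent.Lib_helper12.HK.DefsI
import Pool.Agent.Lib_helper12.HK.W.ei

set_option autoImplicit false

namespace HK

open MeasureTheory QG

/-- the circuits of different radii are disjoint -/
theorem sum_gam {n m : ℕ} (a h : Ev n → ℝ) (z : ℤ × ℤ) (J m0 r : ℕ) (hm : 1 ≤ m0)
    (hd : ∀ j ∈ Finset.Icc 1 J, ∀ x, Cl (Bds n m a : Set (ℤ × ℤ)) z (r + 2 * m0 * j) x →
      r + 2 * m0 * j ≤ di z x + m0) :
    ∑ j ∈ Finset.Icc 1 J, Ez (GF n m (Bds n m a : Set (ℤ × ℤ)) z (r + 2 * m0 * j)) (kf n m h) ≤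
      Eg n m a h := by
  classical
  have hzz : di z z = 0 := by
    unfold di
    simp
  have key : ∀ j ∈ Finset.Icc 1 J, ∀ g ∈ GF n m (Bds n m a : Set (ℤ × ℤ)) z (r + 2 * m0 * j),
      g ∈ LamI n m R0 ∧ g ∉ (Bds n m a : Set (ℤ × ℤ)) ∧ r + 2 * m0 * j ≤ di z g + m0 ∧
        di z g ≤ r + 2 * m0 * j := by
    intro j hj g hg
    have hj1 : 1 ≤ j := (Finset.mem_Icc.mp hj).1
    have hmj : m0 ≤ m0 * j := Nat.le_mul_of_pos_right m0 hj1
    unfold GF at hg
    rw [Finset.mem_filter] at hg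
    have hnz : ¬ Cl (Bds n m a : Set (ℤ × ℤ)) z (r + 2 * m0 * j) z := by
      intro hc
      have h1 := hd j hj z hc
      rw [hzz, mul_assoc] at h1
      omega
    have h2 := gam_good hnz hg.2
    exact ⟨hg.1, h2.1, hd j hj g hg.2.1, h2.2⟩
  have hdis : Set.PairwiseDisjoint (↑(Finset.Icc 1 J))
      (fun j => GF n m (Bds n m a : Set (ℤ × ℤ)) z (r + 2 * m0 * j)) := by
    have hlt : ∀ i ∈ Finset.Icc 1 J, ∀ j ∈ Finset.Icc 1 J, i < j →
        Disjoint (GF n m (Bds n m a : Set (ℤ × ℤ)) z (r + 2 * m0 * i))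
          (GF n m (Bds n m a : Set (ℤ × ℤ)) z (r + 2 * m0 * j)) := by
      intro i hi j hj hij
      rw [Finset.disjoint_left]
      intro g hg1 hg2
      have h1 := (key i hi g hg1).2.2.2
      have h2 := (key j hj g hg2).2.2.1
      have h3 : m0 * (i + 1) ≤ m0 * j := Nat.mul_le_mul_left m0 hij
      rw [mul_assoc] at h1 h2
      rw [mul_add, mul_one] at h3
      omega
    intro i hi j hj hij
    rcases lt_or_gt_of_ne hij with h1 | h1
    · exact hlt i hi j hj h1
    · exact (hlt j hj i hi h1).symm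
  set F : ℤ × ℤ → ℝ := fun k => ∑ i : Fin 4, (h (ke n m (k + dz i)) - h (ke n m k)) ^ 2 with hF
  have e1 : ∀ S : Finset (ℤ × ℤ), Ez S (kf n m h) = ∑ k ∈ S, F k := fun S => rfl
  have e2 : Eg n m a h = ∑ k ∈ (LamI n m R0).filter (fun k => ¬ Bad n m a k), F k := rfl
  rw [Finset.sum_congr rfl (fun j _ => e1 _), e2, ← Finset.sum_biUnion hdis]
  refine Finset.sum_le_sum_of_subset_of_nonneg ?_
    (fun k _ _ => Finset.sum_nonneg (fun i _ => sq_nonneg _))
  intro g hg
  rw [Finset.mem_biUnion] at hg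
  obtain ⟨j, hj, hg⟩ := hg
  obtain ⟨h1, h2, _, _⟩ := key j hj g hg
  rw [Finset.mem_filter]
  refine ⟨h1, fun hb => h2 ?_⟩
  rw [Finset.mem_coe]
  unfold Bds
  rw [Finset.mem_filter]
  exact ⟨h1, hb⟩

theorem ig_tel (r q : ℝ) (hr : 0 < r) (hq : 0 < q) (J : ℕ) :
    1 / (2 * q) * (Real.log (r + 2 * q * (J + 1)) - Real.log (r + 2 * q)) ≤
      ∑ j ∈ Finset.Icc 1 J, 1 / (r + 2 * q * j) := by
  induction J with
  | zero => simp
  | succ J ih =>
    rw [Finset.sum_Icc_succ_top (by omega)]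
    push_cast
    set y : ℝ := r + 2 * q * (J + 1) with hy
    have hy0 : 0 < y := by
      rw [hy]
      positivity
    have e : r + 2 * q * (J + 1 + 1) = y + 2 * q := by
      rw [hy]
      ring
    rw [e]
    have h1 : Real.log (y + 2 * q) - Real.log y ≤ 2 * q / y := by
      rw [← Real.log_div (by positivity) hy0.ne']
      have h2 := Real.log_le_sub_one_of_pos (show 0 < (y + 2 * q) / y by positivity)
      have h3 : (y + 2 * q) / y - 1 = 2 * q / y := by
        field_simp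
        ring
      rwa [h3] at h2
    have h2 : 1 / (2 * q) * (Real.log (y + 2 * q) - Real.log y) ≤ 1 / y := by
      have h3 : 1 / (2 * q) * (2 * q / y) = 1 / y := by
        field_simp
      rw [← h3]
      exact mul_le_mul_of_nonneg_left h1 (by positivity)
    have h4 : 1 / (2 * q) * (Real.log (y + 2 * q) - Real.log (r + 2 * q)) =
        1 / (2 * q) * (Real.log y - Real.log (r + 2 * q)) +
          1 / (2 * q) * (Real.log (y + 2 * q) - Real.log y) := by ring
    rw [h4]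
    exact add_le_add ih h2

theorem ig_log {α L : ℝ} (hα : 0 < α) (h1 : 1 ≤ L) (h2 : 80 / α ^ 2 ≤ L) :
    Real.log (1 + 4 * L) ≤ α / 2 * L := by
  have h0 : 0 < 1 + 4 * L := by linarith
  have h3 : Real.log (1 + 4 * L) = 2 * Real.log (Real.sqrt (1 + 4 * L)) := by
    rw [Real.log_sqrt h0.le]
    ring
  have h4 : Real.log (Real.sqrt (1 + 4 * L)) ≤ Real.sqrt (1 + 4 * L) := by
    have := Real.log_le_sub_one_of_pos (Real.sqrt_pos.mpr h0)
    linarith
  have h5 : Real.sqrt (1 + 4 * L) ≤ α / 4 * L := by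
    rw [Real.sqrt_le_left (by positivity)]
    have h6 : 80 ≤ α ^ 2 * L := by
      rw [div_le_iff₀ (by positivity)] at h2
      linarith
    have h7 : 80 * L ≤ α ^ 2 * L * L := mul_le_mul_of_nonneg_right h6 (by linarith)
    nlinarith
  linarith

/-- a harmonic sum -/
theorem harm (α : ℝ) (hα : 0 < α) : ∃ n0 : ℕ, ∀ n r r' : ℕ, n0 ≤ n → 1 ≤ r →
    (n : ℝ) ^ α * r ≤ r' → r' ≤ n → α / 8 ≤
      ∑ j ∈ Finset.Icc 1 ((r' - r) / (2 * ⌈Real.log n⌉₊)), 1 / ((r : ℝ) + 2 * ⌈Real.log n⌉₊ * j) := by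
  refine ⟨⌈Real.exp (80 / α ^ 2 + 1)⌉₊, ?_⟩
  intro n r r' hn hr h1 h2
  have hexp : Real.exp (80 / α ^ 2 + 1) ≤ n := (Nat.le_ceil _).trans (by exact_mod_cast hn)
  have hn0 : (0 : ℝ) < n := lt_of_lt_of_le (Real.exp_pos _) hexp
  set L : ℝ := Real.log n with hL
  have hLb : 80 / α ^ 2 + 1 ≤ L := by
    rw [hL, Real.le_log_iff_exp_le hn0]
    exact hexp
  have h80 : 0 ≤ 80 / α ^ 2 := by positivity
  have hL1 : 1 ≤ L := by linarith
  set q : ℕ := ⌈L⌉₊ with hq
  have hq1 : 1 ≤ q := Nat.one_le_iff_ne_zero.mpr (Nat.pos_of_ne_zero (by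
    rw [hq]
    exact (Nat.ceil_pos.mpr (by linarith)).ne')).ne'
  have hq1' : (1 : ℝ) ≤ q := by exact_mod_cast hq1
  have hqL : (q : ℝ) ≤ 2 * L := by
    have := Nat.ceil_lt_add_one (show 0 ≤ L by linarith)
    rw [← hq] at this
    linarith
  have hr0 : (1 : ℝ) ≤ r := by exact_mod_cast hr
  set J : ℕ := (r' - r) / (2 * q) with hJ
  have hna : (1 : ℝ) ≤ (n : ℝ) ^ α := by
    apply Real.one_le_rpow _ hα.le
    have : (1 : ℝ) ≤ Real.exp (80 / α ^ 2 + 1) := Real.one_le_exp (by linarith)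
    linarith
  have hrr : (r : ℝ) ≤ r' := by nlinarith
  have hrr' : r ≤ r' := by exact_mod_cast hrr
  have hr'0 : (0 : ℝ) < r' := by linarith
  have hJb : (r' : ℝ) ≤ r + 2 * q * (J + 1) := by
    have h3 : r' - r < 2 * q * (J + 1) := by
      rw [hJ]
      exact Nat.lt_mul_div_succ _ (by omega)
    have h4 : r' ≤ r + 2 * q * (J + 1) := by omega
    exact_mod_cast h4
  have htel := ig_tel (r : ℝ) (q : ℝ) (by linarith) (by linarith) J
  refine le_trans ?_ htel
  have a1 : Real.log r' ≤ Real.log (r + 2 * q * (J + 1)) := Real.log_le_log hr'0 hJb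
  have a2 : Real.log (r + 2 * q) ≤ Real.log r + Real.log (1 + 4 * L) := by
    rw [← Real.log_mul (by positivity) (by positivity)]
    apply Real.log_le_log (by positivity)
    nlinarith
  have a3 : α * L + Real.log r ≤ Real.log r' := by
    rw [hL, ← Real.log_rpow hn0, ← Real.log_mul (by positivity) (by positivity)]
    exact Real.log_le_log (by positivity) h1
  have a4 := ig_log hα hL1 (show 80 / α ^ 2 ≤ L by linarith)
  have a5 : α / 2 * L ≤ Real.log (r + 2 * q * (J + 1)) - Real.log (r + 2 * q) := by linarith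
  have a6 : 1 / (2 * (2 * L)) ≤ 1 / (2 * (q : ℝ)) := by
    apply one_div_le_one_div_of_le (by positivity)
    linarith
  calc α / 8 = 1 / (2 * (2 * L)) * (α / 2 * L) := by
        field_simp
        ring
    _ ≤ 1 / (2 * (q : ℝ)) * (α / 2 * L) := mul_le_mul_of_nonneg_right a6 (by positivity)
    _ ≤ 1 / (2 * (q : ℝ)) * (Real.log (r + 2 * q * (J + 1)) - Real.log (r + 2 * q)) :=
        mul_le_mul_of_nonneg_left a5 (by positivity)

end HK
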