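import Mathlib
import Pool.Agent.Lib_helper12.HK.DefsI
import Pool.Agent.Lib_helper12.HK.W.ei
import Pool.Agent.Lib_helper12.HK.W.fi
import Pool.Agent.Lib_helper12.HK.W.gc
import Pool.Agent.Lib_helper12.HK.W.gd
import Pool.Agent.Lib_helper12.HK.W.ge
import Pool.Agent.Lib_helper12.HK.W.gg
import Pool.Agent.Lib_helper12.HK.W.gj
import Pool.Agent.Lib_helper12.HK.W.gk
import Pool.Agent.Lib_helper12.HK.W.hf
import Pool.Agent.Lib_helper12.HK.W.hk
import Pool.Agent.Lib_helper12.HK.W.ie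
import Pool.Agent.Lib_helper12.HK.W.ig

set_option autoImplicit false

namespace HK

open MeasureTheory QG

theorem ih_gam_sub (B : Set (ℤ × ℤ)) (z : ℤ × ℤ) (ρ : ℕ) {y : ℤ × ℤ} (hy : y ∈ Gam B z ρ) :
    di z y ≤ ρ + 1 := by
  by_cases hz : Cl B z ρ z
  · obtain ⟨_, o, ho, hoy⟩ := hy
    have ho' : o = z := by
      have h1 : Relation.ReflTransGen (st {x | ¬ Cl B z ρ x}) z o := ho
      rcases Relation.ReflTransGen.cases_head h1 with h2 | ⟨c, h2, _⟩
      · exact h2.symm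
      · exact absurd hz h2.2.1
    rw [ho'] at hoy
    omega
  · have := (gam_good hz hy).2
    omega

/-- the ball as a finite set -/
noncomputable def ih_ball (z : ℤ × ℤ) (R : ℕ) : Finset (ℤ × ℤ) :=
  (Finset.Icc (z.1 - R) (z.1 + R)) ×ˢ (Finset.Icc (z.2 - R) (z.2 + R))

theorem ih_mem_ball {z y : ℤ × ℤ} {R : ℕ} (h : di z y ≤ R) : y ∈ ih_ball z R := by
  unfold di at h
  unfold ih_ball
  rw [Finset.mem_product, Finset.mem_Icc, Finset.mem_Icc]
  have h1 : (z.1 - y.1).natAbs ≤ R := le_trans (le_max_left _ _) h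
  have h2 : (z.2 - y.2).natAbs ≤ R := le_trans (le_max_right _ _) h
  omega

theorem ih_gam_fin (B : Set (ℤ × ℤ)) (z : ℤ × ℤ) (ρ : ℕ) :
    (Gam B z ρ).Finite ∧ (Gam B z ρ).ncard ≤ (ih_ball z (ρ + 1)).card := by
  have h1 : Gam B z ρ ⊆ (ih_ball z (ρ + 1) : Set (ℤ × ℤ)) := by
    intro y hy
    exact Finset.mem_coe.2 (ih_mem_ball (ih_gam_sub B z ρ hy))
  refine ⟨(Finset.finite_toSet _).subset h1, ?_⟩
  have := Set.ncard_le_ncard h1 (Finset.finite_toSet _)
  rwa [Set.ncard_coe_finset] at this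

theorem ih_card_le (n m : ℕ) (B : Set (ℤ × ℤ)) (z : ℤ × ℤ) (ρ : ℕ) :
    (GF n m B z ρ).card ≤ (Gam B z ρ).ncard := by
  classical
  have h1 : ((GF n m B z ρ : Finset (ℤ × ℤ)) : Set (ℤ × ℤ)) ⊆ Gam B z ρ := by
    intro y hy
    have := Finset.mem_coe.1 hy
    unfold GF at this
    exact (Finset.mem_filter.1 this).2
  have := Set.ncard_le_ncard h1 (ih_gam_fin B z ρ).1
  rwa [Set.ncard_coe_finset] at this

theorem ih_Ez_nonneg (S : Finset (ℤ × ℤ)) (h : ℤ × ℤ → ℝ) : 0 ≤ Ez S h := by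
  unfold Ez
  exact Finset.sum_nonneg fun _ _ => Finset.sum_nonneg fun _ _ => sq_nonneg _

theorem ih_Eg_nonneg (n m : ℕ) (a h : Ev n → ℝ) : 0 ≤ Eg n m a h := by
  unfold Eg
  exact Finset.sum_nonneg fun _ _ => Finset.sum_nonneg fun _ _ => sq_nonneg _

/-- the arithmetic mean is larger -/
theorem ih_amgm {c e t : ℝ} (hc : 0 ≤ c) (he : 0 ≤ e) (ht : 0 < t) :
    Real.sqrt (4 * c * e) ≤ t * c + e / t := by
  rw [Real.sqrt_le_left (by positivity)]
  have h1 : (t * c + e / t) ^ 2 - 4 * c * e = (t * c - e / t) ^ 2 := by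
    field_simp
    ring
  nlinarith [sq_nonneg (t * c - e / t)]

theorem ih_zmeas (n m : ℕ) {Ω : Type} [MeasurableSpace Ω] {a a' : Ω → Ev n → ℝ}
    (ha : Measurable a) (ha' : Measurable a') (z : ℤ × ℤ) (ρ : ℕ) :
    Measurable fun ω => Ez (GF n m (Bds n m (a ω) : Set (ℤ × ℤ)) z ρ)
      (kf n m (fun y => a' ω y - a ω y)) := by
  classical
  have h1 : (fun ω => Ez (GF n m (Bds n m (a ω) : Set (ℤ × ℤ)) z ρ)
      (kf n m (fun y => a' ω y - a ω y))) = fun ω => ∑ k ∈ LamI n m R0,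
      (if k ∈ Gam (Bds n m (a ω) : Set (ℤ × ℤ)) z ρ then
        ∑ i : Fin 4, ((a' ω (ke n m (k + dz i)) - a ω (ke n m (k + dz i))) -
          (a' ω (ke n m k) - a ω (ke n m k))) ^ 2 else 0) := by
    funext ω
    unfold Ez GF kf
    rw [Finset.sum_filter]
  rw [h1]
  apply Finset.measurable_fun_sum
  intro k _
  apply Measurable.ite
  · have h2 : Measurable fun a : Ev n → ℝ =>
        (k ∈ Gam (Bds n m a : Set (ℤ × ℤ)) z ρ : Prop) :=
      meas_Bds n m (fun B => (k ∈ Gam (B : Set (ℤ × ℤ)) z ρ : Prop))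
    exact measurableSet_setOfPred.2 (h2.comp ha)
  · apply Finset.measurable_fun_sum
    intro i _
    have m1 : ∀ y : Ev n, Measurable fun ω => a ω y := fun y => (measurable_pi_apply y).comp ha
    have m2 : ∀ y : Ev n, Measurable fun ω => a' ω y := fun y => (measurable_pi_apply y).comp ha'
    exact (((m2 _).sub (m1 _)).sub ((m2 _).sub (m1 _))).pow_const 2
  · exact measurable_const

/-- the numerical condition -/
theorem ih_num {n : ℕ} (hn : 3 ≤ n) :
    8 * (n : ℝ) ^ 3 * (1 / 256) ^ ⌈Real.log n⌉₊ ≤ 1 := by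
  have hn' : (3 : ℝ) ≤ n := by exact_mod_cast hn
  have hn0 : (0 : ℝ) < n := by linarith
  set m0 := ⌈Real.log n⌉₊ with hm0
  have h1 : (n : ℝ) ≤ Real.exp 1 ^ m0 := by
    rw [← Real.exp_nat_mul, mul_one]
    calc (n : ℝ) = Real.exp (Real.log n) := (Real.exp_log hn0).symm
      _ ≤ Real.exp m0 := Real.exp_le_exp.2 (Nat.le_ceil _)
  have h2 : Real.exp 1 ^ 5 ≤ 256 := by
    have := Real.exp_one_lt_d9
    calc Real.exp 1 ^ 5 ≤ 3 ^ 5 := by
          have h0 := (Real.exp_pos 1).le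
          gcongr
          linarith
      _ ≤ 256 := by norm_num
  have h3 : (n : ℝ) ^ 5 ≤ 256 ^ m0 := by
    calc (n : ℝ) ^ 5 ≤ (Real.exp 1 ^ m0) ^ 5 := by gcongr
      _ = (Real.exp 1 ^ 5) ^ m0 := by rw [← pow_mul, ← pow_mul, mul_comm]
      _ ≤ 256 ^ m0 := by
          have h0 := (Real.exp_pos 1).le
          gcongr
  rw [one_div, inv_pow, ← div_eq_mul_inv, div_le_one (by positivity)]
  refine le_trans ?_ h3
  have h4 : (8 : ℝ) ≤ (n : ℝ) ^ 2 := by nlinarith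
  calc 8 * (n : ℝ) ^ 3 ≤ (n : ℝ) ^ 2 * (n : ℝ) ^ 3 := by gcongr
    _ = (n : ℝ) ^ 5 := by ring

/-- optimisation over the radii -/
theorem ih_opt {J : ℕ} {x c0 C E α : ℝ} {ρ e : ℕ → ℝ} (hC : 0 < C) (hα : 0 < α) (hE : 0 ≤ E)
    (hc0 : 0 ≤ c0) (hρ : ∀ j ∈ Finset.Icc 1 J, 0 < ρ j)
    (h1 : ∀ j ∈ Finset.Icc 1 J, ∀ t : ℝ, 0 < t → x ≤ t * (C * ρ j) + e j / t + c0)
    (h2 : ∑ j ∈ Finset.Icc 1 J, e j ≤ E) (h3 : α / 8 ≤ ∑ j ∈ Finset.Icc 1 J, 1 / ρ j) :
    x ≤ (c0 + Real.sqrt (32 * C / α)) * (1 + Real.sqrt E) := by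
  have hs1 := Real.sqrt_nonneg E
  have hs2 := Real.sqrt_nonneg (32 * C / α)
  by_cases hy : x ≤ c0
  · nlinarith [mul_nonneg hs1 hs2, mul_nonneg hc0 hs1]
  · have hy0 : 0 < x - c0 := by linarith [not_le.1 hy]
    set y := x - c0 with hydef
    have h4 : ∀ j ∈ Finset.Icc 1 J, y ^ 2 / (4 * C) * (1 / ρ j) ≤ e j := by
      intro j hj
      have h5 := hρ j hj
      have h6 := h1 j hj (y / (2 * (C * ρ j))) (by positivity)
      have h7 : y / (2 * (C * ρ j)) * (C * ρ j) = y / 2 := by field_simp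
      have h8 : e j / (y / (2 * (C * ρ j))) = 2 * (C * ρ j) * e j / y := by
        field_simp
      rw [h7, h8] at h6
      have h9 : y / 2 ≤ 2 * (C * ρ j) * e j / y := by linarith
      rw [le_div_iff₀ hy0] at h9
      rw [div_mul_div_comm, mul_one, div_le_iff₀ (by positivity)]
      nlinarith
    have h5 : y ^ 2 / (4 * C) * (α / 8) ≤ E := by
      calc y ^ 2 / (4 * C) * (α / 8)
          ≤ y ^ 2 / (4 * C) * ∑ j ∈ Finset.Icc 1 J, 1 / ρ j := by gcongr
        _ = ∑ j ∈ Finset.Icc 1 J, y ^ 2 / (4 * C) * (1 / ρ j) := by rw [Finset.mul_sum]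
        _ ≤ ∑ j ∈ Finset.Icc 1 J, e j := Finset.sum_le_sum h4
        _ ≤ E := h2
    have h6 : y ^ 2 ≤ (32 * C / α) * E := by
      have h7 : y ^ 2 / (4 * C) * (α / 8) = y ^ 2 / (32 * C / α) := by
        field_simp
        ring
      rw [h7, div_le_iff₀ (by positivity)] at h5
      linarith
    have h7 : y ≤ Real.sqrt (32 * C / α) * Real.sqrt E := by
      rw [← Real.sqrt_mul (by positivity)]
      exact Real.le_sqrt_of_sq_le h6
    nlinarith [mul_nonneg hc0 hs1]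

/-- Lemmas I1, I2: the response of an inner functional -/
theorem dec_mean (m : ℕ) (p0 : ℝ) {α : ℝ} (hα : 0 < α) : ∃ (C : ℝ) (n0 : ℕ), 0 ≤ C ∧
    ∀ (n : ℕ) [NeZero n], n0 ≤ n → Hyp n m p0 → ∀ z : ℤ × ℤ,
    ∀ r r' : ℕ, 1 ≤ r → (n : ℝ) ^ α * r ≤ r' → r' ≤ n →
    (∀ x, di z x ≤ r' → x ∈ LamI n m R0) →
    ∀ {U : (Ev n → ℝ) → ℝ} {U' : Ev n → (Ev n → ℝ) → ℝ}, Tilt U U' →
    (∀ a a' : Ev n → ℝ, (∀ k ∈ Lam n m, r' ≤ di z k → a (ke n m k) = a' (ke n m k)) →
      U a = U a') → ∀ {Ω : Type} [MeasurableSpace Ω] {P : Measure Ω} {a a' : Ω → Ev n → ℝ},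
    ACpl (pp n) (fh n) (fT n U) (Dh n) (DT n U U') (sig n m z r') P a a' →
    ∀ l : ℤ × ℤ → ℝ, (∀ k, l k ≠ 0 → k ∈ TT n m ∧ di z k ≤ r) → ∑ k ∈ TT n m, l k = 0 →
    n1 (TT n m) l ≤ 2 →
    ∫ ω, |pv (TT n m) l (kf n m (fun y => a' ω y - a ω y))| ∂P ≤
      C * (1 + Real.sqrt (∫ ω, Eg n m (a ω) (fun y => a' ω y - a ω y) ∂P)) := by
  classical
  obtain ⟨Cg, hCg, hgam⟩ := gam_exp
  obtain ⟨n0, hharm⟩ := harm α hα
  have hC2 : 0 ≤ C2 m := by
    unfold C2
    positivity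
  refine ⟨2 * C2 m + 1 + Real.sqrt (32 * (Cg + 1) / α), max n0 3,
    by have := Real.sqrt_nonneg (32 * (Cg + 1) / α); linarith, ?_⟩
  intro n _ hn H z r r' hr hrr' hr'n hball U U' hU hloc Ω _ P a a' hA l hl hl0 hl2
  have hn0 : n0 ≤ n := (le_max_left _ _).trans hn
  have hn3 : 3 ≤ n := (le_max_right _ _).trans hn
  have hn3' : (3 : ℝ) ≤ n := by exact_mod_cast hn3
  have hnpos : (0 : ℝ) < n := by linarith
  obtain ⟨hprob, hma, hma', hlaw, hzp⟩ := two_of n (by omega) hU hA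
  have := hprob
  obtain ⟨hEint, _⟩ := energy_ge n m H hU (sig_nonK n m z r') hA
  set m0 := ⌈Real.log n⌉₊ with hm0
  set J := (r' - r) / (2 * m0) with hJ
  have hm01 : 1 ≤ m0 := by
    rw [hm0, Nat.one_le_ceil_iff]
    exact Real.log_pos (by linarith)
  set ρ : ℕ → ℕ := fun j => r + 2 * m0 * j with hρ
  have hrr : r ≤ r' := by
    have h1 : (1 : ℝ) ≤ (n : ℝ) ^ α := Real.one_le_rpow (by linarith) hα.le
    have h2 : (r : ℝ) ≤ r' := by
      have h3 : (0 : ℝ) ≤ r := Nat.cast_nonneg _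
      nlinarith
    exact_mod_cast h2
  have hρle : ∀ j ∈ Finset.Icc 1 J, ρ j ≤ r' := by
    intro j hj
    have h1 : 2 * m0 * j ≤ 2 * m0 * J := Nat.mul_le_mul_left _ (Finset.mem_Icc.1 hj).2
    have h2 : 2 * m0 * J ≤ r' - r := by
      rw [hJ]
      exact Nat.mul_div_le _ _
    simp only [hρ]
    omega
  have hρ1 : ∀ j, 1 ≤ ρ j := by
    intro j
    simp only [hρ]
    omega
  -- the good event
  set G : Finset (ℤ × ℤ) → Prop := fun B => ∀ j ∈ Finset.Icc 1 J, ∀ x,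
    Cl (B : Set (ℤ × ℤ)) z (ρ j) x → ρ j ≤ di z x + m0 with hG
  set A : Set Ω := {ω | G (Bds n m (a ω))} with hAdef
  have hAm : MeasurableSet A := by
    have h2 : Measurable fun a : Ev n → ℝ => (G (Bds n m a) : Prop) := meas_Bds n m G
    exact measurableSet_setOfPred.2 (h2.comp hma)
  have hAc : P Aᶜ ≤ ENNReal.ofReal ((n : ℝ) ^ 2 * (1 / 256) ^ m0) := by
    have h1 : Aᶜ ⊆ ⋃ j ∈ Finset.Icc 1 J, a ⁻¹' {b | ∃ x, Cl (Bds n m b : Set (ℤ × ℤ)) z (ρ j) x ∧
        di z x + (m0 + 1) ≤ ρ j} := by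
      intro ω hω
      have h2 : ¬ G (Bds n m (a ω)) := hω
      rw [hG] at h2
      simp only [not_forall] at h2
      obtain ⟨j, hj, x, hx, h3⟩ := h2
      rw [Set.mem_iUnion₂]
      exact ⟨j, hj, x, hx, by omega⟩
    have h2 : ∀ j ∈ Finset.Icc 1 J, P (a ⁻¹' {b | ∃ x, Cl (Bds n m b : Set (ℤ × ℤ)) z (ρ j) x ∧
        di z x + (m0 + 1) ≤ ρ j}) ≤ ENNReal.ofReal (n * (1 / 256) ^ m0) := by
      intro j hj
      have h3 : MeasurableSet {b : Ev n → ℝ | ∃ x, Cl (Bds n m b : Set (ℤ × ℤ)) z (ρ j) x ∧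
          di z x + (m0 + 1) ≤ ρ j} := by
        have h4 : Measurable fun b : Ev n → ℝ => (∃ x, Cl (Bds n m b : Set (ℤ × ℤ)) z (ρ j) x ∧
          di z x + (m0 + 1) ≤ ρ j : Prop) := meas_Bds n m (fun B => (∃ x,
            Cl (B : Set (ℤ × ℤ)) z (ρ j) x ∧ di z x + (m0 + 1) ≤ ρ j : Prop))
        exact measurableSet_setOfPred.2 h4
      rw [← Measure.map_apply hma h3, hlaw]
      refine (cl_tail n m p0 H z (ρ j) m0).trans (ENNReal.ofReal_le_ofReal ?_)
      have h4 : (ρ j : ℝ) ≤ n := by exact_mod_cast (hρle j hj).trans hr'n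
      gcongr
    calc P Aᶜ ≤ P (⋃ j ∈ Finset.Icc 1 J, a ⁻¹' {b | ∃ x, Cl (Bds n m b : Set (ℤ × ℤ)) z (ρ j) x ∧
          di z x + (m0 + 1) ≤ ρ j}) := measure_mono h1
      _ ≤ ∑ j ∈ Finset.Icc 1 J, P (a ⁻¹' {b | ∃ x, Cl (Bds n m b : Set (ℤ × ℤ)) z (ρ j) x ∧
          di z x + (m0 + 1) ≤ ρ j}) := measure_biUnion_finset_le _ _
      _ ≤ ∑ j ∈ Finset.Icc 1 J, ENNReal.ofReal (n * (1 / 256) ^ m0) := Finset.sum_le_sum h2
      _ = ENNReal.ofReal (J * (n * (1 / 256) ^ m0)) := by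
          rw [Finset.sum_const, Nat.card_Icc, nsmul_eq_mul, Nat.add_sub_cancel,
            ENNReal.ofReal_mul (p := (J : ℝ)) (Nat.cast_nonneg _), ENNReal.ofReal_natCast]
      _ ≤ ENNReal.ofReal ((n : ℝ) ^ 2 * (1 / 256) ^ m0) := by
          apply ENNReal.ofReal_le_ofReal
          have h3 : J ≤ n := by
            have h4 : J ≤ r' - r := Nat.div_le_self _ _
            omega
          have h5 : (J : ℝ) ≤ n := by exact_mod_cast h3
          calc (J : ℝ) * (n * (1 / 256) ^ m0) ≤ n * (n * (1 / 256) ^ m0) := by gcongr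
            _ = _ := by ring
  have hAc' : 8 * (n : ℝ) * P.real Aᶜ ≤ 1 := by
    have h1 : P.real Aᶜ ≤ (n : ℝ) ^ 2 * (1 / 256) ^ m0 := by
      unfold Measure.real
      exact ENNReal.toReal_le_of_le_ofReal (by positivity) hAc
    calc 8 * (n : ℝ) * P.real Aᶜ ≤ 8 * (n : ℝ) * ((n : ℝ) ^ 2 * (1 / 256) ^ m0) := by gcongr
      _ = 8 * (n : ℝ) ^ 3 * (1 / 256) ^ m0 := by ring
      _ ≤ 1 := ih_num hn3
  -- the trivial bound
  have hX : ∀ ω, |pv (TT n m) l (kf n m (fun y => a' ω y - a ω y))| ≤ 8 * n := by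
    intro ω
    obtain ⟨b1, b2, b3, b4⟩ := hzp ω
    unfold pv kf
    calc |∑ k ∈ TT n m, l k * (a' ω (ke n m k) - a ω (ke n m k))|
        ≤ ∑ k ∈ TT n m, |l k * (a' ω (ke n m k) - a ω (ke n m k))| :=
          Finset.abs_sum_le_sum_abs _ _
      _ ≤ ∑ k ∈ TT n m, |l k| * (4 * n) := by
          apply Finset.sum_le_sum
          intro k _
          rw [abs_mul]
          apply mul_le_mul_of_nonneg_left _ (abs_nonneg _)
          have c1 := fh_bound n b3 b1 (ke n m k)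
          have c2 := fh_bound n b4 b2 (ke n m k)
          have c3 := abs_sub (a' ω (ke n m k)) (a ω (ke n m k))
          linarith
      _ = n1 (TT n m) l * (4 * n) := by unfold n1; rw [Finset.sum_mul]
      _ ≤ 2 * (4 * n) := by gcongr
      _ = 8 * n := by ring
  -- the oscillation on the circuits
  have hosc : ∀ ω ∈ A, ∀ j ∈ Finset.Icc 1 J,
      |pv (TT n m) l (kf n m (fun y => a' ω y - a ω y))| ≤
        Real.sqrt (4 * (GF n m (Bds n m (a ω) : Set (ℤ × ℤ)) z (ρ j)).card *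
          Ez (GF n m (Bds n m (a ω) : Set (ℤ × ℤ)) z (ρ j))
            (kf n m (fun y => a' ω y - a ω y))) + 2 * C2 m := by
    intro ω hω j hj
    have hr1 : ∀ x, Cl (Bds n m (a ω) : Set (ℤ × ℤ)) z (ρ j) x → r < di z x := by
      intro x hx
      have h1 : ρ j ≤ di z x + m0 := hω j hj x hx
      have h2 : 2 * m0 * 1 ≤ 2 * m0 * j := Nat.mul_le_mul_left _ (Finset.mem_Icc.1 hj).1
      simp only [hρ] at h1
      omega
    have hzz : di z z = 0 := by simp [di]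
    have hc : ¬ Cl (Bds n m (a ω) : Set (ℤ × ℤ)) z (ρ j) z := by
      intro h
      have := hr1 z h
      omega
    have hz : ∀ x, di z x ≤ r' → x ∈ Lam n m := by
      intro x hx
      have h1 := hball x hx
      unfold LamI at h1
      unfold Lam
      rw [Finset.mem_product, Finset.mem_Icc, Finset.mem_Icc] at h1 ⊢
      omega
    exact osc_gam hr1 (fun x hx => hball x (hx.trans (hρle j hj))) hC2
      (fun k hk => explore n m H hz hU hloc hA ω (hρle j hj) hc hk) hl hl0 hl2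
  -- integrability
  have hzm : ∀ j, Measurable fun ω => Ez (GF n m (Bds n m (a ω) : Set (ℤ × ℤ)) z (ρ j))
      (kf n m (fun y => a' ω y - a ω y)) := fun j => ih_zmeas n m hma hma' z (ρ j)
  have hsum : ∀ ω ∈ A, ∑ j ∈ Finset.Icc 1 J, Ez (GF n m (Bds n m (a ω) : Set (ℤ × ℤ)) z (ρ j))
      (kf n m (fun y => a' ω y - a ω y)) ≤ Eg n m (a ω) (fun y => a' ω y - a ω y) := by
    intro ω hω
    exact sum_gam (a ω) (fun y => a' ω y - a ω y) z J m0 r hm01 hω
  set zj : ℕ → Ω → ℝ := fun j => A.indicator fun ω =>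
    Ez (GF n m (Bds n m (a ω) : Set (ℤ × ℤ)) z (ρ j)) (kf n m (fun y => a' ω y - a ω y)) with hzj
  have hzj0 : ∀ j ω, 0 ≤ zj j ω := by
    intro j ω
    exact Set.indicator_nonneg (fun ω _ => ih_Ez_nonneg _ _) ω
  have hzjsum : ∀ ω, ∑ j ∈ Finset.Icc 1 J, zj j ω ≤ Eg n m (a ω) (fun y => a' ω y - a ω y) := by
    intro ω
    by_cases hω : ω ∈ A
    · simp only [hzj, Set.indicator_of_mem hω]
      exact hsum ω hω
    · simp only [hzj, Set.indicator_of_notMem hω, Finset.sum_const_zero]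
      exact ih_Eg_nonneg _ _ _ _
  have hzjint : ∀ j ∈ Finset.Icc 1 J, Integrable (zj j) P := by
    intro j hj
    refine Integrable.mono' hEint ((hzm j).indicator hAm).aestronglyMeasurable
      (Filter.Eventually.of_forall fun ω => ?_)
    rw [Real.norm_of_nonneg (hzj0 j ω)]
    exact (Finset.single_le_sum (f := fun j => zj j ω) (fun i _ => hzj0 i ω) hj).trans (hzjsum ω)
  have hcm : ∀ j, Measurable fun b : Ev n → ℝ =>
      ((GF n m (Bds n m b : Set (ℤ × ℤ)) z (ρ j)).card : ℝ) := fun j =>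
    meas_Bds n m (fun B => ((GF n m (B : Set (ℤ × ℤ)) z (ρ j)).card : ℝ))
  have hcb : ∀ j (b : Ev n → ℝ), ((GF n m (Bds n m b : Set (ℤ × ℤ)) z (ρ j)).card : ℝ) ≤
      ((ih_ball z (ρ j + 1)).card : ℝ) := by
    intro j b
    exact_mod_cast (ih_card_le n m _ z (ρ j)).trans (ih_gam_fin _ z (ρ j)).2
  have hcint : ∀ j, Integrable (fun ω =>
      ((GF n m (Bds n m (a ω) : Set (ℤ × ℤ)) z (ρ j)).card : ℝ)) P := by
    intro j
    refine Integrable.mono' (integrable_const ((ih_ball z (ρ j + 1)).card : ℝ))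
      ((hcm j).comp hma).aestronglyMeasurable (Filter.Eventually.of_forall fun ω => ?_)
    rw [Real.norm_of_nonneg (Nat.cast_nonneg _)]
    exact hcb j (a ω)
  have hcexp : ∀ j, ∫ ω, ((GF n m (Bds n m (a ω) : Set (ℤ × ℤ)) z (ρ j)).card : ℝ) ∂P ≤
      (Cg + 1) * ρ j := by
    intro j
    have hnm : Measurable fun b : Ev n → ℝ =>
        ((Gam (Bds n m b : Set (ℤ × ℤ)) z (ρ j)).ncard : ℝ) :=
      meas_Bds n m (fun B => ((Gam (B : Set (ℤ × ℤ)) z (ρ j)).ncard : ℝ))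
    have hnint : Integrable (fun ω => ((Gam (Bds n m (a ω) : Set (ℤ × ℤ)) z (ρ j)).ncard : ℝ)) P := by
      refine Integrable.mono' (integrable_const ((ih_ball z (ρ j + 1)).card : ℝ))
        (hnm.comp hma).aestronglyMeasurable (Filter.Eventually.of_forall fun ω => ?_)
      rw [Real.norm_of_nonneg (Nat.cast_nonneg _)]
      exact_mod_cast (ih_gam_fin _ z (ρ j)).2
    calc ∫ ω, ((GF n m (Bds n m (a ω) : Set (ℤ × ℤ)) z (ρ j)).card : ℝ) ∂P
        ≤ ∫ ω, ((Gam (Bds n m (a ω) : Set (ℤ × ℤ)) z (ρ j)).ncard : ℝ) ∂P := by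
          apply integral_mono (hcint j) hnint
          intro ω
          simp only
          exact_mod_cast ih_card_le n m _ z (ρ j)
      _ = ∫ b, ((Gam (Bds n m b : Set (ℤ × ℤ)) z (ρ j)).ncard : ℝ) ∂muh n 0 := by
          rw [← hlaw, integral_map hma.aemeasurable hnm.aestronglyMeasurable]
      _ ≤ Cg * ρ j := hgam n m p0 H z (ρ j) (hρ1 j)
      _ ≤ (Cg + 1) * ρ j := by
          have : (0 : ℝ) ≤ ρ j := Nat.cast_nonneg _
          nlinarith
  have hmain := ih_opt (J := J) (x := ∫ ω, |pv (TT n m) l (kf n m (fun y => a' ω y - a ω y))| ∂P)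
    (c0 := 2 * C2 m + 1) (C := Cg + 1)
    (E := ∫ ω, Eg n m (a ω) (fun y => a' ω y - a ω y) ∂P) (α := α) (ρ := fun j => (ρ j : ℝ))
    (e := fun j => ∫ ω, zj j ω ∂P) (by linarith) hα
    (integral_nonneg fun ω => ih_Eg_nonneg _ _ _ _) (by linarith)
    (fun j _ => by exact_mod_cast hρ1 j) ?_ ?_ ?_
  · exact hmain
  · intro j hj t ht
    have i1 : Integrable (fun ω =>
        t * ((GF n m (Bds n m (a ω) : Set (ℤ × ℤ)) z (ρ j)).card : ℝ)) P := (hcint j).const_mul t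
    have i2 : Integrable (fun ω => zj j ω / t) P := (hzjint j hj).div_const t
    have i5 : Integrable (Aᶜ.indicator fun _ : Ω => 8 * (n : ℝ)) P :=
      (integrable_const _).indicator hAm.compl
    have i3 : Integrable (fun ω => 2 * C2 m + Aᶜ.indicator (fun _ => 8 * (n : ℝ)) ω) P :=
      (integrable_const _).add i5
    have i4 : Integrable (fun ω =>
        t * ((GF n m (Bds n m (a ω) : Set (ℤ × ℤ)) z (ρ j)).card : ℝ) + zj j ω / t) P := i1.add i2
    have h1 : ∫ ω, |pv (TT n m) l (kf n m (fun y => a' ω y - a ω y))| ∂P ≤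
        ∫ ω, ((t * ((GF n m (Bds n m (a ω) : Set (ℤ × ℤ)) z (ρ j)).card : ℝ) + zj j ω / t) +
          (2 * C2 m + Aᶜ.indicator (fun _ => 8 * (n : ℝ)) ω)) ∂P := by
      apply integral_mono_of_nonneg (Filter.Eventually.of_forall fun ω => abs_nonneg _)
      · exact i4.add i3
      · refine Filter.Eventually.of_forall fun ω => ?_
        simp only
        have hc0 : (0 : ℝ) ≤ ((GF n m (Bds n m (a ω) : Set (ℤ × ℤ)) z (ρ j)).card : ℝ) :=
          Nat.cast_nonneg _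
        by_cases hω : ω ∈ A
        · have h2 := hosc ω hω j hj
          have h3 : Aᶜ.indicator (fun _ => 8 * (n : ℝ)) ω = 0 :=
            Set.indicator_of_notMem (by simpa using hω) _
          have h4 : zj j ω = Ez (GF n m (Bds n m (a ω) : Set (ℤ × ℤ)) z (ρ j))
              (kf n m (fun y => a' ω y - a ω y)) := by
            simp only [hzj, Set.indicator_of_mem hω]
          rw [h3, h4]
          have h5 := ih_amgm hc0 (ih_Ez_nonneg (GF n m (Bds n m (a ω) : Set (ℤ × ℤ)) z (ρ j))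
            (kf n m (fun y => a' ω y - a ω y))) ht
          linarith
        · have h3 : Aᶜ.indicator (fun _ => 8 * (n : ℝ)) ω = 8 * n :=
            Set.indicator_of_mem (by simpa using hω) _
          rw [h3]
          have h4 := hX ω
          have h5 := hzj0 j ω
          have h6 : 0 ≤ zj j ω / t := by positivity
          have h7 := mul_nonneg ht.le hc0
          linarith
    refine h1.trans ?_
    have e1 : ∫ ω, Aᶜ.indicator (fun _ => 8 * (n : ℝ)) ω ∂P = 8 * n * P.real Aᶜ := by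
      rw [integral_indicator_const _ hAm.compl, smul_eq_mul, mul_comm]
    have e2 : ∫ ω, (2 * C2 m + Aᶜ.indicator (fun _ => 8 * (n : ℝ)) ω) ∂P =
        2 * C2 m + 8 * n * P.real Aᶜ := by
      rw [integral_add (integrable_const _) i5, e1, integral_const, probReal_univ, one_smul]
    have e3 : ∫ ω, (t * ((GF n m (Bds n m (a ω) : Set (ℤ × ℤ)) z (ρ j)).card : ℝ) +
        zj j ω / t) ∂P = t * ∫ ω, ((GF n m (Bds n m (a ω) : Set (ℤ × ℤ)) z (ρ j)).card : ℝ) ∂P +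
          (∫ ω, zj j ω ∂P) / t := by
      rw [integral_add i1 i2, integral_const_mul, integral_div]
    rw [integral_add i4 i3, e2, e3]
    have h2 := mul_le_mul_of_nonneg_left (hcexp j) ht.le
    linarith
  · rw [← integral_finsetSum _ hzjint]
    apply integral_mono (integrable_finsetSum _ hzjint) hEint
    intro ω
    exact hzjsum ω
  · have h1 := hharm n r r' hn0 hr hrr' hr'n
    refine h1.trans (le_of_eq ?_)
    apply Finset.sum_congr rfl
    intro j _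
    simp only [hρ]
    push_cast
    rfl

end HK
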