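import Mathlib
import Pool.Agent.Lib_helper12.HK.DefsI
import Pool.Agent.Lib_helper12.HK.W.gc
import Pool.Agent.Lib_helper12.HK.W.gd
import Pool.Agent.Lib_helper69.HKL.W.mc

set_option autoImplicit false

namespace HK

open MeasureTheory QG

theorem ij_wd {α : Type} [MeasurableSpace α] {μ : Measure α} {f F : α → ℝ} (hf : Measurable f)
    (h0 : ∀ a, 0 ≤ f a) :
    ∫ a, F a ∂μ.withDensity (fun a => ENNReal.ofReal (f a)) = ∫ a, f a * F a ∂μ := by
  have h1 := integral_withDensity_eq_integral_toReal_smul (μ := μ)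
    (f := fun a => ENNReal.ofReal (f a)) (hf.ennreal_ofReal) (ae_of_all _ fun a => ENNReal.ofReal_lt_top) F
  rw [h1]
  refine integral_congr_ae (ae_of_all _ fun a => ?_)
  simp only [smul_eq_mul]
  rw [ENNReal.toReal_ofReal (h0 a)]

/-- covariances from a coupling with a bounded tilt -/
theorem cov_cpl (n : ℕ) [NeZero n] (hn : 2 ≤ n) {u u' : ℝ → ℝ} (hu : ∀ x, HasDerivAt u (u' x) x)
    (hc : Continuous u') (h1 : ∀ x, |u x| ≤ 1) (l : Ev n → ℝ) {σ : St (Ev n) → Ev n} {Ω : Type}
    [MeasurableSpace Ω] {P : Measure Ω} {z z' : Ω → Ev n → ℝ}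
    (h : ACpl (pp n) (fh n) (fT n (Ub u l)) (Dh n) (DT n (Ub u l) (Ub' u' l)) σ P z z')
    {G : (Ev n → ℝ) → ℝ} (hG : Measurable G) (hG1 : ∀ a, |G a| ≤ 1) :
    |∫ a, u (dot l a) * G a ∂muh n 0 - (∫ a, u (dot l a) ∂muh n 0) * ∫ a, G a ∂muh n 0| ≤
      3 * ∫ ω, |G (z' ω) - G (z ω)| ∂P := by
  have hR := reg_fh n hn
  have hE := muh_eq n
  haveI hpr := muh_prob n
  haveI hP := h.prob
  have huc : Continuous u := continuous_iff_continuousAt.2 fun x => (hu x).continuousAt
  have hdot : Continuous (fun a : Ev n → ℝ => dot l a) := by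
    unfold dot
    exact continuous_finsetSum _ fun i _ => continuous_const.mul (continuous_apply i)
  have hud : Continuous (fun a : Ev n → ℝ => u (dot l a)) := huc.comp hdot
  have hUb : Continuous (fun a : Ev n → ℝ => Ub u l a) := by
    unfold Ub
    exact continuous_const.add (hud.div_const 2)
  -- integrability
  have iu : Integrable (fun a : Ev n → ℝ => u (dot l a)) (muh n 0) :=
    Integrable.of_bound hud.measurable.aestronglyMeasurable 1
      (ae_of_all _ fun a => by rw [Real.norm_eq_abs]; exact h1 _)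
  have iG : Integrable G (muh n 0) :=
    Integrable.of_bound hG.aestronglyMeasurable 1
      (ae_of_all _ fun a => by rw [Real.norm_eq_abs]; exact hG1 _)
  have iuG : Integrable (fun a : Ev n → ℝ => u (dot l a) * G a) (muh n 0) := by
    refine Integrable.of_bound (hud.measurable.mul hG).aestronglyMeasurable 1
      (ae_of_all _ fun a => ?_)
    rw [Real.norm_eq_abs, abs_mul]
    calc |u (dot l a)| * |G a| ≤ 1 * 1 :=
          mul_le_mul (h1 _) (hG1 a) (abs_nonneg _) zero_le_one
      _ = 1 := one_mul 1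
  have hfm : Measurable (fh n) := hR.cont.measurable
  -- the normalising constant
  have hZ : ∫ b, fh n b * Ub u l b ∂bs (pp n) = 1 + (∫ a, u (dot l a) ∂muh n 0) / 2 := by
    have e1 : ∫ a, Ub u l a ∂muh n 0 = ∫ b, fh n b * Ub u l b ∂bs (pp n) := by
      rw [hE]
      exact ij_wd hfm hR.nonneg
    rw [← e1]
    unfold Ub
    rw [integral_add (integrable_const _) (iu.div_const 2), integral_div]
    simp
  set Z : ℝ := ∫ b, fh n b * Ub u l b ∂bs (pp n) with hZd
  have hEu : |∫ a, u (dot l a) ∂muh n 0| ≤ 1 := by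
    have e1 := norm_integral_le_of_norm_le_const (μ := muh n 0) (C := 1)
      (f := fun a : Ev n → ℝ => u (dot l a))
      (ae_of_all _ fun a => by rw [Real.norm_eq_abs]; exact h1 _)
    simpa [Real.norm_eq_abs] using e1
  have hZlo : 1 / 2 ≤ Z := by
    rw [hZ]
    have := (abs_le.1 hEu).1
    linarith
  have hZhi : Z ≤ 3 / 2 := by
    rw [hZ]
    have := (abs_le.1 hEu).2
    linarith
  have hZpos : 0 < Z := by linarith
  -- the two expectations
  have hUpos : ∀ a, 0 ≤ Ub u l a := by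
    intro a
    unfold Ub
    have := (abs_le.1 (h1 (dot l a))).1
    linarith
  have e1 : ∫ ω, G (z ω) ∂P = ∫ a, G a ∂muh n 0 := by
    rw [hE, ← h.law]
    exact (integral_map h.meas.aemeasurable hG.aestronglyMeasurable).symm
  have hfT0 : ∀ a, 0 ≤ fT n (Ub u l) a := by
    intro a
    unfold fT
    exact div_nonneg (mul_nonneg (hR.nonneg a) (hUpos a)) (by rw [← hZd]; exact hZpos.le)
  have hfTm : Measurable (fT n (Ub u l)) := by
    unfold fT
    exact ((hR.cont.mul hUb).div_const _).measurable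
  have e2 : ∫ ω, G (z' ω) ∂P = (∫ a, G a ∂muh n 0 + (∫ a, u (dot l a) * G a ∂muh n 0) / 2) / Z := by
    have a1 : ∫ ω, G (z' ω) ∂P = ∫ a, fT n (Ub u l) a * G a ∂bs (pp n) := by
      rw [← ij_wd hfTm hfT0, ← h.law']
      exact (integral_map h.meas'.aemeasurable hG.aestronglyMeasurable).symm
    have a2 : ∫ a, fT n (Ub u l) a * G a ∂bs (pp n) =
        (∫ a, fh n a * (Ub u l a * G a) ∂bs (pp n)) / Z := by
      rw [← integral_div]
      refine integral_congr_ae (ae_of_all _ fun a => ?_)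
      simp only [fT]
      rw [← hZd]
      ring
    have a3 : ∫ a, fh n a * (Ub u l a * G a) ∂bs (pp n) = ∫ a, Ub u l a * G a ∂muh n 0 := by
      rw [hE]
      exact (ij_wd (F := fun a => Ub u l a * G a) hfm hR.nonneg).symm
    have a4 : ∫ a, Ub u l a * G a ∂muh n 0 =
        ∫ a, G a ∂muh n 0 + (∫ a, u (dot l a) * G a ∂muh n 0) / 2 := by
      rw [← integral_div, ← integral_add iG (iuG.div_const 2)]
      refine integral_congr_ae (ae_of_all _ fun a => ?_)
      simp only [Ub]
      ring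
    rw [a1, a2, a3, a4]
  have i1 : Integrable (fun ω => G (z ω)) P :=
    Integrable.of_bound (hG.comp h.meas).aestronglyMeasurable 1
      (ae_of_all _ fun a => by rw [Real.norm_eq_abs]; exact hG1 _)
  have i2 : Integrable (fun ω => G (z' ω)) P :=
    Integrable.of_bound (hG.comp h.meas').aestronglyMeasurable 1
      (ae_of_all _ fun a => by rw [Real.norm_eq_abs]; exact hG1 _)
  have e3 : ∫ a, u (dot l a) * G a ∂muh n 0 - (∫ a, u (dot l a) ∂muh n 0) * ∫ a, G a ∂muh n 0 =
      2 * Z * ∫ ω, (G (z' ω) - G (z ω)) ∂P := by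
    rw [integral_sub i2 i1, e1, e2]
    have hu2 : ∫ a, u (dot l a) ∂muh n 0 = 2 * (Z - 1) := by rw [hZ]; ring
    rw [hu2]
    field_simp
    ring
  rw [e3, abs_mul, abs_of_pos (by linarith : (0 : ℝ) < 2 * Z)]
  have e4 : |∫ ω, (G (z' ω) - G (z ω)) ∂P| ≤ ∫ ω, |G (z' ω) - G (z ω)| ∂P := by
    have := norm_integral_le_integral_norm (μ := P) (fun ω => G (z' ω) - G (z ω))
    simpa [Real.norm_eq_abs] using this
  have e5 : 0 ≤ ∫ ω, |G (z' ω) - G (z ω)| ∂P := integral_nonneg fun ω => abs_nonneg _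
  calc 2 * Z * |∫ ω, (G (z' ω) - G (z ω)) ∂P| ≤ 2 * Z * ∫ ω, |G (z' ω) - G (z ω)| ∂P :=
        mul_le_mul_of_nonneg_left e4 (by linarith)
    _ ≤ 3 * ∫ ω, |G (z' ω) - G (z ω)| ∂P := mul_le_mul_of_nonneg_right (by linarith) e5

end HK
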