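import Mathlib
import Pool.Agent.Lib_helper12.HK.DefsI
import Pool.Agent.Lib_helper12.HK.W.bz
import Pool.Agent.Lib_helper12.HK.W.gc
import Pool.Agent.Lib_helper12.HK.W.gd
import Pool.Agent.Lib_helper12.HK.W.ge
import Pool.Agent.Lib_helper12.HK.W.gg
import Pool.Agent.Lib_helper12.HK.W.hf
import Pool.Agent.Lib_helper12.HK.W.id
import Pool.Agent.Lib_helper12.HK.W.ih
import Pool.Agent.Lib_helper12.HK.W.ij
import Pool.Agent.Lib_helper69.HKL.W.la
import Pool.Agent.Lib_helper69.HKL.W.lb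

set_option autoImplicit false

namespace HK

open MeasureTheory QG

/-- the ball of radius `r'` around a centre is in the inner box -/
theorem ik_balls (n m : ℕ) [NeZero n] {p0 : ℝ} (hH : Hyp n m p0) {z : ℤ × ℤ}
    (hz : z = (0, 0) ∨ z = (((n / (2 * m) : ℕ) : ℤ), ((n / (2 * m) : ℕ) : ℤ))) {r' : ℕ}
    (hr : 4 * r' ≤ n / (8 * m)) : ∀ x, di z x ≤ r' → x ∈ LamI n m R0 := by
  intro x hx
  have hm : 2 ≤ m := hH.two
  have h8 : 8 * (R0 + 10) ≤ n / (8 * m) := by
    rw [Nat.le_div_iff_mul_le (by omega)]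
    have := hH.big
    nlinarith
  have h5 : n / (2 * m) + n / (8 * m) ≤ 5 * n / (8 * m) := by
    rw [Nat.le_div_iff_mul_le (by omega)]
    have h1 : n / (2 * m) * (2 * m) ≤ n := Nat.div_mul_le_self _ _
    have h2 : n / (8 * m) * (8 * m) ≤ n := Nat.div_mul_le_self _ _
    nlinarith
  have hx1 : (z.1 - x.1).natAbs ≤ r' := le_trans (le_max_left _ _) hx
  have hx2 : (z.2 - x.2).natAbs ≤ r' := le_trans (le_max_right _ _) hx
  simp only [LamI, Finset.mem_product, Finset.mem_Icc]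
  rcases hz with rfl | rfl
  · simp only at hx1 hx2
    generalize n / (8 * m) = N0 at *
    generalize 5 * n / (8 * m) = N1 at *
    generalize n / (2 * m) = N2 at *
    generalize R0 = R at *
    omega
  · simp only at hx1 hx2
    generalize n / (8 * m) = N0 at *
    generalize 5 * n / (8 * m) = N1 at *
    generalize n / (2 * m) = N2 at *
    generalize R0 = R at *
    omega

theorem ik_TT_Lam (n m : ℕ) {k : ℤ × ℤ} (hk : k ∈ TT n m) : k ∈ Lam n m := by
  simp only [TT, LamI, Lam, Finset.mem_product, Finset.mem_Icc] at hk ⊢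
  generalize n / (8 * m) = N0 at *
  generalize 5 * n / (8 * m) = N1 at *
  generalize n / (32 * m) = N2 at *
  omega

theorem ik_n1_nonneg {V : Type} (S : Finset V) (l : V → ℝ) : 0 ≤ n1 S l :=
  Finset.sum_nonneg fun _ _ => abs_nonneg _

theorem ik_pv_smul {V : Type} (S : Finset V) (t : ℝ) (l h : V → ℝ) :
    pv S (fun k => t * l k) h = t * pv S l h := by
  simp only [pv, Finset.mul_sum]
  exact Finset.sum_congr rfl fun _ _ => by ring

theorem ik_n1_smul {V : Type} (S : Finset V) (t : ℝ) (l : V → ℝ) :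
    n1 S (fun k => t * l k) = |t| * n1 S l := by
  simp only [n1, Finset.mul_sum]
  exact Finset.sum_congr rfl fun _ _ => by rw [abs_mul]

theorem ik_meas (n m : ℕ) (l : ℤ × ℤ → ℝ) :
    Measurable fun a : Ev n → ℝ => pv (TT n m) l (kf n m a) := by
  simp only [pv, kf]
  exact Finset.measurable_sum _ fun k _ => (measurable_pi_apply _).const_mul _

/-- both trigonometric functions -/
theorem ik_trig {u : ℝ → ℝ} (hu : u = Real.cos ∨ u = Real.sin) :
    (∀ x, |u x| ≤ 1) ∧ (∀ x y, |u x - u y| ≤ |x - y|) ∧ Measurable u ∧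
      ∃ u' : ℝ → ℝ, (∀ x, HasDerivAt u (u' x) x) ∧ Continuous u' ∧ ∀ x, |u' x| ≤ 1 := by
  rcases hu with rfl | rfl
  · refine ⟨Real.abs_cos_le_one, ?_, Real.measurable_cos, fun x => - Real.sin x,
      fun x => Real.hasDerivAt_cos x, Real.continuous_sin.neg, fun x => by
        rw [abs_neg]; exact Real.abs_sin_le_one x⟩
    intro x y
    have h := Real.lipschitzWith_cos.dist_le_mul x y
    simpa [Real.dist_eq] using h
  · refine ⟨Real.abs_sin_le_one, ?_, Real.measurable_sin, Real.cos,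
      fun x => Real.hasDerivAt_sin x, Real.continuous_cos, Real.abs_cos_le_one⟩
    intro x y
    have h := Real.lipschitzWith_sin.dist_le_mul x y
    simpa [Real.dist_eq] using h

/-- Part I: decoupling -/
theorem decouple_h (m : ℕ) (p0 : ℝ) {J T0 ε α : ℝ} (hε : 0 < ε) (hα : 0 < α) : ∃ n0 : ℕ,
    ∀ (n : ℕ) [NeZero n], n0 ≤ n → Hyp n m p0 → ∀ z : ℤ × ℤ,
    (z = (0, 0) ∨ z = (((n / (2 * m) : ℕ) : ℤ), ((n / (2 * m) : ℕ) : ℤ))) →
    ∀ r r' : ℕ, 1 ≤ r → (n : ℝ) ^ α * r ≤ r' → 4 * r' ≤ n / (8 * m) →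
    ∀ lin lout : ℤ × ℤ → ℝ, (∀ k, lin k ≠ 0 → k ∈ TT n m ∧ di z k ≤ r) →
    ∑ k ∈ TT n m, lin k = 0 → n1 (TT n m) lin ≤ 2 →
    (∀ k, lout k ≠ 0 → k ∈ TT n m ∧ r' ≤ di z k) → n1 (TT n m) lout ≤ J →
    (∀ h : ℤ × ℤ → ℝ, pv (TT n m) lout h ^ 2 ≤ J * Real.log n * Ez (TT n m) h) →
    ∀ t : ℝ, |t| ≤ T0 / Real.sqrt (Real.log n) →
    ∀ u F : ℝ → ℝ, (u = Real.cos ∨ u = Real.sin) → (F = Real.cos ∨ F = Real.sin) →
    |∫ a, u (t * pv (TT n m) lout (kf n m a)) * F (t * pv (TT n m) lin (kf n m a)) ∂muh n 0 -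
      (∫ a, u (t * pv (TT n m) lout (kf n m a)) ∂muh n 0) *
        ∫ a, F (t * pv (TT n m) lin (kf n m a)) ∂muh n 0| ≤ ε := by
  obtain ⟨C1, n1', hC1, H1⟩ := bd_mean m p0
  obtain ⟨C2, n2', hC2, H2⟩ := dec_mean m p0 hα
  set K : ℝ := 3 * (T0 * (C2 * (1 + Real.sqrt (C1 * (T0 ^ 2 * J + T0 * J))))) with hK
  refine ⟨max (max n1' n2') (max 3 (Nat.ceil (Real.exp ((K / ε) ^ 2)))), ?_⟩
  intro n _ hn hH z hz r r' hr hrr hr4 lin lout hlin hlin0 hlin1 hlout hlout1 hlE t ht u F hu hF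
  have hn1 : n1' ≤ n := le_trans (le_trans (le_max_left _ _) (le_max_left _ _)) hn
  have hn2 : n2' ≤ n := le_trans (le_trans (le_max_right _ _) (le_max_left _ _)) hn
  have hn3 : 3 ≤ n := le_trans (le_trans (le_max_left _ _) (le_max_right _ _)) hn
  have hn4' : Nat.ceil (Real.exp ((K / ε) ^ 2)) ≤ n :=
    le_trans (le_trans (le_max_right _ _) (le_max_right _ _)) hn
  have hn4 : Real.exp ((K / ε) ^ 2) ≤ n :=
    le_trans (Nat.le_ceil _) (by exact_mod_cast hn4')
  have hn3' : (3 : ℝ) ≤ n := by exact_mod_cast hn3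
  have hlog1 : 1 ≤ Real.log n := by
    have h1 : Real.exp 1 ≤ n := le_trans (by have := Real.exp_one_lt_d9; linarith) hn3'
    calc (1 : ℝ) = Real.log (Real.exp 1) := (Real.log_exp 1).symm
      _ ≤ Real.log n := Real.log_le_log (Real.exp_pos _) h1
  have hlogK : (K / ε) ^ 2 ≤ Real.log n := by
    calc (K / ε) ^ 2 = Real.log (Real.exp ((K / ε) ^ 2)) := (Real.log_exp _).symm
      _ ≤ Real.log n := Real.log_le_log (Real.exp_pos _) hn4
  set s : ℝ := Real.sqrt (Real.log n) with hs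
  have hs1 : 1 ≤ s := by
    rw [hs]
    exact Real.one_le_sqrt.mpr hlog1
  have hs0 : 0 < s := by linarith
  have hss : s * s = Real.log n := Real.mul_self_sqrt (by linarith)
  have hsK : K ≤ ε * s := by
    have h1 : K / ε ≤ s := by
      rw [hs]
      exact Real.le_sqrt_of_sq_le hlogK
    rw [div_le_iff₀ hε] at h1
    linarith
  have hJ : 0 ≤ J := le_trans (ik_n1_nonneg _ _) hlout1
  have hT0 : 0 ≤ T0 := by
    have h1 : 0 ≤ T0 / s := le_trans (abs_nonneg _) ht
    have h2 : T0 = T0 / s * s := by field_simp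
    rw [h2]
    positivity
  have hts : |t| * s ≤ T0 := by
    rw [le_div_iff₀ hs0] at ht
    exact ht
  have ht1 : |t| ≤ T0 := le_trans ht (div_le_self hT0 hs1)
  -- the flow
  obtain ⟨θ, hθ0, hθR, hθe⟩ := dual_nn (TT n m) (R := J * Real.log n)
    (mul_nonneg hJ (by linarith)) hlE
  have hflow : Flow (TT n m) (fun k => t * lout k) (t ^ 2 * (J * Real.log n))
      (fun k i => t * θ k i) := by
    refine ⟨fun k hk i => by rw [hθ0 k hk i, mul_zero], fun h => ?_, ?_⟩
    · rw [ik_pv_smul, hθe h, Finset.mul_sum]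
      refine Finset.sum_congr rfl fun k _ => ?_
      rw [Finset.mul_sum]
      exact Finset.sum_congr rfl fun i _ => by ring
    · have e : ∑ k ∈ TT n m, ∑ i, (t * θ k i) ^ 2 = t ^ 2 * ∑ k ∈ TT n m, ∑ i, θ k i ^ 2 := by
        rw [Finset.mul_sum]
        refine Finset.sum_congr rfl fun k _ => ?_
        rw [Finset.mul_sum]
        exact Finset.sum_congr rfl fun i _ => by ring
      rw [e]
      exact mul_le_mul_of_nonneg_left hθR (sq_nonneg _)
  have hR : t ^ 2 * (J * Real.log n) ≤ T0 ^ 2 * J := by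
    have h1 : t ^ 2 * (J * Real.log n) = (|t| * s) ^ 2 * J := by
      rw [← hss, mul_pow, sq_abs]; ring
    rw [h1]
    exact mul_le_mul_of_nonneg_right (pow_le_pow_left₀ (by positivity) hts 2) hJ
  have hn1l : n1 (TT n m) (fun k => t * lout k) ≤ T0 * J := by
    rw [ik_n1_smul]
    exact mul_le_mul ht1 hlout1 (ik_n1_nonneg _ _) hT0
  obtain ⟨hu1, huL, hum, u', hud, huc, hu'1⟩ := ik_trig hu
  obtain ⟨hF1, hFL, hFm, -⟩ := ik_trig hF
  set L : Ev n → ℝ := kv n m (TT n m) (fun k => t * lout k) with hL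
  have hdot : ∀ a : Ev n → ℝ, dot L a = t * pv (TT n m) lout (kf n m a) := by
    intro a
    rw [hL, pv_kv, ik_pv_smul]
  have hT : Tilt (Ub u L) (Ub' u' L) := tilt_bd hud huc hu1 L
  have hn2' : 2 ≤ n := by omega
  have hreg := reg_fh n hn2'
  have hreg' : Reg (pp n) (fT n (Ub u L)) (DT n (Ub u L) (Ub' u' L)) := (reg_tilt hreg hT).2
  obtain ⟨Ω, _, P, x, x', hcpl⟩ := coupling hreg hreg' (sig_pol n m z r')
  have htwo := two_of n hn2' hT hcpl
  have := htwo.prob
  have hball := ik_balls n m hH hz hr4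
  have hr'n : r' ≤ n := by
    have : n / (8 * m) ≤ n := Nat.div_le_self _ _
    omega
  have hE := H1 n hn1 hH _ _ _ hflow hud huc hu1 hu'1 (sig_nonK n m z r') hcpl
  have hE2 : ∫ ω, Eg n m (x ω) (fun y => x' ω y - x ω y) ∂P ≤ C1 * (T0 ^ 2 * J + T0 * J) :=
    le_trans hE (mul_le_mul_of_nonneg_left (add_le_add hR hn1l) hC1)
  have hD := H2 n hn2 hH z r r' hr hrr hr'n hball hT (by
    intro a a' haa
    have e : dot L a = dot L a' := by
      rw [hdot, hdot]
      congr 1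
      refine Finset.sum_congr rfl fun k hk => ?_
      by_cases h0 : lout k = 0
      · rw [h0]; ring
      · show lout k * a (ke n m k) = lout k * a' (ke n m k)
        rw [haa k (ik_TT_Lam n m hk) (hlout k h0).2]
    simp only [Ub, e]) hcpl lin hlin hlin0 hlin1
  have hD2 : ∫ ω, |pv (TT n m) lin (kf n m (fun y => x' ω y - x ω y))| ∂P ≤
      C2 * (1 + Real.sqrt (C1 * (T0 ^ 2 * J + T0 * J))) := by
    refine le_trans hD (mul_le_mul_of_nonneg_left ?_ hC2)
    have := Real.sqrt_le_sqrt hE2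
    linarith
  set G : (Ev n → ℝ) → ℝ := fun a => F (t * pv (TT n m) lin (kf n m a)) with hG
  have hGm : Measurable G := hFm.comp ((ik_meas n m lin).const_mul t)
  have hC := cov_cpl n hn2' hud huc hu1 L hcpl hGm (fun a => hF1 _)
  simp only [hdot] at hC
  refine le_trans hC ?_
  have hmd : Measurable fun ω => (fun y => x' ω y - x ω y) := by
    refine measurable_pi_lambda _ fun y => ?_
    exact ((measurable_pi_apply y).comp htwo.meas').sub ((measurable_pi_apply y).comp htwo.meas)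
  have hint : Integrable (fun ω => |t| * |pv (TT n m) lin (kf n m (fun y => x' ω y - x ω y))|) P := by
    refine Integrable.const_mul ?_ _
    refine Integrable.of_bound (C := ∑ k ∈ TT n m, |lin k| * (4 * n))
      (((ik_meas n m lin).comp hmd).abs.aestronglyMeasurable) ?_
    refine Filter.Eventually.of_forall fun ω => ?_
    have hz := htwo.zp ω
    rw [Real.norm_eq_abs, abs_abs]
    refine le_trans (Finset.abs_sum_le_sum_abs _ _) (Finset.sum_le_sum fun k _ => ?_)
    rw [abs_mul]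
    refine mul_le_mul_of_nonneg_left ?_ (abs_nonneg _)
    have b1 := fh_bound n hz.2.2.1 hz.1 (ke n m k)
    have b2 := fh_bound n hz.2.2.2 hz.2.1 (ke n m k)
    have b3 : |kf n m (fun y => x' ω y - x ω y) k| ≤ |x' ω (ke n m k)| + |x ω (ke n m k)| := by
      simpa [kf, sub_eq_add_neg] using abs_add_le (x' ω (ke n m k)) (-(x ω (ke n m k)))
    linarith
  have hle : ∫ ω, |G (x' ω) - G (x ω)| ∂P ≤
      ∫ ω, |t| * |pv (TT n m) lin (kf n m (fun y => x' ω y - x ω y))| ∂P := by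
    refine integral_mono_of_nonneg (Filter.Eventually.of_forall fun ω => abs_nonneg _) hint
      (Filter.Eventually.of_forall fun ω => ?_)
    refine le_trans (hFL _ _) (le_of_eq ?_)
    rw [← mul_sub, abs_mul]
    congr 2
    simp only [pv, kf, ← Finset.sum_sub_distrib, mul_sub]
  rw [integral_const_mul] at hle
  have h0 : 0 ≤ C2 * (1 + Real.sqrt (C1 * (T0 ^ 2 * J + T0 * J))) := by positivity
  have hle2 : ∫ ω, |G (x' ω) - G (x ω)| ∂P ≤
      |t| * (C2 * (1 + Real.sqrt (C1 * (T0 ^ 2 * J + T0 * J)))) :=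
    le_trans hle (mul_le_mul_of_nonneg_left hD2 (abs_nonneg _))
  set Q : ℝ := C2 * (1 + Real.sqrt (C1 * (T0 ^ 2 * J + T0 * J))) with hQ
  have hfin : 3 * (|t| * Q) * s ≤ ε * s := by
    calc 3 * (|t| * Q) * s = 3 * ((|t| * s) * Q) := by ring
      _ ≤ 3 * (T0 * Q) := by
        have := mul_le_mul_of_nonneg_right hts h0
        linarith
      _ = K := by rw [hK]
      _ ≤ ε * s := hsK
  have hfin2 : 3 * (|t| * Q) ≤ ε := le_of_mul_le_mul_right hfin hs0
  linarith

end HK
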